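import Pool.Agent.Lib.MP_c00cc5_gt.Jet

set_option autoImplicit false
set_option maxSynthPendingDepth 3
set_option linter.unusedSectionVars false
set_option linter.unusedSimpArgs false

namespace Pool.Agent.Lib.MP_c00cc5_gt

/-! Charts of a submanifold, tangent vectors, geodesic jets and Hessians. -/

open scoped ContDiff RealInnerProductSpace Topology
open Filter Set

section chr

variable {W U : Type} [NormedAddCommGroup W] [NormedSpace ℝ W] [FiniteDimensional ℝ W]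
  [NormedAddCommGroup U] [NormedSpace ℝ U] [FiniteDimensional ℝ U] {G : Met W} {x : W}

theorem Good.chr_symm (h : Good G x) (u v : W) : chr G x u v = chr G x v u :=
  h.wit fun w => by rw [h.chr_eq, gam, gam, h.j1 w u v]; ring

theorem Good.chr_lin (h : Good G x) (a b : ℝ) (u u' v : W) :
    chr G x (a • u + b • u') v = a • chr G x u v + b • chr G x u' v :=
  (h.wit fun w => by
    simp only [map_add, map_smul, add_apply, smul_apply, h.chr_eq, gam, smul_eq_mul]; ring).symm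

theorem Good.chr_smul (h : Good G x) (a : ℝ) (u v : W) :
    chr G x (a • u) v = a • chr G x u v := by
  simpa using h.chr_lin a 0 u u v

theorem Good.chr_lin' (h : Good G x) (a b : ℝ) (u v v' : W) :
    chr G x u (a • v + b • v') = a • chr G x u v + b • chr G x u v' := by
  rw [h.chr_symm, h.chr_lin, h.chr_symm v, h.chr_symm v']

theorem Good.chr_smul' (h : Good G x) (a : ℝ) (u v : W) :
    chr G x u (a • v) = a • chr G x u v := by
  rw [h.chr_symm, h.chr_smul, h.chr_symm]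

theorem Good.chr_cda (h : Good G x) (hs : Sm G x) {X : Type} [NormedAddCommGroup X]
    [NormedSpace ℝ X] {z a b : X → W} {p : X} (hz : ContDiffAt ℝ ∞ z p) (e : z p = x)
    (ha : ContDiffAt ℝ ∞ a p) (hb : ContDiffAt ℝ ∞ b p) :
    ContDiffAt ℝ ∞ (fun q => chr G (z q) (a q) (b q)) p := by
  have : CompleteSpace W := FiniteDimensional.complete ℝ W
  subst e
  have h1 : ContDiffAt ℝ ∞ (fun q => fderiv ℝ G (z q)) p := hs.fd.cda.comp p hz
  have h3 : ContDiffAt ℝ ∞ (fun q => (G (z q)).inverse) p :=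
    ContDiffAt.comp (g := ContinuousLinearMap.inverse) (f := fun q => G (z q)) p
      (inv_of_pos h.pos).contDiffAt_map_inverse (hs.cda.comp p hz)
  have h2 : ContDiffAt ℝ ∞ (fun q => fderiv ℝ (fun y => G y (a q) (b q)) (z q)) p := by
    refine cda_clm fun w => ?_
    refine (((h1.clm_apply (contDiffAt_const (c := w))).clm_apply ha).clm_apply
      hb).congr_of_eventuallyEq ?_
    filter_upwards [hz.continuousAt.eventually (c2_ev h.smooth)] with q hq using fd_app2 hq _ _ _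
  unfold chr
  exact h3.clm_apply (((((h1.clm_apply ha).clm_apply hb).add
    ((h1.clm_apply hb).clm_apply ha)).sub h2).const_smul (1 / 2 : ℝ))

theorem gam_pull {φ : U → W} {y : U} (hG : Good G (φ y)) (hφ : ContDiffAt ℝ 3 φ y) (u v w : U) :
    gam (pull G φ) y u v w = G (φ y) (fderiv ℝ (fderiv ℝ φ) y u v) (fderiv ℝ φ y w) +
      gam G (φ y) (fderiv ℝ φ y u) (fderiv ℝ φ y v) (fderiv ℝ φ y w) := by
  have s2 := c2_symm (hφ.of_le (by norm_num) : ContDiffAt ℝ 2 φ y)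
  simp only [gam, pull_j1 hG.smooth hφ]
  rw [s2 v u, s2 w u, s2 w v, hG.symm0 (fderiv ℝ φ y v), hG.symm0 (fderiv ℝ φ y u)]
  ring

/-- the Hessian of `f` -/
noncomputable def hess (G : Met W) (f : W → ℝ) (y u v : W) : ℝ :=
  fderiv ℝ (fderiv ℝ f) y u v - fderiv ℝ f y (chr G y u v)

theorem Good.hess_symm (h : Good G x) {f : W → ℝ} (hf : ContDiffAt ℝ 2 f x) (u v : W) :
    hess G f x u v = hess G f x v u := by
  rw [hess, hess, c2_symm hf, h.chr_symm]

theorem Good.hess_lin (h : Good G x) (f : W → ℝ) (a b : ℝ) (u u' v : W) :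
    hess G f x (a • u + b • u') v = a * hess G f x u v + b * hess G f x u' v := by
  simp only [hess, h.chr_lin, map_add, map_smul, add_apply, smul_apply, smul_eq_mul]; ring

theorem Good.hess_lin' (h : Good G x) (f : W → ℝ) (a b : ℝ) (u v v' : W) :
    hess G f x u (a • v + b • v') = a * hess G f x u v + b * hess G f x u v' := by
  simp only [hess, h.chr_lin', map_add, map_smul, add_apply, smul_apply, smul_eq_mul]; ring

theorem hess_congr {G G' : Met W} {f f' : W → ℝ} (h : G =ᶠ[𝓝 x] G') (h' : f =ᶠ[𝓝 x] f')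
    (u v : W) : hess G f x u v = hess G' f' x u v := by
  rw [hess, hess, chr_congr h, h'.fderiv_eq, h'.fderiv.fderiv_eq]

theorem J2.hess {f : W → ℝ} (hf : ContDiffAt ℝ 2 f x) {c : ℝ → W} {u β : W} (h : J2 c x u β) :
    J2 (fun s => f (c s)) (f x) (fderiv ℝ f x u)
      (hess G f x u u + fderiv ℝ f x (β + chr G x u u)) :=
  (h.comp hf).cast rfl rfl (by simp only [MP_c00cc5_gt.hess, map_add]; ring)

end chr

variable {V W : Type} [NormedAddCommGroup V] [InnerProductSpace ℝ V] [FiniteDimensional ℝ V]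
  [NormedAddCommGroup W] [NormedSpace ℝ W] [FiniteDimensional ℝ W]
  {M : Set V} {G : Met V} {φ ψ : W → V} {r : V → W} {y : W}

theorem Par.sm (h : Par M φ y) : Sm φ y := h.smooth

theorem Par.m (h : Par M φ y) : φ y ∈ M := h.mem.self_of_nhds

theorem Par.ev (h : Par M φ y) : ∀ᶠ z in 𝓝 y, Par M φ z := by
  filter_upwards [h.smooth.eventually_nhds, h.mem.eventually_nhds,
    h.sm.fd.ca.preimage_mem_nhds (ContinuousLinearMap.isOpen_injective.mem_nhds h.inj)]
    with z h1 h2 h3 using ⟨h1, h2, h3⟩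

theorem Par.comp {τ : W → W} (h : Par M φ (τ y)) (hτ : Sm τ y)
    (hi : Function.Injective (fderiv ℝ τ y)) : Par M (fun z => φ (τ z)) y where
  smooth := h.sm.comp hτ
  mem := hτ.ca.eventually h.mem
  inj := by
    rw [fderiv_fun_comp y h.sm.d hτ.d]
    exact h.inj.comp hi

theorem Par.congr (h : Par M φ y) (e : φ =ᶠ[𝓝 y] ψ) : Par M ψ y where
  smooth := h.sm.congr e
  mem := by filter_upwards [h.mem, e] with z h1 h2 using h2 ▸ h1
  inj := e.fderiv_eq (𝕜 := ℝ) ▸ h.inj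

/-- a parametrisation with a smooth local retraction -/
structure Ch (M : Set V) (φ : W → V) (r : V → W) (y : W) : Prop where
  par : Par M φ y
  sm : Sm r (φ y)
  left : ∀ᶠ z in 𝓝 y, r (φ z) = z
  right : ∀ᶠ x in 𝓝 (φ y), x ∈ M → φ (r x) = x

theorem Ch.ry (h : Ch M φ r y) : r (φ y) = y := h.left.self_of_nhds

theorem Ch.t (h : Ch M φ r y) : Tendsto r (𝓝 (φ y)) (𝓝 y) := by
  have := h.sm.ca
  rwa [ContinuousAt, h.ry] at this

theorem Ch.ev (h : Ch M φ r y) : ∀ᶠ z in 𝓝 y, Ch M φ r z := by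
  filter_upwards [h.par.ev, h.par.sm.ca.eventually h.sm.ev, h.left.eventually_nhds,
    h.par.sm.ca.eventually h.right.eventually_nhds] with z h1 h2 h3 h4 using ⟨h1, h2, h3, h4⟩

theorem Ch.ev' (h : Ch M φ r y) {P : W → Prop} (hP : ∀ᶠ z in 𝓝 y, P z) :
    ∀ᶠ x in 𝓝 (φ y), x ∈ M → φ (r x) = x ∧ P (r x) := by
  filter_upwards [h.right, h.t.eventually hP] with x h1 h2 hx using ⟨h1 hx, h2⟩

theorem Ch.dl (h : Ch M φ r y) (u : W) : fderiv ℝ r (φ y) (fderiv ℝ φ y u) = u := by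
  have e : (fun z => r (φ z)) =ᶠ[𝓝 y] id := h.left
  rw [← fd_comp h.sm.d h.par.sm.d, e.fderiv_eq]
  simp

theorem Submfd.ch (hM : Submfd W M) {x : V} (hx : x ∈ M) :
    ∃ (φ : W → V) (r : V → W) (y : W), Ch M φ r y ∧ φ y = x := by
  obtain ⟨φ, y, hp, rfl, hn⟩ := hM x hx
  obtain ⟨L, hL⟩ := (fderiv ℝ φ y : W →ₗ[ℝ] V).exists_leftInverse_of_injective
    (LinearMap.ker_eq_bot.2 hp.inj)
  let L' : V →L[ℝ] W := LinearMap.toContinuousLinearMap L
  have hs : Sm (fun z => L' (φ z)) y := (Sm.of L'.contDiff _).comp hp.sm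
  have hd : ∀ u, fderiv ℝ (fun z => L' (φ z)) y u = u := fun u => by
    rw [fd_comp L'.differentiableAt hp.sm.d, L'.fderiv]
    exact LinearMap.congr_fun hL u
  obtain ⟨k, k1, k2, -⟩ := hs.inverse ⟨fun a b h => by rwa [hd, hd] at h, fun u => ⟨u, hd u⟩⟩
  refine ⟨φ, fun x => k (L' x), y, ⟨hp, k1.comp (Sm.of L'.contDiff _), k2, ?_⟩, rfl⟩
  have := hn _ k2
  rw [mem_nhdsWithin_iff_eventually] at this
  filter_upwards [this] with x h1 hx
  obtain ⟨z, hz, rfl⟩ := h1 hx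
  exact congrArg φ hz

theorem Ch.trans (h : Ch M φ r y) {z : W} (hψ : Par M ψ z) (e : ψ z = φ y) :
    Sm (fun w => r (ψ w)) z ∧ r (ψ z) = y ∧ ((fun w => φ (r (ψ w))) =ᶠ[𝓝 z] ψ) ∧
      Function.Bijective (fderiv ℝ (fun w => r (ψ w)) z) := by
  have h1 : Sm (fun w => r (ψ w)) z := (e ▸ h.sm).comp hψ.sm
  have h2 : r (ψ z) = y := by rw [e, h.ry]
  have h3 : (fun w => φ (r (ψ w))) =ᶠ[𝓝 z] ψ := by
    filter_upwards [hψ.sm.ca.eventually (e ▸ h.right), hψ.mem] with w a1 a2 using a1 a2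
  refine ⟨h1, h2, h3, bij_of_inj (fun a b hab => hψ.inj ?_) rfl⟩
  rw [← h3.fderiv_eq, fd_comp (f := fun w => r (ψ w)) (h2 ▸ h.par.sm.d) h1.d,
    fd_comp (f := fun w => r (ψ w)) (h2 ▸ h.par.sm.d) h1.d, hab]

theorem Par.ch (hM : Submfd W M) (h : Par M φ y) : ∃ r, Ch M φ r y := by
  obtain ⟨ψ, ρ, z, hc, e⟩ := hM.ch h.m
  obtain ⟨h1, h2, h3, h4⟩ := hc.trans h e.symm
  obtain ⟨k, k1, k2, k3⟩ := h1.inverse h4
  have hρ : Sm ρ (φ y) := e ▸ hc.sm
  have kt : Tendsto (fun x => k (ρ x)) (𝓝 (φ y)) (𝓝 y) := by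
    have := (k1.comp hρ).ca
    rwa [ContinuousAt, k2.self_of_nhds] at this
  refine ⟨fun x => k (ρ x), h, k1.comp hρ, k2, ?_⟩
  filter_upwards [kt.eventually h3, hρ.ca.eventually k3, e ▸ hc.right] with x a1 a2 a3 hx
  rw [← a1, a2, a3 hx]

/-- tangent vectors -/
def Tan (M : Set V) (x v : V) : Prop := ∃ c b, J2 c x v b ∧ ∀ᶠ s in 𝓝 0, c s ∈ M

/-- two-jets of geodesics -/
def GJ (M : Set V) (G : Met V) (x v b : V) : Prop :=
  (∃ c, J2 c x v b ∧ ∀ᶠ s in 𝓝 0, c s ∈ M) ∧ ∀ w, Tan M x w → G x b w + gam G x v v w = 0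

theorem Par.jet (h : Par M φ y) {c : ℝ → W} {u β : W} (hc : J2 c y u β) :
    J2 (fun s => φ (c s)) (φ y) (fderiv ℝ φ y u)
      (fderiv ℝ (fderiv ℝ φ) y u u + fderiv ℝ φ y β) ∧ ∀ᶠ s in 𝓝 0, φ (c s) ∈ M :=
  ⟨hc.comp h.sm.c2, hc.t.eventually h.mem⟩

theorem Ch.jet (h : Ch M φ r y) {c : ℝ → V} {v b : V} (hc : J2 c (φ y) v b)
    (hm : ∀ᶠ s in 𝓝 0, c s ∈ M) : ∃ u β, J2 (fun s => r (c s)) y u β ∧ v = fderiv ℝ φ y u ∧
      b = fderiv ℝ (fderiv ℝ φ) y u u + fderiv ℝ φ y β ∧ ∀ᶠ s in 𝓝 0, φ (r (c s)) = c s := by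
  have h1 := hc.comp h.sm.c2
  rw [h.ry] at h1
  have e : ∀ᶠ s in 𝓝 0, φ (r (c s)) = c s := by
    filter_upwards [hc.t.eventually h.right, hm] with s a1 a2 using a1 a2
  have := hc.unique ((h.par.jet h1).1.congr e)
  exact ⟨_, _, h1, this.1, this.2, e⟩

theorem Par.tan (h : Par M φ y) (u : W) : Tan M (φ y) (fderiv ℝ φ y u) :=
  ⟨_, _, h.jet (J2.line y u)⟩

theorem Ch.tan (h : Ch M φ r y) {v : V} (hv : Tan M (φ y) v) : ∃ u, v = fderiv ℝ φ y u := by
  obtain ⟨c, b, h1, h2⟩ := hv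
  obtain ⟨u, -, -, h3, -⟩ := h.jet h1 h2
  exact ⟨u, h3⟩

theorem GJ.tan {x v b : V} (h : GJ M G x v b) : Tan M x v :=
  let ⟨⟨c, h1⟩, _⟩ := h; ⟨c, b, h1⟩

theorem Ch.vel (h : Ch M φ r y) {c : ℝ → V} {v : V} {t : ℝ} (hc : HasDerivAt c v t)
    (e : c t = φ y) (hm : ∀ᶠ s in 𝓝 t, c s ∈ M) :
    v = fderiv ℝ φ y (fderiv ℝ r (φ y) v) := by
  have ht : Tendsto c (𝓝 t) (𝓝 (φ y)) := e ▸ hc.continuousAt
  have d1 : HasDerivAt (fun s => r (c s)) (fderiv ℝ r (φ y) v) t :=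
    h.sm.d.hasFDerivAt.comp_hasDerivAt_of_eq t hc e.symm
  have d2 := h.par.sm.d.hasFDerivAt.comp_hasDerivAt_of_eq t d1 (by rw [e, h.ry])
  refine hc.unique (d2.congr_of_eventuallyEq ?_)
  filter_upwards [ht.eventually h.right, hm] with s a1 a2 using (a1 a2).symm

/-- a closed connected submanifold with a metric of curvature at least one -/
structure Geo (W : Type) [NormedAddCommGroup W] [NormedSpace ℝ W] (M : Set V) (G : Met V) :
    Prop where
  cpt : IsCompact M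
  conn : IsPreconnected M
  sub : Submfd W M
  smooth : ContDiff ℝ ∞ G
  symm : ∀ x u v, G x u v = G x v u
  pos : ∀ x v, v ≠ 0 → 0 < G x v v
  curv : ∀ (φ : W → V) (y : W), Par M φ y → ∀ u v, area (pull G φ) y u v ≤ sec (pull G φ) y u v

theorem Geo.good (h : Geo W M G) (x : V) : Good G x :=
  ⟨cda2_of h.smooth.contDiffAt, Eventually.of_forall h.symm, h.pos x⟩

theorem Geo.nn (h : Geo W M G) (x v : V) : 0 ≤ G x v v := by
  by_cases hv : v = 0
  · simp [hv]
  · exact (h.pos x v hv).le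

theorem Geo.pg (h : Geo W M G) (hp : Par M φ y) : Good (pull G φ) y :=
  (h.good _).pull hp.sm.c3 hp.inj

theorem Geo.ps (h : Geo W M G) (hp : Par M φ y) : Sm (pull G φ) y :=
  hp.smooth.mono fun _ hz => pull_cda h.smooth.contDiffAt hz (by simp)

theorem Geo.acc (h : Geo W M G) (hp : Par M φ y) (u β w : W) :
    G (φ y) (fderiv ℝ (fderiv ℝ φ) y u u + fderiv ℝ φ y β) (fderiv ℝ φ y w) +
      gam G (φ y) (fderiv ℝ φ y u) (fderiv ℝ φ y u) (fderiv ℝ φ y w) =
    pull G φ y (β + chr (pull G φ) y u u) w := by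
  rw [map_add (pull G φ y), add_apply, (h.pg hp).chr_eq, gam_pull (h.good _) hp.sm.c3, pull_apply,
    map_add, add_apply]
  ring

theorem Geo.gj (h : Geo W M G) (hp : Par M φ y) (u : W) :
    GJ M G (φ y) (fderiv ℝ φ y u)
      (fderiv ℝ (fderiv ℝ φ) y u u + fderiv ℝ φ y (-chr (pull G φ) y u u)) := by
  obtain ⟨r, hc⟩ := hp.ch h.sub
  refine ⟨⟨_, hp.jet (J2.poly y u _)⟩, fun w hw => ?_⟩
  obtain ⟨w, rfl⟩ := hc.tan hw
  rw [h.acc hp]
  simp

theorem Geo.gj' (h : Geo W M G) (hp : Par M φ y) {v b : V} (hj : GJ M G (φ y) v b) :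
    ∃ u, v = fderiv ℝ φ y u ∧
      b = fderiv ℝ (fderiv ℝ φ) y u u + fderiv ℝ φ y (-chr (pull G φ) y u u) := by
  obtain ⟨r, hc⟩ := hp.ch h.sub
  obtain ⟨⟨c, h1, h2⟩, h3⟩ := hj
  obtain ⟨u, β, -, rfl, rfl, -⟩ := hc.jet h1 h2
  refine ⟨u, rfl, ?_⟩
  have := h3 _ (hp.tan (β + chr (pull G φ) y u u))
  rw [h.acc hp] at this
  by_cases h0 : β + chr (pull G φ) y u u = 0
  · rw [eq_neg_of_add_eq_zero_left h0]
  · exact absurd this ((h.pg hp).pos _ h0).ne'

/-- the second derivative of `F` along a curve with two-jet `x, v, b` -/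
noncomputable def HH (F : V → ℝ) (x v b : V) : ℝ :=
  fderiv ℝ (fderiv ℝ F) x v v + fderiv ℝ F x b

theorem HH_of {F : V → ℝ} {x v b : V} (hF : ContDiffAt ℝ 2 F x) {c : ℝ → V} (hc : J2 c x v b)
    {a0 a1 a2 : ℝ} (h : J2 (fun s => F (c s)) a0 a1 a2) : fderiv ℝ F x v = a1 ∧ HH F x v b = a2 :=
  (hc.comp hF).unique h

theorem J2.hh {F : V → ℝ} {x v b : V} {c : ℝ → V} (hc : J2 c x v b) (hF : ContDiffAt ℝ 2 F x) :
    J2 (fun s => F (c s)) (F x) (fderiv ℝ F x v) (HH F x v b) := hc.comp hF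

theorem Par.hh (hp : Par M φ y) (K : Met W) {F : V → ℝ} (hF : ContDiffAt ℝ 2 F (φ y)) (u : W) :
    HH F (φ y) (fderiv ℝ φ y u) (fderiv ℝ (fderiv ℝ φ) y u u + fderiv ℝ φ y (-chr K y u u)) =
      hess K (fun z => F (φ z)) y u u := by
  have h1 := J2.poly y u (-chr K y u u)
  have := (HH_of hF (hp.jet h1).1 (h1.hess (G := K) (f := fun z => F (φ z))
    (hF.comp y hp.sm.c2))).2
  simpa using this

/-- the Euclidean metric -/
noncomputable def eu (V : Type) [NormedAddCommGroup V] [InnerProductSpace ℝ V] :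
    V →L[ℝ] V →L[ℝ] ℝ := innerSL ℝ

@[simp] theorem eu_apply (a b : V) : eu V a b = ⟪a, b⟫ := rfl

/-- extension of an intrinsic metric to the ambient space -/
theorem Riem.ext (hG : Riem W M G) (hM : Submfd W M) (hc : IsCompact M) (hn : IsPreconnected M) :
    ∃ G', Geo W M G' ∧ ∀ x ∈ M, ∀ u v, Tan M x u → Tan M x v → G' x u v = G x u v := by
  obtain ⟨G', h1, h2⟩ := glue_conv (X := V)
    (t := fun x => {B : V →L[ℝ] V →L[ℝ] ℝ | (∀ u v, B u v = B v u) ∧ (∀ v, v ≠ 0 → 0 < B v v) ∧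
      (x ∈ M → ∀ u v, Tan M x u → Tan M x v → B u v = G x u v)})
    (fun x B hB B' hB' a b ha hb hab => by
      refine ⟨fun u v => by simp [hB.1 u v, hB'.1 u v], fun v hv => ?_, fun hx u v hu hv => ?_⟩
      · have := hB.2.1 v hv
        have := hB'.2.1 v hv
        simp only [add_apply, smul_apply, smul_eq_mul]
        rcases ha.eq_or_lt with rfl | ha
        · simp at hab; simp [hab, *]
        · positivity
      · simp only [add_apply, smul_apply, smul_eq_mul, hB.2.2 hx u v hu hv, hB'.2.2 hx u v hu hv]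
        rw [← add_mul, hab, one_mul])
    (fun x => by
      by_cases hx : x ∈ M
      swap
      · refine ⟨fun _ => eu V, ?_⟩
        filter_upwards [hc.isClosed.isOpen_compl.mem_nhds hx] with z hz
        exact ⟨contDiffAt_const, fun u v => real_inner_comm v u,
          fun v hv => real_inner_self_pos.2 hv, fun h => absurd h hz⟩
      obtain ⟨φ, r, y, hφ, rfl⟩ := hM.ch hx
      refine ⟨fun z => pull (pull G φ) r z + pull (fun _ => eu V) (fun w => w - φ (r w)) z, ?_⟩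
      filter_upwards [hφ.t.eventually hφ.ev, hφ.sm.ev, hφ.right] with z a1 a2 a3
      have s1 : Sm (fun w => φ (r w)) z := a1.par.sm.comp a2
      have e1 : ∀ v, fderiv ℝ (fun w => w - φ (r w)) z v =
          v - fderiv ℝ φ (r z) (fderiv ℝ r z v) := fun v => by
        rw [fderiv_fun_sub differentiableAt_fun_id s1.d, sub_apply, fd_comp a1.par.sm.d a2.d]
        simp
      refine ⟨(pull_cda (hG.smooth _ _ a1.par) a2.cda (by simp)).add
        (pull_cda contDiffAt_const (contDiffAt_id.sub s1.cda) (m := ∞) (by simp)),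
        fun u v => ?_, fun v hv => ?_, fun hz u v hu hv => ?_⟩
      · simp only [add_apply, pull_apply (pull G φ), pull_apply (fun _ => eu V), eu_apply]
        rw [hG.symm _ _ a1.par, real_inner_comm]
      · simp only [add_apply, pull_apply (pull G φ), pull_apply (fun _ => eu V), e1, eu_apply]
        by_cases h0 : fderiv ℝ r z v = 0
        · simpa [h0] using real_inner_self_pos.2 hv
        · exact add_pos_of_pos_of_nonneg (hG.pos _ _ a1.par _ h0) real_inner_self_nonneg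
      · have a4 := a3 hz
        rw [← a4] at hu hv
        obtain ⟨u, rfl⟩ := a1.tan hu
        obtain ⟨v, rfl⟩ := a1.tan hv
        have := a1.dl
        rw [a4] at this
        simp only [add_apply, pull_apply, e1, this, a4]
        simp)
  have key : ∀ (φ : W → V) (y : W), Par M φ y → pull G' φ =ᶠ[𝓝 y] pull G φ := fun φ y hp =>
    hp.ev.mono fun z hz => by
      ext u v
      exact (h2 _).2.2 hz.m _ _ (hz.tan u) (hz.tan v)
  refine ⟨G', ⟨hc, hn, hM, h1, fun x => (h2 x).1, fun x => (h2 x).2.1, fun φ y hp u v => ?_⟩,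
    fun x hx => (h2 x).2.2 hx⟩
  rw [sec_congr (key φ y hp), area, (key φ y hp).self_of_nhds]
  exact hG.curv φ y hp u v

end Pool.Agent.Lib.MP_c00cc5_gt
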