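import Pool.Agent.Lib.MP_c00cc5_gt.Geod

set_option autoImplicit false
set_option maxSynthPendingDepth 3
set_option linter.unusedSectionVars false
set_option linter.unusedSimpArgs false

namespace Pool.Agent.Lib.MP_c00cc5_gt

/-! Second variation and comparison for the distance function. -/

open scoped ContDiff RealInnerProductSpace Topology
open Filter Set Real

theorem utaylor {Q : Type} [NormedAddCommGroup Q] [NormedSpace ℝ Q] {F : ℝ × Q → ℝ} {T : Set Q}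
    (hT : IsCompact T) (hF : ∀ q ∈ T, ContDiffAt ℝ 2 F (0, q)) {e0 e1 e2 : Q → ℝ}
    (hj : ∀ q ∈ T, J2 (fun s => F (s, q)) (e0 q) (e1 q) (e2 q)) {ε : ℝ} (hε : 0 < ε) :
    ∀ᶠ s in 𝓝 (0 : ℝ), ∀ q ∈ T, F (s, q) ≤ e0 q + s * e1 q + s ^ 2 / 2 * (e2 q + ε) := by
  have tube := hT.eventually_forall_of_forall_eventually (x₀ := (0 : ℝ))
    (P := fun s q => ContDiffAt ℝ 2 F (s, q) ∧ |fderiv ℝ (fderiv ℝ F) (s, q) (1, 0) (1, 0) -
      fderiv ℝ (fderiv ℝ F) (0, q) (1, 0) (1, 0)| ≤ ε / 2) fun q hq => by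
      have c1 : ContinuousAt (fun z => fderiv ℝ (fderiv ℝ F) z (1, 0) (1, 0)) (0, q) :=
        (((((hF q hq).fderiv_right (m := 1) (by norm_num)).fderiv_right (m := 0)
          (by norm_num)).continuousAt).clm_apply continuousAt_const).clm_apply continuousAt_const
      have c2 : ContinuousAt (fun z : ℝ × Q => fderiv ℝ (fderiv ℝ F) (0, z.2) (1, 0) (1, 0))
          (0, q) := c1.comp_of_eq (f := fun z : ℝ × Q => (0, z.2)) (by fun_prop) rfl
      exact ((hF q hq).eventually (by simp)).and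
        ((c1.sub c2).abs.eventually (ge_mem_nhds (by simpa using hε)))
  obtain ⟨δ, δ0, hδ⟩ := Metric.eventually_nhds_iff_ball.1 tube
  filter_upwards [Metric.ball_mem_nhds (0 : ℝ) δ0] with s hs q hq
  have l : ∀ t : ℝ, HasDerivAt (fun t : ℝ => (t, q)) (1, 0) t := fun t =>
    (hasDerivAt_id t).prodMk (hasDerivAt_const t q)
  have j : J2 (fun t : ℝ => (t, q)) (0, q) (1, 0) 0 :=
    ⟨rfl, fun _ => (1, 0), Eventually.of_forall l, rfl, hasDerivAt_const _ _⟩
  obtain ⟨u1, u2⟩ := (hj q hq).unique (j.comp (hF q hq))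
  rw [map_zero, add_zero] at u2
  have hsub : Metric.closedBall (0 : ℝ) ‖s‖ ⊆ Metric.ball 0 δ :=
    Metric.closedBall_subset_ball (by simpa using hs)
  have k1 : ∀ t ∈ Metric.closedBall (0 : ℝ) ‖s‖,
      ‖fderiv ℝ F (t, q) (1, 0) - e1 q - t * e2 q‖ ≤ ε / 2 * ‖s‖ := fun t ht => by
    have := (convex_closedBall (0 : ℝ) ‖s‖).norm_image_sub_le_of_norm_hasDerivWithin_le
      (f := fun t : ℝ => fderiv ℝ F (t, q) (1, 0) - t * e2 q)
      (f' := fun t => fderiv ℝ (fderiv ℝ F) (t, q) (1, 0) (1, 0) - e2 q) (C := ε / 2) (x := 0)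
      (y := t) (fun t ht => by
        have d := (((c2_d (hδ t (hsub ht) q hq).1).hasFDerivAt.comp_hasDerivAt t (l t)).clm_apply
          (hasDerivAt_const t ((1 : ℝ), (0 : Q)))).sub ((hasDerivAt_id t).mul_const (e2 q))
        exact (d.congr_deriv (by simp)).hasDerivWithinAt)
      (fun t ht => u2 ▸ (hδ t (hsub ht) q hq).2) (by simp) ht
    rw [zero_mul, sub_zero, ← u1, sub_right_comm, sub_zero] at this
    exact this.trans (mul_le_mul_of_nonneg_left (by simpa using ht) (half_pos hε).le)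
  have := (convex_closedBall (0 : ℝ) ‖s‖).norm_image_sub_le_of_norm_hasDerivWithin_le
    (f := fun t : ℝ => F (t, q) - t * e1 q - t ^ 2 / 2 * e2 q)
    (f' := fun t => fderiv ℝ F (t, q) (1, 0) - e1 q - t * e2 q) (C := ε / 2 * ‖s‖) (x := 0)
    (y := s) (fun t ht => by
      have d := (((c2_d0 (hδ t (hsub ht) q hq).1).hasFDerivAt.comp_hasDerivAt t (l t)).sub
        ((hasDerivAt_id t).mul_const (e1 q))).sub
        (((hasDerivAt_pow 2 t).div_const 2).mul_const (e2 q))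
      exact (d.congr_deriv (by simp)).hasDerivWithinAt) k1 (by simp) (by simp)
  have h0 : F (0, q) = e0 q := (hj q hq).1
  rw [h0, sub_zero, mul_assoc, ← sq, Real.norm_eq_abs s, sq_abs] at this
  linarith [(abs_le.1 this).2]

section chart

variable {W : Type} [NormedAddCommGroup W] [NormedSpace ℝ W] [FiniteDimensional ℝ W]
  {K : Met W} {y : W} {γ v : ℝ → W}

theorem Good.nn (hK : Good K y) (u : W) : 0 ≤ K y u u := by
  by_cases hu : u = 0
  · simp [hu]
  · exact (hK.pos u hu).le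

theorem en_jet (hK : Good K y) (Y Z u Y' Z' : W) :
    J2 (fun s : ℝ => K (y + s • Y + (s ^ 2 / 2) • Z) (u + s • Y' + (s ^ 2 / 2) • Z')
      (u + s • Y' + (s ^ 2 / 2) • Z')) (K y u u) (2 * K y (Y' + chr K y u Y) u)
      (fderiv ℝ (fderiv ℝ K) y Y Y u u + fderiv ℝ K y Z u u + 4 * fderiv ℝ K y Y Y' u +
        2 * K y Z' u + 2 * K y Y' Y') := by
  refine ((((J2.poly y Y Z).comp hK.smooth).app (J2.poly u Y' Z')).app (J2.poly u Y' Z')).cast
    rfl ?_ ?_
  · simp only [map_add, add_apply, hK.chr_eq, gam, hK.symm0 u Y', hK.j1 u u Y]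
    ring
  · simp only [map_add, add_apply, smul_apply, smul_eq_mul, hK.symm0 u Z', hK.j1 Y u Y']
    ring

theorem sv_deriv {t : ℝ} (hK : Good K (γ t)) (hγ : HasDerivAt γ (v t) t)
    (hv : HasDerivAt v (-chr K (γ t) (v t) (v t)) t) {Y Z : ℝ → W} {Y' Z' : W}
    (hY : HasDerivAt Y Y' t) (hZ : HasDerivAt Z Z' t) :
    HasDerivAt (fun s => K (γ s) (Z s) (v s) + gam K (γ s) (Y s) (Y s) (v s))
      ((fderiv ℝ (fderiv ℝ K) (γ t) (Y t) (Y t) (v t) (v t) + fderiv ℝ K (γ t) (Z t) (v t) (v t) +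
        4 * fderiv ℝ K (γ t) (Y t) Y' (v t) + 2 * K (γ t) Z' (v t) + 2 * K (γ t) Y' Y') / 2 -
        K (γ t) (Y' + chr K (γ t) (v t) (Y t)) (Y' + chr K (γ t) (v t) (Y t)) +
        sec K (γ t) (Y t) (v t)) t := by
  have d1 := (c2_d hK.smooth).hasFDerivAt.comp_hasDerivAt t hγ
  have d2 := ((d1.clm_apply hY).clm_apply hY).clm_apply hv
  have d3 := ((d1.clm_apply hv).clm_apply hY).clm_apply hY
  refine ((met_d hK hγ hZ hv).add (((d2.add d2).sub d3).div_const 2)).congr_deriv ?_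
  have e := hK.chr_eq (Y t) (Y t) (chr K (γ t) (v t) (v t))
  rw [hK.sec_chr, hK.chr_symm (Y t) (v t), e]
  simp only [Function.comp, map_add, add_apply, neg_add_cancel, map_zero, add_zero, map_neg,
    neg_apply, hK.symm0 Y' (chr K (γ t) (v t) (Y t))]
  simp only [hK.chr_eq (v t) (Y t) Y', hK.chr_eq (v t) (Z t), gam, r2, hK.j2' (v t) (Y t),
    hK.j1 (v t) (Y t) Y', hK.j1 (Y t) (v t) Y', hK.j1 Y' (v t) (Y t), hK.j1 (v t) (v t) (Z t)]
  ring

theorem second_var (hg : Gd K γ v)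
    (hc : ∀ τ ∈ Icc (0 : ℝ) 1, ∀ a b, area K (γ τ) a b ≤ sec K (γ τ) a b) {a n α : ℝ} (a0 : 0 < a)
    (ha : ∀ τ ∈ Icc (0 : ℝ) 1, K (γ τ) (v τ) (v τ) = a ^ 2) {w : ℝ → W} (cw : ContDiff ℝ 1 w)
    (dw : ∀ τ ∈ Icc (0 : ℝ) 1, HasDerivAt w (-chr K (γ τ) (v τ) (w τ)) τ)
    (wp : ∀ τ ∈ Icc (0 : ℝ) 1, K (γ τ) (w τ) (v τ) = 0)
    (wn : ∀ τ ∈ Icc (0 : ℝ) 1, K (γ τ) (w τ) (w τ) = n) {k k' : ℝ → ℝ}
    (dk : ∀ τ, HasDerivAt k (k' τ) τ) (dk' : ∀ τ, HasDerivAt k' (-(a ^ 2 * k τ)) τ) (Z0 Z1 : W)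
    {Y D : ℝ → _} (hY : Y = fun τ => k τ • w τ + (α / a * τ) • v τ)
    (hD : D = fun τ => K (γ τ) (Z0 + τ • Z1) (v τ) + gam K (γ τ) (Y τ) (Y τ) (v τ) +
      n * (k τ * k' τ)) :
    UJ (fun s => ∫ τ in (0 : ℝ)..1, sp K
      (fun τ => γ τ + s • Y τ + (s ^ 2 / 2) • (Z0 + τ • Z1)) τ) a α ((D 1 - D 0) / a) := by
  have ck' : Continuous k' := continuous_iff_continuousAt.2 fun τ => (dk' τ).continuousAt
  have ck : ContDiff ℝ 1 k := contDiff_one_iff_deriv.2 ⟨fun τ => (dk τ).differentiableAt, by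
    rwa [show deriv k = k' from funext fun τ => (dk τ).deriv]⟩
  have cY : ContDiff ℝ 1 Y := hY ▸ (ck.smul cw).add ((contDiff_const.mul contDiff_id).smul hg.cv)
  have dY : ∀ τ, HasDerivAt Y (deriv Y τ) τ := fun τ => (cY.differentiable (by simp) τ).hasDerivAt
  have nY : ∀ τ ∈ Icc (0 : ℝ) 1, deriv Y τ + chr K (γ τ) (v τ) (Y τ) =
      k' τ • w τ + (α / a) • v τ := fun τ hτ => by
    have d : HasDerivAt (fun τ => k τ • w τ + (α / a * τ) • v τ) _ τ := ((dk τ).smul (dw τ hτ)).add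
      (((hasDerivAt_id τ).const_mul (α / a)).smul (hg.dv τ hτ))
    rw [hY, d.deriv]
    simp only [(hg.good τ hτ).chr_lin', id, mul_one, smul_neg]
    abel
  have dZ : ∀ τ : ℝ, HasDerivAt (fun τ : ℝ => Z0 + τ • Z1) Z1 τ := fun τ => by
    simpa using ((hasDerivAt_id τ).smul_const Z1).const_add Z0
  have cq : Continuous fun τ : ℝ => (γ τ, Y τ, Z0 + τ • Z1, v τ, deriv Y τ) :=
    hg.cγ.continuous.prodMk (cY.continuous.prodMk ((by fun_prop : Continuous fun τ : ℝ =>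
      Z0 + τ • Z1).prodMk (hg.cv.continuous.prodMk (cY.continuous_deriv le_rfl))))
  intro ε hε
  have T := utaylor (isCompact_Icc.image cq) (F := fun z : ℝ × W × W × W × W × W =>
      K (z.2.1 + z.1 • z.2.2.1 + (z.1 ^ 2 / 2) • z.2.2.2.1)
        (z.2.2.2.2.1 + z.1 • z.2.2.2.2.2 + (z.1 ^ 2 / 2) • Z1)
        (z.2.2.2.2.1 + z.1 • z.2.2.2.2.2 + (z.1 ^ 2 / 2) • Z1))
    (by
      rintro _ ⟨τ, hτ, rfl⟩
      have c1 : ContDiff ℝ 2 fun z : ℝ × W × W × W × W × W =>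
        z.2.1 + z.1 • z.2.2.1 + (z.1 ^ 2 / 2) • z.2.2.2.1 := by fun_prop
      have c2 : ContDiff ℝ 2 fun z : ℝ × W × W × W × W × W =>
        z.2.2.2.2.1 + z.1 • z.2.2.2.2.2 + (z.1 ^ 2 / 2) • Z1 := by fun_prop
      exact ((ContDiffAt.comp (g := K) _ (by simpa using (hg.good τ hτ).smooth)
        c1.contDiffAt).clm_apply c2.contDiffAt).clm_apply c2.contDiffAt)
    (e0 := fun q => K q.1 q.2.2.2.1 q.2.2.2.1)
    (e1 := fun q => 2 * K q.1 (q.2.2.2.2 + chr K q.1 q.2.2.2.1 q.2.1) q.2.2.2.1)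
    (e2 := fun q => fderiv ℝ (fderiv ℝ K) q.1 q.2.1 q.2.1 q.2.2.2.1 q.2.2.2.1 +
      fderiv ℝ K q.1 q.2.2.1 q.2.2.2.1 q.2.2.2.1 + 4 * fderiv ℝ K q.1 q.2.1 q.2.2.2.2 q.2.2.2.1 +
      2 * K q.1 Z1 q.2.2.2.1 + 2 * K q.1 q.2.2.2.2 q.2.2.2.2)
    (by rintro _ ⟨τ, hτ, rfl⟩; exact en_jet (hg.good τ hτ) _ _ _ _ _) (mul_pos a0 hε)
  have cΓ : Continuous fun z : ℝ × ℝ => γ z.2 + z.1 • Y z.2 + (z.1 ^ 2 / 2) • (Z0 + z.2 • Z1) := by
    have := hg.cγ.continuous
    have := cY.continuous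
    fun_prop
  have tube := isCompact_Icc.eventually_forall_of_forall_eventually (x₀ := (0 : ℝ))
    (P := fun s τ => Good K (γ τ + s • Y τ + (s ^ 2 / 2) • (Z0 + τ • Z1))) fun τ hτ =>
      (cΓ.tendsto' (0, τ) _ (by simp)).eventually (hg.good τ hτ).ev
  have cA : Continuous fun s : ℝ => a + s * α := by fun_prop
  have lim : ContinuousAt (fun s : ℝ => (D 1 - D 0 + a * ε / 2) / (a + s * α)) 0 :=
    continuousAt_const.div cA.continuousAt (by simpa using a0.ne')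
  filter_upwards [T, tube, (cA.tendsto' 0 a (by simp)).eventually (lt_mem_nhds a0),
    lim.eventually (ge_mem_nhds (show (D 1 - D 0 + a * ε / 2) / (a + 0 * α) < (D 1 - D 0) / a + ε by
      rw [zero_mul, add_zero, add_div, mul_div_assoc, mul_div_cancel_left₀ _ a0.ne']
      linarith))] with s h1 h2 h3 h4
  have dD := fun τ (hτ : τ ∈ Icc (0 : ℝ) 1) => ((hasDerivAt_id τ).const_mul (a + s * α)).add
    ((((sv_deriv (hg.good τ hτ) (hg.dγ τ hτ) (hg.dv τ hτ) (dY τ) (dZ τ)).add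
      (((dk τ).mul (dk' τ)).const_mul n)).add ((hasDerivAt_id τ).const_mul (a * ε / 2))).const_mul
      (s ^ 2 / 2 / (a + s * α)))
  have c1 : ContDiff ℝ 1 fun τ => γ τ + s • Y τ + (s ^ 2 / 2) • (Z0 + τ • Z1) :=
    (hg.cγ.add (cY.const_smul s)).add (by fun_prop)
  refine (intervalIntegral.integral_le_sub_of_hasDeriv_right_of_le zero_le_one
    (fun t ht => (dD t ht).continuousAt.continuousWithinAt)
    (fun t ht => (dD t (Ioo_subset_Icc_self ht)).hasDerivWithinAt)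
    (ContinuousOn.integrableOn_Icc fun t ht =>
      (sp_ca (h2 t ht).smooth.continuousAt c1.contDiffAt).continuousWithinAt)
    fun t ht' => ?_).trans ?_
  · have ht := Ioo_subset_Icc_self ht'
    have gk := hg.good t ht
    rw [sp_of (c := fun τ => γ τ + s • Y τ + (s ^ 2 / 2) • (Z0 + τ • Z1))
      (((hg.dγ t ht).add ((dY t).const_smul s)).add ((dZ t).const_smul (s ^ 2 / 2)))]
    have b1 := h1 _ ⟨t, ht, rfl⟩
    have b2 := hc t ht (Y t) (v t)
    simp only [nY t ht] at b1 ⊢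
    have b3 : area K (γ t) (Y t) (v t) = k t ^ 2 * n * a ^ 2 := by
      simp only [area, hY, map_add, map_smul, add_apply, smul_apply, smul_eq_mul, ha t ht, wp t ht,
        wn t ht, gk.symm0 (v t) (w t)]
      ring
    have b4 : K (γ t) (k' t • w t + (α / a) • v t) (k' t • w t + (α / a) • v t) =
        k' t ^ 2 * n + α ^ 2 := by
      simp only [map_add, map_smul, add_apply, smul_apply, smul_eq_mul, ha t ht, wp t ht,
        wn t ht, gk.symm0 (v t) (w t)]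
      field_simp
      ring
    have b5 : K (γ t) (k' t • w t + (α / a) • v t) (v t) = a * α := by
      simp only [map_add, map_smul, add_apply, smul_apply, smul_eq_mul, ha t ht, wp t ht]
      field_simp
      ring
    rw [b4]
    rw [b5, ha t ht] at b1
    rw [b3] at b2
    generalize fderiv ℝ (fderiv ℝ K) (γ t) (Y t) (Y t) (v t) (v t) +
      fderiv ℝ K (γ t) (Z0 + t • Z1) (v t) (v t) + 4 * fderiv ℝ K (γ t) (Y t) (deriv Y t) (v t) +
      2 * K (γ t) Z1 (v t) + 2 * K (γ t) (deriv Y t) (deriv Y t) = e2 at b1 ⊢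
    have b6 := Real.sq_sqrt ((h2 t ht).nn (v t + s • deriv Y t + (s ^ 2 / 2) • Z1))
    generalize K (γ t + s • Y t + (s ^ 2 / 2) • (Z0 + t • Z1))
      (v t + s • deriv Y t + (s ^ 2 / 2) • Z1) (v t + s • deriv Y t + (s ^ 2 / 2) • Z1) = e
      at b1 b6 ⊢
    refine le_of_mul_le_mul_left ?_ h3
    rw [mul_add, ← mul_assoc _ (s ^ 2 / 2 / _), mul_div_cancel₀ _ h3.ne']
    nlinarith [sq_nonneg (√e - (a + s * α)), mul_le_mul_of_nonneg_left b2 (sq_nonneg s)]
  · simp only [hD, Pi.add_apply, Pi.mul_apply, id] at h4 ⊢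
    have := mul_le_mul_of_nonneg_left h4 (by positivity : 0 ≤ s ^ 2 / 2)
    refine le_trans (le_of_eq ?_) (add_le_add_right this (a + s * α))
    ring

end chart

variable {V W : Type} [NormedAddCommGroup V] [InnerProductSpace ℝ V] [FiniteDimensional ℝ V]
  [NormedAddCommGroup W] [NormedSpace ℝ W] [FiniteDimensional ℝ W]
  {M : Set V} {G : Met V} {φ : W → V} {r : V → W} {y : W} {γ v : ℝ → W} {p x z : V}

/-- the Hessian comparison for the distance from `p`, in the sense of upper supports -/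
def PP (M : Set V) (G : Met V) (p z ξ : V) (t : ℝ) : Prop :=
  ∀ c v b, J2 c z v b → (∀ᶠ s in 𝓝 0, c s ∈ M) → UJ (fun s => dst M G p (c s)) t (G z v ξ)
    (G z b ξ + gam G z v v ξ + cos t / sin t * (G z v v - G z v ξ ^ 2))

/-- smooth functions with `Hess F + F g > 0` -/
structure CC (M : Set V) (G : Met V) (F : V → ℝ) : Prop where
  sm : ∀ x ∈ M, ContDiffAt ℝ ∞ F x
  pos : ∀ x ∈ M, ∀ v b, GJ M G x v b → v ≠ 0 → 0 < HH F x v b + F x * G x v v

theorem Geo.cc (h : Geo W M G) {F : V → ℝ} (hF : CC M G F) (hp : Par M φ y) {u : W} (hu : u ≠ 0) :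
    0 < hess (pull G φ) (fun z => F (φ z)) y u u + F (φ y) * pull G φ y u u := by
  rw [← hp.hh _ (cda2_of (hF.sm _ hp.m))]
  exact hF.pos _ hp.m _ _ (h.gj hp u) fun h0 => hu (hp.inj (h0.trans (map_zero _).symm))

theorem Geo.step (h : Geo W M G) (hs : Seg M G φ γ v x z) (hp : p ∈ M) {t a : ℝ}
    (ea : dst M G x z = a) (a0 : 0 < a) (t0 : 0 ≤ t) (t1 : t + a < π)
    (H : ∀ w, pull G φ (γ 0) w (v 0) = 0 → UJ (fun s => dst M G p (φ (γ 0 + s • sin t • w +
      (s ^ 2 / 2) • -chr (pull G φ) (γ 0) (sin t • w) (sin t • w)))) t 0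
      (cos t * sin t * pull G φ (γ 0) w w)) :
    PP M G p z (fderiv ℝ φ (γ 1) (a⁻¹ • v 1)) (t + a) := by
  obtain ⟨hg, hp', -, rfl, ha⟩ := hs
  rw [ea] at ha
  have m0 : (0 : ℝ) ∈ Icc (0 : ℝ) 1 := by simp
  have m1 : (1 : ℝ) ∈ Icc (0 : ℝ) 1 := by simp
  obtain ⟨r, hc⟩ := (hp' 1 m1).ch h.sub
  intro c v' b hj hm
  obtain ⟨u, β, j, rfl, rfl, e⟩ := hc.jet hj hm
  rw [h.acc hc.par]
  simp only [← pull_apply]
  generalize hK : pull G φ = K at *
  have g1 := hg.good 1 m1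
  obtain ⟨α, hα⟩ : ∃ α, α = K (γ 1) u (a⁻¹ • v 1) := ⟨_, rfl⟩
  have hα' : K (γ 1) u (v 1) = a * α := by
    rw [hα, map_smul, smul_eq_mul, mul_inv_cancel_left₀ a0.ne']
  obtain ⟨w, cw, w1, dw⟩ := hg.par (u - (α / a) • v 1)
  have wp : ∀ τ ∈ Icc (0 : ℝ) 1, K (γ τ) (w τ) (v τ) = 0 := fun τ hτ => by
    rw [hg.const dw hg.dv τ hτ, w1]
    simp only [map_sub, map_smul, sub_apply, smul_apply, smul_eq_mul, hα', ha 1 m1]
    field_simp
    ring
  have wn : ∀ τ ∈ Icc (0 : ℝ) 1, K (γ τ) (w τ) (w τ) = K (γ 1) u u - α ^ 2 := fun τ hτ => by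
    rw [hg.const dw dw τ hτ, w1]
    simp only [map_sub, map_smul, sub_apply, smul_apply, smul_eq_mul, hα', ha 1 m1,
      g1.symm0 (v 1) u]
    field_simp
    ring
  have s0 : 0 < sin (t + a) := sin_pos_of_pos_of_lt_pi (by linarith) t1
  have dl : ∀ τ : ℝ, HasDerivAt (fun τ => t + a * τ) a τ := fun τ => by
    simpa using ((hasDerivAt_id τ).const_mul a).const_add t
  obtain ⟨Z0, hZ⟩ : ∃ Z0, Z0 = -chr K (γ 0) (sin t • (sin (t + a))⁻¹ • w 0)
    (sin t • (sin (t + a))⁻¹ • w 0) := ⟨_, rfl⟩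
  obtain ⟨Y, hY⟩ : ∃ Y : ℝ → W, Y = fun τ => (sin (t + a * τ) * (sin (t + a))⁻¹) • w τ +
    (α / a * τ) • v τ := ⟨_, rfl⟩
  have Y0 : Y 0 = sin t • (sin (t + a))⁻¹ • w 0 := by simp [hY, smul_smul]
  have Y1 : Y 1 = u := by simp [hY, s0.ne', w1]
  have U1 := H ((sin (t + a))⁻¹ • w 0) (by simp [wp 0 m0])
  have U2 := second_var hg (fun τ hτ => hK ▸ h.curv φ _ (hp' τ hτ)) a0 ha cw dw wp wn
    (k := fun τ => sin (t + a * τ) * (sin (t + a))⁻¹)
    (k' := fun τ => cos (t + a * τ) * a * (sin (t + a))⁻¹) (α := α)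
    (fun τ => (dl τ).sin.mul_const _)
    (fun τ => (((dl τ).cos.mul_const a).mul_const _).congr_deriv (by ring)) Z0 (β - Z0) hY rfl
  obtain ⟨C, C0, hC⟩ := h.lip hc.par
  have jp := J2.poly (γ 1) u β
  have U3 : UJ (fun s => dst M G (φ (γ 1 + s • u + (s ^ 2 / 2) • β)) (φ (r (c s)))) 0 0 0 := by
    intro ε hε
    filter_upwards [(jp.t.prodMk_nhds j.t).eventually hC,
      j.taylor (ε := ε / 2 / (C + 1)) (by positivity)] with s h1 h2
    refine h1.trans ((mul_le_mul_of_nonneg_left h2 C0).trans ?_)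
    have : C * (ε / 2 / (C + 1)) ≤ ε / 2 := by
      rw [← mul_div_assoc, div_le_iff₀ (by positivity)]; nlinarith
    nlinarith [mul_le_mul_of_nonneg_right this (sq_nonneg s)]
  have cY : ContDiff ℝ 1 Y := by
    have := hg.cv
    rw [hY]; fun_prop
  have cΓ : Continuous fun z : ℝ × ℝ =>
      γ z.2 + z.1 • Y z.2 + (z.1 ^ 2 / 2) • (Z0 + z.2 • (β - Z0)) := by
    have := hg.cγ.continuous
    have := cY.continuous
    fun_prop
  have tube := isCompact_Icc.eventually_forall_of_forall_eventually (x₀ := (0 : ℝ))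
    (P := fun s τ => Par M φ (γ τ + s • Y τ + (s ^ 2 / 2) • (Z0 + τ • (β - Z0)))) fun τ hτ =>
      (cΓ.tendsto' (0, τ) _ (by simp)).eventually (hp' τ hτ).ev
  have U := (U1.add U2).add U3
  rw [add_zero, add_zero, add_zero, zero_add] at U
  rw [← hα]
  refine U.mono ?_ (le_of_eq ?_)
  · filter_upwards [tube, e, hm] with s h1 h2 h3
    have d := h.dst_chart (φ := φ)
      (γ := fun τ => γ τ + s • Y τ + (s ^ 2 / 2) • (Z0 + τ • (β - Z0))) fun τ hτ =>
        ⟨((hg.cγ.add (cY.const_smul s)).add (by fun_prop)).contDiffAt, h1 τ hτ⟩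
    have n0 := (h1 0 m0).m
    have n1 := (h1 1 m1).m
    simp only [zero_smul, add_zero, one_smul, add_sub_cancel, Y0, Y1, hK] at d n0 n1
    have i1 := h.tri hp n0 n1
    have i2 := h.tri hp n1 h3
    rw [← hZ, h2]
    linarith
  · have g0 := hg.good 0 m0
    simp only [zero_smul, add_zero, one_smul, add_sub_cancel, Y0, Y1, ← g0.chr_eq, ← g1.chr_eq,
      hZ, map_neg, neg_apply, map_smul, smul_apply, smul_eq_mul, wn 0 m0, map_add, add_apply,
      mul_zero, mul_one]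
    field_simp
    ring

theorem Geo.wstep (h : Geo W M G) (hs : Seg M G φ γ v x z) {t a : ℝ}
    (ea : dst M G x z = a) (a0 : 0 < a) (t0 : 0 ≤ t) (t1 : t + a < π) {F : V → ℝ} (hF : CC M G F) :
    F z * cos (t + a) - fderiv ℝ F z (fderiv ℝ φ (γ 1) (a⁻¹ • v 1)) * sin (t + a) <
      F x * cos t - fderiv ℝ F x (fderiv ℝ φ (γ 0) (a⁻¹ • v 0)) * sin t := by
  obtain ⟨hg, hp', rfl, rfl, ha⟩ := hs
  rw [ea] at ha
  have c2 : ∀ τ ∈ Icc (0 : ℝ) 1, ContDiffAt ℝ 2 (fun z => F (φ z)) (γ τ) := fun τ hτ =>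
    (cda2_of (hF.sm _ (hp' τ hτ).m)).comp _ (hp' τ hτ).sm.c2
  have dl : ∀ τ : ℝ, HasDerivAt (fun τ => t + a * τ) a τ := fun τ => by
    simpa using ((hasDerivAt_id τ).const_mul a).const_add t
  have d := fun τ (hτ : τ ∈ Icc (0 : ℝ) 1) =>
    ((((c2_d0 (c2 τ hτ)).hasFDerivAt.comp_hasDerivAt τ (hg.dγ τ hτ)).mul (dl τ).cos).sub
    (((((c2_d (c2 τ hτ)).hasFDerivAt.comp_hasDerivAt τ (hg.dγ τ hτ)).clm_apply
      (hg.dv τ hτ)).const_mul a⁻¹).mul (dl τ).sin))
  have := strictAntiOn_of_hasDerivWithinAt_neg (convex_Icc (0 : ℝ) 1)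
    (fun τ hτ => (d τ hτ).continuousAt.continuousWithinAt)
    (fun τ hτ => (d τ (interior_subset hτ)).hasDerivWithinAt) (fun τ hτ' => by
      have hτ := interior_subset hτ'
      rw [interior_Icc] at hτ'
      have s0 : 0 < sin (t + a * τ) := sin_pos_of_pos_of_lt_pi (by nlinarith [hτ'.1])
        (by nlinarith [hτ'.2])
      have := h.cc hF (hp' τ hτ) (u := v τ) fun h0 => by
        have := ha τ hτ
        rw [h0, map_zero] at this
        nlinarith
      rw [ha τ hτ, hess] at this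
      have := mul_pos (mul_pos this s0) (inv_pos.2 a0)
      simp only [Function.comp, map_neg]
      refine lt_of_le_of_lt (le_of_eq ?_) (neg_lt_zero.2 this)
      field_simp
      ring) (left_mem_Icc.2 zero_le_one) (right_mem_Icc.2 zero_le_one) one_pos
  rw [← fd_comp (cda_d (hF.sm _ (hp' 1 (by simp)).m)) (hp' 1 (by simp)).sm.d,
    ← fd_comp (cda_d (hF.sm _ (hp' 0 (by simp)).m)) (hp' 0 (by simp)).sm.d]
  simpa using this

theorem Geo.matching (h : Geo W M G) (hs : Seg M G φ γ v x z) (hp : p ∈ M) {t a : ℝ}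
    (ea : dst M G x z = a) (a0 : 0 < a) (et : dst M G p z = t + a) {ξ : V} (ht : Tan M x ξ)
    (h1 : G x ξ ξ = 1) (hP : PP M G p x ξ t) : ξ = fderiv ℝ φ (γ 0) (a⁻¹ • v 0) := by
  obtain ⟨hg, hp', rfl, rfl, ha⟩ := hs
  rw [ea] at ha
  have m0 : (0 : ℝ) ∈ Icc (0 : ℝ) 1 := by simp
  have p0 := hp' 0 m0
  obtain ⟨r, hc⟩ := p0.ch h.sub
  obtain ⟨u, rfl⟩ := hc.tan ht
  have jl := J2.line (γ 0) (v 0)
  have U := hP _ _ _ (p0.jet jl).1 (p0.jet jl).2 1 one_pos
  simp only [← pull_apply] at U h1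
  obtain ⟨C, C0, hC⟩ := h.lip p0
  have key : a ≤ pull G φ (γ 0) (v 0) u := by
    generalize G (φ (γ 0)) _ _ + _ + _ + (1 : ℝ) = b at U
    have l1 := hasDerivAt_iff_tendsto.1 (hg.dγ 0 m0)
    have l2 : Tendsto (fun s : ℝ => pull G φ (γ 0) (v 0) u + s / 2 * b +
        C * (‖s - 0‖⁻¹ * ‖γ s - γ 0 - (s - 0) • v 0‖)) (𝓝 0)
        (𝓝 (pull G φ (γ 0) (v 0) u + 0 / 2 * b + C * 0)) :=
      ((((continuous_id.div_const 2).mul continuous_const).tendsto 0).const_add _).add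
        (l1.const_mul C)
    rw [zero_div, zero_mul, add_zero, mul_zero, add_zero] at l2
    refine ge_of_tendsto (l2.mono_left (nhdsWithin_le_nhds (s := Ioi 0))) ?_
    filter_upwards [U.filter_mono nhdsWithin_le_nhds, ((jl.t.prodMk_nhds
      (hg.dγ 0 m0).continuousAt).eventually hC).filter_mono nhdsWithin_le_nhds,
      (p0.jet jl).2.filter_mono nhdsWithin_le_nhds, Ioo_mem_nhdsGT one_pos] with s b1 b2 b3 hs
    have hs' := Ioo_subset_Icc_self hs
    have b4 := h.dst_int (c := fun τ => φ (γ τ)) hs.2.le fun τ hτ =>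
      have := hp' τ ⟨hs.1.le.trans hτ.1, hτ.2⟩
      ⟨(this.sm.c 1).comp τ hg.cγ.contDiffAt, this.m⟩
    rw [intervalIntegral.integral_congr (g := fun _ => a) fun τ hτ => by
      rw [uIcc_of_le hs.2.le] at hτ
      have hτ' : τ ∈ Icc (0 : ℝ) 1 := ⟨hs.1.le.trans hτ.1, hτ.2⟩
      rw [sp_pull (hp' τ hτ').sm.d (hg.dγ τ hτ').differentiableAt, sp_of (hg.dγ τ hτ'), ha τ hτ',
        Real.sqrt_sq a0.le]] at b4
    have b5 := h.tri hp (hp' s hs').m (hp' 1 (by simp)).m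
    have b6 := h.tri hp b3 (hp' s hs').m
    simp only [intervalIntegral.integral_const, smul_eq_mul, sub_zero, Real.norm_eq_abs,
      abs_of_pos hs.1, sub_sub] at b4 b2 ⊢
    refine le_of_mul_le_mul_left ?_ hs.1
    rw [mul_add, mul_left_comm _ C, mul_inv_cancel_left₀ hs.1.ne']
    nlinarith
  have g0 := h.pg p0
  have : v 0 - a • u = 0 := by
    by_contra h0
    have := g0.pos _ h0
    simp only [map_sub, map_smul, sub_apply, smul_apply, smul_eq_mul, ha 0 m0, h1,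
      g0.symm0 u (v 0)] at this
    nlinarith
  rw [sub_eq_zero.1 this, smul_smul, inv_mul_cancel₀ a0.ne', one_smul]

theorem Geo.pq (h : Geo W M G) (hp : p ∈ M) (hz : z ∈ M) (h0 : 0 < dst M G p z)
    (h1 : dst M G p z < π) : ∃ ξ, Tan M z ξ ∧ G z ξ ξ = 1 ∧ PP M G p z ξ (dst M G p z) ∧
      ∀ F, CC M G F → F z * cos (dst M G p z) - fderiv ℝ F z ξ * sin (dst M G p z) < F p := by
  obtain ⟨δ, δ0, hδ⟩ := h.seg
  obtain ⟨k, hk⟩ := exists_nat_ge (dst M G p z / (δ / 2))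
  rw [div_le_iff₀ (half_pos δ0)] at hk
  have u : ∀ {φ : W → V} {γ v : ℝ → W} {x z : V} {a : ℝ}, Seg M G φ γ v x z → dst M G x z = a →
      0 < a → Tan M z (fderiv ℝ φ (γ 1) (a⁻¹ • v 1)) ∧ G z (fderiv ℝ φ (γ 1) (a⁻¹ • v 1))
        (fderiv ℝ φ (γ 1) (a⁻¹ • v 1)) = 1 := fun hs ea a0 => by
    refine ⟨hs.e1 ▸ (hs.par 1 (by simp)).tan _, ?_⟩
    have := hs.sp 1 (by simp)
    rw [← hs.e1, ← pull_apply]
    simp only [map_smul, smul_apply, smul_eq_mul, this, ea]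
    field_simp
  induction k generalizing z with
  | zero => simp at hk; linarith
  | succ k ih =>
    by_cases hd : dst M G p z < δ
    · obtain ⟨φ, γ, v, hs⟩ := hδ p hp z hz hd
      refine ⟨_, (u hs rfl h0).1, (u hs rfl h0).2, ?_, fun F hF => ?_⟩
      · have := h.step hs hp rfl h0 le_rfl (by simpa) fun w _ => by
          have g0 := hs.gd.good 0 (by simp)
          have := g0.chr_smul 0 0 0
          simp only [zero_smul] at this
          simpa [this, hs.e0, h.dst_self hp] using (J2.const (0 : ℝ)).uj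
        simpa using this
      · simpa using h.wstep hs rfl h0 le_rfl (by simpa) hF
    · obtain ⟨x, hx, e1, e2⟩ := h.mid hp hz (s := dst M G p z - δ / 2) (by linarith) (by linarith)
      rw [sub_sub_cancel] at e2
      obtain ⟨ξ, i1, i2, i3, i4⟩ := ih hx (by linarith) (by linarith) (by push_cast at hk; linarith)
      obtain ⟨φ, γ, v, hs⟩ := hδ x hx z hz (by linarith)
      have et : dst M G p z = dst M G p x + δ / 2 := by linarith
      obtain rfl := h.matching hs hp e2 (half_pos δ0) et i1 i2 i3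
      refine ⟨_, (u hs e2 (half_pos δ0)).1, (u hs e2 (half_pos δ0)).2, ?_, fun F hF => ?_⟩
      · rw [et]
        refine h.step hs hp e2 (half_pos δ0) (dst_nn _ _ _ _) (by linarith) fun w hw => ?_
        have p0 := hs.par 0 (by simp)
        have j := p0.jet (J2.poly (γ 0) (sin (dst M G p x) • w) (-chr (pull G φ) (γ 0)
          (sin (dst M G p x) • w) (sin (dst M G p x) • w)))
        have s0 : 0 < sin (dst M G p x) := sin_pos_of_pos_of_lt_pi (by linarith) (by linarith)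
        generalize dst M G p x = t at *
        rw [← hs.e0] at i3
        have := i3 _ _ _ j.1 j.2
        rw [h.acc p0] at this
        simp only [← pull_apply] at this
        simp only [map_smul, smul_apply, smul_eq_mul, hw, neg_add_cancel, map_zero, zero_apply,
          mul_zero] at this
        refine this.mono (Eventually.of_forall fun _ => le_rfl) (le_of_eq ?_)
        field_simp
        ring
      · rw [et]
        exact (h.wstep hs e2 (half_pos δ0) (dst_nn _ _ _ _) (by linarith) hF).trans (i4 F hF)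

theorem Geo.myers (h : Geo W M G) (hW : 2 ≤ Module.finrank ℝ W) (hp : p ∈ M) (hz : z ∈ M) :
    dst M G p z ≤ π := by
  by_contra hd
  rw [not_le] at hd
  have := pi_pos
  obtain ⟨T, T0, T1, T2⟩ : ∃ T, π < T ∧ T < 2 * π ∧ T ≤ dst M G p z :=
    ⟨min (dst M G p z) (3 / 2 * π), lt_min hd (by linarith),
      (min_le_right _ _).trans_lt (by linarith), min_le_left _ _⟩
  obtain ⟨q, hq, e1, -⟩ := h.mid hp hz (s := T) (by linarith) T2
  obtain ⟨x, hx, e2, e3⟩ := h.mid hp hq (s := T / 2) (by linarith) (by linarith)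
  rw [h.dst_comm hx hq, e1, show T - T / 2 = T / 2 by ring] at e3
  obtain ⟨ξ, i1, -, i3, -⟩ := h.pq hp hx (by linarith) (by linarith)
  obtain ⟨ζ, j1, -, j3, -⟩ := h.pq hq hx (by linarith) (by linarith)
  obtain ⟨φ, r, y, hc, rfl⟩ := h.sub.ch hx
  obtain ⟨ξ', e⟩ := hc.tan i1
  obtain ⟨u, u1, u0⟩ := (Submodule.ne_bot_iff _).1 (LinearMap.ker_ne_bot_of_finrank_lt
    (f := (pull G φ y ξ' : W →ₗ[ℝ] ℝ)) (by simp; omega))
  have u2 : G (φ y) (fderiv ℝ φ y u) ξ = 0 := by rw [h.symm, e]; exact u1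
  obtain ⟨⟨c, c1, c2⟩, c3⟩ := h.gj hc.par u
  have := ((i3 c _ _ c1 c2).add (j3 c _ _ c1 c2)).lower (by
    filter_upwards [c2] with s hs
    have := h.tri hp hs hq
    rw [h.dst_comm hs hq] at this
    linarith)
  rw [c3 _ i1, c3 _ j1, u2, zero_add, e2, e3] at this
  rw [this.1] at this
  have a1 : 0 < G (φ y) (fderiv ℝ φ y u) (fderiv ℝ φ y u) := (h.pg hc.par).pos u u0
  have a2 : cos (T / 2) / sin (T / 2) < 0 :=
    div_neg_of_neg_of_pos (cos_neg_of_pi_div_two_lt_of_lt (by linarith) (by linarith))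
      (sin_pos_of_pos_of_lt_pi (by linarith) (by linarith))
  nlinarith [this.2]

theorem len_smul (G : Met V) {κ : ℝ} (hκ : 0 ≤ κ) (c : ℝ → V) :
    len (fun x => κ ^ 2 • G x) c = κ * len G c := by
  simp only [len, smul_apply, smul_eq_mul, Real.sqrt_mul (sq_nonneg κ), Real.sqrt_sq hκ,
    intervalIntegral.integral_const_mul]

theorem Geo.smul (h : Geo W M G) {κ : ℝ} (κ0 : 0 < κ) (κ1 : κ ≤ 1) :
    Geo W M fun x => κ ^ 2 • G x := by
  refine ⟨h.cpt, h.conn, h.sub, h.smooth.const_smul _, fun x u v => by simp [h.symm x u v],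
    fun x v hv => by simpa using mul_pos (pow_pos κ0 2) (h.pos x v hv), fun φ y hp u v => ?_⟩
  have e : pull (fun x => κ ^ 2 • G x) φ = fun y => κ ^ 2 • pull G φ y := by
    ext y a b; simp [pull_apply]
  have g := h.pg hp
  have a0 : 0 ≤ area (pull G φ) y u v := sub_nonneg.2 (psd_cs g.symm0 g.nn u v)
  rw [e, g.sec_smul (pow_pos κ0 2)]
  refine le_trans ?_ (mul_le_mul_of_nonneg_left (h.curv φ y hp u v) (sq_nonneg κ))
  have : κ ^ 2 ≤ 1 := by nlinarith
  calc _ = κ ^ 2 * (κ ^ 2 * area (pull G φ) y u v) := by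
        simp only [area, smul_apply, smul_eq_mul]; ring
    _ ≤ _ := mul_le_mul_of_nonneg_left (by nlinarith) (sq_nonneg κ)

/-- lower supports with `Hess f + f g ≥ 0` along the lines of all charts -/
def SS (W : Type) [NormedAddCommGroup W] [NormedSpace ℝ W] (M : Set V) (G : Met V) (f : V → ℝ)
    (x ζ : V) : Prop :=
  ∀ (φ : W → V) (y u' : W), Par M φ y → φ y = x → fderiv ℝ φ y u' = ζ → ∀ u,
    UJ (fun s => -f (φ (y + s • u))) (-f x) (-pull G φ y u u')
      (-pull G φ y (chr (pull G φ) y u u) u' + f x * pull G φ y u u)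

theorem UJ.cos {g : ℝ → ℝ} {t a b : ℝ} (h : UJ g t a b) (g0 : ∀ s, 0 ≤ g s) (t1 : t < π) :
    UJ (fun s => -cos (g s)) (-cos t) (sin t * a) (cos t * a ^ 2 + sin t * b) := by
  intro ε hε
  have j := J2.poly t a (b + ε / 2)
  filter_upwards [h _ (half_pos hε), (j.cos.cmul (-1)).uj _ (half_pos hε),
    j.t.eventually (ge_mem_nhds t1)] with s h1 h2 h3
  simp only [smul_eq_mul] at h2 h3
  have := cos_le_cos_of_nonneg_of_le_pi (g0 s) h3 h1
  nlinarith [mul_nonneg (mul_nonneg (sq_nonneg s) hε.le) (sub_nonneg.2 (sin_le_one t))]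

theorem Geo.supp (h : Geo W M G) (hp : p ∈ M) (hx : x ∈ M) (hd : dst M G p x < π) :
    ∃ ζ, Tan M x ζ ∧ G x ζ ζ ≤ 1 ∧ SS W M G (fun z => cos (dst M G p z)) x ζ ∧
      ∀ F, CC M G F → F x * cos (dst M G p x) + fderiv ℝ F x ζ ≤ F p := by
  obtain ⟨φ, r, y, hc, rfl⟩ := h.sub.ch hx
  by_cases e : φ y = p
  · refine ⟨0, by simpa using hc.par.tan 0, by simp, fun ψ y u' hψ e' e'' u ε hε => ?_,
      fun F _ => by simp [e, h.dst_self hp]⟩
    obtain rfl : u' = 0 := hψ.inj (e''.trans (map_zero _).symm)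
    have c : ∀ᶠ z in 𝓝 y, pull G ψ z u u ≤ pull G ψ y u u + ε :=
      (((h.ps hψ).ca.clm_apply continuousAt_const).clm_apply continuousAt_const).eventually
        (ge_mem_nhds (lt_add_of_pos_right _ hε))
    have n0 : 0 ≤ pull G ψ y u u + ε := add_nonneg ((h.pg hψ).nn u) hε.le
    filter_upwards [(tendsto_const_nhds.prodMk_nhds (J2.line y u).t).eventually
      (seg_ev (hψ.ev.and c))] with s hs
    simp only [add_sub_cancel_left] at hs
    have := h.dst_seg (K := √(s ^ 2 * (pull G ψ y u u + ε))) (Real.sqrt_nonneg _)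
      fun t ht => ⟨(hs t ht).1, by
        rw [Real.sq_sqrt (by positivity)]
        simp only [map_smul, smul_apply, smul_eq_mul]
        nlinarith [mul_le_mul_of_nonneg_left (hs t ht).2 (sq_nonneg s)]⟩
    have := pow_le_pow_left₀ (dst_nn _ _ _ _) this 2
    rw [Real.sq_sqrt (by positivity), e', e] at this
    simp only [e, h.dst_self hp, cos_zero, map_zero]
    linarith [one_sub_sq_div_two_le_cos (x := dst M G p (ψ (y + s • u)))]
  have d0 := h.dst_pos hp hx e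
  obtain ⟨ξ, i1, i2, i3, i4⟩ := h.pq hp hx d0 hd
  obtain ⟨ξ', e'⟩ := hc.tan i1
  refine ⟨-sin (dst M G p (φ y)) • ξ, by rw [e', ← map_smul]; exact hc.par.tan _, ?_,
    fun ψ z u' hψ e1 e2 u => ?_, fun F hF => ?_⟩
  · simp only [map_smul, smul_apply, smul_eq_mul, i2]
    nlinarith [sin_sq_le_one (dst M G p (φ y))]
  · have s0 := sin_pos_of_pos_of_lt_pi d0 hd
    clear e'
    rw [← e1] at i1 i3 s0 hd d0 e2 ⊢
    obtain ⟨ρ, hρ⟩ := hψ.ch h.sub
    obtain ⟨ξ, rfl⟩ := hρ.tan i1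
    rw [← map_smul] at e2
    obtain rfl := hψ.inj e2
    have j := hψ.jet (J2.line z u)
    have := (i3 _ _ _ j.1 j.2).cos (fun _ => dst_nn _ _ _ _) hd
    rw [h.acc hψ, zero_add] at this
    simp only [← pull_apply] at this
    simp only [map_smul, smul_eq_mul, neg_mul, neg_neg]
    refine this.mono (Eventually.of_forall fun _ => le_rfl) (le_of_eq ?_)
    field_simp
    ring
  · rw [map_smul, smul_eq_mul]
    linarith [i4 F hF]

theorem Geo.crit (h : Geo W M G) (hp : p ∈ M) (hx : x ∈ M) (hd : dst M G p x < π) (hne : x ≠ p)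
    {F : V → ℝ} (hF : CC M G F) (h0 : ∀ w, Tan M x w → fderiv ℝ F x w = 0) :
    F x * cos (dst M G p x) < F p := by
  obtain ⟨ξ, i1, -, -, i4⟩ := h.pq hp hx (h.dst_pos hp hx hne) hd
  simpa [h0 ξ i1] using i4 F hF

end Pool.Agent.Lib.MP_c00cc5_gt
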