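import Pool.Agent.Lib.MP_c00cc5_gt.Smooth

set_option autoImplicit false
set_option maxSynthPendingDepth 3
set_option linter.unusedSectionVars false
set_option linter.unusedSimpArgs false

namespace Pool.Agent.Lib.MP_c00cc5_gt

/-! The Gauss equation, cones and level sets. -/

open scoped ContDiff RealInnerProductSpace Topology
open Filter Set Real

variable {X U W : Type} [NormedAddCommGroup X] [NormedSpace ℝ X] [FiniteDimensional ℝ X]
  [NormedAddCommGroup U] [NormedSpace ℝ U] [FiniteDimensional ℝ U]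
  [NormedAddCommGroup W] [NormedSpace ℝ W] [FiniteDimensional ℝ W]
  {G : Met X} {φ : U → X} {y : U}

/-- the second fundamental form -/
noncomputable def II (G : Met X) (φ : U → X) (y a b : U) : X :=
  chr G (φ y) (fderiv ℝ φ y a) (fderiv ℝ φ y b) + fderiv ℝ (fderiv ℝ φ) y a b -
    fderiv ℝ φ y (chr (pull G φ) y a b)

theorem Good.II_perp (hG : Good G (φ y)) (hφ : ContDiffAt ℝ 3 φ y)
    (hi : Function.Injective (fderiv ℝ φ y)) (a b w : U) :
    G (φ y) (II G φ y a b) (fderiv ℝ φ y w) = 0 := by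
  rw [II, map_sub, map_add, sub_apply, add_apply, ← pull_apply, (hG.pull hφ hi).chr_eq,
    gam_pull hG hφ, hG.chr_eq]
  ring

theorem Good.gauss (hG : Good G (φ y)) (hφ : ContDiffAt ℝ 3 φ y)
    (hi : Function.Injective (fderiv ℝ φ y)) (u v : U) :
    sec (MP_c00cc5_gt.pull G φ) y u v = sec G (φ y) (fderiv ℝ φ y u) (fderiv ℝ φ y v) +
      G (φ y) (II G φ y u u) (II G φ y v v) - G (φ y) (II G φ y u v) (II G φ y u v) := by
  have h2 : ContDiffAt ℝ 2 φ y := hφ.of_le (by norm_num)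
  have h3 : ContDiffAt ℝ 2 (fderiv ℝ φ) y := hφ.fderiv_right (by norm_num)
  have s2 := c2_symm h2
  have s3 := c2_symm h3
  have s3' : ∀ a b c, fderiv ℝ (fderiv ℝ (fderiv ℝ φ)) y a b c =
      fderiv ℝ (fderiv ℝ (fderiv ℝ φ)) y a c b := fun a b c =>
    j1_symm (c2_d h3) ((h2.eventually (by simp)).mono fun z hz => c2_symm hz) a b c
  have key : ∀ a b c d, MP_c00cc5_gt.pull G φ y (chr (MP_c00cc5_gt.pull G φ) y a b)
      (chr (MP_c00cc5_gt.pull G φ) y c d) = G (φ y)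
        (chr G (φ y) (fderiv ℝ φ y a) (fderiv ℝ φ y b) + fderiv ℝ (fderiv ℝ φ) y a b)
        (chr G (φ y) (fderiv ℝ φ y c) (fderiv ℝ φ y d) + fderiv ℝ (fderiv ℝ φ) y c d) -
        G (φ y) (II G φ y a b) (II G φ y c d) := by
    intro a b c d
    have e : ∀ a b, chr G (φ y) (fderiv ℝ φ y a) (fderiv ℝ φ y b) + fderiv ℝ (fderiv ℝ φ) y a b =
        II G φ y a b + fderiv ℝ φ y (chr (MP_c00cc5_gt.pull G φ) y a b) := fun a b => by
      simp [II]
    rw [e, e, pull_apply]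
    simp only [map_add, add_apply, hG.II_perp hφ hi, hG.symm0 (fderiv ℝ φ y _) (II _ _ _ _ _)]
    ring
  rw [(hG.pull hφ hi).sec_chr, hG.sec_chr, key, key]
  simp only [map_add, add_apply, r2, pull_j2 hG.smooth hφ]
  rw [hG.symm0 (fderiv ℝ (fderiv ℝ φ) y u v) (chr _ _ _ _),
    hG.symm0 (fderiv ℝ (fderiv ℝ φ) y u u) (chr _ _ _ _)]
  simp only [hG.chr_eq, gam]
  rw [s2 v u, s3' v v u, s3 v u, s3' u v u, hG.symm0 (fderiv ℝ φ y v),
    hG.symm0 (fderiv ℝ φ y u), hG.j1 _ (fderiv ℝ (fderiv ℝ φ) y u v) (fderiv ℝ φ y v),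
    hG.j1 _ (fderiv ℝ (fderiv ℝ φ) y u v) (fderiv ℝ φ y u),
    hG.j1 _ (fderiv ℝ (fderiv ℝ φ) y u u) (fderiv ℝ φ y v)]
  ring

theorem level_d {f : X → ℝ} (hf : ContDiffAt ℝ 2 f (φ y)) (hφ : ContDiffAt ℝ 2 φ y) {c : ℝ}
    (h : ∀ᶠ z in 𝓝 y, f (φ z) = c) (G : Met X) :
    (∀ w, fderiv ℝ f (φ y) (fderiv ℝ φ y w) = 0) ∧ ∀ a b, fderiv ℝ f (φ y) (II G φ y a b) =
      -hess G f (φ y) (fderiv ℝ φ y a) (fderiv ℝ φ y b) := by
  have e : ∀ᶠ z in 𝓝 y, ∀ w, fderiv ℝ f (φ z) (fderiv ℝ φ z w) = 0 := by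
    filter_upwards [h.eventually_nhds, c2_ev hφ, hφ.continuousAt.eventually (c2_ev hf)]
      with z h1 h2 h3 w
    rw [← fd_comp h3 h2, EventuallyEq.fderiv_eq (f := fun _ => c) h1]
    simp
  refine ⟨e.self_of_nhds, fun a b => ?_⟩
  have d := ((c2_d hf).hasFDerivAt.comp y (c2_d0 hφ).hasFDerivAt).clm_apply
    ((c2_d hφ).hasFDerivAt.clm_apply (hasFDerivAt_const b y))
  have := ContinuousLinearMap.ext_iff.1 (d.unique ((hasFDerivAt_const (0 : ℝ) y).congr_of_eventuallyEq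
    (e.mono fun z hz => hz b))) a
  simp only [add_apply, ContinuousLinearMap.comp_apply, ContinuousLinearMap.flip_apply, zero_apply,
    map_zero, zero_add, Function.comp] at this
  simp only [II, hess, map_add, map_sub, e.self_of_nhds]
  linarith

theorem span_normal {P : Type} [NormedAddCommGroup P] [NormedSpace ℝ P] [FiniteDimensional ℝ P]
    {x : X} (hG : Good G x) {L : U →L[ℝ] X} {N : P →L[ℝ] X} (hL : Function.Injective L)
    (hN : Function.Injective N) (h : ∀ p w, G x (N p) (L w) = 0)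
    (hd : Module.finrank ℝ U + Module.finrank ℝ P = Module.finrank ℝ X) {v : X}
    (hv : ∀ w, G x v (L w) = 0) : ∃ p, v = N p := by
  have z : ∀ w, G x (L w) (L w) = 0 → L w = 0 := fun w hw => by
    by_contra h0
    exact (hG.pos _ h0).ne' hw
  obtain ⟨⟨w, p⟩, e⟩ := (bij_of_inj (L := L.coprod N) (by
    rw [injective_iff_map_eq_zero]
    rintro ⟨w, p⟩ e
    rw [ContinuousLinearMap.coprod_apply] at e
    have e1 := z w (by simpa [h] using congrArg (fun v => G x v (L w)) e)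
    rw [e1, zero_add] at e
    exact Prod.ext (hL (e1.trans (map_zero _).symm)) (hN (e.trans (map_zero _).symm))) (by rw [Module.finrank_prod, hd])).2 v
  rw [ContinuousLinearMap.coprod_apply] at e
  have e1 := z w (by simpa [h, ← e] using hv w)
  exact ⟨p, by rw [← e, e1, zero_add]⟩

theorem Good.gauss1 (hG : Good G (φ y)) (hφ : ContDiffAt ℝ 3 φ y)
    (hi : Function.Injective (fderiv ℝ φ y)) (hd : Module.finrank ℝ U + 1 = Module.finrank ℝ X)
    {f : X → ℝ} (hf : ContDiffAt ℝ 2 f (φ y)) {c : ℝ} (h : ∀ᶠ z in 𝓝 y, f (φ z) = c) {n : X}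
    (hn : G (φ y) n = fderiv ℝ f (φ y)) (n0 : n ≠ 0) (a b : U) :
    G (φ y) n n * sec (MP_c00cc5_gt.pull G φ) y a b =
      G (φ y) n n * sec G (φ y) (fderiv ℝ φ y a) (fderiv ℝ φ y b) +
      (hess G f (φ y) (fderiv ℝ φ y a) (fderiv ℝ φ y a) *
        hess G f (φ y) (fderiv ℝ φ y b) (fderiv ℝ φ y b) -
        hess G f (φ y) (fderiv ℝ φ y a) (fderiv ℝ φ y b) ^ 2) := by
  obtain ⟨l1, l2⟩ := level_d hf (hφ.of_le (by norm_num)) h G
  have k : ∀ a b, ∃ s : ℝ, II G φ y a b = s • n ∧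
      hess G f (φ y) (fderiv ℝ φ y a) (fderiv ℝ φ y b) = -(s * G (φ y) n n) := fun a b => by
    obtain ⟨s, hs⟩ := span_normal hG hi (N := ContinuousLinearMap.toSpanSingleton ℝ n)
      (fun s t e => smul_left_injective ℝ n0 e) (fun p w => by simp [hn, l1])
      (by simpa using hd) (hG.II_perp hφ hi a b)
    refine ⟨s, hs, ?_⟩
    have := l2 a b
    rw [hs, ← hn] at this
    simp at this
    linarith
  obtain ⟨s, s1, s2⟩ := k a a
  obtain ⟨t, t1, t2⟩ := k b b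
  obtain ⟨r, r1, r2⟩ := k a b
  rw [hG.gauss hφ hi, s1, t1, r1, s2, t2, r2]
  simp only [map_smul, smul_apply, smul_eq_mul]
  ring

theorem Good.hess_det {x : X} (hG : Good G x) {f : X → ℝ} (hf : ContDiffAt ℝ 2 f x) {u v : X}
    (h : ∀ s t : ℝ, ¬(s = 0 ∧ t = 0) → 0 < hess G f x (s • u + t • v) (s • u + t • v)) :
    0 < hess G f x u u ∧ 0 < hess G f x v v ∧
      hess G f x u v ^ 2 < hess G f x u u * hess G f x v v := by
  simp only [hG.hess_lin, hG.hess_lin', hG.hess_symm hf v u] at h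
  have h1 := h 1 0 (by simp)
  have h2 := h 0 1 (by simp)
  have h3 := h (hess G f x v v) (-hess G f x u v) fun e => by simp [e.1] at h2
  simp only [one_mul, zero_mul, add_zero, zero_add] at h1 h2
  exact ⟨h1, h2, by nlinarith⟩

theorem Good.gauss2 (hG : Good G (φ y)) (hφ : ContDiffAt ℝ 3 φ y)
    (hi : Function.Injective (fderiv ℝ φ y)) (hd : Module.finrank ℝ U + 2 = Module.finrank ℝ X)
    {f g : X → ℝ} (hf : ContDiffAt ℝ 2 f (φ y)) (hg : ContDiffAt ℝ 2 g (φ y)) {c d : ℝ}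
    (h1 : ∀ᶠ z in 𝓝 y, f (φ z) = c) (h2 : ∀ᶠ z in 𝓝 y, g (φ z) = d) {n m : X}
    (hn : G (φ y) n = fderiv ℝ f (φ y)) (hm : G (φ y) m = fderiv ℝ g (φ y))
    (hnm : LinearIndependent ℝ ![n, m]) (ho : G (φ y) m n ≤ 0)
    (pf : ∀ w, w ≠ 0 → 0 < hess G f (φ y) (fderiv ℝ φ y w) (fderiv ℝ φ y w))
    (pg : ∀ w, w ≠ 0 → 0 < hess G g (φ y) (fderiv ℝ φ y w) (fderiv ℝ φ y w)) {a b : U}
    (hab : LinearIndependent ℝ ![a, b]) :
    sec G (φ y) (fderiv ℝ φ y a) (fderiv ℝ φ y b) < sec (MP_c00cc5_gt.pull G φ) y a b := by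
  obtain ⟨l1, l2⟩ := level_d hf (hφ.of_le (by norm_num)) h1 G
  obtain ⟨l3, l4⟩ := level_d hg (hφ.of_le (by norm_num)) h2 G
  have A := hG.area_pos hnm
  rw [LinearIndependent.pair_iff] at hnm hab
  have k : ∀ a b, ∃ s t : ℝ, II G φ y a b = s • n + t • m ∧
      hess G f (φ y) (fderiv ℝ φ y a) (fderiv ℝ φ y b) = -(s * G (φ y) n n + t * G (φ y) n m) ∧
      hess G g (φ y) (fderiv ℝ φ y a) (fderiv ℝ φ y b) = -(s * G (φ y) n m + t * G (φ y) m m) :=
    fun a b => by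
      obtain ⟨⟨s, t⟩, hs⟩ := span_normal hG hi (N := (ContinuousLinearMap.toSpanSingleton ℝ n).coprod
        (ContinuousLinearMap.toSpanSingleton ℝ m)) (by
          rw [injective_iff_map_eq_zero]
          rintro ⟨s, t⟩ e
          exact Prod.ext (hnm s t e).1 (hnm s t e).2) (fun p w => by simp [hn, hm, l1, l3])
        (by simpa using hd) (hG.II_perp hφ hi a b)
      have e1 := l2 a b
      have e2 := l4 a b
      rw [hs, ← hn] at e1
      rw [hs, ← hm] at e2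
      simp [hG.symm0 m n] at e1 e2
      exact ⟨s, t, hs, by linarith, by linarith⟩
  obtain ⟨f1, f2, f3⟩ := hG.hess_det hf (u := fderiv ℝ φ y a) (v := fderiv ℝ φ y b) fun s t h => by
    simpa using pf (s • a + t • b) fun e => h (hab s t e)
  obtain ⟨g1, g2, g3⟩ := hG.hess_det hg (u := fderiv ℝ φ y a) (v := fderiv ℝ φ y b) fun s t h => by
    simpa using pg (s • a + t • b) fun e => h (hab s t e)
  have mx := abs_le_of_sq_le_sq (a := 2 * (hess G f (φ y) (fderiv ℝ φ y a) (fderiv ℝ φ y b) *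
    hess G g (φ y) (fderiv ℝ φ y a) (fderiv ℝ φ y b)))
    (by
      have := mul_le_mul f3.le g3.le (sq_nonneg _) (mul_pos f1 f2).le
      nlinarith [sq_nonneg (hess G f (φ y) (fderiv ℝ φ y a) (fderiv ℝ φ y a) *
        hess G g (φ y) (fderiv ℝ φ y b) (fderiv ℝ φ y b) -
        hess G g (φ y) (fderiv ℝ φ y a) (fderiv ℝ φ y a) *
        hess G f (φ y) (fderiv ℝ φ y b) (fderiv ℝ φ y b))])
    (add_pos (mul_pos f1 g2) (mul_pos g1 f2)).le
  have n0 := hG.pos n fun e => by simpa using hnm 1 0 (by simp [e])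
  have m0 := hG.pos m fun e => by simpa using hnm 0 1 (by simp [e])
  have q1 := mul_pos m0 (sub_pos.2 f3)
  have q2 := mul_pos n0 (sub_pos.2 g3)
  have q3 := mul_nonneg (neg_nonneg.2 ho) (sub_nonneg.2 ((le_abs_self _).trans mx))
  obtain ⟨s, s', s1, s2, s3⟩ := k a a
  obtain ⟨t, t', t1, t2, t3⟩ := k b b
  obtain ⟨r, r', r1, r2, r3⟩ := k a b
  rw [s2, t2, r2] at q1 q3
  rw [s3, t3, r3] at q2 q3
  rw [hG.gauss hφ hi, s1, t1, r1, add_sub_assoc, lt_add_iff_pos_right]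
  refine pos_of_mul_pos_left ?_ A.le
  simp only [area, map_add, add_apply, map_smul, smul_apply, smul_eq_mul, hG.symm0 m n] at q3 ⊢
  linarith

/-- the cone metric -/
noncomputable def cone (K : Met W) : Met (ℝ × W) := wp 1 (fun r => r ^ 2) fun p => K p.2

variable {K : Met W} {p : ℝ × W}

theorem cone_apply (K : Met W) (p A B : ℝ × W) :
    cone K p A B = A.1 * B.1 + p.1 ^ 2 * K p.2 A.2 B.2 := by
  simp [cone, wp_apply]

theorem Good.snd (hK : Good K p.2) : Good (fun q : ℝ × W => K q.2) p :=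
  ⟨hK.smooth.comp p contDiffAt_snd, continuousAt_snd.eventually hK.symm, hK.pos⟩

theorem Good.cone (hK : Good K p.2) (hp : 0 < p.1) : Good (cone K) p :=
  hK.snd.wp contDiffAt_const (contDiffAt_id.pow 2) one_pos (pow_pos hp 2)

theorem fd2_snd (hK : ContDiffAt ℝ 2 K p.2) (A B : ℝ × W) :
    fderiv ℝ (fderiv ℝ fun q : ℝ × W => K q.2) p A B = fderiv ℝ (fderiv ℝ K) p.2 A.2 B.2 := by
  have c : ContDiffAt ℝ 2 (fun q : ℝ × W => K q.2) p := hK.comp p contDiffAt_snd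
  rw [← fd_app (c2_d c), ← fd_app (c2_d hK),
    ← fd_snd (σ := fun z => fderiv ℝ K z B.2) ((c2_d hK).clm_apply (differentiableAt_const _))]
  congr 1
  refine EventuallyEq.fderiv_eq ?_
  filter_upwards [continuousAt_snd.eventually (c2_ev hK)] with q hq using fd_snd hq B

theorem Good.cone_chr (hK : Good K p.2) (hp : 0 < p.1) (A B : ℝ × W) :
    chr (MP_c00cc5_gt.cone K) p A B =
      (-(p.1 * K p.2 A.2 B.2), chr K p.2 A.2 B.2 + p.1⁻¹ • (A.1 • B.2 + B.1 • A.2)) := by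
  refine ((hK.cone hp).wit fun w => ?_).symm
  have d1 : deriv (1 : ℝ → ℝ) p.1 = 0 := deriv_const _ _
  rw [cone_apply]
  simp only [gam, MP_c00cc5_gt.cone, wp_j1 (P := 1) (B := fun r => r ^ 2) contDiffAt_const
    (contDiffAt_id.pow 2) hK.snd.smooth, d1, fd_snd (c2_d0 hK.smooth), map_add, map_smul, add_apply,
    smul_apply, smul_eq_mul, hK.chr_eq, deriv_pow_field]
  field_simp
  ring

theorem Good.cone_sec (hK : Good K p.2) (hp : 0 < p.1) (A B : ℝ × W) :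
    sec (MP_c00cc5_gt.cone K) p A B = p.1 ^ 2 * (sec K p.2 A.2 B.2 - area K p.2 A.2 B.2) := by
  have d1 : deriv (1 : ℝ → ℝ) = 0 := funext fun _ => deriv_const _ _
  have d2 : deriv (fun r : ℝ => r ^ 2) = fun r => 2 * r := funext fun r => by simp
  have d3 : deriv (0 : ℝ → ℝ) p.1 = 0 := deriv_const _ _
  have d4 : deriv (fun r : ℝ => 2 * r) p.1 = 2 := by simp
  rw [(hK.cone hp).sec_chr, hK.sec_chr, cone_apply, cone_apply]
  simp only [hK.cone_chr hp]
  simp only [r2, MP_c00cc5_gt.cone, wp_j2 (P := 1) (B := fun r => r ^ 2)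
    contDiffAt_const (contDiffAt_id.pow 2) hK.snd.smooth, d1, d2, d3, d4, fd_snd (c2_d0 hK.smooth),
    fd2_snd hK.smooth, map_add, map_smul, add_apply, smul_apply, smul_eq_mul, area,
    hK.symm0 B.2 A.2, hK.symm0 A.2 (chr _ _ _ _), hK.symm0 B.2 (chr _ _ _ _)]
  simp only [hK.chr_eq _ _ A.2, hK.chr_eq _ _ B.2, gam, hK.j1 _ B.2 A.2]
  field_simp
  ring

theorem Good.cone_hess (hK : Good K p.2) (hp : 0 < p.1) {f : W → ℝ} (hf : ContDiffAt ℝ 2 f p.2)
    (A : ℝ × W) : (∀ B : ℝ × W, fderiv ℝ (fun q : ℝ × W => q.1 * f q.2) p B =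
      B.1 * f p.2 + p.1 * fderiv ℝ f p.2 B.2) ∧
      hess (MP_c00cc5_gt.cone K) (fun q : ℝ × W => q.1 * f q.2) p A A =
        p.1 * (hess K f p.2 A.2 A.2 + f p.2 * K p.2 A.2 A.2) := by
  have c : ContDiffAt ℝ 2 (fun q : ℝ × W => q.1 * f q.2) p :=
    contDiffAt_fst.mul (hf.comp p contDiffAt_snd)
  have j := fun B : ℝ × W => ((J2.line p B).comp c).unique
    ((J2.line p.1 B.1).mul ((J2.line p.2 B.2).comp hf))
  refine ⟨fun B => (j B).1, ?_⟩
  have := (j A).2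
  simp only [map_zero, add_zero] at this
  rw [hess, this, (j _).1, hK.cone_chr hp, hess]
  simp only [map_add, map_smul, smul_eq_mul]
  field_simp
  ring

theorem pull_cone (K : Met W) {ρ : U → ℝ} {σ : U → W} (hρ : DifferentiableAt ℝ ρ y)
    (hσ : DifferentiableAt ℝ σ y) (a b : U) : pull (cone K) (fun z => (ρ z, σ z)) y a b =
      fderiv ℝ ρ y a * fderiv ℝ ρ y b + ρ y ^ 2 * pull K σ y a b := by
  simp [pull_apply, cone_apply, hρ.fderiv_prodMk hσ]

theorem level_sec {ρ : U → ℝ} {σ : U → W} (hK : Good K (σ y))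
    (hc : ∀ u v, area K (σ y) u v ≤ sec K (σ y) u v) {f g : W → ℝ} (hf : ContDiffAt ℝ 2 f (σ y))
    (hg : ContDiffAt ℝ 2 g (σ y))
    (pf : ∀ u, u ≠ 0 → 0 < hess K f (σ y) u u + f (σ y) * K (σ y) u u)
    (pg : ∀ u, u ≠ 0 → 0 < hess K g (σ y) u u + g (σ y) * K (σ y) u u)
    (ho : f (σ y) * g (σ y) + fderiv ℝ g (σ y) ((K (σ y)).inverse (fderiv ℝ f (σ y))) < 0) {u : W}
    (hu : f (σ y) * fderiv ℝ g (σ y) u - g (σ y) * fderiv ℝ f (σ y) u ≠ 0)
    (hρ : ContDiffAt ℝ 3 ρ y) (hσ : ContDiffAt ℝ 3 σ y) (ρ0 : 0 < ρ y)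
    (hi : Function.Injective (fderiv ℝ σ y)) (hd : Module.finrank ℝ U + 1 = Module.finrank ℝ W)
    {c d : ℝ} (h1 : ∀ᶠ z in 𝓝 y, ρ z * f (σ z) = c) (h2 : ∀ᶠ z in 𝓝 y, ρ z * g (σ z) = d) {a b : U}
    (hab : LinearIndependent ℝ ![a, b]) : 0 < sec (pull (cone K) fun z => (ρ z, σ z)) y a b := by
  have hC : Good (cone K) (ρ y, σ y) := Good.cone hK ρ0
  have dι : ∀ w, (fderiv ℝ (fun z => (ρ z, σ z)) y w).2 = fderiv ℝ σ y w := fun w => by
    simp [(hρ.differentiableAt (by simp)).fderiv_prodMk (hσ.differentiableAt (by simp))]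
  have inv := fun L => (inv_of_pos hK.pos).self_apply_inverse L
  have gr : ∀ {f : W → ℝ}, ContDiffAt ℝ 2 f (σ y) → cone K (ρ y, σ y)
      (f (σ y), (ρ y)⁻¹ • (K (σ y)).inverse (fderiv ℝ f (σ y))) =
      fderiv ℝ (fun q : ℝ × W => q.1 * f q.2) (ρ y, σ y) := fun hf => by
    refine ContinuousLinearMap.ext fun B => ?_
    rw [(Good.cone_hess (p := (ρ y, σ y)) hK ρ0 hf 0).1, cone_apply]
    simp only [map_smul, smul_apply, smul_eq_mul, inv]
    field_simp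
  have ph : ∀ {f : W → ℝ}, ContDiffAt ℝ 2 f (σ y) →
      (∀ u, u ≠ 0 → 0 < hess K f (σ y) u u + f (σ y) * K (σ y) u u) → ∀ w, w ≠ 0 →
      0 < hess (cone K) (fun q : ℝ × W => q.1 * f q.2) (ρ y, σ y)
        (fderiv ℝ (fun z => (ρ z, σ z)) y w) (fderiv ℝ (fun z => (ρ z, σ z)) y w) :=
    fun hf pf w hw => by
      rw [(Good.cone_hess (p := (ρ y, σ y)) hK ρ0 hf _).2, dι]
      exact mul_pos ρ0 (pf _ fun e => hw (hi (e.trans (map_zero _).symm)))
  refine lt_of_le_of_lt ?_ (Good.gauss2 (φ := fun z => (ρ z, σ z)) hC (hρ.prodMk hσ)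
    (fun a b e => hi (by rw [← dι, ← dι, e])) (by rw [Module.finrank_prod, ← hd]; simp; ring)
    (f := fun q => q.1 * f q.2) (g := fun q => q.1 * g q.2)
    (contDiffAt_fst.mul (ContDiffAt.comp (f := Prod.snd) (ρ y, σ y) hf contDiffAt_snd))
    (contDiffAt_fst.mul (ContDiffAt.comp (f := Prod.snd) (ρ y, σ y) hg contDiffAt_snd))
    h1 h2 (gr hf) (gr hg) ?_ ?_ (ph hf pf) (ph hg pg) hab)
  · rw [Good.cone_sec (p := (ρ y, σ y)) hK ρ0]
    exact mul_nonneg (sq_nonneg _) (sub_nonneg.2 (hc _ _))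
  · rw [LinearIndependent.pair_iff]
    intro s t e
    have e1 := congrArg Prod.fst e
    have e2 := congrArg (fun q => K (σ y) (ρ y • q.2) u) e
    simp [smul_smul, ρ0.ne', mul_left_comm (ρ y), inv] at e1 e2
    constructor
    · refine (mul_eq_zero.1 (?_ : s * _ = 0)).resolve_right hu
      linear_combination fderiv ℝ g (σ y) u * e1 - g (σ y) * e2
    · refine (mul_eq_zero.1 (?_ : t * _ = 0)).resolve_right hu
      linear_combination f (σ y) * e2 - fderiv ℝ f (σ y) u * e1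
  · rw [gr hg, (Good.cone_hess (p := (ρ y, σ y)) hK ρ0 hg 0).1]
    simp only [map_smul, smul_eq_mul, mul_inv_cancel_left₀ ρ0.ne']
    exact ho.le

end Pool.Agent.Lib.MP_c00cc5_gt
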