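import Pool.Agent.Lib.MP_c00cc5_gt.Defs

set_option autoImplicit false
set_option maxSynthPendingDepth 3
set_option linter.unusedSectionVars false
set_option linter.unusedSimpArgs false

namespace Pool.Agent.Lib.MP_c00cc5_gt

/-! The curvature of a metric in terms of its two-jet. -/

section

open scoped ContDiff RealInnerProductSpace Topology
open Filter


variable {V W : Type} [NormedAddCommGroup V] [NormedSpace ℝ V] [NormedAddCommGroup W]
  [NormedSpace ℝ W]

/-- a family of inner products near `x` -/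
structure Good {X : Type} [NormedAddCommGroup X] [NormedSpace ℝ X]
    (G : X → V →L[ℝ] V →L[ℝ] ℝ) (x : X) : Prop where
  smooth : ContDiffAt ℝ 2 G x
  symm : ∀ᶠ y in 𝓝 x, ∀ u v, G y u v = G y v u
  pos : ∀ v, v ≠ 0 → 0 < G x v v

section jets

variable {X Y : Type} [NormedAddCommGroup X] [NormedSpace ℝ X] [NormedAddCommGroup Y]
  [NormedSpace ℝ Y]

theorem fd_app {K : X → V →L[ℝ] Y} {x : X} (h : DifferentiableAt ℝ K x) (a : V) (w : X) :
    fderiv ℝ (fun y => K y a) x w = fderiv ℝ K x w a := by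
  rw [fderiv_clm_apply h (differentiableAt_const a)]
  simp

theorem fd_app2 {K : X → V →L[ℝ] W →L[ℝ] Y} {x : X} (h : DifferentiableAt ℝ K x) (a : V) (b : W)
    (w : X) : fderiv ℝ (fun y => K y a b) x w = fderiv ℝ K x w a b := by
  rw [fd_app (K := fun y => K y a) (h.clm_apply (differentiableAt_const a)), fd_app h]

theorem c2_ev {K : X → Y} {x : X} (h : ContDiffAt ℝ 2 K x) :
    ∀ᶠ y in 𝓝 x, DifferentiableAt ℝ K y :=
  (h.eventually (by simp)).mono fun _ hy => hy.differentiableAt (by simp)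

theorem c2_d {K : X → Y} {x : X} (h : ContDiffAt ℝ 2 K x) :
    DifferentiableAt ℝ (fderiv ℝ K) x :=
  (h.fderiv_right (m := 1) (by norm_num)).differentiableAt (by simp)

theorem c2_d0 {K : X → Y} {x : X} (h : ContDiffAt ℝ 2 K x) : DifferentiableAt ℝ K x :=
  h.differentiableAt (by simp)

theorem c2_symm {K : X → Y} {x : X} (h : ContDiffAt ℝ 2 K x) (v w : X) :
    fderiv ℝ (fderiv ℝ K) x v w = fderiv ℝ (fderiv ℝ K) x w v :=
  (h.isSymmSndFDerivAt (by simp)).eq v w

theorem fd_app3 {K : X → V →L[ℝ] W →L[ℝ] Y} {x : X} (h : ContDiffAt ℝ 2 K x) (a : V) (b : W)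
    (w w' : X) :
    fderiv ℝ (fun y => fderiv ℝ K y w a b) x w' = fderiv ℝ (fderiv ℝ K) x w' w a b := by
  rw [fd_app2 (K := fun y => fderiv ℝ K y w) ((c2_d h).clm_apply (differentiableAt_const w)),
    fd_app (c2_d h)]

theorem j1_symm {K : X → V →L[ℝ] V →L[ℝ] Y} {x : X} (h : DifferentiableAt ℝ K x)
    (hs : ∀ᶠ y in 𝓝 x, ∀ u v, K y u v = K y v u) (w : X) (a b : V) :
    fderiv ℝ K x w a b = fderiv ℝ K x w b a := by
  rw [← fd_app2 h, ← fd_app2 h]
  have : (fun y => K y a b) =ᶠ[𝓝 x] fun y => K y b a := hs.mono fun y hy => hy a b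
  rw [this.fderiv_eq]

theorem j1_symm_ev {K : X → V →L[ℝ] V →L[ℝ] Y} {x : X} (h : ContDiffAt ℝ 2 K x)
    (hs : ∀ᶠ y in 𝓝 x, ∀ u v, K y u v = K y v u) :
    ∀ᶠ y in 𝓝 x, ∀ w a b, fderiv ℝ K y w a b = fderiv ℝ K y w b a := by
  filter_upwards [c2_ev h, hs.eventually_nhds] with y h1 h2 w a b using j1_symm h1 h2 w a b

theorem j2_symm {K : X → V →L[ℝ] V →L[ℝ] Y} {x : X} (h : ContDiffAt ℝ 2 K x)
    (hs : ∀ᶠ y in 𝓝 x, ∀ u v, K y u v = K y v u) (w' w : X) (a b : V) :
    fderiv ℝ (fderiv ℝ K) x w' w a b = fderiv ℝ (fderiv ℝ K) x w' w b a := by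
  rw [← fd_app3 h, ← fd_app3 h]
  have : (fun y => fderiv ℝ K y w a b) =ᶠ[𝓝 x] fun y => fderiv ℝ K y w b a :=
    (j1_symm_ev h hs).mono fun y hy => hy w a b
  rw [this.fderiv_eq]

theorem Good.symm0 {G : X → V →L[ℝ] V →L[ℝ] ℝ} {x : X} (h : Good G x) (u v : V) :
    G x u v = G x v u :=
  h.symm.self_of_nhds u v

theorem Good.j1 {G : X → V →L[ℝ] V →L[ℝ] ℝ} {x : X} (h : Good G x) (w : X) (a b : V) :
    fderiv ℝ G x w a b = fderiv ℝ G x w b a := j1_symm (c2_d0 h.smooth) h.symm w a b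

theorem Good.j2 {G : X → V →L[ℝ] V →L[ℝ] ℝ} {x : X} (h : Good G x) (w' w : X) (a b : V) :
    fderiv ℝ (fderiv ℝ G) x w' w a b = fderiv ℝ (fderiv ℝ G) x w' w b a :=
  j2_symm h.smooth h.symm w' w a b

theorem Good.j2' {G : X → V →L[ℝ] V →L[ℝ] ℝ} {x : X} (h : Good G x) (w' w : X) (a b : V) :
    fderiv ℝ (fderiv ℝ G) x w' w a b = fderiv ℝ (fderiv ℝ G) x w w' a b := by
  rw [c2_symm h.smooth]

end jets

/-- Christoffel symbols of the first kind -/
noncomputable def gam (G : Met V) (x u v w : V) : ℝ :=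
  (fderiv ℝ G x u v w + fderiv ℝ G x v u w - fderiv ℝ G x w u v) / 2

/-- the second order part of the curvature -/
noncomputable def r2 (G : Met V) (x u v : V) : ℝ :=
  -fderiv ℝ (fderiv ℝ G) x u u v v / 2 - fderiv ℝ (fderiv ℝ G) x v v u u / 2 +
    fderiv ℝ (fderiv ℝ G) x u v u v

variable [FiniteDimensional ℝ V]

theorem inv_of_pos {g : V →L[ℝ] V →L[ℝ] ℝ} (h : ∀ v, v ≠ 0 → 0 < g v v) : g.IsInvertible := by
  have hi : Function.Injective g := by
    rw [injective_iff_map_eq_zero]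
    intro v hv
    by_contra h0
    have := h v h0
    rw [hv] at this
    simp at this
  have hd : Module.finrank ℝ V = Module.finrank ℝ (V →L[ℝ] ℝ) := by
    rw [← (LinearMap.toContinuousLinearMap : (V →ₗ[ℝ] ℝ) ≃ₗ[ℝ] V →L[ℝ] ℝ).finrank_eq]
    exact (Subspace.dual_finrank_eq).symm
  have hs : Function.Surjective g :=
    (LinearMap.injective_iff_surjective_of_finrank_eq_finrank (f := (g : V →ₗ[ℝ] V →L[ℝ] ℝ)) hd).1
      hi
  exact ⟨(LinearEquiv.ofBijective (g : V →ₗ[ℝ] V →L[ℝ] ℝ) ⟨hi, hs⟩).toContinuousLinearEquiv, by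
    ext v; rfl⟩

theorem Good.inv_ev {G : Met V} {x : V} (h : Good G x) : ∀ᶠ y in 𝓝 x, (G y).IsInvertible := by
  have : CompleteSpace V := FiniteDimensional.complete ℝ V
  obtain ⟨e, he⟩ := inv_of_pos h.pos
  have := h.smooth.continuousAt.preimage_mem_nhds
    ((ContinuousLinearEquiv.isOpen (𝕜 := ℝ) (E := V) (F := V →L[ℝ] ℝ)).mem_nhds ⟨e, he⟩)
  filter_upwards [this] with y hy
  obtain ⟨e', he'⟩ := hy
  exact ⟨e', he'⟩

omit [FiniteDimensional ℝ V] in
theorem chr_spec {G : Met V} {x : V} (hd : DifferentiableAt ℝ G x) (hi : (G x).IsInvertible)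
    (u v w : V) : G x (chr G x u v) w = gam G x u v w := by
  rw [chr, hi.self_apply_inverse, gam]
  simp only [smul_apply, sub_apply,
    add_apply, fd_app2 hd, smul_eq_mul]
  ring

theorem Good.chr_eq {G : Met V} {x : V} (h : Good G x) (u v w : V) :
    G x (chr G x u v) w = gam G x u v w :=
  chr_spec (c2_d0 h.smooth) (inv_of_pos h.pos) u v w

theorem Good.chr_c1 {G : Met V} {x : V} (h : Good G x) (u v : V) :
    ContDiffAt ℝ 1 (fun y => chr G y u v) x := by
  have : CompleteSpace V := FiniteDimensional.complete ℝ V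
  have h1 : ContDiffAt ℝ 1 (fderiv ℝ G) x := h.smooth.fderiv_right (m := 1) (by norm_num)
  have h2 : ContDiffAt ℝ 1 (fderiv ℝ fun y => G y u v) x :=
    ((h.smooth.clm_apply contDiffAt_const).clm_apply contDiffAt_const).fderiv_right (m := 1)
      (by norm_num)
  have h3 : ContDiffAt ℝ 1 (fun y => (G y).inverse) x :=
    (inv_of_pos h.pos).contDiffAt_map_inverse.comp x (h.smooth.of_le (by norm_num))
  unfold chr
  exact h3.clm_apply (((((h1.clm_apply contDiffAt_const).clm_apply contDiffAt_const).add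
    ((h1.clm_apply contDiffAt_const).clm_apply contDiffAt_const)).sub h2).const_smul _)

theorem Good.dchr {G : Met V} {x : V} (h : Good G x) (u v w z : V) :
    G x (fderiv ℝ (fun y => chr G y v w) x u) z =
      (fderiv ℝ (fderiv ℝ G) x u v w z + fderiv ℝ (fderiv ℝ G) x u w v z -
        fderiv ℝ (fderiv ℝ G) x u z v w) / 2 - fderiv ℝ G x u (chr G x v w) z := by
  have e : (fun y => G y (chr G y v w) z) =ᶠ[𝓝 x] fun y => gam G y v w z := by
    filter_upwards [c2_ev h.smooth, h.inv_ev] with y h1 h2 using chr_spec h1 h2 v w z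
  have d1 := (((c2_d0 h.smooth).hasFDerivAt.clm_apply
    ((h.chr_c1 v w).differentiableAt (by simp)).hasFDerivAt).clm_apply (hasFDerivAt_const z x))
  have dd : ∀ a b c : V, HasFDerivAt (fun y => fderiv ℝ G y a b c)
      (fderiv ℝ (fun y => fderiv ℝ G y a b c) x) x := fun a b c =>
    ((((c2_d h.smooth).clm_apply (differentiableAt_const a)).clm_apply
      (differentiableAt_const b)).clm_apply (differentiableAt_const c)).hasFDerivAt
  have d2 := (((dd v w z).add (dd w v z)).sub (dd z v w)).mul_const (1 / 2 : ℝ)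
  have e2 : (fun y => gam G y v w z) = fun y =>
      ((fun y => fderiv ℝ G y v w z) + (fun y => fderiv ℝ G y w v z) -
        fun y => fderiv ℝ G y z v w) y * (1 / 2 : ℝ) := by
    funext y; simp only [gam, Pi.add_apply, Pi.sub_apply]; ring
  have e3 := d1.unique ((e2 ▸ d2).congr_of_eventuallyEq e)
  have e4 := congrArg (fun L => L u) e3
  simp only [add_apply, ContinuousLinearMap.comp_apply,
    ContinuousLinearMap.flip_apply, zero_apply, map_zero,
    smul_apply, sub_apply, fd_app3 h.smooth,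
    smul_eq_mul] at e4
  linarith

theorem Good.sec_chr {G : Met V} {x : V} (h : Good G x) (u v : V) :
    sec G x u v = r2 G x u v + G x (chr G x u v) (chr G x u v) -
      G x (chr G x u u) (chr G x v v) := by
  rw [sec, curv]
  simp only [map_add, map_sub, add_apply, sub_apply,
    h.dchr, h.chr_eq, gam, r2]
  rw [h.j2 u v v u, h.j2 v u v u, h.j1 u (chr G x v v) u, h.j1 v (chr G x u v) u,
    h.j1 u v (chr G x u v), h.j1 (chr G x u v) v u]
  ring

theorem Good.wit {G : Met V} {x : V} (h : Good G x) {u v X : V}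
    (hX : ∀ w, G x X w = gam G x u v w) : X = chr G x u v := by
  by_contra h0
  have := h.pos _ (sub_ne_zero.2 h0)
  rw [map_sub (G x), sub_apply, hX, h.chr_eq] at this
  simp at this

theorem Good.sec_eq {G : Met V} {x : V} (h : Good G x) {u v X Y Z : V}
    (hX : ∀ w, G x X w = gam G x u v w) (hY : ∀ w, G x Y w = gam G x u u w)
    (hZ : ∀ w, G x Z w = gam G x v v w) : sec G x u v = r2 G x u v + G x X X - G x Y Z := by
  rw [h.wit hX, h.wit hY, h.wit hZ, h.sec_chr]

end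

/-! Change of basis, scaling, locality, continuity and invariance of the curvature. -/

section

open scoped ContDiff RealInnerProductSpace Topology
open Filter


variable {V W : Type} [NormedAddCommGroup V] [NormedSpace ℝ V] [NormedAddCommGroup W]
  [NormedSpace ℝ W]

theorem chr_congr {G G' : Met V} {x : V} (h : G =ᶠ[𝓝 x] G') (u v : V) :
    chr G x u v = chr G' x u v := by
  have e : (fun y => G y u v) =ᶠ[𝓝 x] fun y => G' y u v := h.mono fun y hy => by simp only [hy]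
  rw [chr, chr, h.self_of_nhds, h.fderiv_eq, e.fderiv_eq]

theorem sec_congr {G G' : Met V} {x : V} (h : G =ᶠ[𝓝 x] G') (u v : V) :
    sec G x u v = sec G' x u v := by
  have e : ∀ a b, (fun y => chr G y a b) =ᶠ[𝓝 x] fun y => chr G' y a b := fun a b =>
    h.eventuallyEq_nhds.mono fun y hy => chr_congr hy a b
  simp only [sec, curv, h.self_of_nhds, (e _ _).fderiv_eq, chr_congr h]

theorem Good.congr {X : Type} [NormedAddCommGroup X] [NormedSpace ℝ X]
    {G G' : X → V →L[ℝ] V →L[ℝ] ℝ} {x : X} (hG : Good G x) (h : G =ᶠ[𝓝 x] G') : Good G' x where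
  smooth := hG.smooth.congr_of_eventuallyEq h.symm
  symm := by
    filter_upwards [hG.symm, h] with y h1 h2
    rw [← h2]; exact h1
  pos := by rw [← h.self_of_nhds]; exact hG.pos

theorem area_gl2 {G : Met V} {x : V} (h : ∀ u v, G x u v = G x v u) (u v : V) (a b c d : ℝ) :
    area G x (a • u + b • v) (c • u + d • v) = (a * d - b * c) ^ 2 * area G x u v := by
  simp only [area, map_add, map_smul, add_apply, smul_apply, smul_eq_mul, h v u]
  ring

variable [FiniteDimensional ℝ V]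

theorem Good.sec_gl2 {G : Met V} {x : V} (h : Good G x) (u v : V) (a b c d : ℝ) :
    sec G x (a • u + b • v) (c • u + d • v) = (a * d - b * c) ^ 2 * sec G x u v := by
  set X := chr G x u v
  set Y := chr G x u u
  set Z := chr G x v v
  have hX := h.chr_eq u v
  have hY := h.chr_eq u u
  have hZ := h.chr_eq v v
  have key : ∀ a b c d : ℝ, ∀ w, G x ((a * c) • Y + (a * d + b * c) • X + (b * d) • Z) w =
      gam G x (a • u + b • v) (c • u + d • v) w := by
    intro a b c d w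
    simp only [map_add, map_smul, add_apply, smul_apply, smul_eq_mul]
    rw [hX, hY, hZ]
    simp only [gam, map_add, map_smul, add_apply, smul_apply, smul_eq_mul, h.j1 w v u]
    ring
  rw [h.sec_eq (key a b c d) (key a b a b) (key c d c d), h.sec_chr]
  simp only [r2, map_add, map_smul, add_apply, smul_apply, smul_eq_mul]
  rw [h.symm0 Y X, h.symm0 Z X, h.symm0 Z Y]
  simp only [h.j2' v u, h.j2 _ _ v u]
  ring

theorem Good.smul {G : Met V} {x : V} (h : Good G x) {c : ℝ} (hc : 0 < c) :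
    Good (fun y => c • G y) x where
  smooth := h.smooth.const_smul c
  symm := h.symm.mono fun y hy u v => by simp only [smul_apply, hy u v]
  pos := fun v hv => by simpa using mul_pos hc (h.pos v hv)

theorem Good.sec_smul {G : Met V} {x : V} (h : Good G x) {c : ℝ} (hc : 0 < c) (u v : V) :
    sec (fun y => c • G y) x u v = c * sec G x u v := by
  have e1 : fderiv ℝ (fun y => c • G y) =ᶠ[𝓝 x] fun y => c • fderiv ℝ G y :=
    (c2_ev h.smooth).mono fun y hy => fderiv_fun_const_smul hy c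
  have e2 : fderiv ℝ (fderiv ℝ fun y => c • G y) x = c • fderiv ℝ (fderiv ℝ G) x := by
    rw [e1.fderiv_eq, fderiv_fun_const_smul (c2_d h.smooth)]
  have key : ∀ a b w, (c • G x) (chr G x a b) w = gam (fun y => c • G y) x a b w := by
    intro a b w
    simp only [gam, e1.self_of_nhds, smul_apply, smul_eq_mul, h.chr_eq]
    ring
  rw [(h.smul hc).sec_eq (key u v) (key u u) (key v v), h.sec_chr]
  simp only [r2, e2, smul_apply, smul_eq_mul]
  ring

theorem pos_ev {X : Type} [TopologicalSpace X] {K : X → V →L[ℝ] V →L[ℝ] ℝ} {x : X}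
    (h : ContinuousAt K x) (hp : ∀ v, v ≠ 0 → 0 < K x v v) :
    ∀ᶠ y in 𝓝 x, ∀ v, v ≠ 0 → 0 < K y v v := by
  have := (isCompact_sphere (0 : V) 1).eventually_forall_of_forall_eventually (x₀ := x)
    (P := fun y v => 0 < K y v v) (fun v hv => by
      have c : ContinuousAt (fun z : X × V => K z.1 z.2 z.2) (x, v) :=
        ((h.comp_of_eq continuousAt_fst rfl).clm_apply continuousAt_snd).clm_apply continuousAt_snd
      exact c.eventually (lt_mem_nhds (hp v (by rintro rfl; simp at hv))))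
  filter_upwards [this] with y hy v hv
  have hn : 0 < ‖v‖ := norm_pos_iff.2 hv
  have h1 := hy (‖v‖⁻¹ • v) (by simp [norm_smul, hn.ne'])
  simp only [map_smul, smul_apply, smul_eq_mul] at h1
  have h2 : 0 < ‖v‖⁻¹ := inv_pos.2 hn
  exact pos_of_mul_pos_right (pos_of_mul_pos_right h1 h2.le) h2.le

theorem Good.ev {X : Type} [NormedAddCommGroup X] [NormedSpace ℝ X]
    {G : X → V →L[ℝ] V →L[ℝ] ℝ} {x : X} (h : Good G x) : ∀ᶠ y in 𝓝 x, Good G y := by
  filter_upwards [h.smooth.eventually (by simp), h.symm.eventually_nhds,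
    pos_ev h.smooth.continuousAt h.pos] with y h1 h2 h3 using ⟨h1, h2, h3⟩

theorem Good.chr_cont {G : Met V} {x : V} (h : Good G x) {X : Type} [TopologicalSpace X]
    {z a b : X → V} {p : X} (hz : ContinuousAt z p) (e : z p = x) (ha : ContinuousAt a p)
    (hb : ContinuousAt b p) : ContinuousAt (fun q => chr G (z q) (a q) (b q)) p := by
  have : CompleteSpace V := FiniteDimensional.complete ℝ V
  have h1 : ContinuousAt (fun q => fderiv ℝ G (z q)) p :=
    (c2_d h.smooth).continuousAt.comp_of_eq hz e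
  have h3 : ContinuousAt (fun q => (G (z q)).inverse) p :=
    ((inv_of_pos h.pos).contDiffAt_map_inverse (n := 0)).continuousAt.comp_of_eq
      (h.smooth.continuousAt.comp_of_eq hz e) (by simp [e])
  have h2 : ContinuousAt (fun q => fderiv ℝ (fun y => G y (a q) (b q)) (z q)) p := by
    rw [continuousAt_clm_apply]
    intro w
    refine (((h1.clm_apply (continuousAt_const (y := w))).clm_apply ha).clm_apply hb).congr ?_
    have : ∀ᶠ q in 𝓝 p, DifferentiableAt ℝ G (z q) := hz.eventually (e ▸ c2_ev h.smooth)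
    filter_upwards [this] with q hq using (fd_app2 hq _ _ _).symm
  unfold chr
  exact h3.clm_apply (((((h1.clm_apply ha).clm_apply hb).add
    ((h1.clm_apply hb).clm_apply ha)).sub h2).const_smul (1 / 2 : ℝ))

theorem Good.sec_cont {G : Met V} {x : V} (h : Good G x) {X : Type} [TopologicalSpace X]
    {z a b : X → V} {p : X} (hz : ContinuousAt z p) (e : z p = x) (ha : ContinuousAt a p)
    (hb : ContinuousAt b p) : ContinuousAt (fun q => sec G (z q) (a q) (b q)) p := by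
  have h0 : ContinuousAt (fun q => G (z q)) p := h.smooth.continuousAt.comp_of_eq hz e
  have h2 : ContinuousAt (fun q => fderiv ℝ (fderiv ℝ G) (z q)) p :=
    (((h.smooth.fderiv_right (m := 1) (by norm_num)).fderiv_right (m := 0)
      (by norm_num)).continuousAt).comp_of_eq hz e
  have c : ContinuousAt (fun q => r2 G (z q) (a q) (b q) +
      G (z q) (chr G (z q) (a q) (b q)) (chr G (z q) (a q) (b q)) -
      G (z q) (chr G (z q) (a q) (a q)) (chr G (z q) (b q) (b q))) p := by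
    refine (ContinuousAt.add ?_ ((h0.clm_apply (h.chr_cont hz e ha hb)).clm_apply
      (h.chr_cont hz e ha hb))).sub ((h0.clm_apply (h.chr_cont hz e ha ha)).clm_apply
      (h.chr_cont hz e hb hb))
    unfold r2
    exact ((((((h2.clm_apply ha).clm_apply ha).clm_apply hb).clm_apply hb).neg.div_const _).sub
      (((((h2.clm_apply hb).clm_apply hb).clm_apply ha).clm_apply ha).div_const _)).add
      ((((h2.clm_apply ha).clm_apply hb).clm_apply ha).clm_apply hb)
  refine c.congr ?_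
  filter_upwards [hz.eventually (e ▸ h.ev)] with q hq using (hq.sec_chr _ _).symm

end

/-! Invariance of the curvature under local diffeomorphisms. -/

section

open scoped ContDiff RealInnerProductSpace Topology
open Filter


variable {V W U : Type} [NormedAddCommGroup V] [NormedSpace ℝ V] [NormedAddCommGroup W]
  [NormedSpace ℝ W] [NormedAddCommGroup U] [NormedSpace ℝ U]

theorem cda_clm {X Y : Type} [NormedAddCommGroup X] [NormedSpace ℝ X] [NormedAddCommGroup Y]
    [NormedSpace ℝ Y] [FiniteDimensional ℝ V] {n : WithTop ℕ∞} {f : X → V →L[ℝ] Y} {x : X}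
    (h : ∀ v, ContDiffAt ℝ n (fun y => f y v) x) : ContDiffAt ℝ n f x := by
  let d := Module.finrank ℝ V
  have hd : d = Module.finrank ℝ (Fin d → ℝ) := (Module.finrank_fin_fun ℝ).symm
  let e₁ := ContinuousLinearEquiv.ofFinrankEq hd
  let e₂ := (e₁.arrowCongr (1 : Y ≃L[ℝ] Y)).trans (ContinuousLinearEquiv.piRing (Fin d))
  rw [← Function.id_comp f, ← e₂.symm_comp_self]
  exact e₂.symm.contDiff.contDiffAt.comp x (contDiffAt_pi.mpr fun i => h _)

theorem cda2 {X : Type} [NormedAddCommGroup X] [NormedSpace ℝ X] [FiniteDimensional ℝ V]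
    {n : WithTop ℕ∞} {f : X → V →L[ℝ] V →L[ℝ] ℝ} {x : X}
    (h : ∀ u v, ContDiffAt ℝ n (fun y => f y u v) x) : ContDiffAt ℝ n f x :=
  cda_clm fun u => cda_clm fun v => h u v

@[simp] theorem pull_apply (G : Met V) (φ : W → V) (y a b : W) :
    pull G φ y a b = G (φ y) (fderiv ℝ φ y a) (fderiv ℝ φ y b) := rfl

theorem pull_comp (G : Met V) {φ : W → V} {ψ : U → W} {y : U} (hφ : DifferentiableAt ℝ φ (ψ y))
    (hψ : DifferentiableAt ℝ ψ y) : pull (pull G φ) ψ y = pull G (fun z => φ (ψ z)) y := by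
  ext a b
  simp only [pull_apply, fderiv_fun_comp y hφ hψ, ContinuousLinearMap.comp_apply]

theorem pull_congr (G : Met V) {φ ψ : W → V} {y : W} (h : φ =ᶠ[𝓝 y] ψ) :
    pull G φ y = pull G ψ y := by
  ext a b
  simp only [pull_apply, h.self_of_nhds, h.fderiv_eq]

theorem pull_cda [FiniteDimensional ℝ W] {n m : WithTop ℕ∞} {G : Met V} {φ : W → V} {y : W}
    (hG : ContDiffAt ℝ n G (φ y)) (hφ : ContDiffAt ℝ m φ y) (hm : n + 1 ≤ m) :
    ContDiffAt ℝ n (pull G φ) y := by
  have h1 : ContDiffAt ℝ n (fderiv ℝ φ) y := hφ.fderiv_right hm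
  refine cda2 fun a b => ?_
  simp only [pull_apply]
  exact ((hG.comp y (hφ.of_le (le_self_add.trans hm))).clm_apply
    (h1.clm_apply contDiffAt_const)).clm_apply (h1.clm_apply contDiffAt_const)

variable [FiniteDimensional ℝ V] [FiniteDimensional ℝ W]

theorem Good.pull {G : Met V} {φ : W → V} {y : W} (hG : Good G (φ y)) (hφ : ContDiffAt ℝ 3 φ y)
    (hi : Function.Injective (fderiv ℝ φ y)) : Good (pull G φ) y where
  smooth := pull_cda hG.smooth hφ (by norm_num)
  symm := (hφ.continuousAt.eventually hG.symm).mono fun z hz a b => hz _ _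
  pos := fun v hv => hG.pos _ fun h => hv (hi (h.trans (map_zero _).symm))

theorem pull_j1 {G : Met V} {φ : W → V} {y : W} (hG : ContDiffAt ℝ 2 G (φ y))
    (hφ : ContDiffAt ℝ 3 φ y) (w a b : W) :
    fderiv ℝ (pull G φ) y w a b =
      fderiv ℝ G (φ y) (fderiv ℝ φ y w) (fderiv ℝ φ y a) (fderiv ℝ φ y b) +
      G (φ y) (fderiv ℝ (fderiv ℝ φ) y w a) (fderiv ℝ φ y b) +
      G (φ y) (fderiv ℝ φ y a) (fderiv ℝ (fderiv ℝ φ) y w b) := by
  have h2 : ContDiffAt ℝ 2 φ y := hφ.of_le (by norm_num)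
  have d0 := (c2_d0 hG).hasFDerivAt.comp y (c2_d0 h2).hasFDerivAt
  have d1 := (c2_d h2).hasFDerivAt
  have d := (d0.clm_apply (d1.clm_apply (hasFDerivAt_const a y))).clm_apply
    (d1.clm_apply (hasFDerivAt_const b y))
  rw [← fd_app2 (c2_d0 (pull_cda hG hφ (by norm_num)))]
  simp only [pull_apply]
  erw [d.fderiv]
  simp only [add_apply, ContinuousLinearMap.comp_apply, ContinuousLinearMap.flip_apply, zero_apply,
    map_zero, zero_add, Function.comp]
  ring

theorem pull_j2 {G : Met V} {φ : W → V} {y : W} (hG : ContDiffAt ℝ 2 G (φ y))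
    (hφ : ContDiffAt ℝ 3 φ y) (v w a b : W) :
    fderiv ℝ (fderiv ℝ (pull G φ)) y v w a b =
      fderiv ℝ (fderiv ℝ G) (φ y) (fderiv ℝ φ y v) (fderiv ℝ φ y w) (fderiv ℝ φ y a)
        (fderiv ℝ φ y b) +
      fderiv ℝ G (φ y) (fderiv ℝ (fderiv ℝ φ) y v w) (fderiv ℝ φ y a) (fderiv ℝ φ y b) +
      fderiv ℝ G (φ y) (fderiv ℝ φ y w) (fderiv ℝ (fderiv ℝ φ) y v a) (fderiv ℝ φ y b) +
      fderiv ℝ G (φ y) (fderiv ℝ φ y w) (fderiv ℝ φ y a) (fderiv ℝ (fderiv ℝ φ) y v b) +
      (fderiv ℝ G (φ y) (fderiv ℝ φ y v) (fderiv ℝ (fderiv ℝ φ) y w a) (fderiv ℝ φ y b) +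
      G (φ y) (fderiv ℝ (fderiv ℝ (fderiv ℝ φ)) y v w a) (fderiv ℝ φ y b) +
      G (φ y) (fderiv ℝ (fderiv ℝ φ) y w a) (fderiv ℝ (fderiv ℝ φ) y v b)) +
      (fderiv ℝ G (φ y) (fderiv ℝ φ y v) (fderiv ℝ φ y a) (fderiv ℝ (fderiv ℝ φ) y w b) +
      G (φ y) (fderiv ℝ (fderiv ℝ φ) y v a) (fderiv ℝ (fderiv ℝ φ) y w b) +
      G (φ y) (fderiv ℝ φ y a) (fderiv ℝ (fderiv ℝ (fderiv ℝ φ)) y v w b)) := by
  have h2 : ContDiffAt ℝ 2 φ y := hφ.of_le (by norm_num)
  have h3 : ContDiffAt ℝ 2 (fderiv ℝ φ) y := hφ.fderiv_right (by norm_num)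
  have e : (fun z => fderiv ℝ (pull G φ) z w a b) =ᶠ[𝓝 y] fun z =>
      fderiv ℝ G (φ z) (fderiv ℝ φ z w) (fderiv ℝ φ z a) (fderiv ℝ φ z b) +
      G (φ z) (fderiv ℝ (fderiv ℝ φ) z w a) (fderiv ℝ φ z b) +
      G (φ z) (fderiv ℝ φ z a) (fderiv ℝ (fderiv ℝ φ) z w b) := by
    filter_upwards [hφ.continuousAt.eventually (hG.eventually (by simp)),
      hφ.eventually (by simp)] with z h1 h2 using pull_j1 h1 h2 w a b
  have d0 := (c2_d0 hG).hasFDerivAt.comp y (c2_d0 h2).hasFDerivAt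
  have d0' := (c2_d hG).hasFDerivAt.comp y (c2_d0 h2).hasFDerivAt
  have d1 := fun c => (c2_d h2).hasFDerivAt.clm_apply (hasFDerivAt_const c y)
  have d2 := fun c => ((c2_d h3).hasFDerivAt.clm_apply (hasFDerivAt_const w y)).clm_apply
    (hasFDerivAt_const c y)
  have d := ((((d0'.clm_apply (d1 w)).clm_apply (d1 a)).clm_apply (d1 b)).add
    ((d0.clm_apply (d2 a)).clm_apply (d1 b))).add ((d0.clm_apply (d1 a)).clm_apply (d2 b))
  rw [← fd_app3 (pull_cda hG hφ (by norm_num)), e.fderiv_eq]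
  erw [d.fderiv]
  simp only [add_apply, ContinuousLinearMap.comp_apply, ContinuousLinearMap.flip_apply, zero_apply,
    map_zero, zero_add, Function.comp]
  ring

theorem Good.sec_pull {G : Met V} {φ : W → V} {y : W} (hG : Good G (φ y))
    (hφ : ContDiffAt ℝ 3 φ y) (hi : Function.Bijective (fderiv ℝ φ y)) (u v : W) :
    sec (MP_c00cc5_gt.pull G φ) y u v = sec G (φ y) (fderiv ℝ φ y u) (fderiv ℝ φ y v) := by
  have h2 : ContDiffAt ℝ 2 φ y := hφ.of_le (by norm_num)
  have h3 : ContDiffAt ℝ 2 (fderiv ℝ φ) y := hφ.fderiv_right (by norm_num)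
  have s2 := c2_symm h2
  have s3 := c2_symm h3
  have s3' : ∀ a b c, fderiv ℝ (fderiv ℝ (fderiv ℝ φ)) y a b c =
      fderiv ℝ (fderiv ℝ (fderiv ℝ φ)) y a c b := fun a b c =>
    j1_symm (c2_d h3) ((h2.eventually (by simp)).mono fun z hz => c2_symm hz) a b c
  have key : ∀ a b, ∃ X, fderiv ℝ φ y X = chr G (φ y) (fderiv ℝ φ y a) (fderiv ℝ φ y b) +
      fderiv ℝ (fderiv ℝ φ) y a b ∧
      ∀ w, MP_c00cc5_gt.pull G φ y X w = gam (MP_c00cc5_gt.pull G φ) y a b w := by
    intro a b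
    obtain ⟨X, hX⟩ := hi.2 (chr G (φ y) (fderiv ℝ φ y a) (fderiv ℝ φ y b) +
      fderiv ℝ (fderiv ℝ φ) y a b)
    refine ⟨X, hX, fun w => ?_⟩
    simp only [pull_apply, hX, map_add, add_apply, hG.chr_eq, gam, pull_j1 hG.smooth hφ]
    rw [s2 b a, s2 w a, s2 w b, hG.symm0 (fderiv ℝ φ y b), hG.symm0 (fderiv ℝ φ y a)]
    ring
  obtain ⟨X, hX, hX'⟩ := key u v
  obtain ⟨Y, hY, hY'⟩ := key u u
  obtain ⟨Z, hZ, hZ'⟩ := key v v
  rw [(hG.pull hφ hi.1).sec_eq hX' hY' hZ', hG.sec_chr]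
  simp only [pull_apply, hX, hY, hZ, map_add, add_apply, r2, pull_j2 hG.smooth hφ]
  rw [hG.symm0 (fderiv ℝ (fderiv ℝ φ) y u v) (chr _ _ _ _),
    hG.symm0 (fderiv ℝ (fderiv ℝ φ) y u u) (chr _ _ _ _)]
  simp only [hG.chr_eq, gam]
  rw [s2 v u, s3' v v u, s3 v u, s3' u v u, hG.symm0 (fderiv ℝ φ y v),
    hG.symm0 (fderiv ℝ φ y u), hG.j1 _ (fderiv ℝ (fderiv ℝ φ) y u v) (fderiv ℝ φ y v),
    hG.j1 _ (fderiv ℝ (fderiv ℝ φ) y u v) (fderiv ℝ φ y u),
    hG.j1 _ (fderiv ℝ (fderiv ℝ φ) y u u) (fderiv ℝ φ y v)]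
  ring

end

/-! Curvature of the metrics `P dt² + B K_t`. -/

section

open scoped ContDiff RealInnerProductSpace Topology
open Filter


variable {W : Type} [NormedAddCommGroup W] [NormedSpace ℝ W]

/-- the metric `P dt² + B K` -/
noncomputable def wp (P B : ℝ → ℝ) (K : ℝ × W → W →L[ℝ] W →L[ℝ] ℝ) : Met (ℝ × W) := fun p =>
  P p.1 • (ContinuousLinearMap.mul ℝ ℝ).bilinearComp (ContinuousLinearMap.fst ℝ ℝ W)
    (ContinuousLinearMap.fst ℝ ℝ W) +
  B p.1 • (K p).bilinearComp (ContinuousLinearMap.snd ℝ ℝ W) (ContinuousLinearMap.snd ℝ ℝ W)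

@[simp] theorem wp_apply (P B : ℝ → ℝ) (K : ℝ × W → W →L[ℝ] W →L[ℝ] ℝ) (p U V : ℝ × W) :
    wp P B K p U V = P p.1 * (U.1 * V.1) + B p.1 * K p U.2 V.2 := rfl

variable [FiniteDimensional ℝ W] {P B : ℝ → ℝ} {K : ℝ × W → W →L[ℝ] W →L[ℝ] ℝ} {p : ℝ × W}

theorem wp_cda {n : WithTop ℕ∞} (hP : ContDiffAt ℝ n P p.1) (hB : ContDiffAt ℝ n B p.1)
    (hK : ContDiffAt ℝ n K p) : ContDiffAt ℝ n (wp P B K) p := by
  refine cda2 fun U V => ?_
  simp only [wp_apply]
  exact ((hP.comp p contDiffAt_fst).mul contDiffAt_const).add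
    ((hB.comp p contDiffAt_fst).mul ((hK.clm_apply contDiffAt_const).clm_apply contDiffAt_const))

theorem Good.wp (hK : Good K p) (hP : ContDiffAt ℝ 2 P p.1) (hB : ContDiffAt ℝ 2 B p.1)
    (P0 : 0 < P p.1) (B0 : 0 < B p.1) : Good (wp P B K) p where
  smooth := wp_cda hP hB hK.smooth
  symm := hK.symm.mono fun y hy U V => by simp only [wp_apply, hy U.2 V.2, mul_comm U.1]
  pos := fun U hU => by
    simp only [wp_apply]
    by_cases h : U.2 = 0
    · have h1 : U.1 ≠ 0 := fun h1 => hU (Prod.ext h1 h)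
      simpa [h] using mul_pos P0 (mul_self_pos.2 h1)
    · exact add_pos_of_nonneg_of_pos (mul_nonneg P0.le (mul_self_nonneg _))
        (mul_pos B0 (hK.pos _ h))

theorem d_fst {P : ℝ → ℝ} {p : ℝ × W} (h : DifferentiableAt ℝ P p.1) :
    HasFDerivAt (fun q : ℝ × W => P q.1) (deriv P p.1 • ContinuousLinearMap.fst ℝ ℝ W) p :=
  h.hasDerivAt.comp_hasFDerivAt p hasFDerivAt_fst

theorem c2_dd {P : ℝ → ℝ} {t : ℝ} (h : ContDiffAt ℝ 2 P t) : DifferentiableAt ℝ (deriv P) t :=
  (c2_d h).clm_apply (differentiableAt_const 1)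

theorem wp_j1 (hP : ContDiffAt ℝ 2 P p.1) (hB : ContDiffAt ℝ 2 B p.1) (hK : ContDiffAt ℝ 2 K p)
    (w U V : ℝ × W) : fderiv ℝ (wp P B K) p w U V = deriv P p.1 * w.1 * (U.1 * V.1) +
      deriv B p.1 * w.1 * K p U.2 V.2 + B p.1 * fderiv ℝ K p w U.2 V.2 := by
  have d := ((d_fst (c2_d0 hP)).mul_const (U.1 * V.1)).add ((d_fst (c2_d0 hB)).mul
    (((c2_d0 hK).hasFDerivAt.clm_apply (hasFDerivAt_const U.2 p)).clm_apply
      (hasFDerivAt_const V.2 p)))
  rw [← fd_app2 (c2_d0 (wp_cda hP hB hK))]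
  simp only [wp_apply]
  erw [d.fderiv]
  simp only [add_apply, smul_apply, ContinuousLinearMap.comp_apply, ContinuousLinearMap.flip_apply,
    zero_apply, map_zero, zero_add, ContinuousLinearMap.coe_fst', smul_eq_mul]
  ring

theorem wp_j2 (hP : ContDiffAt ℝ 2 P p.1) (hB : ContDiffAt ℝ 2 B p.1) (hK : ContDiffAt ℝ 2 K p)
    (v w U V : ℝ × W) : fderiv ℝ (fderiv ℝ (wp P B K)) p v w U V =
      deriv (deriv P) p.1 * v.1 * w.1 * (U.1 * V.1) +
      (deriv (deriv B) p.1 * v.1 * w.1 * K p U.2 V.2 + deriv B p.1 * w.1 * fderiv ℝ K p v U.2 V.2) +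
      (deriv B p.1 * v.1 * fderiv ℝ K p w U.2 V.2 +
        B p.1 * fderiv ℝ (fderiv ℝ K) p v w U.2 V.2) := by
  have e : (fun q => fderiv ℝ (wp P B K) q w U V) =ᶠ[𝓝 p] fun q =>
      deriv P q.1 * w.1 * (U.1 * V.1) + deriv B q.1 * w.1 * K q U.2 V.2 +
        B q.1 * fderiv ℝ K q w U.2 V.2 := by
    filter_upwards [continuousAt_fst.eventually (hP.eventually (by simp)),
      continuousAt_fst.eventually (hB.eventually (by simp)), hK.eventually (by simp)]
      with q h1 h2 h3 using wp_j1 h1 h2 h3 w U V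
  have d := ((((d_fst (c2_dd hP)).mul_const w.1).mul_const (U.1 * V.1)).add
    (((d_fst (c2_dd hB)).mul_const w.1).mul
    (((c2_d0 hK).hasFDerivAt.clm_apply (hasFDerivAt_const U.2 p)).clm_apply
      (hasFDerivAt_const V.2 p)))).add ((d_fst (c2_d0 hB)).mul
    ((((c2_d hK).hasFDerivAt.clm_apply (hasFDerivAt_const w p)).clm_apply
      (hasFDerivAt_const U.2 p)).clm_apply (hasFDerivAt_const V.2 p)))
  rw [← fd_app3 (wp_cda hP hB hK), e.fderiv_eq]
  erw [d.fderiv]
  simp only [add_apply, smul_apply, ContinuousLinearMap.comp_apply, ContinuousLinearMap.flip_apply,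
    zero_apply, map_zero, zero_add, ContinuousLinearMap.coe_fst', smul_eq_mul]
  ring

/-- the second fundamental form of the slices -/
noncomputable def sff (K : ℝ × W → W →L[ℝ] W →L[ℝ] ℝ) (p : ℝ × W) (a b : W) : ℝ :=
  fderiv ℝ K p (1, 0) a b / 2

/-- the curvature of `dt² + K` corrected by the Gauss term -/
noncomputable def qq (K : ℝ × W → W →L[ℝ] W →L[ℝ] ℝ) (p : ℝ × W) (α : ℝ) (a b : W) : ℝ :=
  sec (wp 1 1 K) p (α, a) (0, b) + (sff K p a a * sff K p b b - sff K p a b ^ 2)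

theorem Good.wp1 (hK : Good K p) : Good (MP_c00cc5_gt.wp 1 1 K) p :=
  hK.wp contDiffAt_const contDiffAt_const one_pos one_pos

theorem Good.gam1 (hK : Good K p) (U V w : ℝ × W) : gam (MP_c00cc5_gt.wp 1 1 K) p U V w =
    (fderiv ℝ K p U V.2 w.2 + fderiv ℝ K p V U.2 w.2 - fderiv ℝ K p w U.2 V.2) / 2 := by
  have : deriv (1 : ℝ → ℝ) p.1 = 0 := deriv_const _ _
  simp only [gam, wp_j1 contDiffAt_const contDiffAt_const hK.smooth (P := 1) (B := 1), this]
  simp

theorem Good.r21 (hK : Good K p) (U V : ℝ × W) : r2 (MP_c00cc5_gt.wp 1 1 K) p U V =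
    -fderiv ℝ (fderiv ℝ K) p U U V.2 V.2 / 2 - fderiv ℝ (fderiv ℝ K) p V V U.2 U.2 / 2 +
      fderiv ℝ (fderiv ℝ K) p U V U.2 V.2 := by
  have : deriv (1 : ℝ → ℝ) = 0 := funext fun _ => deriv_const _ _
  simp only [r2, wp_j2 contDiffAt_const contDiffAt_const hK.smooth (P := 1) (B := 1), this]
  simp

theorem Good.sec_wp (hK : Good K p) (hP : ContDiffAt ℝ 2 P p.1) (hB : ContDiffAt ℝ 2 B p.1)
    (P0 : 0 < P p.1) (B0 : 0 < B p.1) (α : ℝ) (a b : W) :
    sec (MP_c00cc5_gt.wp P B K) p (α, a) (0, b) = B p.1 * qq K p α a b +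
      α ^ 2 * ((-deriv (deriv B) p.1 / 2 + deriv B p.1 ^ 2 / (4 * B p.1) +
        deriv P p.1 * deriv B p.1 / (4 * P p.1)) * K p b b +
        (deriv P p.1 * B p.1 / (2 * P p.1) - deriv B p.1) * sff K p b b) -
      ((deriv B p.1 / 2 * K p a a + B p.1 * sff K p a a) *
        (deriv B p.1 / 2 * K p b b + B p.1 * sff K p b b) -
        (deriv B p.1 / 2 * K p a b + B p.1 * sff K p a b) ^ 2) / P p.1 := by
  have h1 := hK.wp1
  have c := h1.chr_eq
  simp only [hK.gam1, wp_apply, Pi.one_apply, one_mul] at c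
  have c0 : ∀ U V : ℝ × W, (chr (MP_c00cc5_gt.wp 1 1 K) p U V).1 = -sff K p U.2 V.2 := by
    intro U V
    have := c U V (1, 0)
    simp only [map_zero, mul_one, add_zero] at this
    rw [this, sff]; ring
  have c1 : ∀ (U V : ℝ × W) (w : W), K p (chr (MP_c00cc5_gt.wp 1 1 K) p U V).2 w =
      (fderiv ℝ K p U V.2 w + fderiv ℝ K p V U.2 w - fderiv ℝ K p (0, w) U.2 V.2) / 2 := by
    intro U V w
    simpa using c U V (0, w)
  have key : ∀ U V w : ℝ × W, MP_c00cc5_gt.wp P B K p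
      ((B p.1 * (chr (MP_c00cc5_gt.wp 1 1 K) p U V).1 + deriv P p.1 * U.1 * V.1 / 2 -
        deriv B p.1 * K p U.2 V.2 / 2) / P p.1, (chr (MP_c00cc5_gt.wp 1 1 K) p U V).2 +
        (deriv B p.1 / (2 * B p.1)) • (U.1 • V.2 + V.1 • U.2)) w =
      gam (MP_c00cc5_gt.wp P B K) p U V w := by
    intro U V w
    have := c U V w
    simp only [gam, wp_j1 hP hB hK.smooth, wp_apply, map_add, map_smul, add_apply, smul_apply,
      smul_eq_mul]
    field_simp
    linear_combination 2 * B p.1 * this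
  have hU : fderiv ℝ K p (α, a) = α • fderiv ℝ K p (1, 0) + fderiv ℝ K p (0, a) := by
    rw [← map_smul, ← map_add]; simp
  rw [(hK.wp hP hB P0 B0).sec_eq (key _ _) (key _ _) (key _ _), qq, h1.sec_chr, hK.r21]
  simp only [r2, wp_j2 hP hB hK.smooth, wp_apply, map_add, map_smul, add_apply, smul_apply,
    smul_eq_mul, c0, Pi.one_apply, one_mul, zero_smul, add_zero, zero_add, mul_zero, zero_mul,
    map_zero, smul_zero]
  rw [hK.symm0 b (chr (MP_c00cc5_gt.wp 1 1 K) p (α, a) (0, b)).2,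
    hK.symm0 a (chr (MP_c00cc5_gt.wp 1 1 K) p (0, b) (0, b)).2, c1 (α, a) (0, b) b,
    c1 (0, b) (0, b) a, hU]
  simp only [sff, add_apply, smul_apply, smul_eq_mul, hK.j1 _ b a]
  field_simp
  ring

theorem Good.slice (hK : Good K p) : Good (fun z => K (p.1, z)) p.2 where
  smooth := hK.smooth.comp p.2 (contDiffAt_const.prodMk contDiffAt_id)
  symm := (continuousAt_const.prodMk continuousAt_id : ContinuousAt (fun z => (p.1, z)) p.2).eventually
    hK.symm
  pos := hK.pos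

theorem slice_j1 (hK : DifferentiableAt ℝ K p) (c : W) :
    fderiv ℝ (fun z => K (p.1, z)) p.2 c = fderiv ℝ K p (0, c) := by
  have d := hK.hasFDerivAt.comp p.2 (hasFDerivAt_prodMk_right (𝕜 := ℝ) p.1 p.2)
  erw [d.fderiv]
  simp

theorem slice_j2 (hK : ContDiffAt ℝ 2 K p) (c' c : W) :
    fderiv ℝ (fderiv ℝ fun z => K (p.1, z)) p.2 c' c = fderiv ℝ (fderiv ℝ K) p (0, c') (0, c) := by
  have h2 : ContDiffAt ℝ 2 (fun z => K (p.1, z)) p.2 :=
    hK.comp p.2 (contDiffAt_const.prodMk contDiffAt_id)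
  have e : (fun z => fderiv ℝ (fun z => K (p.1, z)) z c) =ᶠ[𝓝 p.2]
      fun z => fderiv ℝ K (p.1, z) (0, c) := by
    filter_upwards [(continuousAt_const.prodMk continuousAt_id :
      ContinuousAt (fun z => (p.1, z)) p.2).eventually (c2_ev hK)] with z hz
    exact slice_j1 (p := (p.1, z)) hz c
  have d := ((c2_d hK).hasFDerivAt.comp p.2
    (hasFDerivAt_prodMk_right (𝕜 := ℝ) p.1 p.2)).clm_apply (hasFDerivAt_const (0, c) p.2)
  rw [← fd_app (c2_d h2), e.fderiv_eq]
  erw [d.fderiv]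
  simp

theorem Good.qq_zero (hK : Good K p) (a b : W) :
    qq K p 0 a b = sec (fun z => K (p.1, z)) p.2 a b := by
  have h1 := hK.wp1
  have h2 := hK.slice
  have key : ∀ (a b : W) (w : ℝ × W), MP_c00cc5_gt.wp 1 1 K p
      (-sff K p a b, chr (fun z => K (p.1, z)) p.2 a b) w =
      gam (MP_c00cc5_gt.wp 1 1 K) p (0, a) (0, b) w := by
    intro a b w
    have hw : fderiv ℝ K p w = w.1 • fderiv ℝ K p (1, 0) + fderiv ℝ K p (0, w.2) := by
      rw [← map_smul, ← map_add]; simp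
    have := h2.chr_eq a b w.2
    simp only [gam, slice_j1 (c2_d0 hK.smooth)] at this
    simp only [hK.gam1, wp_apply, Pi.one_apply, one_mul, hw, add_apply, smul_apply, smul_eq_mul,
      sff]
    rw [this]
    ring
  rw [qq, h1.sec_eq (key a b) (key a a) (key b b), h2.sec_chr, hK.r21]
  simp only [r2, slice_j2 hK.smooth, wp_apply, Pi.one_apply, one_mul]
  ring

theorem Good.radial (hK : Good K p) {b X : W} (hX : ∀ w, K p X w = sff K p b w) :
    sec (MP_c00cc5_gt.wp 1 1 K) p (1, 0) (0, b) =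
      -fderiv ℝ (fderiv ℝ K) p (1, 0) (1, 0) b b / 2 + K p X X := by
  have h1 := hK.wp1
  rw [h1.sec_eq (X := (0, X)) (Y := 0) ?_ ?_ (h1.chr_eq _ _), hK.r21]
  · simp
  · intro w
    simp [hK.gam1, hX, sff]
  · intro w
    simp [hK.gam1]

theorem dt0 (hK : DifferentiableAt ℝ K p) (a b : W) :
    HasDerivAt (fun r => K (r, p.2) a b) (2 * sff K p a b) p.1 := by
  have d := (hK.hasFDerivAt.comp p.1 (hasFDerivAt_prodMk_left (𝕜 := ℝ) p.1 p.2)).hasDerivAt
  have d' := (d.clm_apply (hasDerivAt_const p.1 a)).clm_apply (hasDerivAt_const p.1 b)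
  refine HasDerivAt.congr_deriv d' ?_
  simp [sff]
  ring

theorem dt1 (hK : ContDiffAt ℝ 2 K p) (a b : W) :
    HasDerivAt (fun r => sff K (r, p.2) a b)
      (fderiv ℝ (fderiv ℝ K) p (1, 0) (1, 0) a b / 2) p.1 := by
  have d := ((c2_d hK).hasFDerivAt.comp p.1 (hasFDerivAt_prodMk_left (𝕜 := ℝ) p.1 p.2)).hasDerivAt
  have d' := (((d.clm_apply (hasDerivAt_const p.1 (1, 0))).clm_apply
    (hasDerivAt_const p.1 a)).clm_apply (hasDerivAt_const p.1 b)).div_const 2
  refine HasDerivAt.congr_deriv d' ?_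
  simp

theorem Good.reduce (hK : Good K p) (hP : ContDiffAt ℝ 2 P p.1) (hB : ContDiffAt ℝ 2 B p.1)
    (P0 : 0 < P p.1) (B0 : 0 < B p.1)
    (h : ∀ α a b, K p a b = 0 → b ≠ 0 →
      P p.1 * α ^ 2 * B p.1 * K p b b + B p.1 ^ 2 * (K p a a * K p b b) ≤
        sec (MP_c00cc5_gt.wp P B K) p (α, a) (0, b)) (U V : ℝ × W) :
    area (MP_c00cc5_gt.wp P B K) p U V ≤ sec (MP_c00cc5_gt.wp P B K) p U V := by
  have hG := hK.wp hP hB P0 B0
  have g2 : ∀ (U V : ℝ × W) (a b c d : ℝ),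
      area (MP_c00cc5_gt.wp P B K) p U V ≤ sec (MP_c00cc5_gt.wp P B K) p U V →
      area (MP_c00cc5_gt.wp P B K) p (a • U + b • V) (c • U + d • V) ≤
        sec (MP_c00cc5_gt.wp P B K) p (a • U + b • V) (c • U + d • V) := by
    intro U V a b c d h
    rw [hG.sec_gl2, area_gl2 hG.symm0]
    exact mul_le_mul_of_nonneg_left h (sq_nonneg _)
  have l1 : ∀ α a b, area (MP_c00cc5_gt.wp P B K) p (α, a) (0, b) ≤
      sec (MP_c00cc5_gt.wp P B K) p (α, a) (0, b) := by
    intro α a b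
    by_cases hb : b = 0
    · have e1 := hG.sec_gl2 (α, a) 0 1 0 0 0
      have e2 := area_gl2 hG.symm0 (α, a) 0 1 0 0 0
      simp only [one_smul, zero_smul, add_zero, mul_zero, sub_zero, ne_eq, OfNat.ofNat_ne_zero,
        not_false_eq_true, zero_pow, zero_mul] at e1 e2
      rw [hb, show ((0 : ℝ), (0 : W)) = 0 from rfl, e1, e2]
    · have hp := hK.pos b hb
      have h0 : K p (a - (K p a b / K p b b) • b) b = 0 := by
        simp only [map_sub, map_smul, sub_apply, smul_apply, smul_eq_mul]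
        field_simp
        ring
      have := g2 (α, a - (K p a b / K p b b) • b) (0, b) 1 (K p a b / K p b b) 0 1 (by
        refine le_trans (le_of_eq ?_) (h α _ b h0 hb)
        simp only [area, wp_apply, h0]
        ring)
      simpa using this
  by_cases hU : U.1 = 0
  · have := g2 _ _ 0 1 1 0 (l1 V.1 V.2 U.2)
    simp only [zero_smul, one_smul, zero_add, add_zero] at this
    rwa [← hU] at this
  · have := g2 _ _ 1 0 (V.1 / U.1) 1 (l1 U.1 U.2 (V.2 - (V.1 / U.1) • U.2))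
    simp only [zero_smul, one_smul, add_zero, Prod.mk.eta] at this
    have e : (V.1 / U.1) • U + ((0 : ℝ), V.2 - (V.1 / U.1) • U.2) = V := by
      ext
      · simp; field_simp
      · simp
    rwa [e] at this

end

/-! Two-sided Riccati comparison and the curvature of the slices. -/

section

open scoped ContDiff RealInnerProductSpace Topology
open Filter Set Real


variable {W : Type} [NormedAddCommGroup W] [NormedSpace ℝ W] [FiniteDimensional ℝ W]

theorem psd_cs {Q : W →L[ℝ] W →L[ℝ] ℝ} (hs : ∀ a b, Q a b = Q b a) (h : ∀ b, 0 ≤ Q b b)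
    (a b : W) : Q a b ^ 2 ≤ Q a a * Q b b := by
  have := discrim_le_zero (a := Q b b) (b := 2 * Q a b) (c := Q a a) (fun s => by
    have := h (a + s • b)
    simp only [map_add, map_smul, add_apply, smul_apply, smul_eq_mul, hs b a] at this
    linarith)
  rw [discrim] at this
  linarith

theorem riccati (H S : ℝ → W →L[ℝ] W →L[ℝ] ℝ) (T : ℝ → W → ℝ) {η x θ : ℝ} (θ0 : 0 < θ)
    (θ1 : θ < 1) (x0 : 0 < x) (hx : θ * x < π)
    (cH : ∀ r ∈ Icc η (η + x), ContinuousAt H r) (cS : ∀ r ∈ Icc η (η + x), ContinuousAt S r)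
    (pos : ∀ r ∈ Icc η (η + x), ∀ b, b ≠ 0 → 0 < H r b b)
    (sH : ∀ r ∈ Icc η (η + x), ∀ a b, H r a b = H r b a)
    (sS : ∀ r ∈ Icc η (η + x), ∀ a b, S r a b = S r b a)
    (dH : ∀ r ∈ Icc η (η + x), ∀ b, HasDerivAt (fun r => H r b b) (2 * S r b b) r)
    (dS : ∀ r ∈ Icc η (η + x), ∀ b, HasDerivAt (fun r => S r b b) (T r b) r)
    (ric : ∀ r ∈ Icc η (η + x), ∀ b (l : ℝ), (∀ w, l * H r b w = S r b w) →
      H r b b ≤ -T r b + l ^ 2 * H r b b) (b : W) :
    sin (θ * x) * S (η + x) b b ≤ θ * cos (θ * x) * H (η + x) b b := by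
  set Φ : ℝ → W →L[ℝ] W →L[ℝ] ℝ := fun r =>
    (θ * cos (θ * (r - η))) • H r - sin (θ * (r - η)) • S r with hΦ
  have Φa : ∀ r a b, Φ r a b = θ * cos (θ * (r - η)) * H r a b - sin (θ * (r - η)) * S r a b :=
    fun r a b => rfl
  have cΦ : ∀ r ∈ Icc η (η + x), ContinuousAt Φ r := fun r hr => by
    have c1 : ContinuousAt (fun r => θ * cos (θ * (r - η))) r := by fun_prop
    have c2 : ContinuousAt (fun r => sin (θ * (r - η))) r := by fun_prop
    exact (c1.smul (cH r hr)).sub (c2.smul (cS r hr))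
  have nrm : ∀ r b, b ≠ 0 → Φ r b b ≤ 0 → ∃ c ∈ Metric.sphere (0 : W) 1, Φ r c c ≤ 0 := by
    intro r b hb h
    have hn : 0 < ‖b‖ := norm_pos_iff.2 hb
    refine ⟨‖b‖⁻¹ • b, by simp [norm_smul, hn.ne'], ?_⟩
    simp only [map_smul, smul_apply, smul_eq_mul]
    exact mul_nonpos_of_nonneg_of_nonpos (by positivity)
      (mul_nonpos_of_nonneg_of_nonpos (by positivity) h)
  by_contra hcon
  have hb : b ≠ 0 := by rintro rfl; simp at hcon
  obtain ⟨c, hc, hc'⟩ := nrm (η + x) b hb (by rw [Φa, add_sub_cancel_left]; linarith)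
  have hC : IsCompact {q ∈ Icc η (η + x) ×ˢ Metric.sphere (0 : W) 1 | Φ q.1 q.2 q.2 ≤ 0} := by
    refine (isCompact_Icc.prod (isCompact_sphere 0 1)).of_isClosed_subset ?_ (sep_subset _ _)
    refine ContinuousOn.preimage_isClosed_of_isClosed (t := Iic 0)
      (f := fun q : ℝ × W => Φ q.1 q.2 q.2) (fun q hq => ?_)
      (isClosed_Icc.prod Metric.isClosed_sphere) isClosed_Iic
    exact ((((cΦ q.1 hq.1).comp continuousAt_fst).clm_apply continuousAt_snd).clm_apply
      continuousAt_snd).continuousWithinAt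
  obtain ⟨⟨r, c⟩, ⟨⟨hr, hc⟩, h0⟩, hmin⟩ := hC.exists_isMinOn
    ⟨(η + x, c), ⟨⟨by linarith, le_rfl⟩, hc⟩, hc'⟩ continuous_fst.continuousOn
  simp only at hr hc h0
  have c0 : c ≠ 0 := by rintro rfl; simp at hc
  have lt : ∀ s ∈ Ico η r, ∀ b, b ≠ 0 → 0 < Φ s b b := by
    intro s hs b hb
    by_contra h
    obtain ⟨c, hc, hc'⟩ := nrm s b hb (not_lt.1 h)
    have : r ≤ s := hmin (a := (s, c)) ⟨⟨⟨hs.1, hs.2.le.trans hr.2⟩, hc⟩, hc'⟩
    linarith [hs.2]
  have hη : η < r := by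
    refine lt_of_le_of_ne hr.1 ?_
    rintro rfl
    rw [Φa] at h0
    have := mul_pos θ0 (pos _ hr c c0)
    simp at h0
    linarith
  have ev : ∀ᶠ s in 𝓝[<] r, s ∈ Ico η r := Ico_mem_nhdsLT hη
  have ge : ∀ b, 0 ≤ Φ r b b := by
    intro b
    by_cases hb : b = 0
    · simp [hb]
    · have : ContinuousAt (fun s => Φ s b b) r :=
        ((cΦ r hr).clm_apply continuousAt_const).clm_apply continuousAt_const
      exact ge_of_tendsto (this.tendsto.mono_left nhdsWithin_le_nhds)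
        (ev.mono fun s hs => (lt s hs b hb).le)
  have z : Φ r c c = 0 := le_antisymm h0 (ge c)
  have null : ∀ w, Φ r c w = 0 := by
    intro w
    have := psd_cs (Q := Φ r) (fun a b => by rw [Φa, Φa, sH r hr a, sS r hr a]) ge c w
    rw [z, zero_mul] at this
    exact pow_eq_zero_iff (two_ne_zero) |>.1 (le_antisymm this (sq_nonneg _))
  have s0 : 0 < sin (θ * (r - η)) := sin_pos_of_pos_of_lt_pi (mul_pos θ0 (by linarith))
    (lt_of_le_of_lt (mul_le_mul_of_nonneg_left (by linarith [hr.2]) θ0.le) hx)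
  have hl : ∀ w, θ * cos (θ * (r - η)) / sin (θ * (r - η)) * H r c w = S r c w := by
    intro w
    have := null w
    rw [Φa] at this
    field_simp
    linarith
  have hr' := ric r hr c _ hl
  have d0 : HasDerivAt (fun s => θ * (s - η)) θ r := by
    simpa using ((hasDerivAt_id r).sub_const η).const_mul θ
  have d := ((d0.cos.const_mul θ).mul (dH r hr c)).sub (d0.sin.mul (dS r hr c))
  have dn := (hasDerivAt_iff_tendsto_slope_left_right.1 d).1
  have := le_of_tendsto dn (b := 0) (ev.mono fun s hs => by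
    rw [slope_def_field]
    refine div_nonpos_of_nonneg_of_nonpos ?_ (by linarith [hs.2])
    have h1 := lt s hs c c0
    rw [Φa] at h1 z
    simp only [Pi.sub_apply, Pi.mul_apply]
    linarith)
  rw [← hl c] at this
  have hp := pos r hr c c0
  have h2 : 0 < sin (θ * (r - η)) * H r c c * (1 - θ ^ 2) :=
    mul_pos (mul_pos s0 hp) (by nlinarith)
  have h3 := mul_le_mul_of_nonneg_left hr' s0.le
  have h4 : sin (θ * (r - η)) * (θ * cos (θ * (r - η)) / sin (θ * (r - η))) =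
      θ * cos (θ * (r - η)) := by field_simp
  generalize θ * cos (θ * (r - η)) / sin (θ * (r - η)) = l at *
  rw [← h4] at this
  have h5 : cos (θ * (r - η)) * θ = sin (θ * (r - η)) * l := by linarith
  rw [h5] at this
  nlinarith

theorem two_sided {K : ℝ × W → W →L[ℝ] W →L[ℝ] ℝ} {D : ℝ} {y : W} (hD : π / 2 < D)
    (hK : ∀ r ∈ Ioo 0 D, Good K (r, y))
    (hc : ∀ r ∈ Ioo 0 D, ∀ U V, area (wp 1 1 K) (r, y) U V ≤ sec (wp 1 1 K) (r, y) U V)
    {t : ℝ} (ht : t ∈ Ioo 0 D) {a b : W} (hab : LinearIndependent ℝ ![a, b]) :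
    0 < sec (fun z => K (t, z)) y a b := by
  obtain ⟨x, z, θ, x0, x1, x2, z0, z1, z2, θ0, θ1, hθ⟩ : ∃ x z θ : ℝ, 0 < x ∧ x < t ∧ x < π / 2 ∧
      0 < z ∧ z < D - t ∧ z < π / 2 ∧ 0 < θ ∧ θ < 1 ∧ π / 2 < θ * (x + z) := by
    have hp := pi_pos
    have m1 : 0 < min t (π / 2) := lt_min ht.1 (by linarith)
    have m2 : 0 < min (D - t) (π / 2) := lt_min (by linarith [ht.2]) (by linarith)
    have m3 : π / 2 < min t (π / 2) + min (D - t) (π / 2) := by
      rcases le_total t (π / 2) with h | h <;> rcases le_total (D - t) (π / 2) with h' | h' <;>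
        simp only [min_eq_left, min_eq_right, h, h'] <;> linarith [ht.1, ht.2]
    have c : ContinuousAt (fun θ : ℝ => θ * (θ * min t (π / 2) + θ * min (D - t) (π / 2))) 1 := by
      fun_prop
    have e := (c.eventually (lt_mem_nhds (a := π / 2) (by simpa using m3))).filter_mono
      (nhdsWithin_le_nhds (s := Iio 1))
    obtain ⟨θ, h1, h2⟩ := (e.and (Ioo_mem_nhdsLT one_pos)).exists
    have l1 := mul_lt_of_lt_one_left m1 h2.2
    have l2 := mul_lt_of_lt_one_left m2 h2.2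
    exact ⟨_, _, θ, mul_pos h2.1 m1, l1.trans_le (min_le_left _ _), l1.trans_le (min_le_right _ _),
      mul_pos h2.1 m2, l2.trans_le (min_le_left _ _), l2.trans_le (min_le_right _ _), h2.1, h2.2, h1⟩
  have hp := pi_pos
  set S : ℝ → W →L[ℝ] W →L[ℝ] ℝ := fun r => (1 / 2 : ℝ) • fderiv ℝ K (r, y) (1, 0) with hS
  have Sa : ∀ r a b, S r a b = sff K (r, y) a b := fun r a b => by
    simp only [hS, sff, smul_apply, smul_eq_mul]; ring
  have cp : ∀ r : ℝ, ContinuousAt (fun r : ℝ => (r, y)) r := fun r => by fun_prop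
  have cH : ∀ r ∈ Ioo 0 D, ContinuousAt (fun r => K (r, y)) r := fun r hr =>
    (hK r hr).smooth.continuousAt.comp_of_eq (cp r) rfl
  have cS : ∀ r ∈ Ioo 0 D, ContinuousAt S r := fun r hr =>
    (((c2_d (hK r hr).smooth).continuousAt.comp_of_eq (cp r) rfl).clm_apply
      continuousAt_const).const_smul (1 / 2 : ℝ)
  have sS : ∀ r ∈ Ioo 0 D, ∀ a b, S r a b = S r b a := fun r hr a b => by
    rw [Sa, Sa, sff, sff, (hK r hr).j1]
  have dH : ∀ r ∈ Ioo 0 D, ∀ b, HasDerivAt (fun r => K (r, y) b b) (2 * S r b b) r :=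
    fun r hr b => by rw [Sa]; exact dt0 (c2_d0 (hK r hr).smooth) b b
  have dS : ∀ r ∈ Ioo 0 D, ∀ b, HasDerivAt (fun r => S r b b)
      (fderiv ℝ (fderiv ℝ K) (r, y) (1, 0) (1, 0) b b / 2) r :=
    fun r hr b => by simp only [Sa]; exact dt1 (hK r hr).smooth b b
  have ric : ∀ r ∈ Ioo 0 D, ∀ b (l : ℝ), (∀ w, l * K (r, y) b w = S r b w) → K (r, y) b b ≤
      -(fderiv ℝ (fderiv ℝ K) (r, y) (1, 0) (1, 0) b b / 2) + l ^ 2 * K (r, y) b b := by
    intro r hr b l hl
    have h1 := (hK r hr).radial (b := b) (X := l • b) (fun w => by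
      rw [← Sa, ← hl]; simp)
    have h2 := hc r hr (1, 0) (0, b)
    rw [h1] at h2
    simp [area] at h2
    linarith
  have i1 : ∀ r ∈ Icc (t - x) (t - x + x), r ∈ Ioo 0 D := fun r hr =>
    ⟨by linarith [hr.1], by linarith [hr.2, ht.2]⟩
  have i2 : ∀ r ∈ Icc (-t - z) (-t - z + z), -r ∈ Ioo 0 D := fun r hr =>
    ⟨by linarith [hr.2, ht.1], by linarith [hr.1]⟩
  have tx : θ * x < x := mul_lt_of_lt_one_left x0 θ1
  have tz : θ * z < z := mul_lt_of_lt_one_left z0 θ1
  have r1 := riccati (fun r => K (r, y)) S _ θ0 θ1 x0 (by linarith) (fun r hr => cH r (i1 r hr))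
    (fun r hr => cS r (i1 r hr)) (fun r hr => (hK r (i1 r hr)).pos)
    (fun r hr => (hK r (i1 r hr)).symm0) (fun r hr => sS r (i1 r hr))
    (fun r hr => dH r (i1 r hr)) (fun r hr => dS r (i1 r hr)) (fun r hr => ric r (i1 r hr))
  have r2 := riccati (fun r => K (-r, y)) (fun r => -S (-r))
    (fun r b => fderiv ℝ (fderiv ℝ K) (-r, y) (1, 0) (1, 0) b b / 2) θ0 θ1 z0 (by linarith)
    (fun r hr => (cH _ (i2 r hr)).comp_of_eq continuous_neg.continuousAt rfl)
    (fun r hr => ((cS _ (i2 r hr)).comp_of_eq continuous_neg.continuousAt rfl).neg)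
    (fun r hr => (hK _ (i2 r hr)).pos) (fun r hr => (hK _ (i2 r hr)).symm0)
    (fun r hr a b => by simp only [neg_apply, sS _ (i2 r hr) a b])
    (fun r hr b => by
      refine ((dH _ (i2 r hr) b).comp r (hasDerivAt_neg r)).congr_deriv ?_
      simp)
    (fun r hr b => by
      refine ((dS _ (i2 r hr) b).comp r (hasDerivAt_neg r)).neg.congr_deriv ?_
      simp)
    (fun r hr b l hl => by
      have := ric _ (i2 r hr) b (-l) (fun w => by
        have := hl w
        simp only [neg_apply] at this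
        linarith)
      simpa using this)
  simp only [sub_add_cancel, neg_neg, neg_apply] at r1 r2
  have hG := hK t ht
  have sx : 0 < sin (θ * x) := sin_pos_of_pos_of_lt_pi (by positivity) (by linarith)
  have sz : 0 < sin (θ * z) := sin_pos_of_pos_of_lt_pi (by positivity) (by linarith)
  have cx : 0 < cos (θ * x) := cos_pos_of_mem_Ioo ⟨by nlinarith, by linarith⟩
  have cz : 0 < cos (θ * z) := cos_pos_of_mem_Ioo ⟨by nlinarith, by linarith⟩
  have cs : cos (θ * x) * cos (θ * z) < sin (θ * x) * sin (θ * z) := by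
    have := cos_neg_of_pi_div_two_lt_of_lt (x := θ * x + θ * z) (by linarith) (by linarith)
    rw [cos_add] at this
    linarith
  obtain ⟨A, hA, A0⟩ : ∃ A, A * sin (θ * x) = θ * cos (θ * x) ∧ 0 < A :=
    ⟨θ * cos (θ * x) / sin (θ * x), by field_simp, by positivity⟩
  obtain ⟨B, hB, B0⟩ : ∃ B, B * sin (θ * z) = θ * cos (θ * z) ∧ 0 < B :=
    ⟨θ * cos (θ * z) / sin (θ * z), by field_simp, by positivity⟩
  have AB : A * B < 1 := by
    have h1 : A * B * (sin (θ * x) * sin (θ * z)) = θ ^ 2 * (cos (θ * x) * cos (θ * z)) := by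
      linear_combination (B * sin (θ * z)) * hA + (θ * cos (θ * x)) * hB
    have h2 : θ ^ 2 * (cos (θ * x) * cos (θ * z)) ≤ cos (θ * x) * cos (θ * z) :=
      mul_le_of_le_one_left (by positivity) (by nlinarith)
    by_contra h
    have := mul_le_mul_of_nonneg_right (not_lt.1 h) (mul_pos sx sz).le
    linarith
  have q1 := psd_cs (Q := A • K (t, y) - S t)
    (fun a b => by simp only [sub_apply, smul_apply, hG.symm0 a b, sS t ht a b]) (fun b => by
      have := r1 b
      simp only [sub_apply, smul_apply, smul_eq_mul]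
      rw [← hA] at this
      nlinarith) a b
  have q2 := psd_cs (Q := B • K (t, y) + S t)
    (fun a b => by simp only [add_apply, smul_apply, hG.symm0 a b, sS t ht a b]) (fun b => by
      have := r2 b
      simp only [add_apply, smul_apply, smul_eq_mul]
      rw [← hB] at this
      nlinarith) a b
  simp only [sub_apply, add_apply, smul_apply, smul_eq_mul, Sa] at q1 q2
  have ar : 0 < K (t, y) a a * K (t, y) b b - K (t, y) a b ^ 2 := by
    rw [LinearIndependent.pair_iff] at hab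
    have b0 : b ≠ 0 := fun h => by simpa using hab 0 1 (by simp [h])
    have hb := hG.pos b b0
    have := hG.pos (K (t, y) b b • a + (-K (t, y) a b) • b) fun h => hb.ne' (hab _ _ h).1
    simp only [map_add, map_smul, add_apply, smul_apply, smul_eq_mul, hG.symm0 b a] at this
    by_contra h
    nlinarith
  have h2 := hc t ht (0, a) (0, b)
  rw [← hG.qq_zero, qq]
  simp only [area, wp_apply, Pi.one_apply, one_mul, mul_zero, zero_add] at h2
  have h3 : -(A * B) * (K (t, y) a a * K (t, y) b b - K (t, y) a b ^ 2) ≤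
      sff K (t, y) a a * sff K (t, y) b b - sff K (t, y) a b ^ 2 := by
    have := add_nonneg (mul_nonneg B0.le (sub_nonneg.2 q1)) (mul_nonneg A0.le (sub_nonneg.2 q2))
    by_contra h
    have := mul_pos (add_pos A0 B0) (sub_pos.2 (not_le.1 h))
    nlinarith
  nlinarith

end

end Pool.Agent.Lib.MP_c00cc5_gt
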