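import Mathlib

/-! Definitions used in the statement: Riemannian metrics on open subsets of a vector space, their
curvature, balls in normal coordinates glued along a map of the unit sphere, and paths of
positively curved metrics on the unit sphere. -/

set_option autoImplicit false

open scoped ContDiff RealInnerProductSpace Topology

namespace Pool.Agent.Lib.MP_c00cc5_gt

/-- a field of bilinear forms on a vector space -/
abbrev Met (V : Type) [NormedAddCommGroup V] [NormedSpace ℝ V] : Type :=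
  V → V →L[ℝ] V →L[ℝ] ℝ

section

variable {V W : Type} [NormedAddCommGroup V] [NormedSpace ℝ V] [NormedAddCommGroup W]
  [NormedSpace ℝ W]

/-- the Christoffel symbols `Γ_x(u, v)` of the Levi-Civita connection -/
noncomputable def chr (G : Met V) (x u v : V) : V :=
  (G x).inverse ((1 / 2 : ℝ) •
    (fderiv ℝ G x u v + fderiv ℝ G x v u - fderiv ℝ (fun y => G y u v) x))

/-- the curvature tensor `R(u, v) w` -/
noncomputable def curv (G : Met V) (x u v w : V) : V :=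
  fderiv ℝ (fun y => chr G y v w) x u - fderiv ℝ (fun y => chr G y u w) x v +
    chr G x u (chr G x v w) - chr G x v (chr G x u w)

/-- `g(R(u, v) v, u)`, the sectional curvature of the plane of `u, v` times `area` -/
noncomputable def sec (G : Met V) (x u v : V) : ℝ := G x (curv G x u v v) u

/-- the squared area of the parallelogram on `u, v` -/
noncomputable def area (G : Met V) (x u v : V) : ℝ := G x u u * G x v v - G x u v ^ 2

/-- the pull-back of `G` by `φ` -/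
noncomputable def pull (G : Met V) (φ : W → V) : Met W :=
  fun y => (G (φ y)).bilinearComp (fderiv ℝ φ y) (fderiv ℝ φ y)

end

/-- Euclidean space -/
abbrev E (n : ℕ) : Type := EuclideanSpace ℝ (Fin n)

variable {V W : Type} [NormedAddCommGroup V] [InnerProductSpace ℝ V] [NormedAddCommGroup W]
  [NormedSpace ℝ W]

/-- a smooth metric of sectional curvature at least one on the open ball of radius `D`, written
in normal coordinates at the centre -/
structure NormalBall (G : Met V) (D : ℝ) : Prop where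
  smooth : ∀ x, ‖x‖ < D → ContDiffAt ℝ ∞ G x
  symm : ∀ x, ‖x‖ < D → ∀ u v, G x u v = G x v u
  pos : ∀ x, ‖x‖ < D → ∀ v, v ≠ 0 → 0 < G x v v
  gauss : ∀ x, ‖x‖ < D → ∀ v, G x x v = ⟪x, v⟫
  curv : ∀ x, ‖x‖ < D → ∀ u v, area G x u v ≤ sec G x u v

/-- two such balls whose punctured parts are isometric by `r u ↦ (D - r) f(u)` -/
def Wied (f : V → V) (D : ℝ) : Prop :=
  ∃ G₁ G₂ : Met V, NormalBall G₁ D ∧ NormalBall G₂ D ∧
    ∀ x, x ≠ 0 → ‖x‖ < D → G₁ x = pull G₂ (fun z => (D - ‖z‖) • f (‖z‖⁻¹ • z)) x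

/-- `σ` is a local parametrisation of the unit sphere near `y` -/
structure Param (σ : W → V) (y : W) : Prop where
  smooth : ContDiffAt ℝ ∞ σ y
  unit : ∀ᶠ z in 𝓝 y, ‖σ z‖ = 1
  inj : Function.Injective (fderiv ℝ σ y)

/-- a smooth path `h t`, `0 ≤ t ≤ 1`, of metrics of positive sectional curvature on the unit
sphere (with charts in `W`) from the round metric to its pull-back by `f` -/
structure Path (W : Type) [NormedAddCommGroup W] [NormedSpace ℝ W] (f : V → V) (h : ℝ → Met V) :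
    Prop where
  smooth : ∀ t ∈ Set.Icc (0 : ℝ) 1, ∀ u, ‖u‖ = 1 →
    ContDiffAt ℝ ∞ (fun p : ℝ × V => h p.1 p.2) (t, u)
  symm : ∀ t ∈ Set.Icc (0 : ℝ) 1, ∀ u, ‖u‖ = 1 → ∀ a b, ⟪u, a⟫ = 0 → ⟪u, b⟫ = 0 →
    h t u a b = h t u b a
  pos : ∀ t ∈ Set.Icc (0 : ℝ) 1, ∀ u, ‖u‖ = 1 → ∀ a, ⟪u, a⟫ = 0 → a ≠ 0 → 0 < h t u a a
  zero : ∀ u, ‖u‖ = 1 → ∀ a b, ⟪u, a⟫ = 0 → ⟪u, b⟫ = 0 → h 0 u a b = ⟪a, b⟫
  one : ∀ u, ‖u‖ = 1 → ∀ a b, ⟪u, a⟫ = 0 → ⟪u, b⟫ = 0 →
    h 1 u a b = ⟪fderiv ℝ f u a, fderiv ℝ f u b⟫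
  curv : ∀ t ∈ Set.Icc (0 : ℝ) 1, ∀ (σ : W → V) (y : W), Param σ y → ∀ a b,
    LinearIndependent ℝ ![a, b] → 0 < sec (pull (h t) σ) y a b

/-- `f` restricts to a diffeomorphism of the unit sphere, with inverse the restriction of `g` -/
structure SphDiff (f g : V → V) : Prop where
  sf : ∀ u, ‖u‖ = 1 → ContDiffAt ℝ ∞ f u
  sg : ∀ u, ‖u‖ = 1 → ContDiffAt ℝ ∞ g u
  nf : ∀ u, ‖u‖ = 1 → ‖f u‖ = 1
  ng : ∀ u, ‖u‖ = 1 → ‖g u‖ = 1
  gf : ∀ u, ‖u‖ = 1 → g (f u) = u
  fg : ∀ u, ‖u‖ = 1 → f (g u) = u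

end Pool.Agent.Lib.MP_c00cc5_gt
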