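import Pool.Agent.Lib.MP_c00cc5_gt.Defs

/-! Definitions used in the statement for closed manifolds: embedded submanifolds of a vector
space, Riemannian metrics on them, lengths of curves, and twisted spheres. -/

set_option autoImplicit false

open scoped ContDiff Topology

namespace Pool.Agent.Lib.MP_c00cc5_gt

variable {V W : Type} [NormedAddCommGroup V] [NormedSpace ℝ V] [NormedAddCommGroup W]
  [NormedSpace ℝ W]

/-- near `y` the map `φ` is smooth with values in `M`, and it is an immersion at `y` -/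
structure Par (M : Set V) (φ : W → V) (y : W) : Prop where
  smooth : ∀ᶠ z in 𝓝 y, ContDiffAt ℝ ∞ φ z
  mem : ∀ᶠ z in 𝓝 y, φ z ∈ M
  inj : Function.Injective (fderiv ℝ φ y)

/-- `M` is an embedded smooth submanifold without boundary, modelled on `W` -/
def Submfd (W : Type) [NormedAddCommGroup W] [NormedSpace ℝ W] (M : Set V) : Prop :=
  ∀ x ∈ M, ∃ (φ : W → V) (y : W), Par M φ y ∧ φ y = x ∧ ∀ U ∈ 𝓝 y, φ '' U ∈ 𝓝[M] x

/-- `G` restricts to a smooth Riemannian metric on `M` of sectional curvature at least one -/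
structure Riem (W : Type) [NormedAddCommGroup W] [NormedSpace ℝ W] (M : Set V) (G : Met V) :
    Prop where
  smooth : ∀ (φ : W → V) (y : W), Par M φ y → ContDiffAt ℝ ∞ (pull G φ) y
  symm : ∀ (φ : W → V) (y : W), Par M φ y → ∀ u v, pull G φ y u v = pull G φ y v u
  pos : ∀ (φ : W → V) (y : W), Par M φ y → ∀ v, v ≠ 0 → 0 < pull G φ y v v
  curv : ∀ (φ : W → V) (y : W), Par M φ y → ∀ u v, area (pull G φ) y u v ≤ sec (pull G φ) y u v

/-- the length of the curve `c` on the unit interval -/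
noncomputable def len (G : Met V) (c : ℝ → V) : ℝ :=
  ∫ t in (0 : ℝ)..1, √(G (c t) (deriv c t) (deriv c t))

/-- two points of `M` are at Riemannian distance at least `D` -/
def Far (M : Set V) (G : Met V) (D : ℝ) : Prop :=
  ∃ p ∈ M, ∃ q ∈ M, ∀ c : ℝ → V, ContDiff ℝ 1 c → (∀ t, c t ∈ M) → c 0 = p → c 1 = q →
    D ≤ len G c

/-- `M` is the union of two embedded open unit balls glued by `r u ↦ (1 - r) f(u)` -/
structure Twisted (M : Set V) (f : W → W) (φ ψ : W → V) : Prop where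
  par₁ : ∀ x, ‖x‖ < 1 → Par M φ x
  par₂ : ∀ x, ‖x‖ < 1 → Par M ψ x
  inj₁ : Set.InjOn φ (Metric.ball 0 1)
  inj₂ : Set.InjOn ψ (Metric.ball 0 1)
  cover : M ⊆ φ '' Metric.ball 0 1 ∪ ψ '' Metric.ball 0 1
  pole : φ 0 ∉ ψ '' Metric.ball 0 1
  glue : ∀ x, x ≠ 0 → ‖x‖ < 1 → φ x = ψ ((1 - ‖x‖) • f (‖x‖⁻¹ • x))

end Pool.Agent.Lib.MP_c00cc5_gt
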