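import Pool.Agent.Lib.MP_c00cc5_gt.Defs2

/-! Definitions used in the statement on connected sums. -/

set_option autoImplicit false

namespace Pool.Agent.Lib.MP_c00cc5_gt

variable {V V₁ V₂ W : Type} [NormedAddCommGroup V] [NormedSpace ℝ V] [NormedAddCommGroup V₁]
  [NormedSpace ℝ V₁] [NormedAddCommGroup V₂] [NormedSpace ℝ V₂] [NormedAddCommGroup W]
  [NormedSpace ℝ W]

/-- `i` embeds the open unit ball smoothly in `M` -/
structure Disc (M : Set V) (i : W → V) : Prop where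
  par : ∀ x, ‖x‖ < 1 → Par M i x
  inj : Set.InjOn i (Metric.ball 0 1)

/-- `a` is an injective immersion of `M₁` minus the point `p` in `M` (charts in `W`) -/
structure Emb (W : Type) [NormedAddCommGroup W] [NormedSpace ℝ W] (M₁ : Set V₁) (p : V₁)
    (M : Set V) (a : V₁ → V) : Prop where
  par : ∀ (φ : W → V₁) (y : W), Par M₁ φ y → φ y ≠ p → Par M (fun z => a (φ z)) y
  inj : Set.InjOn a (M₁ \ {p})

/-- `M` is the connected sum of `M₁` and `M₂` along the discs `i₁`, `i₂`: the union of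
`M₁ - i₁ 0` and `M₂ - i₂ 0` with `i₁ (t u)` identified with `i₂ ((1 - t) u)` -/
structure CSum (M : Set V) (M₁ : Set V₁) (M₂ : Set V₂) (i₁ : W → V₁) (i₂ : W → V₂)
    (a : V₁ → V) (b : V₂ → V) : Prop where
  disc₁ : Disc M₁ i₁
  disc₂ : Disc M₂ i₂
  emb₁ : Emb W M₁ (i₁ 0) M a
  emb₂ : Emb W M₂ (i₂ 0) M b
  cover : M ⊆ a '' (M₁ \ {i₁ 0}) ∪ b '' (M₂ \ {i₂ 0})
  glue : ∀ x ∈ M₁ \ {i₁ 0}, ∀ y ∈ M₂ \ {i₂ 0}, a x = b y ↔
    ∃ (u : W) (t : ℝ), ‖u‖ = 1 ∧ 0 < t ∧ t < 1 ∧ x = i₁ (t • u) ∧ y = i₂ ((1 - t) • u)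

end Pool.Agent.Lib.MP_c00cc5_gt
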