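import Pool.Agent.Lib.MP_c00cc5_gt.Chart

set_option autoImplicit false
set_option maxSynthPendingDepth 3
set_option linter.unusedSectionVars false
set_option linter.unusedSimpArgs false

namespace Pool.Agent.Lib.MP_c00cc5_gt

/-! The Riemannian distance. -/

open scoped ContDiff RealInnerProductSpace Topology
open Filter Set

section sp

variable {X Y : Type} [NormedAddCommGroup X] [NormedSpace ℝ X] [NormedAddCommGroup Y]
  [NormedSpace ℝ Y] {G : Met X} {c : ℝ → X} {t : ℝ}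

/-- the speed of a curve -/
noncomputable def sp (G : Met X) (c : ℝ → X) (t : ℝ) : ℝ := √(G (c t) (deriv c t) (deriv c t))

theorem len_eq (G : Met X) (c : ℝ → X) : len G c = ∫ t in (0 : ℝ)..1, sp G c t := rfl

theorem sp_nn (G : Met X) (c : ℝ → X) (t : ℝ) : 0 ≤ sp G c t := Real.sqrt_nonneg _

theorem c1_ca (hc : ContDiffAt ℝ 1 c t) : ContinuousAt (deriv c) t :=
  ((hc.fderiv_right (m := 0) (by norm_num)).continuousAt).clm_apply (continuousAt_const (y := 1))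

theorem sp_ca (hG : ContinuousAt G (c t)) (hc : ContDiffAt ℝ 1 c t) : ContinuousAt (sp G c) t :=
  (((hG.comp hc.continuousAt).clm_apply (c1_ca hc)).clm_apply (c1_ca hc)).sqrt

theorem sp_of {v : X} (h : HasDerivAt c v t) : sp G c t = √(G (c t) v v) := by rw [sp, h.deriv]

theorem sp_congr {e : ℝ → X} (h : c =ᶠ[𝓝 t] e) : sp G c t = sp G e t := by
  rw [sp, sp, h.deriv_eq, h.self_of_nhds]

theorem sp_comp {σ : ℝ → ℝ} {a : ℝ} (hσ : HasDerivAt σ a t) (hc : DifferentiableAt ℝ c (σ t)) :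
    sp G (fun s => c (σ s)) t = sp G c (σ t) * |a| := by
  rw [sp_of (c := fun s => c (σ s)) (hc.hasDerivAt.scomp t hσ), sp]
  simp only [map_smul, smul_apply, smul_eq_mul, Function.comp]
  rw [← mul_assoc, Real.sqrt_mul (mul_self_nonneg a), Real.sqrt_mul_self_eq_abs, mul_comm]

theorem sp_pull {φ : Y → X} {γ : ℝ → Y} (hφ : DifferentiableAt ℝ φ (γ t))
    (hγ : DifferentiableAt ℝ γ t) : sp G (fun s => φ (γ s)) t = sp (pull G φ) γ t := by
  rw [sp_of (c := fun s => φ (γ s)) (hφ.hasFDerivAt.comp_hasDerivAt t hγ.hasDerivAt), sp]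
  rfl

theorem int_comp (hG : Continuous G) {σ : ℝ → ℝ} (hσ : ContDiff ℝ 1 σ) (h0 : ∀ t, 0 ≤ deriv σ t)
    (hc : ∀ t, ContDiffAt ℝ 1 c (σ t)) (α β : ℝ) :
    ∫ t in α..β, sp G (fun s => c (σ s)) t = ∫ t in (σ α)..(σ β), sp G c t := by
  have hd : ∀ t, HasDerivAt σ (deriv σ t) t := fun t => (hσ.differentiable (by simp) t).hasDerivAt
  rw [← intervalIntegral.integral_comp_mul_deriv' (fun t _ => hd t)
    (fun t _ => (c1_ca hσ.contDiffAt).continuousWithinAt)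
    (fun _ ⟨t, _, e⟩ => (e ▸ sp_ca hG.continuousAt (hc t)).continuousWithinAt)]
  refine intervalIntegral.integral_congr fun t _ => ?_
  rw [sp_comp (hd t) ((hc t).differentiableAt (by simp)), abs_of_nonneg (h0 t)]
  rfl

theorem sp_ii {a b : ℝ} (h : ∀ t ∈ uIcc a b, ContinuousAt G (c t) ∧ ContDiffAt ℝ 1 c t) :
    IntervalIntegrable (sp G c) MeasureTheory.volume a b :=
  ContinuousOn.intervalIntegrable fun t ht => (sp_ca (h t ht).1 (h t ht).2).continuousWithinAt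

end sp

variable {V W : Type} [NormedAddCommGroup V] [InnerProductSpace ℝ V] [FiniteDimensional ℝ V]
  [NormedAddCommGroup W] [NormedSpace ℝ W] [FiniteDimensional ℝ W]
  {M : Set V} {G : Met V} {φ : W → V} {r : V → W} {y : W} {c : ℝ → V} {p q z : V}

/-- curves in `M` from `p` to `q` -/
structure Cv (M : Set V) (c : ℝ → V) (p q : V) : Prop where
  c1 : ContDiff ℝ 1 c
  m : ∀ t, c t ∈ M
  e0 : c 0 = p
  e1 : c 1 = q

/-- the distance -/
noncomputable def dst (M : Set V) (G : Met V) (p q : V) : ℝ :=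
  sInf {l | ∃ c, Cv M c p q ∧ len G c = l}

theorem st1 (k j : ℝ) : ContDiff ℝ 1 (st k j) := (st_cd k j).of_le (le_inf 1)

theorem reparam (hG : Continuous G) {a b : ℝ} (hab : a ≤ b)
    (hc : ∀ t ∈ Icc a b, ContDiffAt ℝ 1 c t ∧ c t ∈ M) :
    ∃ e, Cv M e (c a) (c b) ∧ len G e = ∫ t in a..b, sp G c t := by
  have hσ : ContDiff ℝ 1 fun t => a + (b - a) * st 1 0 t :=
    contDiff_const.add (contDiff_const.mul (st1 1 0))
  have hm : ∀ t, a + (b - a) * st 1 0 t ∈ Icc a b := fun t => by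
    have := st_mem 1 0 t
    constructor <;> nlinarith
  have e0 : a + (b - a) * st 1 0 0 = a := by rw [st_0 (by simp)]; ring
  have e1 : a + (b - a) * st 1 0 1 = b := by rw [st_1 (by simp)]; ring
  refine ⟨fun t => c (a + (b - a) * st 1 0 t), ⟨contDiff_iff_contDiffAt.2 fun t =>
    (hc _ (hm t)).1.comp t hσ.contDiffAt, fun t => (hc _ (hm t)).2, by rw [e0], by rw [e1]⟩, ?_⟩
  rw [len_eq, int_comp hG hσ (fun t => ?_) fun t => (hc _ (hm t)).1, e0, e1]
  rw [deriv_const_add, deriv_const_mul_field]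
  exact mul_nonneg (by linarith) (st_d zero_le_one 0 t)

theorem Cv.concat (hG : Continuous G) {e : ℝ → V} (h1 : Cv M c p q) (h2 : Cv M e q z) :
    ∃ k, Cv M k p z ∧ len G k = len G c + len G e := by
  have c1 : ContDiff ℝ 1 fun t => c (st 2 0 t) := h1.c1.comp (st1 2 0)
  have c2 : ContDiff ℝ 1 fun t => e (st 2 1 t) := h2.c1.comp (st1 2 1)
  have c3 : ContDiff ℝ 1 fun t => c (st 2 0 t) + e (st 2 1 t) - q := (c1.add c2).sub contDiff_const
  have l : ∀ t ≤ 1 / 2, c (st 2 0 t) + e (st 2 1 t) - q = c (st 2 0 t) := fun t ht => by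
    rw [st_0 (k := 2) (j := 1) (by linarith), h2.e0, add_sub_cancel_right]
  have u : ∀ t ≥ 1 / 2, c (st 2 0 t) + e (st 2 1 t) - q = e (st 2 1 t) := fun t ht => by
    rw [st_1 (k := 2) (j := 0) (by linarith), h1.e1, add_sub_cancel_left]
  refine ⟨_, ⟨c3, fun t => ?_, ?_, ?_⟩, ?_⟩
  · rcases le_total t (1 / 2) with h | h
    · rw [l t h]; exact h1.m _
    · rw [u t h]; exact h2.m _
  · rw [l 0 (by norm_num), st_0 (by simp), h1.e0]
  · rw [u 1 (by norm_num), st_1 (by norm_num), h2.e1]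
  have i1 := int_comp hG (st1 2 0) (st_d zero_le_two 0) (fun t => h1.c1.contDiffAt) 0 (1 / 2)
  have i2 := int_comp hG (st1 2 1) (st_d zero_le_two 1) (fun t => h2.c1.contDiffAt) (1 / 2) 1
  rw [st_0 (by simp), st_1 (by norm_num)] at i1 i2
  rw [len_eq, len_eq, len_eq, ← i1, ← i2, ← intervalIntegral.integral_add_adjacent_intervals
    (b := 1 / 2) (sp_ii fun t _ => ⟨hG.continuousAt, c3.contDiffAt⟩)
    (sp_ii fun t _ => ⟨hG.continuousAt, c3.contDiffAt⟩)]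
  congr 1
  · refine intervalIntegral.integral_congr_ae ?_
    filter_upwards [MeasureTheory.Measure.ae_ne MeasureTheory.volume (1 / 2 : ℝ)] with t h0 ht
    rw [uIoc_of_le (by norm_num)] at ht
    have : (fun t => c (st 2 0 t) + e (st 2 1 t) - q) =ᶠ[𝓝 t] fun t => c (st 2 0 t) :=
      (gt_mem_nhds (lt_of_le_of_ne ht.2 h0)).mono fun s hs => l s hs.le
    exact sp_congr this
  · refine intervalIntegral.integral_congr_ae (Eventually.of_forall fun t ht => ?_)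
    rw [uIoc_of_le (by norm_num)] at ht
    have : (fun t => c (st 2 0 t) + e (st 2 1 t) - q) =ᶠ[𝓝 t] fun t => e (st 2 1 t) :=
      (lt_mem_nhds ht.1).mono fun s hs => u s hs.le
    exact sp_congr this

theorem Cv.rev (G : Met V) (h : Cv M c p q) :
    Cv M (fun t => c (1 - t)) q p ∧ len G (fun t => c (1 - t)) = len G c := by
  refine ⟨⟨h.c1.comp (contDiff_const.sub contDiff_id), fun t => h.m _, by simpa using h.e1,
    by simpa using h.e0⟩, ?_⟩
  have := intervalIntegral.integral_comp_sub_left (sp G c) (a := 0) (b := 1) 1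
  rw [sub_self, sub_zero] at this
  rw [len_eq, len_eq, ← this]
  refine intervalIntegral.integral_congr fun t _ => ?_
  rw [sp_comp (σ := fun t => 1 - t) ((hasDerivAt_id t).const_sub 1) (h.c1.differentiable (by simp) _)]
  simp

theorem chart_cv (hG : Continuous G) {γ : ℝ → W}
    (hγ : ∀ t ∈ Icc (0 : ℝ) 1, ContDiffAt ℝ 1 γ t ∧ Par M φ (γ t)) :
    ∃ e, Cv M e (φ (γ 0)) (φ (γ 1)) ∧ len G e = ∫ t in (0 : ℝ)..1, sp (pull G φ) γ t := by
  obtain ⟨e, h1, h2⟩ := reparam (M := M) (c := fun t => φ (γ t)) hG zero_le_one fun t ht =>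
    ⟨((hγ t ht).2.sm.c 1).comp t (hγ t ht).1, (hγ t ht).2.m⟩
  refine ⟨e, h1, h2.trans (intervalIntegral.integral_congr fun t ht => ?_)⟩
  rw [uIcc_of_le zero_le_one] at ht
  exact sp_pull (hγ t ht).2.sm.d ((hγ t ht).1.differentiableAt (by simp))

theorem seg_ev {P : W → Prop} (h : ∀ᶠ z in 𝓝 y, P z) :
    ∀ᶠ w in 𝓝 (y, y), ∀ t ∈ Icc (0 : ℝ) 1, P (w.1 + t • (w.2 - w.1)) :=
  isCompact_Icc.eventually_forall_of_forall_eventually fun t _ => by
    have : Continuous fun x : (W × W) × ℝ => x.1.1 + x.2 • (x.1.2 - x.1.1) := by fun_prop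
    exact (this.tendsto' _ y (by simp)).eventually h

theorem seg_c1 (a v : W) (t : ℝ) : ContDiffAt ℝ 1 (fun t : ℝ => a + t • v) t :=
  contDiffAt_const.add (contDiffAt_id.smul contDiffAt_const)

theorem Geo.exists_cv (h : Geo W M G) (hp : p ∈ M) (hq : q ∈ M) : ∃ c, Cv M c p q := by
  refine h.conn.induction₂ (fun p q => ∃ c, Cv M c p q) (fun x hx => ?_)
    (fun x y z _ _ _ ⟨c, h1⟩ ⟨e, h2⟩ => (h1.concat h.smooth.continuous h2).imp fun _ h => h.1)
    (fun x y _ _ ⟨c, h1⟩ => ⟨_, (h1.rev G).1⟩) hp hq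
  obtain ⟨φ, r, y, hc, rfl⟩ := h.sub.ch hx
  have := hc.ev' ((Continuous.prodMk_right y).continuousAt.eventually (seg_ev hc.par.ev))
  rw [eventually_nhdsWithin_iff]
  filter_upwards [this] with x h1 hx
  obtain ⟨e, h2, -⟩ := chart_cv h.smooth.continuous (γ := fun t => y + t • (r x - y))
    fun t ht => ⟨seg_c1 _ _ _, (h1 hx).2 t ht⟩
  exact ⟨e, by simpa [(h1 hx).1] using h2⟩

theorem len_nn (G : Met V) (c : ℝ → V) : 0 ≤ len G c :=
  intervalIntegral.integral_nonneg zero_le_one fun t _ => sp_nn G c t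

theorem dst_nn (M : Set V) (G : Met V) (p q : V) : 0 ≤ dst M G p q :=
  Real.sInf_nonneg fun _ ⟨c, _, h⟩ => h ▸ len_nn G c

theorem Cv.dst_le (h : Cv M c p q) : dst M G p q ≤ len G c :=
  csInf_le ⟨0, fun _ ⟨c, _, h⟩ => h ▸ len_nn G c⟩ ⟨c, h, rfl⟩

theorem Geo.le_dst (h : Geo W M G) (hp : p ∈ M) (hq : q ∈ M) {a : ℝ}
    (ha : ∀ c, Cv M c p q → a ≤ len G c) : a ≤ dst M G p q :=
  le_csInf (let ⟨c, hc⟩ := h.exists_cv hp hq; ⟨_, c, hc, rfl⟩) fun _ ⟨c, hc, e⟩ => e ▸ ha c hc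

theorem Geo.dst_int (h : Geo W M G) {a b : ℝ} (hab : a ≤ b)
    (hc : ∀ t ∈ Icc a b, ContDiffAt ℝ 1 c t ∧ c t ∈ M) :
    dst M G (c a) (c b) ≤ ∫ t in a..b, sp G c t :=
  let ⟨_, h1, h2⟩ := reparam h.smooth.continuous hab hc; h2 ▸ h1.dst_le

theorem Geo.dst_chart (h : Geo W M G) {γ : ℝ → W}
    (hγ : ∀ t ∈ Icc (0 : ℝ) 1, ContDiffAt ℝ 1 γ t ∧ Par M φ (γ t)) :
    dst M G (φ (γ 0)) (φ (γ 1)) ≤ ∫ t in (0 : ℝ)..1, sp (pull G φ) γ t :=
  let ⟨_, h1, h2⟩ := chart_cv h.smooth.continuous hγ; h2 ▸ h1.dst_le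

theorem Geo.dst_self (h : Geo W M G) (hp : p ∈ M) : dst M G p p = 0 :=
  le_antisymm (by simpa using h.dst_int (c := fun _ => p) (le_refl 0) fun _ _ =>
    ⟨contDiffAt_const, hp⟩) (dst_nn _ _ _ _)

theorem Geo.dst_comm (h : Geo W M G) (hp : p ∈ M) (hq : q ∈ M) : dst M G p q = dst M G q p :=
  le_antisymm (h.le_dst hq hp fun _ hc => (hc.rev G).2 ▸ (hc.rev G).1.dst_le)
    (h.le_dst hp hq fun _ hc => (hc.rev G).2 ▸ (hc.rev G).1.dst_le)

theorem Geo.tri (h : Geo W M G) (hp : p ∈ M) (hq : q ∈ M) (hz : z ∈ M) :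
    dst M G p z ≤ dst M G p q + dst M G q z := by
  rw [← sub_le_iff_le_add]
  refine h.le_dst hp hq fun c hc => ?_
  rw [sub_le_comm]
  refine h.le_dst hq hz fun e he => ?_
  obtain ⟨k, h1, h2⟩ := hc.concat h.smooth.continuous he
  linarith [h1.dst_le (G := G)]

theorem Geo.dst_seg (h : Geo W M G) {a v : W} {K : ℝ} (K0 : 0 ≤ K)
    (hs : ∀ t ∈ Icc (0 : ℝ) 1, Par M φ (a + t • v) ∧ pull G φ (a + t • v) v v ≤ K ^ 2) :
    dst M G (φ a) (φ (a + v)) ≤ K := by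
  have := h.dst_chart (φ := φ) (γ := fun t => a + t • v) fun t ht => ⟨seg_c1 _ _ _, (hs t ht).1⟩
  simp only [zero_smul, add_zero, one_smul] at this
  refine this.trans ((intervalIntegral.integral_mono_on zero_le_one (g := fun _ => K)
    (sp_ii fun t ht => ?_) intervalIntegrable_const fun t ht => ?_).trans (by simp))
  · rw [uIcc_of_le zero_le_one] at ht
    exact ⟨(h.ps (hs t ht).1).ca, seg_c1 _ _ _⟩
  · rw [sp_of (c := fun t => a + t • v) (((hasDerivAt_id t).smul_const v).const_add a), one_smul]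
    exact Real.sqrt_le_iff.2 ⟨K0, (hs t ht).2⟩

theorem bil_le {X : Type} [NormedAddCommGroup X] [NormedSpace ℝ X] (B : X →L[ℝ] X →L[ℝ] ℝ)
    (u v : X) : |B u v| ≤ ‖B‖ * ‖u‖ * ‖v‖ := B.le_opNorm₂ u v

theorem Geo.lip (h : Geo W M G) (hp : Par M φ y) : ∃ C, 0 ≤ C ∧
    ∀ᶠ w in 𝓝 (y, y), dst M G (φ w.1) (φ w.2) ≤ C * ‖w.2 - w.1‖ := by
  have h1 : ∀ᶠ z in 𝓝 y, ‖pull G φ z‖ < ‖pull G φ y‖ + 1 :=
    (h.ps hp).ca.norm.eventually (gt_mem_nhds (lt_add_one _))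
  refine ⟨‖pull G φ y‖ + 1, by positivity, ?_⟩
  filter_upwards [seg_ev (hp.ev.and h1)] with w hw
  have := h.dst_seg (a := w.1) (v := w.2 - w.1) (K := (‖pull G φ y‖ + 1) * ‖w.2 - w.1‖)
    (by positivity) fun t ht => ⟨(hw t ht).1, by
      refine (le_abs_self _).trans ((bil_le _ _ _).trans ?_)
      have := (hw t ht).2
      have := norm_nonneg (pull G φ y)
      rw [mul_assoc, ← sq, mul_pow]
      exact mul_le_mul_of_nonneg_right (by nlinarith) (sq_nonneg _)⟩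
  simpa using this

theorem Geo.dst_t (h : Geo W M G) (hz : z ∈ M) : Tendsto (dst M G z) (𝓝[M] z) (𝓝 0) := by
  obtain ⟨φ, r, y, hc, rfl⟩ := h.sub.ch hz
  obtain ⟨C, -, hC⟩ := h.lip hc.par
  have := hc.ev' ((Continuous.prodMk_right y).continuousAt.eventually hC)
  have t1 : Tendsto (fun x => C * ‖r x - y‖) (𝓝 (φ y)) (𝓝 (C * ‖y - y‖)) :=
    ((hc.t.sub_const y).norm).const_mul C
  rw [sub_self, norm_zero, mul_zero] at t1
  refine squeeze_zero' (Eventually.of_forall fun _ => dst_nn _ _ _ _) ?_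
    (t1.mono_left nhdsWithin_le_nhds)
  rw [eventually_nhdsWithin_iff]
  filter_upwards [this] with x h1 hx
  simpa [(h1 hx).1] using (h1 hx).2

theorem Geo.dst_co (h : Geo W M G) (hp : p ∈ M) : ContinuousOn (dst M G p) M := fun z hz => by
  rw [ContinuousWithinAt, tendsto_iff_norm_sub_tendsto_zero]
  refine squeeze_zero' (Eventually.of_forall fun _ => norm_nonneg _) ?_ (h.dst_t hz)
  filter_upwards [self_mem_nhdsWithin] with x hx
  have := h.tri hp hz hx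
  have := h.tri hp hx hz
  rw [h.dst_comm hx hz] at this
  exact abs_le.2 ⟨by linarith, by linarith⟩

theorem pos_unif {X T : Type} [NormedAddCommGroup X] [NormedSpace ℝ X] [FiniteDimensional ℝ X]
    [TopologicalSpace T] {K : Set T} (hK : IsCompact K) {B : T → X →L[ℝ] X →L[ℝ] ℝ}
    (hc : ContinuousOn B K) (hp : ∀ x ∈ K, ∀ v, v ≠ 0 → 0 < B x v v) :
    ∃ μ, 0 < μ ∧ ∀ x ∈ K, ∀ v, μ * ‖v‖ ^ 2 ≤ B x v v := by
  obtain ⟨μ, μ0, hμ⟩ := (hK.prod (isCompact_sphere (0 : X) 1)).exists_forall_le'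
    (f := fun w => B w.1 w.2 w.2) (((hc.comp continuousOn_fst fun _ h => h.1).clm_apply
      continuousOn_snd).clm_apply continuousOn_snd) (a := 0) fun w hw => hp _ hw.1 _ (by
        rintro h0
        simpa [h0] using hw.2)
  refine ⟨μ, μ0, fun x hx v => ?_⟩
  by_cases hv : v = 0
  · simp [hv]
  have n0 := norm_pos_iff.2 hv
  have := hμ (x, ‖v‖⁻¹ • v) ⟨hx, by simp [norm_smul, hv]⟩
  simp only [map_smul, smul_apply, smul_eq_mul] at this
  calc μ * ‖v‖ ^ 2 ≤ ‖v‖⁻¹ * (‖v‖⁻¹ * B x v v) * ‖v‖ ^ 2 := by gcongr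
    _ = B x v v := by field_simp

theorem Geo.low (h : Geo W M G) : ∃ μ, 0 < μ ∧ (∀ x ∈ M, ∀ v, (μ * ‖v‖) ^ 2 ≤ G x v v) ∧
    ∀ c p q, Cv M c p q → ∀ t ∈ Icc (0 : ℝ) 1, μ * ‖c t - p‖ ≤ len G c := by
  obtain ⟨μ, μ0, hμ⟩ := pos_unif h.cpt h.smooth.continuous.continuousOn fun x _ => h.pos x
  have k : ∀ x ∈ M, ∀ v, (√μ * ‖v‖) ^ 2 ≤ G x v v := fun x hx v => by
    rw [mul_pow, Real.sq_sqrt μ0.le]; exact hμ x hx v
  refine ⟨√μ, Real.sqrt_pos.2 μ0, k, fun c p q hc t ht => ?_⟩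
  have cd : Continuous (deriv c) := continuous_iff_continuousAt.2 fun _ => c1_ca hc.c1.contDiffAt
  have ii : ∀ a b, IntervalIntegrable (sp G c) MeasureTheory.volume a b := fun a b =>
    sp_ii fun t _ => ⟨h.smooth.continuous.continuousAt, hc.c1.contDiffAt⟩
  rw [← hc.e0, ← intervalIntegral.integral_deriv_eq_sub
    (fun s _ => hc.c1.differentiable (by simp) s) (cd.intervalIntegrable _ _)]
  calc √μ * ‖∫ s in (0 : ℝ)..t, deriv c s‖ ≤ √μ * ∫ s in (0 : ℝ)..t, ‖deriv c s‖ :=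
        mul_le_mul_of_nonneg_left (intervalIntegral.norm_integral_le_integral_norm ht.1)
          (Real.sqrt_nonneg _)
    _ ≤ ∫ s in (0 : ℝ)..t, sp G c s := by
        rw [← intervalIntegral.integral_const_mul]
        exact intervalIntegral.integral_mono_on ht.1
          ((continuous_const.mul cd.norm).intervalIntegrable _ _) (ii _ _) fun s _ =>
          Real.le_sqrt_of_sq_le (k _ (hc.m s) _)
    _ ≤ len G c := intervalIntegral.integral_mono_interval le_rfl ht.1 ht.2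
          (Eventually.of_forall fun s => sp_nn G c s) (ii _ _)

theorem Geo.low' (h : Geo W M G) : ∃ μ, 0 < μ ∧ ∀ p ∈ M, ∀ q ∈ M, μ * ‖q - p‖ ≤ dst M G p q :=
  let ⟨μ, μ0, _, hμ⟩ := h.low
  ⟨μ, μ0, fun _ hp _ hq => h.le_dst hp hq fun c hc => hc.e1 ▸ hμ c _ _ hc 1 (by simp)⟩

theorem Geo.dst_pos (h : Geo W M G) (hp : p ∈ M) (hq : q ∈ M) (hne : q ≠ p) : 0 < dst M G p q :=
  let ⟨_, μ0, hμ⟩ := h.low'
  (mul_pos μ0 (norm_pos_iff.2 (sub_ne_zero.2 hne))).trans_le (hμ p hp q hq)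

theorem Geo.mid (h : Geo W M G) (hp : p ∈ M) (hz : z ∈ M) {s : ℝ} (s0 : 0 ≤ s)
    (s1 : s ≤ dst M G p z) : ∃ x ∈ M, dst M G p x = s ∧ dst M G x z = dst M G p z - s := by
  have key : ∀ c, Cv M c p z → ∃ x ∈ M, dst M G p x = s ∧ dst M G z x ≤ len G c - s := by
    intro c hc
    have c1 : Continuous fun t => dst M G p (c t) :=
      (h.dst_co hp).comp_continuous hc.c1.continuous hc.m
    obtain ⟨t, ht, e⟩ := intermediate_value_Icc zero_le_one c1.continuousOn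
      (show s ∈ Icc _ _ by simp only [hc.e0, hc.e1, h.dst_self hp]; exact ⟨s0, s1⟩)
    refine ⟨c t, hc.m t, e, ?_⟩
    have i1 := h.dst_int ht.1 fun t _ => ⟨hc.c1.contDiffAt, hc.m t⟩
    have i2 := h.dst_int ht.2 fun t _ => ⟨hc.c1.contDiffAt, hc.m t⟩
    have := intervalIntegral.integral_add_adjacent_intervals (a := 0) (b := t) (c := 1)
      (sp_ii fun t _ => ⟨h.smooth.continuous.continuousAt, hc.c1.contDiffAt⟩)
      (sp_ii fun t _ => ⟨h.smooth.continuous.continuousAt, hc.c1.contDiffAt⟩)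
    rw [hc.e0] at i1
    rw [hc.e1, h.dst_comm (hc.m t) hz] at i2
    simp only at e
    rw [len_eq]
    linarith
  have hK : IsCompact (M ∩ dst M G p ⁻¹' {s}) := h.cpt.of_isClosed_subset
    ((h.dst_co hp).preimage_isClosed_of_isClosed h.cpt.isClosed isClosed_singleton)
    inter_subset_left
  obtain ⟨c, hc⟩ := h.exists_cv hp hz
  obtain ⟨x0, h0, h1, -⟩ := key c hc
  obtain ⟨x, hx, hm⟩ := hK.exists_isMinOn ⟨x0, h0, h1⟩ ((h.dst_co hz).mono inter_subset_left)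
  have e : dst M G p x = s := hx.2
  refine ⟨x, hx.1, e, le_antisymm ?_ (by linarith [h.tri hp hx.1 hz])⟩
  rw [h.dst_comm hx.1 hz, le_sub_iff_add_le]
  refine h.le_dst hp hz fun c hc => ?_
  obtain ⟨x1, a0, a1, a2⟩ := key c hc
  have : dst M G z x ≤ dst M G z x1 := hm ⟨a0, a1⟩
  linarith

end Pool.Agent.Lib.MP_c00cc5_gt
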