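import Pool.Agent.Lib.MP_c00cc5_gt.Level

set_option autoImplicit false
set_option maxSynthPendingDepth 3
set_option linter.unusedSectionVars false
set_option linter.unusedSimpArgs false

namespace Pool.Agent.Lib.MP_c00cc5_gt

/-! A gradient-like flow and two global charts. -/

open scoped ContDiff RealInnerProductSpace Topology
open Filter Set Real

variable {V W : Type} [NormedAddCommGroup V] [InnerProductSpace ℝ V] [FiniteDimensional ℝ V]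
  [NormedAddCommGroup W] [NormedSpace ℝ W] [FiniteDimensional ℝ W]
  {M : Set V} {K : Met V} {p q x : V} {θ D : V → ℝ} {m : ℕ} {F : V → V} {Φ : V → ℝ → V}

theorem Tan.comb (hM : Submfd W M) (hx : x ∈ M) {v w : V} (hv : Tan M x v) (hw : Tan M x w)
    (a b : ℝ) : Tan M x (a • v + b • w) := by
  obtain ⟨φ, r, y, h, rfl⟩ := hM.ch hx
  obtain ⟨u, rfl⟩ := h.tan hv
  obtain ⟨u', rfl⟩ := h.tan hw
  simpa using h.par.tan (a • u + b • u')

theorem Fl.add (h : Fl F Φ) (x : V) (s t : ℝ) : Φ (Φ x s) t = Φ x (s + t) :=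
  h.uq (Φ (Φ x s)) (fun t => Φ x (s + t)) (-(|t| + 1)) (|t| + 1) 0
    ⟨by linarith [abs_nonneg t], by linarith [abs_nonneg t]⟩ (fun r _ => h.d _ r)
    (fun r _ => (h.d x (s + r)).comp_const_add s r) (by simp [h.e0])
    ⟨by linarith [neg_abs_le t], by linarith [le_abs_self t]⟩

theorem Fl.neg (h : Fl F Φ) : Fl (fun x => -F x) fun x t => Φ x (-t) := by
  have k : ∀ {c : ℝ → V} {v : V} {s : ℝ}, HasDerivAt c v (-s) →
      HasDerivAt (fun t => c (-t)) (-v) s := fun h => by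
    have := h.scomp _ (hasDerivAt_neg _)
    rwa [neg_one_smul] at this
  refine ⟨h.cd.comp (contDiff_fst.prodMk contDiff_snd.neg), fun u => by simp [h.e0],
    fun u s => k (h.d u (-s)), fun c e a b t ht hc he h0 s hs => ?_⟩
  have m : ∀ {s}, s ∈ Ioo (-b) (-a) → -s ∈ Ioo a b := fun hs => ⟨lt_neg.1 hs.2, neg_lt.1 hs.1⟩
  simpa using h.uq (fun t => c (-t)) (fun t => e (-t)) (-b) (-a) (-t)
    ⟨neg_lt_neg ht.2, neg_lt_neg ht.1⟩ (fun s hs => by simpa using k (hc _ (m hs)))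
    (fun s hs => by simpa using k (he _ (m hs))) (by simpa using h0)
    (x := -s) ⟨neg_lt_neg hs.2, neg_lt_neg hs.1⟩

theorem Fl.rad (h : Fl F Φ) {φ : W → V}
    (hφ : ∀ y, ‖y‖ < 2 → DifferentiableAt ℝ φ y ∧ F (φ y) = fderiv ℝ φ y y) {y : W} {t : ℝ}
    (hy : ‖y‖ < 2) (ht : exp t * ‖y‖ < 2) : Φ (φ y) t = φ (exp t • y) := by
  have h0 : exp (max 0 t) * ‖y‖ < 2 := by
    rcases max_choice 0 t with e | e <;> rw [e]
    · simpa
    · exact ht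
  obtain ⟨b, b1, b2⟩ := (((continuous_exp.mul (continuous_const (y := ‖y‖))).continuousAt.eventually
    (gt_mem_nhds h0)).filter_mono (nhdsWithin_le_nhds (s := Ioi (max 0 t)))).and
    self_mem_nhdsWithin |>.exists
  refine h.uq (Φ (φ y)) (fun s => φ (exp s • y)) (min 0 t - 1) b 0
    ⟨by linarith [min_le_left 0 t], (le_max_left _ _).trans_lt b2⟩ (fun r _ => h.d _ r)
    (fun r hr => ?_) (by simp [h.e0])
    ⟨by linarith [min_le_right 0 t], (le_max_right _ _).trans_lt b2⟩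
  have n : ‖exp r • y‖ < 2 := by
    rw [norm_smul, norm_of_nonneg (exp_pos r).le]
    exact (mul_le_mul_of_nonneg_right (exp_le_exp.2 hr.2.le) (norm_nonneg y)).trans_lt b1
  rw [(hφ _ n).2]
  exact (hφ _ n).1.hasFDerivAt.comp_hasDerivAt r ((hasDerivAt_exp r).smul_const y)

theorem Fl.inv (h : Fl F Φ) (hF : ContDiff ℝ ∞ F) (hM : Submfd W M) (cl : IsClosed M)
    (ht : ∀ x ∈ M, Tan M x (F x)) (hx : x ∈ M) (t : ℝ) : Φ x t ∈ M := by
  have := FiniteDimensional.complete ℝ W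
  have c : Continuous (Φ x) := continuous_iff_continuousAt.2 fun s => (h.d x s).continuousAt
  refine (IsClopen.eq_univ (s := Φ x ⁻¹' M) ⟨cl.preimage c, isOpen_iff_mem_nhds.2 fun s hs => ?_⟩
    ⟨0, by simpa [h.e0]⟩).ge (mem_univ t)
  obtain ⟨φ, r, y, hc, e⟩ := hM.ch hs
  obtain ⟨α, a1, ε, ε0, a2⟩ := ContDiffAt.exists_forall_mem_closedBall_exists_eq_forall_mem_Ioo_hasDerivAt₀
    (f := fun w => fderiv ℝ r (φ w) (F (φ w))) (x₀ := y)
    (((hc.sm.fd.comp hc.par.sm).c 1).clm_apply (((Sm.of hF _).comp hc.par.sm).c 1)) s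
  have i0 : Ioo (s - ε) (s + ε) ∈ 𝓝 s := Ioo_mem_nhds (by linarith) (by linarith)
  obtain ⟨a, b, i1, i2⟩ := mem_nhds_iff_exists_Ioo_subset.1 (((a2 s (mem_of_mem_nhds
    i0)).continuousAt.eventually (a1 ▸ hc.ev)).and i0)
  have := h.uq (Φ x) (fun t => φ (α t)) a b s i1 (fun r _ => h.d _ r) (fun t ht' => by
    obtain ⟨c1, c2⟩ := i2 ht'
    obtain ⟨u, hu⟩ := c1.tan (ht _ c1.par.m)
    have := c1.par.sm.d.hasFDerivAt.comp_hasDerivAt t (a2 t c2)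
    rwa [hu, c1.dl, ← hu] at this) (by rw [a1, e])
  filter_upwards [Ioo_mem_nhds i1.1 i1.2] with t ht'
  rw [mem_preimage, this ht']
  exact (i2 ht').1.par.m

theorem nr_pos {n : ℕ} {r : ℝ} (hr : 0 < r) (x : E n) : nr (r • x) = nr x := by
  rw [nr, nr, norm_smul, norm_of_nonneg hr.le, smul_smul, mul_inv, mul_right_comm,
    inv_mul_cancel₀ hr.ne', one_mul]

variable {φ ψ Ψ Ψ' : E (m + 1) → V}

/-- a chart at a pole -/
structure Pl (M : Set V) (θ : V → ℝ) (φ : E (m + 1) → V) : Prop where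
  inj : InjOn φ (Metric.ball 0 3)
  par : ∀ y, ‖y‖ < 3 → Par M φ y
  rad : ∀ y, ‖y‖ < 3 → y ≠ 0 → 0 < fderiv ℝ θ (φ y) (fderiv ℝ φ y y)

theorem Mor.d0 (h : Mor m M K θ p q) {y : E (m + 1)} (hφ : Par M φ y) (e : φ y = p) :
    fderiv ℝ (fun z => θ (φ z)) y = 0 := ContinuousLinearMap.ext fun w => by
  have d := cda_d (h.sθ _ hφ.m)
  rw [fd_comp d hφ.sm.d]
  exact (hφ.tan w).min d (e ▸ h.min)

theorem Mor.chart (h : Mor m M K θ p q) {U : Set V} (hU : U ∈ 𝓝 p) :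
    ∃ φ : E (m + 1) → V, φ 0 = p ∧ Pl M θ φ ∧ ∀ y, ‖y‖ < 3 → φ y ∈ U := by
  obtain ⟨φ, r, y, hc, e⟩ := h.sub.ch h.hp
  have t : HasFDerivAt (fun z : E (m + 1) => y + z) (ContinuousLinearMap.id ℝ _) 0 :=
    (hasFDerivAt_id _).const_add y
  have p1 : Par M (fun z => φ (y + z)) 0 := Par.comp (τ := fun z => y + z) (by simpa using hc.par)
    (Sm.of (contDiff_const.add contDiff_id) _) (by rw [t.fderiv]; exact fun _ _ e => e)
  have e1 : (fun z => φ (y + z)) 0 = p := by simpa using e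
  have l : ∀ᶠ z in 𝓝 (0 : E (m + 1)), r (φ (y + z)) = y + z :=
    t.continuousAt.eventually (by simpa using hc.left)
  generalize hφ : (fun z => φ (y + z)) = φ₁ at p1 e1
  replace l : ∀ᶠ z in 𝓝 (0 : E (m + 1)), r (φ₁ z) = y + z := hφ ▸ l
  obtain ⟨δ, δ0, hδ⟩ := Metric.eventually_nhds_iff.1 (p1.ev.and (l.and ((p1.sm.ca.eventually
    (e1 ▸ hU)).and (radial_pos ((cda2_of (h.sθ _ p1.m)).comp 0 p1.sm.c2) (h.d0 p1 e1)
    (h.nd₁ φ₁ 0 p1 e1)))))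
  simp only [dist_zero_right] at hδ
  have c0 : 0 < δ / 3 := by linarith
  have n : ∀ z : E (m + 1), ‖z‖ < 3 → ‖(δ / 3) • z‖ < δ := fun z hz => by
    rw [norm_smul, norm_of_nonneg c0.le]; nlinarith
  have s : ∀ z : E (m + 1), HasFDerivAt (fun z : E (m + 1) => (δ / 3) • z)
      ((δ / 3) • ContinuousLinearMap.id ℝ _) z := fun z => (hasFDerivAt_id z).const_smul (δ / 3)
  refine ⟨fun z => φ₁ ((δ / 3) • z), by simpa using e1, ⟨fun a ha b hb e => ?_, fun z hz =>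
    Par.comp (τ := fun z => (δ / 3) • z) (hδ (n z hz)).1 (Sm.of (contDiff_id.const_smul _) _) ?_,
    fun z hz z0 => ?_⟩, fun z hz => (hδ (n z hz)).2.2.1⟩
  · refine smul_right_injective _ c0.ne' (add_left_cancel (a := y) ?_)
    rw [← (hδ (n a (mem_ball_zero_iff.1 ha))).2.1, ← (hδ (n b (mem_ball_zero_iff.1 hb))).2.1]
    exact congrArg r e
  · rw [(s z).fderiv]
    exact smul_right_injective _ c0.ne'
  · have k := (hδ (n z hz)).1
    have := (hδ (n z hz)).2.2.2 (smul_ne_zero c0.ne' z0)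
    rw [fd_comp k.sm.d (s z).differentiableAt, (s z).fderiv]
    exact this.trans_eq (fd_comp (cda_d (h.sθ _ k.m)) k.sm.d _)

theorem Pl.loc (h : Pl M θ φ) (hM : Submfd (E (m + 1)) M) {y : E (m + 1)} (hy : ‖y‖ < 3) :
    ∃ g : V → V, ∀ᶠ x in 𝓝 (φ y), ContDiffAt ℝ ∞ g x ∧
      (x ∈ M → ∃ z, ‖z‖ < 3 ∧ φ z = x ∧ g x = fderiv ℝ φ z z) := by
  obtain ⟨r, hr⟩ := (h.par y hy).ch hM
  refine ⟨fun x => fderiv ℝ φ (r x) (r x), ?_⟩
  filter_upwards [hr.sm, Sm.comp (g := fderiv ℝ φ) (hr.ry.symm ▸ hr.par.sm.fd) hr.sm,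
    hr.ev' (continuous_norm.continuousAt.eventually (gt_mem_nhds hy))] with x h1 h2 h3
  exact ⟨h2.clm_apply h1, fun hx => ⟨_, (h3 hx).2, (h3 hx).1, rfl⟩⟩

theorem Pl.cl (h : Pl M θ φ) : IsClosed (φ '' Metric.closedBall 0 2) :=
  ((isCompact_closedBall _ _).image_of_continuousOn fun y hy => (h.par y
    (by linarith [mem_closedBall_zero_iff.1 hy])).sm.ca.continuousWithinAt).isClosed

theorem Mor.field (h : Mor m M K θ p q) (h₁ : Pl M θ φ) (h₂ : Pl M (fun x => -θ x) ψ)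
    (e₁ : φ 0 = p) (e₂ : ψ 0 = q) (hd : ∀ y z, ‖y‖ < 3 → ‖z‖ < 3 → φ y ≠ ψ z) :
    ∃ X : V → V, ContDiff ℝ ∞ X ∧ HasCompactSupport X ∧
      (∀ x ∈ M, Tan M x (X x) ∧ (x ≠ p → x ≠ q → 0 < fderiv ℝ θ x (X x))) ∧
      (∀ y, ‖y‖ ≤ 2 → X (φ y) = fderiv ℝ φ y y) ∧ ∀ y, ‖y‖ ≤ 2 → X (ψ y) = -fderiv ℝ ψ y y := by
  obtain ⟨R, hR⟩ := h.cpt.isBounded.subset_ball 0
  have l3 : ∀ {y : E (m + 1)}, ‖y‖ ≤ 2 → ‖y‖ < 3 := fun h => by linarith
  have b3 : ∀ {y : E (m + 1)}, ‖y‖ < 3 → y ∈ Metric.ball (0 : E (m + 1)) 3 := mem_ball_zero_iff.2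
  obtain ⟨X, X1, X2⟩ := glue_conv (t := fun x => {v : V |
      (x ∈ M → Tan M x v ∧ (x ≠ p → x ≠ q → 0 < fderiv ℝ θ x v)) ∧
      (∀ y, ‖y‖ ≤ 2 → φ y = x → v = fderiv ℝ φ y y) ∧
      (∀ y, ‖y‖ ≤ 2 → ψ y = x → v = -fderiv ℝ ψ y y) ∧ (R ≤ ‖x‖ → v = 0)})
    (fun x v hv w hw a b ha hb hab => by
      have k : ∀ {c : V}, v = c → w = c → a • v + b • w = c := fun e1 e2 => by
        rw [e1, e2, ← add_smul, hab, one_smul]
      refine ⟨fun hx => ⟨Tan.comb h.sub hx (hv.1 hx).1 (hw.1 hx).1 a b, fun h1 h2 => ?_⟩,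
        fun y h1 h2 => k (hv.2.1 y h1 h2) (hw.2.1 y h1 h2),
        fun y h1 h2 => k (hv.2.2.1 y h1 h2) (hw.2.2.1 y h1 h2),
        fun h1 => k (hv.2.2.2 h1) (hw.2.2.2 h1)⟩
      rw [map_add, map_smul, map_smul]
      exact convex_Ioi (𝕜 := ℝ) (0 : ℝ) ((hv.1 hx).2 h1 h2) ((hw.1 hx).2 h1 h2) ha hb hab)
    fun x => by
      by_cases hx : x ∈ M; swap
      · refine ⟨0, ?_⟩
        filter_upwards [h.cpt.isClosed.isOpen_compl.mem_nhds hx] with z hz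
        exact ⟨contDiffAt_const, fun h => (hz h).elim, fun y h1 h2 =>
          (hz (h2 ▸ (h₁.par y (l3 h1)).m)).elim, fun y h1 h2 =>
          (hz (h2 ▸ (h₂.par y (l3 h1)).m)).elim, fun _ => rfl⟩
      have r : ∀ᶠ z in 𝓝 x, ¬R ≤ ‖z‖ := (continuous_norm.continuousAt.eventually
        (gt_mem_nhds (mem_ball_zero_iff.1 (hR hx)))).mono fun z => not_le.2
      by_cases x1 : x ∈ φ '' Metric.closedBall 0 2
      · obtain ⟨y, hy, rfl⟩ := x1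
        have hy := l3 (mem_closedBall_zero_iff.1 hy)
        obtain ⟨g, hg⟩ := h₁.loc h.sub hy
        refine ⟨g, ?_⟩
        filter_upwards [hg, r] with z ⟨g1, g2⟩ hr
        refine ⟨g1, fun hz => ?_, fun w h1 h2 => ?_, fun w h1 h2 => ?_, fun h => (hr h).elim⟩
        · obtain ⟨w, w1, rfl, w3⟩ := g2 hz
          rw [w3]
          exact ⟨(h₁.par w w1).tan _, fun h1 _ => h₁.rad w w1 fun e => h1 (e ▸ e₁)⟩
        · obtain ⟨w', w1, w2, w3⟩ := g2 (h2 ▸ (h₁.par w (l3 h1)).m)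
          rw [w3, h₁.inj (b3 w1) (b3 (l3 h1)) (w2.trans h2.symm)]
        · obtain ⟨w', w1, w2, -⟩ := g2 (h2 ▸ (h₂.par w (l3 h1)).m)
          exact (hd w' w w1 (l3 h1) (w2.trans h2.symm)).elim
      by_cases x2 : x ∈ ψ '' Metric.closedBall 0 2
      · obtain ⟨y, hy, rfl⟩ := x2
        have hy := l3 (mem_closedBall_zero_iff.1 hy)
        obtain ⟨g, hg⟩ := h₂.loc h.sub hy
        refine ⟨fun z => -g z, ?_⟩
        filter_upwards [hg, r] with z ⟨g1, g2⟩ hr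
        refine ⟨g1.neg, fun hz => ?_, fun w h1 h2 => ?_, fun w h1 h2 => ?_, fun h => (hr h).elim⟩
        · obtain ⟨w, w1, rfl, w3⟩ := g2 hz
          rw [w3]
          exact ⟨by simpa using (h₂.par w w1).tan (-w), fun _ h1 => by
            simpa using h₂.rad w w1 fun e => h1 (e ▸ e₂)⟩
        · obtain ⟨w', w1, w2, -⟩ := g2 (h2 ▸ (h₁.par w (l3 h1)).m)
          exact (hd w w' (l3 h1) w1 (h2.trans w2.symm)).elim
        · obtain ⟨w', w1, w2, w3⟩ := g2 (h2 ▸ (h₂.par w (l3 h1)).m)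
          rw [w3, h₂.inj (b3 w1) (b3 (l3 h1)) (w2.trans h2.symm)]
      have z2 : (0 : E (m + 1)) ∈ Metric.closedBall 0 2 := by simp
      obtain ⟨v, v1, v2⟩ := h.reg x hx (fun e => x1 ⟨0, z2, e₁.trans e.symm⟩)
        fun e => x2 ⟨0, z2, e₂.trans e.symm⟩
      obtain ⟨χ, r', y, hc, rfl⟩ := h.sub.ch hx
      obtain ⟨u, rfl⟩ := hc.tan v1
      have s := Sm.comp (g := fderiv ℝ χ) (hc.ry.symm ▸ hc.par.sm.fd) hc.sm
      obtain ⟨u', hu⟩ : ∃ u', u' = fderiv ℝ θ (χ y) (fderiv ℝ χ y u) • u := ⟨_, rfl⟩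
      refine ⟨fun z => fderiv ℝ χ (r' z) u', ?_⟩
      filter_upwards [s, r, hc.ev' hc.par.ev, h₁.cl.isOpen_compl.mem_nhds x1,
        h₂.cl.isOpen_compl.mem_nhds x2, ev_pos (F := fun z => fderiv ℝ θ z (fderiv ℝ χ (r' z) u'))
        (((h.sθ _ hx).fderiv_right (m := 0) (by simp)).continuousAt.clm_apply
          (s.ca.clm_apply continuousAt_const)) (by
          rw [hc.ry, hu, map_smul, map_smul]
          exact mul_self_pos.2 v2)] with z s1 s2 s3 s4 s5 s6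
      exact ⟨s1.clm_apply contDiffAt_const, fun hz => ⟨by
        simpa only [(s3 hz).1] using (s3 hz).2.tan u', fun _ _ => s6⟩,
        fun w h1 h2 => (s4 ⟨w, mem_closedBall_zero_iff.2 h1, h2⟩).elim,
        fun w h1 h2 => (s5 ⟨w, mem_closedBall_zero_iff.2 h1, h2⟩).elim, fun h => (s2 h).elim⟩
  exact ⟨X, X1, HasCompactSupport.intro (isCompact_closedBall 0 R) fun x hx =>
    (X2 x).2.2.2 (not_le.1 (mt mem_closedBall_zero_iff.2 hx)).le, fun x => (X2 x).1,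
    fun y hy => (X2 _).2.1 y hy rfl, fun y hy => (X2 _).2.2.1 y hy rfl⟩

/-- the flow and the two charts -/
structure Dyn (M : Set V) (θ D : V → ℝ) (Φ : V → ℝ → V) (φ ψ : E (m + 1) → V) : Prop where
  cpt : IsCompact M
  sub : Submfd (E (m + 1)) M
  cd : ContDiff ℝ ∞ fun z : V × ℝ => Φ z.1 z.2
  e0 : ∀ x, Φ x 0 = x
  add : ∀ x s t, Φ (Φ x s) t = Φ x (s + t)
  inv : ∀ x ∈ M, ∀ t, Φ x t ∈ M
  sθ : ∀ x ∈ M, ContDiffAt ℝ ∞ θ x
  cD : ContinuousOn D M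
  up : ∀ x ∈ M, ∀ t, HasDerivAt (fun s => θ (Φ x s)) (D (Φ x t)) t
  pos : ∀ x ∈ M, x ≠ φ 0 → x ≠ ψ 0 → 0 < D x
  mn : IsMinOn θ M (φ 0)
  mx : IsMaxOn θ M (ψ 0)
  p₁ : Pl M θ φ
  p₂ : Pl M (fun x => -θ x) ψ
  rad₁ : ∀ y t, ‖y‖ < 2 → exp t * ‖y‖ < 2 → Φ (φ y) t = φ (exp t • y)
  rad₂ : ∀ y t, ‖y‖ < 2 → exp t * ‖y‖ < 2 → Φ (ψ y) (-t) = ψ (exp t • y)
  disj : ∀ y z, ‖y‖ < 3 → ‖z‖ < 3 → φ y ≠ ψ z

theorem Mor.dyn (h : Mor m M K θ p q) :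
    ∃ (D : V → ℝ) (Φ : V → ℝ → V) (φ ψ : E (m + 1) → V), Dyn M θ D Φ φ ψ ∧ φ 0 = p ∧ ψ 0 = q := by
  have pq : p ≠ q := fun e => by
    obtain ⟨φ, y, hp, e', -⟩ := h.sub p h.hp
    obtain ⟨u, hu⟩ := exists_ne (0 : E (m + 1))
    exact hp.min2 (h.sθ _ hp.m) (e' ▸ h.min) u (h.nd₂ φ y hp (e'.trans e) u hu)
  obtain ⟨U, U', u1, u2, u3, u4, u5⟩ := t2_separation pq
  obtain ⟨φ, e₁, h₁, k₁⟩ := h.chart (u1.mem_nhds u3)
  obtain ⟨ψ, e₂, h₂, k₂⟩ := h.symm.chart (u2.mem_nhds u4)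
  have hd : ∀ y z, ‖y‖ < 3 → ‖z‖ < 3 → φ y ≠ ψ z := fun y z hy hz e =>
    u5.ne_of_mem (k₁ y hy) (k₂ z hz) e
  obtain ⟨X, X1, X2, X3, X4, X5⟩ := h.field h₁ h₂ e₁ e₂ hd
  obtain ⟨Φ, hΦ⟩ := exists_flow X1 X2
  have inv := fun x (hx : x ∈ M) => hΦ.inv X1 h.sub h.cpt.isClosed (fun x hx => (X3 x hx).1) hx
  exact ⟨fun x => fderiv ℝ θ x (X x), Φ, φ, ψ, ⟨h.cpt, h.sub, hΦ.cd, hΦ.e0, hΦ.add, inv, h.sθ,
    fun x hx => (((h.sθ _ hx).fderiv_right (m := 0) (by simp)).continuousAt.clm_apply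
      X1.continuous.continuousAt).continuousWithinAt,
    fun x hx t => (cda_d (h.sθ _ (inv x hx t))).hasFDerivAt.comp_hasDerivAt t (hΦ.d x t),
    fun x hx h1 h2 => (X3 x hx).2 (e₁ ▸ h1) (e₂ ▸ h2), e₁ ▸ h.min, e₂ ▸ h.max, h₁, h₂,
    fun y t => hΦ.rad fun y hy => ⟨(h₁.par y (by linarith)).sm.d, X4 y hy.le⟩,
    fun y t => hΦ.neg.rad fun y hy => ⟨(h₂.par y (by linarith)).sm.d, by
      rw [X5 y hy.le, neg_neg]⟩, hd⟩, e₁, e₂⟩

theorem Dyn.symm (h : Dyn M θ D Φ φ ψ) : Dyn M (fun x => -θ x) D (fun x t => Φ x (-t)) ψ φ where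
  cpt := h.cpt
  sub := h.sub
  cd := h.cd.comp (contDiff_fst.prodMk contDiff_snd.neg)
  e0 x := by simp [h.e0]
  add x s t := by rw [h.add, neg_add]
  inv x hx t := h.inv x hx _
  sθ x hx := (h.sθ x hx).neg
  cD := h.cD
  up x hx t := by
    have := ((h.up x hx (-t)).scomp _ (hasDerivAt_neg t)).neg
    rwa [neg_one_smul, neg_neg] at this
  pos x hx h1 h2 := h.pos x hx h2 h1
  mn := h.mx.neg
  mx := h.mn.neg
  p₁ := h.p₂
  p₂ := by simpa using h.p₁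
  rad₁ := h.rad₂
  rad₂ := by simpa using h.rad₁
  disj y z hy hz := (h.disj z y hz hy).symm

theorem Dyn.fix (h : Dyn M θ D Φ φ ψ) (t : ℝ) : Φ (φ 0) t = φ 0 := by
  simpa using h.rad₁ 0 t

theorem Dyn.off (h : Dyn M θ D Φ φ ψ) (hx : x ≠ φ 0) (t : ℝ) : Φ x t ≠ φ 0 := fun e =>
  hx (by rw [← h.fix (-t), ← e, h.add, add_neg_cancel, h.e0])

theorem Dyn.reach (h : Dyn M θ D Φ φ ψ) (hx : x ∈ M) (h1 : x ≠ φ 0) (h2 : x ≠ ψ 0) :
    ∃ t y, ‖y‖ < 2 ∧ Φ x t = ψ y := by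
  by_contra hn
  push Not at hn
  have p0 : ∀ t, 0 < D (Φ x t) := fun t => h.pos _ (h.inv x hx t) (h.off h1 t)
    (by simpa using h.symm.off h2 (-t))
  have mono := strictMono_of_hasDerivAt_pos (h.up x hx) p0
  obtain ⟨r, hr⟩ := (h.p₂.par 0 (by simp)).ch h.sub
  obtain ⟨O, o1, o2, o3⟩ := eventually_nhds_iff.1 (hr.ev' (P := fun y => ‖y‖ < 2)
    (continuous_norm.continuousAt.eventually (gt_mem_nhds (by simp))))
  have lt : θ (φ 0) < θ x := (h.mn (h.inv x hx (-1))).trans_lt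
    ((mono (by norm_num : (-1 : ℝ) < 0)).trans_eq (congrArg θ (h.e0 x)))
  have cθ : ContinuousOn θ M := fun x hx => (h.sθ x hx).continuousAt.continuousWithinAt
  obtain ⟨μ, μ0, hμ⟩ := ((h.cpt.of_isClosed_subset (cθ.preimage_isClosed_of_isClosed
    h.cpt.isClosed (isClosed_Ici (a := θ x))) inter_subset_left).diff o2).exists_forall_le'
    (h.cD.mono fun z hz => hz.1.1) (a := 0) fun z hz => h.pos z hz.1.1
      (fun e => lt.not_ge (e ▸ hz.1.2)) fun e => hz.2 (e ▸ o3)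
  have mx := isMaxOn_iff.1 h.mx
  have := (convex_Ici (0 : ℝ)).mul_sub_le_image_sub_of_le_deriv (C := μ)
    (fun t _ => (h.up x hx t).continuousAt.continuousWithinAt)
    (fun t _ => (h.up x hx t).differentiableAt.differentiableWithinAt) (fun t ht => by
      rw [(h.up x hx t).deriv]
      refine hμ _ ⟨⟨h.inv x hx t, (congrArg θ (h.e0 x)).ge.trans
        (mono.monotone (interior_subset ht))⟩, fun e => ?_⟩
      exact hn t _ (o1 _ e (h.inv x hx t)).2 (o1 _ e (h.inv x hx t)).1.symm)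
    0 self_mem_Ici ((θ (ψ 0) - θ x + 1) / μ) (div_nonneg (by linarith [mx x hx]) μ0.le)
    (div_nonneg (by linarith [mx x hx]) μ0.le)
  rw [sub_zero, mul_div_cancel₀ _ μ0.ne', h.e0] at this
  linarith [mx _ (h.inv x hx ((θ (ψ 0) - θ x + 1) / μ))]

/-- one global chart -/
structure Gl (M : Set V) (θ : V → ℝ) (Φ : V → ℝ → V) (φ ψ Ψ : E (m + 1) → V) : Prop where
  par : ∀ x, Par M Ψ x
  inj : Function.Injective Ψ
  ball : ∀ x, ‖x‖ < 2 → Ψ x = φ x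
  flow : ∀ x t, Ψ (exp t • x) = Φ (Ψ x) t
  ne : ∀ x, Ψ x ≠ ψ 0
  rad : ∀ x, x ≠ 0 → 0 < fderiv ℝ (fun z => θ (Ψ z)) x x
  sur : ∀ x ∈ M, x ≠ ψ 0 → x ∈ range Ψ

theorem Dyn.gl (h : Dyn M θ D Φ φ ψ) : ∃ Ψ, Gl M θ Φ φ ψ Ψ := by
  obtain ⟨Ψ, hΨ⟩ : ∃ Ψ : E (m + 1) → V, ∀ x, Ψ x = Φ (φ (nr x)) (log ‖x‖) := ⟨_, fun _ => rfl⟩
  have z0 : Ψ 0 = φ 0 := by simp [hΨ, nr, h.e0]
  have ball : ∀ x, ‖x‖ < 2 → Ψ x = φ x := fun x hx => by
    rcases eq_or_ne x 0 with rfl | x0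
    · exact z0
    · rw [hΨ, h.rad₁ _ _ (by simp [norm_nr x0]) (by simpa [norm_nr x0, exp_log (norm_pos_iff.2 x0)]),
        exp_log (norm_pos_iff.2 x0), smul_nr x0]
  have flow : ∀ x t, Ψ (exp t • x) = Φ (Ψ x) t := fun x t => by
    rcases eq_or_ne x 0 with rfl | x0
    · rw [smul_zero, z0, h.fix]
    · rw [hΨ, hΨ, h.add, norm_smul, norm_of_nonneg (exp_pos t).le, log_mul (exp_pos t).ne'
        (norm_ne_zero_iff.2 x0), log_exp, add_comm t, nr_pos (exp_pos t)]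
  have sm : ∀ a : ℝ, ∃ t, ∀ x : E (m + 1), ‖x‖ ≤ a → ‖exp t • x‖ < 2 := fun a =>
    ⟨-log (|a| + 1), fun x hx => by
      have : 0 < |a| + 1 := by positivity
      rw [norm_smul, exp_neg, exp_log this, norm_of_nonneg (inv_pos.2 this).le, inv_mul_lt_iff₀ this]
      linarith [le_abs_self a, abs_nonneg a]⟩
  have bk : ∀ x t, ‖exp t • x‖ < 2 → Ψ x = Φ (φ (exp t • x)) (-t) := fun x t hx => by
    rw [← ball _ hx, flow, h.add, add_neg_cancel, h.e0]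
  have cΦ : ∀ t x, Sm (fun z => Φ z t) x := fun t x =>
    Sm.of (h.cd.comp (contDiff_id.prodMk contDiff_const)) x
  have par : ∀ x, Par M Ψ x := fun x => by
    obtain ⟨t, ht⟩ := sm (‖x‖ + 1)
    have ev : ∀ᶠ z in 𝓝 x, ‖exp t • z‖ < 2 := (continuous_norm.continuousAt.eventually
      (gt_mem_nhds (lt_add_one ‖x‖))).mono fun z hz => ht z hz.le
    have s := (hasFDerivAt_id (𝕜 := ℝ) x).const_smul (exp t)
    have p1 : Par M (fun z => φ (exp t • z)) x := Par.comp (τ := fun z => exp t • z)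
      (h.p₁.par _ (by linarith [ev.self_of_nhds])) (Sm.of (contDiff_id.const_smul _) _)
      (by rw [show fderiv ℝ (fun z => exp t • z) x = _ from s.fderiv]
          exact smul_right_injective _ (exp_pos t).ne')
    have s1 : Sm Ψ x := ((cΦ (-t) _).comp p1.sm).congr (ev.mono fun z hz => (bk z t hz).symm)
    refine ⟨s1, (ev.and p1.mem).mono fun z hz => bk z t hz.1 ▸ h.inv _ hz.2 _, fun a b e => p1.inj ?_⟩
    rw [EventuallyEq.fderiv_eq (f := fun z => Φ (Ψ z) t) (ev.mono fun z hz => by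
      simp only [← flow, ball _ hz]), fd_comp (cΦ t _).d s1.d, fd_comp (cΦ t _).d s1.d, e]
  have inj : Function.Injective Ψ := fun a b e => by
    obtain ⟨t, ht⟩ := sm (max ‖a‖ ‖b‖)
    have h1 := ht a (le_max_left _ _)
    have h2 := ht b (le_max_right _ _)
    refine smul_right_injective _ (exp_pos t).ne' (h.p₁.inj (mem_ball_zero_iff.2 (by linarith))
      (mem_ball_zero_iff.2 (by linarith)) ?_)
    rw [← ball _ h1, ← ball _ h2, flow, flow, e]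
  have ne : ∀ x, Ψ x ≠ ψ 0 := fun x e => by
    obtain ⟨t, ht⟩ := sm ‖x‖
    have h1 := ht x le_rfl
    refine h.disj _ 0 (by linarith) (by simp) ((ball _ h1).symm.trans ?_)
    simpa [flow, e] using h.symm.fix (-t)
  refine ⟨Ψ, par, inj, ball, flow, ne, fun x x0 => ?_, fun x hx x2 => ?_⟩
  · have d := ((cda_d (h.sθ _ (par x).m)).comp x (par x).sm.d).hasFDerivAt.comp_hasDerivAt_of_eq 0
      ((hasDerivAt_exp 0).smul_const x) (by simp)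
    have := d.unique ((h.up _ (par x).m 0).congr_of_eventuallyEq
      (Eventually.of_forall fun s => congrArg θ (flow x s)))
    rw [exp_zero, one_smul, h.e0] at this
    exact (h.pos _ (par x).m (fun e => x0 (inj (e.trans z0.symm))) (ne x)).trans_eq this.symm
  · rcases eq_or_ne x (φ 0) with rfl | x1
    · exact ⟨0, z0⟩
    · obtain ⟨t, y, hy, e⟩ := h.symm.reach hx x2 x1
      exact ⟨exp t • y, by rw [flow, ball y hy, ← e, h.add, neg_add_cancel, h.e0]⟩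

/-- two global charts -/
structure Glob (M : Set V) (θ : V → ℝ) (Ψ Ψ' : E (m + 1) → V) : Prop where
  par : ∀ x, Par M Ψ x
  inj : Function.Injective Ψ
  ne : ∀ x, Ψ x ≠ Ψ' 0
  rad : ∀ x, x ≠ 0 → 0 < fderiv ℝ (fun z => θ (Ψ z)) x x
  sur : ∀ x ∈ M, x ≠ Ψ' 0 → x ∈ range Ψ
  hom : ∀ x z (r : ℝ), 0 < r → Ψ x = Ψ' z → Ψ (r • x) = Ψ' (r⁻¹ • z)
  far : ∀ x z, ‖x‖ < 2 → ‖z‖ < 2 → Ψ x ≠ Ψ' z

theorem Gl.glob (h : Dyn M θ D Φ φ ψ) (g : Gl M θ Φ φ ψ Ψ) {θ' : V → ℝ}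
    (g' : Gl M θ' (fun x t => Φ x (-t)) ψ φ Ψ') : Glob M θ Ψ Ψ' := by
  have e := g'.ball 0 (by simp)
  refine ⟨g.par, g.inj, e ▸ g.ne, g.rad, e ▸ g.sur, fun x z r hr e => ?_, fun x z hx hz => ?_⟩
  · rw [← exp_log hr, ← exp_neg, g.flow, g'.flow, neg_neg, e]
  · rw [g.ball x hx, g'.ball z hz]
    exact h.disj x z (by linarith) (by linarith)

theorem Mor.glob (h : Mor m M K θ p q) : ∃ Ψ Ψ' : E (m + 1) → V, Glob M θ Ψ Ψ' ∧
    Glob M (fun x => -θ x) Ψ' Ψ ∧ Ψ 0 = p ∧ Ψ' 0 = q := by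
  obtain ⟨D, Φ, φ, ψ, d, e₁, e₂⟩ := h.dyn
  obtain ⟨Ψ, g⟩ := d.gl
  obtain ⟨Ψ', g'⟩ := d.symm.gl
  exact ⟨Ψ, Ψ', g.glob d g', g'.glob d.symm (θ' := θ) (by simpa using g),
    (g.ball 0 (by simp)).trans e₁, (g'.ball 0 (by simp)).trans e₂⟩

end Pool.Agent.Lib.MP_c00cc5_gt
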