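import Pool.Agent.Lib.MP_c00cc5_gt.Dist
import Pool.Agent.Lib.MP_c00cc5_gt.Flow

set_option autoImplicit false
set_option maxSynthPendingDepth 3
set_option linter.unusedSectionVars false
set_option linter.unusedSimpArgs false

namespace Pool.Agent.Lib.MP_c00cc5_gt

/-! Short geodesics and their minimising property. -/

open scoped ContDiff RealInnerProductSpace Topology
open Filter Set

section flow

variable {X : Type} [NormedAddCommGroup X] [NormedSpace ℝ X] [FiniteDimensional ℝ X]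

theorem hd1 {Y : Type} [NormedAddCommGroup Y] [NormedSpace ℝ Y] {c : ℝ → X × Y} {v : X × Y} {t : ℝ}
    (h : HasDerivAt c v t) : HasDerivAt (fun s => (c s).1) v.1 t :=
  (ContinuousLinearMap.fst ℝ X Y).hasFDerivAt.comp_hasDerivAt t h

theorem hd2 {Y : Type} [NormedAddCommGroup Y] [NormedSpace ℝ Y] {c : ℝ → X × Y} {v : X × Y} {t : ℝ}
    (h : HasDerivAt c v t) : HasDerivAt (fun s => (c s).2) v.2 t :=
  (ContinuousLinearMap.snd ℝ X Y).hasFDerivAt.comp_hasDerivAt t h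

/-- the flow of a vector field -/
structure Fl (F : X → X) (Φ : X → ℝ → X) : Prop where
  cd : ContDiff ℝ ∞ fun z : X × ℝ => Φ z.1 z.2
  e0 : ∀ u, Φ u 0 = u
  d : ∀ u s, HasDerivAt (Φ u) (F (Φ u s)) s
  uq : ∀ (c e : ℝ → X) (a b t : ℝ), t ∈ Ioo a b → (∀ s ∈ Ioo a b, HasDerivAt c (F (c s)) s) →
    (∀ s ∈ Ioo a b, HasDerivAt e (F (e s)) s) → c t = e t → EqOn c e (Ioo a b)

theorem exists_flow {F : X → X} (hF : ContDiff ℝ ∞ F) (hc : HasCompactSupport F) :
    ∃ Φ, Fl F Φ := by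
  obtain ⟨Φ, h1, h2, h3⟩ := flow_holds X ℝ (fun u => ContinuousLinearMap.toSpanSingleton ℝ (F u))
    (contDiff_iff_contDiffAt.2 fun u => cda_clm fun p => by
      simpa using hF.contDiffAt.const_smul p)
    (hc.comp_left (g := fun v : X => ContinuousLinearMap.toSpanSingleton ℝ v) (by ext; simp))
  obtain ⟨L, hL⟩ := hF.lipschitzWith_of_hasCompactSupport hc (by simp)
  refine ⟨Φ, h1, h2, fun u s => by simpa using h3 u 1 s, fun c e a b t ht hc he h => ?_⟩
  exact ODE_solution_unique_of_mem_Ioo (v := fun _ => F) (s := fun _ => univ)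
    (fun _ _ => hL.lipschitzOnWith) ht (fun s hs => ⟨hc s hs, trivial⟩)
    (fun s hs => ⟨he s hs, trivial⟩) h

theorem exists_cut {Y : Type} [NormedAddCommGroup Y] [NormedSpace ℝ Y] {F : X → Y} {x : X}
    (hF : Sm F x) : ∃ χ : X → ℝ, ContDiff ℝ ∞ (fun z => χ z • F z) ∧
      HasCompactSupport (fun z => χ z • F z) ∧ ∀ᶠ z in 𝓝 x, χ z = 1 := by
  obtain ⟨ρ, ρ0, hρ⟩ := Metric.eventually_nhds_iff_ball.1 hF
  let χ : ContDiffBump x := ⟨ρ / 4, ρ / 2, by positivity, by linarith⟩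
  refine ⟨χ, contDiff_iff_contDiffAt.2 fun z => ?_, χ.hasCompactSupport.smul_right,
    χ.eventuallyEq_one⟩
  by_cases hz : z ∈ Metric.ball x ρ
  · exact χ.contDiffAt.smul (hρ z hz)
  · have : z ∉ tsupport χ := by
      rw [χ.tsupport_eq]
      exact fun h => hz (Metric.closedBall_subset_ball (half_lt_self ρ0) h)
    refine (contDiffAt_const (c := 0)).congr_of_eventuallyEq ?_
    filter_upwards [notMem_tsupport_iff_eventuallyEq.1 this] with w hw
    simp [hw]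

end flow

section chart

variable {W : Type} [NormedAddCommGroup W] [NormedSpace ℝ W] [FiniteDimensional ℝ W]
  {K : Met W} {y : W} {γ v : ℝ → W}

/-- the Christoffel symbols as a linear map -/
noncomputable def chrL (K : Met W) (y v : W) : W →L[ℝ] W :=
  (K y).inverse ∘L ((1 / 2 : ℝ) •
    (fderiv ℝ K y v + (fderiv ℝ K y).flip v - ((fderiv ℝ K y).flip v).flip))

theorem chrL_apply (h : DifferentiableAt ℝ K y) (u w : W) : chrL K y u w = chr K y u w := by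
  rw [chrL, chr, ContinuousLinearMap.comp_apply]
  congr 1
  ext z
  simp [fd_app2 h]

/-- a geodesic with its parallel transport -/
structure Gd (K : Met W) (γ v : ℝ → W) : Prop where
  cγ : ContDiff ℝ 1 γ
  cv : ContDiff ℝ 1 v
  good : ∀ τ ∈ Icc (0 : ℝ) 1, Good K (γ τ)
  dγ : ∀ τ ∈ Icc (0 : ℝ) 1, HasDerivAt γ (v τ) τ
  dv : ∀ τ ∈ Icc (0 : ℝ) 1, HasDerivAt v (-chr K (γ τ) (v τ) (v τ)) τ
  par : ∀ w₁, ∃ w : ℝ → W, ContDiff ℝ 1 w ∧ w 1 = w₁ ∧
    ∀ τ ∈ Icc (0 : ℝ) 1, HasDerivAt w (-chr K (γ τ) (v τ) (w τ)) τ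

/-- the geodesic equations, rescaled -/
noncomputable def spr (K : Met W) (y : W) (s : ℝ × W × W × (W →L[ℝ] W)) :
    ℝ × W × W × (W →L[ℝ] W) :=
  (0, s.2.2.1, -(s.1 • chr K (y + s.1 • s.2.1) s.2.2.1 s.2.2.1),
    -(s.1 • (chrL K (y + s.1 • s.2.1) s.2.2.1 ∘L s.2.2.2)))

theorem spr_sm (hK : Good K y) (hs : Sm K y) : Sm (spr K y) (0, 0, 0, 1) := by
  have c0 : ContDiff ℝ ∞ fun s : ℝ × W × W × (W →L[ℝ] W) => y + s.1 • s.2.1 := by fun_prop
  have c1 : ContDiff ℝ ∞ fun s : ℝ × W × W × (W →L[ℝ] W) => s.2.2.1 := by fun_prop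
  have c2 : ContDiff ℝ ∞ fun s : ℝ × W × W × (W →L[ℝ] W) => s.2.2.2 := by fun_prop
  filter_upwards [(c0.continuous.tendsto' _ y (by simp)).eventually (hK.ev.and hs.ev)] with s h
  refine contDiffAt_const.prodMk (c1.contDiffAt.prodMk ((contDiffAt_fst.smul
    (h.1.chr_cda h.2 c0.contDiffAt rfl c1.contDiffAt c1.contDiffAt)).neg.prodMk
    (contDiffAt_fst.smul (ContDiffAt.clm_comp (cda_clm fun w => ?_) c2.contDiffAt)).neg))
  refine (h.1.chr_cda h.2 c0.contDiffAt rfl c1.contDiffAt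
    (contDiffAt_const (c := w))).congr_of_eventuallyEq ?_
  filter_upwards [c0.continuous.continuousAt.eventually (c2_ev h.1.smooth)] with q hq
    using chrL_apply hq _ _

theorem exists_geod (hK : Good K y) (hs : Sm K y) {P : W × W → Prop}
    (hP : ∀ᶠ z in 𝓝 (y, 0), P z) : ∀ᶠ w in 𝓝 (y, y), ∃ γ v, Gd K γ v ∧ γ 0 = w.1 ∧ γ 1 = w.2 ∧
      ∀ τ ∈ Icc (0 : ℝ) 1, P (γ τ, v τ) := by
  obtain ⟨χ, c1, c2, c3⟩ := exists_cut (spr_sm hK hs)
  obtain ⟨Φ, hΦ⟩ := exists_flow c1 c2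
  have ex : ∀ᶠ w : W × W in 𝓝 0, ∀ τ ∈ Ioo (-2 : ℝ) 1,
      Φ (0, w.1, w.2, 1) τ = (0, w.1 + τ • w.2, w.2, 1) := by
    have := isCompact_Icc.eventually_forall_of_forall_eventually (K := Icc (-2 : ℝ) 1)
      (x₀ := (0 : W × W)) (P := fun w τ => χ (0, w.1 + τ • w.2, w.2, 1) = 1) fun t _ => by
        have : Continuous fun x : (W × W) × ℝ =>
          ((0 : ℝ), x.1.1 + x.2 • x.1.2, x.1.2, (1 : W →L[ℝ] W)) := by fun_prop
        exact (this.tendsto' _ _ (by simp)).eventually c3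
    filter_upwards [this] with w hw
    refine hΦ.uq _ _ _ _ 0 (by simp) (fun s _ => hΦ.d _ s) (fun s hs => ?_) (by simp [hΦ.e0])
    have d := (hasDerivAt_const s (0 : ℝ)).prodMk
      ((((hasDerivAt_id s).smul_const w.2).const_add w.1).prodMk
      ((hasDerivAt_const s w.2).prodMk (hasDerivAt_const s (1 : W →L[ℝ] W))))
    refine d.congr_deriv ?_
    simp [hw s (Ioo_subset_Icc_self hs), spr]
  have e0 : ∀ τ ∈ Ioo (-2 : ℝ) 1, Φ (0, 0, 0, 1) τ = (0, 0, 0, 1) := fun τ hτ => by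
    simpa using ex.self_of_nhds τ hτ
  have cj : ContDiff ℝ ∞ fun u : ℝ × W × W =>
    (((u.1, u.2.1, u.2.2, 1) : ℝ × W × W × (W →L[ℝ] W)), (-1 : ℝ)) := by fun_prop
  let T : ℝ × W × W → W := fun u => (Φ (u.1, u.2.1, u.2.2, 1) (-1)).2.1
  have cT : ContDiff ℝ ∞ T := (hΦ.cd.comp cj).snd.fst
  have dT : ∀ c, fderiv ℝ T 0 (0, 0, c) = -c := fun c => by
    have d1 : HasFDerivAt (fun w : W => ((0 : ℝ), (0 : W), w))
        ((0 : W →L[ℝ] ℝ).prod ((0 : W →L[ℝ] W).prod (ContinuousLinearMap.id ℝ W))) 0 :=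
      (hasFDerivAt_const _ _).prodMk ((hasFDerivAt_const _ _).prodMk (hasFDerivAt_id _))
    have d2 := HasFDerivAt.comp (g := T) (f := fun w : W => ((0 : ℝ), (0 : W), w)) 0
      (cda_d cT.contDiffAt).hasFDerivAt d1
    have e : (fun w : W => -w) =ᶠ[𝓝 0] T ∘ fun w : W => ((0 : ℝ), (0 : W), w) := by
      filter_upwards [(Continuous.prodMk_right (0 : W)).continuousAt.eventually ex] with w hw
      simp [T, hw (-1) (by norm_num)]
    have := (d2.congr_of_eventuallyEq e).unique (hasFDerivAt_id (0 : W)).neg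
    simpa [← Prod.zero_eq_mk] using ContinuousLinearMap.ext_iff.1 this c
  have cΨ : ContDiff ℝ ∞ fun u : ℝ × W × W => (u.1, u.2.1, T u) := by fun_prop
  have dΨ : HasFDerivAt (fun u : ℝ × W × W => (u.1, u.2.1, T u))
      ((ContinuousLinearMap.fst ℝ ℝ (W × W)).prod (((ContinuousLinearMap.fst ℝ W W).comp
        (ContinuousLinearMap.snd ℝ ℝ (W × W))).prod (fderiv ℝ T 0))) 0 :=
    hasFDerivAt_fst.prodMk (hasFDerivAt_snd.fst.prodMk (cda_d cT.contDiffAt).hasFDerivAt)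
  obtain ⟨g, g1, g2, g3⟩ := (Sm.of cΨ 0).inverse (bij_of_inj (by
    rw [dΨ.fderiv, injective_iff_map_eq_zero]
    rintro ⟨a, b, c⟩ h
    simp only [ContinuousLinearMap.prod_apply, ContinuousLinearMap.comp_apply,
      ContinuousLinearMap.coe_fst', ContinuousLinearMap.coe_snd', Prod.mk_eq_zero] at h
    obtain ⟨rfl, rfl, h⟩ := h
    rw [dT, neg_eq_zero] at h
    rw [h]; rfl) rfl)
  have T0 : T 0 = 0 := by simp [T, e0 (-1) (by norm_num)]
  have g0 := g2.self_of_nhds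
  simp only [T0, Prod.fst_zero, Prod.snd_zero, Prod.mk_zero_zero] at g0 g1 g3
  have gt : Tendsto g (𝓝 0) (𝓝 0) := by simpa [ContinuousAt, g0] using g1.ca
  have tube := isCompact_Icc.eventually_forall_of_forall_eventually (K := Icc (-1 : ℝ) 0)
    (x₀ := (0 : ℝ × W × W)) (P := fun u τ => (fun s : ℝ × W × W × (W →L[ℝ] W) => χ s = 1 ∧
      Good K (y + s.1 • s.2.1) ∧ P (y + s.1 • s.2.1, s.1 • s.2.2.1))
        (Φ (u.1, u.2.1, u.2.2, 1) τ)) fun t ht => by
      have k1 : Continuous fun x : (ℝ × W × W) × ℝ =>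
        (((x.1.1, x.1.2.1, x.1.2.2, 1) : ℝ × W × W × (W →L[ℝ] W)), x.2) := by fun_prop
      have k2 : Continuous fun s : ℝ × W × W × (W →L[ℝ] W) => y + s.1 • s.2.1 := by fun_prop
      have k3 : Continuous fun s : ℝ × W × W × (W →L[ℝ] W) =>
        (y + s.1 • s.2.1, s.1 • s.2.2.1) := by fun_prop
      exact ((hΦ.cd.continuous.comp k1).tendsto' (0, t) _
        (e0 t ⟨by linarith [ht.1], by linarith [ht.2]⟩)).eventually
        (c3.and (((k2.tendsto' _ _ (by simp)).eventually hK.ev).and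
          ((k3.tendsto' _ _ (by simp)).eventually hP)))
  have k4 : Continuous fun ε : ℝ => (ε, (0 : W), (0 : W)) := by fun_prop
  obtain ⟨ε, hε, ε0⟩ := ((((k4.tendsto' 0 0 rfl).eventually
    (g3.and (gt.eventually tube)).eventually_nhds).filter_mono nhdsWithin_le_nhds).and
    (self_mem_nhdsWithin (s := Ioi (0 : ℝ)))).exists
  have ε1 : ε ≠ 0 := ne_of_gt ε0
  have k5 : Continuous fun w : W × W => (ε, ε⁻¹ • (w.2 - y), ε⁻¹ • (w.1 - y)) := by fun_prop
  filter_upwards [(k5.tendsto' (y, y) _ (by simp)).eventually hε] with w ⟨h1, h2⟩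
  generalize g (ε, ε⁻¹ • (w.2 - y), ε⁻¹ • (w.1 - y)) = u at h1 h2
  obtain ⟨ε', η, ξ⟩ := u
  simp only [Prod.mk.injEq, T] at h1 h2
  obtain ⟨rfl, rfl, h1⟩ := h1
  generalize hu : (ε', ε'⁻¹ • (w.2 - y), ξ, (1 : W →L[ℝ] W)) = u at h1 h2
  have f1 : ∀ τ, (Φ u τ).1 = ε' := fun τ => by
    have := is_const_of_deriv_eq_zero (f := fun τ => (Φ u τ).1)
      (fun τ => (hd1 (hΦ.d u τ)).differentiableAt) (fun τ => by
        rw [(hd1 (hΦ.d u τ)).deriv]; simp [spr]) τ 0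
    rw [this, hΦ.e0, ← hu]
  have cS : ContDiff ℝ 1 fun τ : ℝ => Φ u (τ - 1) :=
    (hΦ.cd.comp (contDiff_const.prodMk (contDiff_id.sub contDiff_const))).of_le (le_inf 1)
  have m : ∀ τ ∈ Icc (0 : ℝ) 1, τ - 1 ∈ Icc (-1 : ℝ) 0 := fun τ h =>
    ⟨by linarith [h.1], by linarith [h.2]⟩
  have dS : ∀ τ ∈ Icc (0 : ℝ) 1, HasDerivAt (fun τ : ℝ => Φ u (τ - 1))
      (spr K y (Φ u (τ - 1))) τ := fun τ h => by
    simpa [(h2 _ (m τ h)).1] using (hΦ.d u (τ - 1)).comp_sub_const τ 1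
  simp only [f1] at h2
  refine ⟨fun τ => y + ε' • (Φ u (τ - 1)).2.1, fun τ => ε' • (Φ u (τ - 1)).2.2.1,
    ⟨contDiff_const.add (cS.snd.fst.const_smul _), cS.snd.snd.fst.const_smul _,
      fun τ h => (h2 _ (m τ h)).2.1, fun τ h => ((hd1 (hd2 (dS τ h))).const_smul _).const_add _,
      fun τ h => ((hd1 (hd2 (hd2 (dS τ h)))).const_smul _).congr_deriv ?_,
      fun w₁ => ⟨fun τ => (Φ u (τ - 1)).2.2.2 w₁, cS.snd.snd.snd.clm_apply contDiff_const,
        by simp [hΦ.e0, ← hu], fun τ h => ((hd2 (hd2 (hd2 (dS τ h)))).clm_apply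
          (hasDerivAt_const τ w₁)).congr_deriv ?_⟩⟩, by simp [h1, smul_smul, ε1],
    by simp [hΦ.e0, ← hu, smul_smul, ε1], fun τ h => (h2 _ (m τ h)).2.2⟩
  · rw [(h2 _ (m τ h)).2.1.chr_smul, (h2 _ (m τ h)).2.1.chr_smul']
    simp [spr, f1]
  · rw [(h2 _ (m τ h)).2.1.chr_smul, ← chrL_apply (c2_d0 (h2 _ (m τ h)).2.1.smooth)]
    simp [spr, f1]

theorem met_d {t : ℝ} {u : W} (hK : Good K (γ t)) (hγ : HasDerivAt γ u t) {A B : ℝ → W}
    {A' B' : W} (hA : HasDerivAt A A' t) (hB : HasDerivAt B B' t) :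
    HasDerivAt (fun s => K (γ s) (A s) (B s))
      (K (γ t) (A' + chr K (γ t) u (A t)) (B t) + K (γ t) (A t) (B' + chr K (γ t) u (B t))) t := by
  refine ((((c2_d0 hK.smooth).hasFDerivAt.comp_hasDerivAt t hγ).clm_apply hA).clm_apply
    hB).congr_deriv ?_
  simp only [map_add, add_apply, Function.comp, hK.symm0 (A t) (chr _ _ _ _), hK.chr_eq, gam]
  rw [hK.j1 u (B t) (A t), hK.j1 (A t) u (B t), hK.j1 (B t) u (A t)]
  ring

theorem Gd.const (h : Gd K γ v) {A B : ℝ → W}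
    (hA : ∀ τ ∈ Icc (0 : ℝ) 1, HasDerivAt A (-chr K (γ τ) (v τ) (A τ)) τ)
    (hB : ∀ τ ∈ Icc (0 : ℝ) 1, HasDerivAt B (-chr K (γ τ) (v τ) (B τ)) τ) :
    ∀ τ ∈ Icc (0 : ℝ) 1, K (γ τ) (A τ) (B τ) = K (γ 1) (A 1) (B 1) := by
  have d : ∀ τ ∈ Icc (0 : ℝ) 1, HasDerivAt (fun s => K (γ s) (A s) (B s)) 0 τ := fun τ hτ => by
    simpa using met_d (h.good τ hτ) (h.dγ τ hτ) (hA τ hτ) (hB τ hτ)
  have := constant_of_has_deriv_right_zero (fun τ hτ => (d τ hτ).continuousAt.continuousWithinAt)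
    fun τ hτ => (d τ (Ico_subset_Icc_self hτ)).hasDerivWithinAt
  intro τ hτ
  rw [this τ hτ, this 1 (by simp)]

theorem prim {g : ℝ → ℝ} (hg : ContinuousOn g (Icc 0 1)) :
    ∃ σ : ℝ → ℝ, σ 0 = 0 ∧ σ 1 = ∫ t in (0 : ℝ)..1, g t ∧ (∀ t ∈ Icc (0 : ℝ) 1, HasDerivAt σ (g t) t) ∧
      ((∀ t ∈ Icc (0 : ℝ) 1, 0 ≤ g t) → ∀ t ∈ Icc (0 : ℝ) 1, σ t ∈ Icc 0 (σ 1)) := by
  have m : ∀ t : ℝ, max 0 (min t 1) ∈ Icc (0 : ℝ) 1 := fun t =>
    ⟨le_max_left _ _, max_le zero_le_one (min_le_right _ _)⟩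
  have e : ∀ t ∈ Icc (0 : ℝ) 1, max 0 (min t 1) = t := fun t ht => by
    rw [min_eq_left ht.2, max_eq_right ht.1]
  have c : Continuous fun t => g (max 0 (min t 1)) := hg.comp_continuous (by fun_prop) m
  refine ⟨fun t => ∫ s in (0 : ℝ)..t, g (max 0 (min s 1)), by simp,
    intervalIntegral.integral_congr fun t ht => ?_, fun t ht => ?_, fun h t ht =>
    ⟨intervalIntegral.integral_nonneg ht.1 fun s _ => h _ (m s),
      intervalIntegral.integral_mono_interval le_rfl ht.1 ht.2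
        (Eventually.of_forall fun s => h _ (m s)) (c.intervalIntegrable _ _)⟩⟩
  · rw [uIcc_of_le zero_le_one] at ht
    simp only [e t ht]
  · have := intervalIntegral.integral_hasDerivAt_right (c.intervalIntegrable 0 t)
      (c.stronglyMeasurableAtFilter _ _) c.continuousAt
    rwa [e t ht] at this

theorem energy {B : Set W} (hB : Convex ℝ B) (hK : ∀ z ∈ B, Good K z) {μ C δ a : ℝ}
    (h0 : ∀ z ∈ B, ∀ u, μ * ‖u‖ ^ 2 ≤ K z u u) (h1 : ∀ z ∈ B, ‖fderiv ℝ K z‖ ≤ C)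
    (h2 : ∀ z ∈ B, ‖fderiv ℝ (fderiv ℝ K) z‖ ≤ C) (hδ : 2 * C * δ + C * δ ^ 2 ≤ μ) (μ0 : 0 ≤ μ)
    (hg : Gd K γ v) (hγ : ∀ τ ∈ Icc (0 : ℝ) 1, γ τ ∈ B ∧ ‖v τ‖ ≤ δ)
    (ha : ∀ τ ∈ Icc (0 : ℝ) 1, K (γ τ) (v τ) (v τ) = a ^ 2) {c : ℝ → W}
    (hc : ∀ t ∈ Icc (0 : ℝ) 1, ContDiffAt ℝ 1 c t ∧ c t ∈ B) (e0 : c 0 = γ 0) (e1 : c 1 = γ 1) :
    a ≤ ∫ t in (0 : ℝ)..1, sp K c t := by
  have C0 : 0 ≤ C := (norm_nonneg _).trans (h1 _ (hγ 0 (by simp)).1)
  have m1 : ∀ z ∈ B, ∀ w ∈ B, ‖K w - K z‖ ≤ C * ‖w - z‖ := fun z hz w hw =>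
    hB.norm_image_sub_le_of_norm_fderiv_le (fun x hx => c2_d0 (hK x hx).smooth) h1 hz hw
  have m2 : ∀ z ∈ B, ∀ w ∈ B, ‖K w - K z - fderiv ℝ K z (w - z)‖ ≤ C * ‖w - z‖ * ‖w - z‖ :=
    fun z hz w hw => by
      have hs := hB.segment_subset hz hw
      refine (convex_segment z w).norm_image_sub_le_of_norm_fderiv_le'
        (fun x hx => c2_d0 (hK x (hs hx)).smooth) (fun x hx => ?_) (left_mem_segment _ _ _)
        (right_mem_segment _ _ _)
      refine (hB.norm_image_sub_le_of_norm_fderiv_le (fun x hx => c2_d (hK x hx).smooth) h2 hz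
        (hs hx)).trans (mul_le_mul_of_nonneg_left (norm_sub_le_of_mem_segment hx) C0)
  have cs : ContinuousOn (sp K c) (Icc 0 1) := fun t ht =>
    (sp_ca (hK _ (hc t ht).2).smooth.continuousAt (hc t ht).1).continuousWithinAt
  have is : IntervalIntegrable (sp K c) MeasureTheory.volume 0 1 :=
    ContinuousOn.intervalIntegrable (by rwa [uIcc_of_le zero_le_one])
  set L := ∫ t in (0 : ℝ)..1, sp K c t with hL
  have L0 : 0 ≤ L := intervalIntegral.integral_nonneg zero_le_one fun t _ => sp_nn _ _ _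
  suffices H : ∀ ε, 0 < ε → a ^ 2 ≤ (L + ε) * L by
    refine (le_abs_self a).trans (abs_le_of_sq_le_sq ?_ L0)
    refine le_of_forall_pos_le_add fun ε hε => ?_
    have := H (ε / (L + 1)) (by positivity)
    have : ε / (L + 1) * L ≤ ε := by
      rw [div_mul_eq_mul_div, div_le_iff₀ (by positivity)]; nlinarith
    nlinarith
  intro ε hε
  have l0 : ∀ t, 0 < (sp K c t + ε) / (L + ε) := fun t => by
    have := sp_nn K c t; positivity
  have cl : ContinuousOn (fun t => (sp K c t + ε) / (L + ε)) (Icc 0 1) :=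
    (cs.add continuousOn_const).div_const _
  obtain ⟨σ, s0, s1, sd, sm⟩ := prim cl
  rw [intervalIntegral.integral_div, intervalIntegral.integral_add is intervalIntegrable_const]
    at s1
  simp only [intervalIntegral.integral_const, sub_zero, smul_eq_mul, one_mul] at s1
  rw [← hL, div_self (by positivity)] at s1
  have sm' := sm fun t _ => (l0 t).le
  rw [s1] at sm'
  have dk : ∀ t ∈ Icc (0 : ℝ) 1, HasDerivAt (fun t => γ (σ t))
      (((sp K c t + ε) / (L + ε)) • v (σ t)) t := fun t ht =>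
    (hg.dγ _ (sm' t ht)).scomp t (sd t ht)
  have dh : ∀ t ∈ Icc (0 : ℝ) 1, HasDerivAt (fun t => c t - γ (σ t))
      (deriv c t - ((sp K c t + ε) / (L + ε)) • v (σ t)) t := fun t ht =>
    ((hc t ht).1.differentiableAt (by simp)).hasDerivAt.sub (dk t ht)
  have ch : ContinuousOn (fun t => deriv c t - ((sp K c t + ε) / (L + ε)) • v (σ t)) (Icc 0 1) :=
    ContinuousOn.sub (fun t ht => (c1_ca (hc t ht).1).continuousWithinAt)
      (cl.smul (hg.cv.continuous.comp_continuousOn fun t ht =>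
        (sd t ht).continuousAt.continuousWithinAt))
  obtain ⟨N, n0, -, nd, nm⟩ := prim ch.norm
  have nm' := nm fun t _ => norm_nonneg _
  have hI : ∀ t ∈ Icc (0 : ℝ) 1, ‖c t - γ (σ t)‖ ≤ N 1 := fun t ht => by
    have := image_norm_le_of_norm_deriv_right_le_deriv_boundary'
      (fun t ht => (dh t ht).continuousAt.continuousWithinAt)
      (fun t ht => (dh t (Ico_subset_Icc_self ht)).hasDerivWithinAt) (B := N)
      (by simp [s0, e0, n0]) (fun t ht => (nd t ht).continuousAt.continuousWithinAt)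
      (fun t ht => (nd t (Ico_subset_Icc_self ht)).hasDerivWithinAt) (fun t _ => le_rfl) ht
    exact this.trans (nm' t ht).2
  have dD := fun t (ht : t ∈ Icc (0 : ℝ) 1) => (((met_d (γ := fun t => γ (σ t))
    (hg.good _ (sm' t ht)) (dk t ht) (dh t ht) ((hg.dv _ (sm' t ht)).scomp t (sd t ht))).const_mul
      2).add ((sd t ht).const_mul (a ^ 2 - (μ + C * δ ^ 2) * N 1 ^ 2))).add
      ((nd t ht).const_mul (2 * (μ - C * δ) * N 1))
  have := intervalIntegral.sub_le_integral_of_hasDeriv_right_of_le zero_le_one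
    (fun t ht => (dD t ht).continuousAt.continuousWithinAt)
    (fun t ht => (dD t (Ioo_subset_Icc_self ht)).hasDerivWithinAt)
    (φ := fun t => (L + ε) * sp K c t)
    ((continuousOn_const.mul cs).integrableOn_Icc) (fun t ht' => by
      have ht := Ioo_subset_Icc_self ht'
      have gk := hg.good _ (sm' t ht)
      have gc := hK _ (hc t ht).2
      have hS : sp K c t ^ 2 = K (c t) (deriv c t) (deriv c t) :=
        Real.sq_sqrt ((mul_nonneg μ0 (sq_nonneg _)).trans (h0 _ (hc t ht).2 _))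
      have S0 := sp_nn K c t
      have b0 := hγ _ (sm' t ht)
      have b1 := m1 _ b0.1 _ (hc t ht).2
      have b2 := m2 _ b0.1 _ (hc t ht).2
      have b3 := hI t ht
      have b4 := ha _ (sm' t ht)
      have b5 := l0 t
      have b6 : (sp K c t + ε) / (L + ε) * (L + ε) = sp K c t + ε := by field_simp
      simp only [Function.comp, gk.chr_smul, smul_neg, neg_add_cancel, map_zero, add_zero, map_add,
        add_apply, map_smul, smul_apply, smul_eq_mul, gk.chr_eq, gam]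
      generalize (sp K c t + ε) / (L + ε) = l at *
      obtain ⟨h', hh⟩ : ∃ h', h' = deriv c t - l • v (σ t) := ⟨_, rfl⟩
      rw [← hh, gk.j1 (v (σ t)) (c t - γ (σ t))]
      rw [eq_sub_iff_add_eq.1 hh |>.symm] at hS
      simp only [map_add, add_apply, map_smul, smul_apply, smul_eq_mul, gc.symm0 (v (σ t)) h'] at hS
      have b7 := h0 _ (hc t ht).2 h'
      have n1 := b0.2
      have n2 := (norm_nonneg _).trans n1
      have n3 := (norm_nonneg _).trans b3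
      have b8 := (abs_le.1 ((bil_le (K (c t) - K (γ (σ t))) h' (v (σ t))).trans
        (show _ ≤ C * N 1 * ‖h'‖ * δ by
          gcongr
          exact b1.trans (by gcongr)))).1
      have b9 := (abs_le.1 ((bil_le (K (c t) - K (γ (σ t)) - fderiv ℝ K (γ (σ t)) (c t - γ (σ t)))
        (v (σ t)) (v (σ t))).trans (show _ ≤ C * N 1 * N 1 * δ * δ by
          gcongr
          exact b2.trans (by gcongr)))).1
      simp only [sub_apply] at b8 b9
      refine le_of_mul_le_mul_left ?_ b5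
      have q1 := mul_le_mul_of_nonneg_left b8 b5.le
      have q2 := mul_le_mul_of_nonneg_left b9 (sq_nonneg l)
      have q3 := mul_nonneg μ0 (sq_nonneg (‖h'‖ - l * N 1))
      have q4 := mul_nonneg hε.le S0
      rw [← mul_assoc l (L + ε), b6, ← b4]
      nlinarith)
  simp only [Pi.add_apply, s0, s1, e0, e1, sub_self, map_zero, zero_apply, n0,
    intervalIntegral.integral_const_mul] at this
  nlinarith [mul_le_mul_of_nonneg_right hδ (sq_nonneg (N 1))]

end chart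

variable {V W : Type} [NormedAddCommGroup V] [InnerProductSpace ℝ V] [FiniteDimensional ℝ V]
  [NormedAddCommGroup W] [NormedSpace ℝ W] [FiniteDimensional ℝ W]
  {M : Set V} {G : Met V} {φ : W → V} {r : V → W} {y : W}

/-- a minimal geodesic segment in a chart -/
structure Seg (M : Set V) (G : Met V) (φ : W → V) (γ v : ℝ → W) (x z : V) : Prop where
  gd : Gd (pull G φ) γ v
  par : ∀ τ ∈ Icc (0 : ℝ) 1, Par M φ (γ τ)
  e0 : φ (γ 0) = x
  e1 : φ (γ 1) = z
  sp : ∀ τ ∈ Icc (0 : ℝ) 1, pull G φ (γ τ) (v τ) (v τ) = dst M G x z ^ 2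

theorem Geo.seg_loc (h : Geo W M G) (hc : Ch M φ r y) : ∀ᶠ w in 𝓝 (φ y, φ y), w.1 ∈ M → w.2 ∈ M →
    ∃ γ v, Seg M G φ γ v w.1 w.2 := by
  obtain ⟨R, R0, hR⟩ := Metric.nhds_basis_closedBall.eventually_iff.1 hc.par.ev
  have hB := isCompact_closedBall y R
  obtain ⟨μ, μ0, hμ⟩ := pos_unif hB (fun z hz => (h.ps (hR hz)).ca.continuousWithinAt)
    fun z hz => (h.pg (hR hz)).pos
  obtain ⟨C1, h1⟩ := hB.exists_bound_of_continuousOn
    fun z hz => (h.ps (hR hz)).fd.ca.continuousWithinAt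
  obtain ⟨C2, h2⟩ := hB.exists_bound_of_continuousOn
    fun z hz => (h.ps (hR hz)).fd.fd.ca.continuousWithinAt
  obtain ⟨ν, ν0, -, hν⟩ := h.low
  obtain ⟨ρ, ρ0, hρ⟩ := Metric.eventually_nhds_iff_ball.1
    ((hc.ev' (Metric.closedBall_mem_nhds y R0)).and hc.sm.ev)
  have c1 : Continuous fun δ : ℝ => 2 * max C1 C2 * δ + max C1 C2 * δ ^ 2 := by fun_prop
  obtain ⟨δ, hδ, δ0⟩ := ((((c1.tendsto' 0 0 (by simp)).eventually (ge_mem_nhds μ0)).filter_mono
    nhdsWithin_le_nhds).and (self_mem_nhdsWithin (s := Ioi (0 : ℝ)))).exists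
  have c2 : ContinuousAt (fun z : W × W => pull G φ z.1 z.2 z.2) (y, 0) :=
    (((h.ps hc.par).ca.comp_of_eq continuousAt_fst rfl).clm_apply continuousAt_snd).clm_apply
      continuousAt_snd
  have := exists_geod (h.pg hc.par) (h.ps hc.par) (P := fun z => z.1 ∈ Metric.closedBall y R ∧
    ‖z.2‖ ≤ δ ∧ pull G φ z.1 z.2 z.2 ≤ (ν * (ρ / 2)) ^ 2)
    (((continuous_fst.tendsto' _ y rfl).eventually (Metric.closedBall_mem_nhds y R0)).and
      (((continuous_snd.norm.tendsto' _ 0 (by simp)).eventually (ge_mem_nhds δ0)).and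
      (c2.eventually (ge_mem_nhds (by simp; positivity)))))
  have t1 := continuous_fst.tendsto' (φ y, φ y) (φ y) rfl
  have t2 := continuous_snd.tendsto' (φ y, φ y) (φ y) rfl
  filter_upwards [((hc.t.comp t1).prodMk_nhds (hc.t.comp t2)).eventually this,
    t1.eventually (Metric.ball_mem_nhds _ (half_pos ρ0)),
    t2.eventually (Metric.ball_mem_nhds _ ρ0)] with w ⟨γ, v, g1, g2, g3, g4⟩ a1 a2 m1 m2
  have e0 : φ (γ 0) = w.1 :=
    g2 ▸ ((hρ _ (Metric.ball_subset_ball (half_le_self ρ0.le) a1)).1 m1).1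
  have e1 : φ (γ 1) = w.2 := g3 ▸ ((hρ _ a2).1 m2).1
  have k := g1.const g1.dv g1.dv
  have k0 : 0 ≤ pull G φ (γ 1) (v 1) (v 1) := h.nn _ _
  have k1 : ∀ τ ∈ Icc (0 : ℝ) 1, pull G φ (γ τ) (v τ) (v τ) =
      √(pull G φ (γ 1) (v 1) (v 1)) ^ 2 := fun τ hτ => by rw [k τ hτ, Real.sq_sqrt k0]
  refine ⟨γ, v, g1, fun τ hτ => hR (g4 τ hτ).1, e0, e1, fun τ hτ => ?_⟩
  rw [k1 τ hτ]
  congr 1
  refine le_antisymm (h.le_dst m1 m2 fun c hc => ?_) ?_
  · by_cases hin : ∀ t ∈ Icc (0 : ℝ) 1, c t ∈ Metric.ball (φ y) ρ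
    · have cc : ∀ t ∈ Icc (0 : ℝ) 1, ContDiffAt ℝ 1 (fun t => r (c t)) t := fun t ht =>
        ((hρ _ (hin t ht)).2.c 1).comp t hc.c1.contDiffAt
      refine (energy (convex_closedBall y R) (fun z hz => h.pg (hR hz)) hμ
        (fun z hz => (h1 z hz).trans (le_max_left _ _))
        (fun z hz => (h2 z hz).trans (le_max_right _ _)) hδ μ0.le g1
        (fun τ hτ => ⟨(g4 τ hτ).1, (g4 τ hτ).2.1⟩) k1 (c := fun t => r (c t))
        (fun t ht => ⟨cc t ht, ((hρ _ (hin t ht)).1 (hc.m t)).2⟩) (by rw [hc.e0, g2]; rfl)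
        (by rw [hc.e1, g3]; rfl)).trans (le_of_eq (intervalIntegral.integral_congr fun t ht => ?_))
      rw [uIcc_of_le zero_le_one] at ht
      rw [← sp_pull (hR ((hρ _ (hin t ht)).1 (hc.m t)).2).sm.d
        ((cc t ht).differentiableAt (by simp))]
      refine sp_congr ?_
      filter_upwards [hc.c1.continuous.continuousAt.eventually
        (Metric.isOpen_ball.mem_nhds (hin t ht))] with s hs using ((hρ _ hs).1 (hc.m s)).1
    · push Not at hin
      obtain ⟨t, ht, hin⟩ := hin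
      refine le_trans ?_ (hν c _ _ hc t ht)
      refine (Real.sqrt_le_iff.2 ⟨by positivity, (g4 1 (by simp)).2.2⟩).trans
        (mul_le_mul_of_nonneg_left ?_ ν0.le)
      rw [Metric.mem_ball, not_lt] at hin
      have := dist_triangle (c t) w.1 (φ y)
      rw [← dist_eq_norm]
      linarith [Metric.mem_ball.1 a1]
  · rw [← e0, ← e1]
    refine (h.dst_chart fun t ht => ⟨g1.cγ.contDiffAt, hR (g4 t ht).1⟩).trans (le_of_eq ?_)
    rw [intervalIntegral.integral_congr (g := fun _ => √(pull G φ (γ 1) (v 1) (v 1)))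
      fun t ht => ?_]
    · simp
    · rw [uIcc_of_le zero_le_one] at ht
      rw [sp_of (g1.dγ t ht), k t ht]

theorem Geo.seg (h : Geo W M G) : ∃ δ, 0 < δ ∧ ∀ x ∈ M, ∀ z ∈ M, dst M G x z < δ →
    ∃ (φ : W → V) (γ v : ℝ → W), Seg M G φ γ v x z := by
  have := h.cpt.eventually_forall_of_forall_eventually (x₀ := (0 : V))
    (P := fun u x => x ∈ M → x + u ∈ M → ∃ (φ : W → V) (γ v : ℝ → W), Seg M G φ γ v x (x + u))
    fun x hx => by
      obtain ⟨φ, r, y, hc, rfl⟩ := h.sub.ch hx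
      have c : Continuous fun z : V × V => (z.2, z.2 + z.1) := by fun_prop
      filter_upwards [(c.tendsto' (0, φ y) _ (by simp)).eventually (h.seg_loc hc)] with z hz m1 m2
      exact ⟨φ, hz m1 m2⟩
  obtain ⟨δ, δ0, hδ⟩ := Metric.eventually_nhds_iff_ball.1 this
  obtain ⟨μ, μ0, hμ⟩ := h.low'
  refine ⟨μ * δ, by positivity, fun x hx z hz hd => ?_⟩
  have := hδ (z - x) (by
    rw [mem_ball_zero_iff]
    exact lt_of_mul_lt_mul_left ((hμ x hx z hz).trans_lt hd) μ0.le) x hx hx (by simpa)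
  simpa using this

end Pool.Agent.Lib.MP_c00cc5_gt
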