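import Pool.Agent.Lib.MP_c00cc5_gt.Main
import Pool.Agent.Lib.MP_c00cc5_gt.Defs2

set_option autoImplicit false
set_option maxSynthPendingDepth 3
set_option linter.unusedSectionVars false
set_option linter.unusedSimpArgs false

namespace Pool.Agent.Lib.MP_c00cc5_gt

/-! Maps smooth near a point, and two-jets of curves. -/

open scoped ContDiff RealInnerProductSpace Topology
open Filter Set

variable {X Y Z : Type} [NormedAddCommGroup X] [NormedSpace ℝ X] [NormedAddCommGroup Y]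
  [NormedSpace ℝ Y] [NormedAddCommGroup Z] [NormedSpace ℝ Z]

theorem le_inf (n : ℕ) : (n : WithTop ℕ∞) ≤ ∞ := WithTop.coe_le_coe.2 le_top

/-- smooth near `x` -/
def Sm (f : X → Y) (x : X) : Prop := ∀ᶠ z in 𝓝 x, ContDiffAt ℝ ∞ f z

theorem Sm.cda {f : X → Y} {x : X} (h : Sm f x) : ContDiffAt ℝ ∞ f x := h.self_of_nhds

theorem Sm.c {f : X → Y} {x : X} (h : Sm f x) (n : ℕ) : ContDiffAt ℝ n f x :=
  h.cda.of_le (le_inf n)

theorem Sm.c2 {f : X → Y} {x : X} (h : Sm f x) : ContDiffAt ℝ 2 f x := h.c 2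

theorem Sm.c3 {f : X → Y} {x : X} (h : Sm f x) : ContDiffAt ℝ 3 f x := h.c 3

theorem Sm.d {f : X → Y} {x : X} (h : Sm f x) : DifferentiableAt ℝ f x :=
  h.cda.differentiableAt (by simp)

theorem Sm.ca {f : X → Y} {x : X} (h : Sm f x) : ContinuousAt f x := h.cda.continuousAt

theorem Sm.ev {f : X → Y} {x : X} (h : Sm f x) : ∀ᶠ z in 𝓝 x, Sm f z := h.eventually_nhds

theorem Sm.comp {g : Y → Z} {f : X → Y} {x : X} (hg : Sm g (f x)) (hf : Sm f x) :
    Sm (fun z => g (f z)) x := by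
  filter_upwards [hf, hf.ca.eventually hg] with z h1 h2 using h2.comp z h1

theorem Sm.congr {f g : X → Y} {x : X} (hf : Sm f x) (h : f =ᶠ[𝓝 x] g) : Sm g x := by
  filter_upwards [hf, h.eventuallyEq_nhds] with z h1 h2 using h1.congr_of_eventuallyEq h2.symm

theorem Sm.of {f : X → Y} (h : ContDiff ℝ ∞ f) (x : X) : Sm f x :=
  Eventually.of_forall fun _ => h.contDiffAt

theorem Sm.fd {f : X → Y} {x : X} (h : Sm f x) : Sm (fderiv ℝ f) x :=
  h.mono fun _ hz => hz.fderiv_right (m := ∞) (by simp)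

theorem cda2_of {f : X → Y} {x : X} (h : ContDiffAt ℝ ∞ f x) : ContDiffAt ℝ 2 f x :=
  h.of_le (le_inf 2)

theorem cda_d {f : X → Y} {x : X} (h : ContDiffAt ℝ ∞ f x) : DifferentiableAt ℝ f x :=
  h.differentiableAt (by simp)

theorem fd_comp {g : Y → Z} {f : X → Y} {x : X} (hg : DifferentiableAt ℝ g (f x))
    (hf : DifferentiableAt ℝ f x) (a : X) :
    fderiv ℝ (fun z => g (f z)) x a = fderiv ℝ g (f x) (fderiv ℝ f x a) := by
  rw [fderiv_fun_comp x hg hf]; rfl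

/-- the inverse function theorem -/
theorem Sm.inverse [FiniteDimensional ℝ X] [FiniteDimensional ℝ Y] {f : X → Y} {x : X}
    (h : Sm f x) (hb : Function.Bijective (fderiv ℝ f x)) :
    ∃ g : Y → X, Sm g (f x) ∧ (∀ᶠ z in 𝓝 x, g (f z) = z) ∧ ∀ᶠ w in 𝓝 (f x), f (g w) = w := by
  have := FiniteDimensional.complete ℝ X
  have := FiniteDimensional.complete ℝ Y
  let e : X ≃L[ℝ] Y := (LinearEquiv.ofBijective (fderiv ℝ f x : X →ₗ[ℝ] Y) hb).toContinuousLinearEquiv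
  have he : (e : X →L[ℝ] Y) = fderiv ℝ f x := by ext; rfl
  have hd : HasFDerivAt f (e : X →L[ℝ] Y) x := he ▸ h.d.hasFDerivAt
  let F := h.cda.toOpenPartialHomeomorph f hd (by simp)
  have hs : x ∈ F.source := h.cda.mem_toOpenPartialHomeomorph_source hd (by simp)
  have ht : f x ∈ F.target := h.cda.image_mem_toOpenPartialHomeomorph_target hd (by simp)
  have hc : Tendsto F.symm (𝓝 (f x)) (𝓝 x) := F.tendsto_symm hs
  have hi := h.fd.ca.preimage_mem_nhds
    ((ContinuousLinearEquiv.isOpen (𝕜 := ℝ) (E := X) (F := Y)).mem_nhds ⟨e, he⟩)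
  refine ⟨F.symm, ?_, F.eventually_left_inverse hs, F.eventually_right_inverse ht⟩
  filter_upwards [F.open_target.mem_nhds ht, hc.eventually h, hc.eventually hi] with w h1 h2 h3
  obtain ⟨e', he'⟩ := h3
  exact F.contDiffAt_symm h1 (f₀' := e') (he' ▸ (cda_d h2).hasFDerivAt) h2

theorem bij_of_inj [FiniteDimensional ℝ X] [FiniteDimensional ℝ Y] {L : X →L[ℝ] Y}
    (h : Function.Injective L) (hd : Module.finrank ℝ X = Module.finrank ℝ Y) :
    Function.Bijective L :=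
  ⟨h, (LinearMap.injective_iff_surjective_of_finrank_eq_finrank (f := (L : X →ₗ[ℝ] Y)) hd).1 h⟩

/-- gluing by a partition of unity -/
theorem glue_conv [FiniteDimensional ℝ X] {t : X → Set Y} (ht : ∀ x, Convex ℝ (t x))
    (h : ∀ x, ∃ g : X → Y, ∀ᶠ z in 𝓝 x, ContDiffAt ℝ ∞ g z ∧ g z ∈ t z) :
    ∃ g : X → Y, ContDiff ℝ ∞ g ∧ ∀ x, g x ∈ t x := by
  obtain ⟨g, hg⟩ := exists_contMDiffMap_forall_mem_convex_of_local (n := ⊤)
    (modelWithCornersSelf ℝ X) ht fun x => by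
      obtain ⟨g, hg⟩ := h x
      exact ⟨_, hg, g, fun z hz => hz.1.contMDiffAt.contMDiffWithinAt, fun z hz => hz.2⟩
  exact ⟨g, g.contMDiff.contDiff, hg⟩

/-- `x, v, b` are the value and the first two derivatives of `c` at zero -/
def J2 (c : ℝ → X) (x v b : X) : Prop :=
  c 0 = x ∧ ∃ c' : ℝ → X, (∀ᶠ s in 𝓝 0, HasDerivAt c (c' s) s) ∧ c' 0 = v ∧ HasDerivAt c' b 0

theorem J2.d {c : ℝ → X} {x v b : X} (h : J2 c x v b) : HasDerivAt c v 0 := by
  obtain ⟨-, c', h1, rfl, -⟩ := h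
  exact h1.self_of_nhds

theorem J2.t {c : ℝ → X} {x v b : X} (h : J2 c x v b) : Tendsto c (𝓝 0) (𝓝 x) :=
  h.1 ▸ h.d.continuousAt

theorem J2.poly (x v b : X) : J2 (fun s : ℝ => x + s • v + (s ^ 2 / 2) • b) x v b := by
  refine ⟨by simp, fun s => v + s • b, Eventually.of_forall fun s => ?_, by simp, ?_⟩
  · have := (((hasDerivAt_id s).smul_const v).const_add x).add
      (((hasDerivAt_pow 2 s).div_const 2).smul_const b)
    exact this.congr_deriv (by simp)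
  · simpa using ((hasDerivAt_id (0 : ℝ)).smul_const b).const_add v

theorem J2.line (x v : X) : J2 (fun s : ℝ => x + s • v) x v 0 := by
  simpa using J2.poly x v 0

theorem J2.const (x : X) : J2 (fun _ : ℝ => x) x 0 0 := by
  simpa using J2.poly x 0 0

theorem J2.congr {c e : ℝ → X} {x v b : X} (h : J2 c x v b) (he : c =ᶠ[𝓝 0] e) : J2 e x v b := by
  obtain ⟨h0, c', h1, h2, h3⟩ := h
  refine ⟨he.self_of_nhds ▸ h0, c', ?_, h2, h3⟩
  filter_upwards [h1, he.eventuallyEq_nhds] with s a1 a2 using a1.congr_of_eventuallyEq a2.symm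

theorem J2.cast {c : ℝ → X} {x v b x' v' b' : X} (h : J2 c x v b) (h0 : x = x') (h1 : v = v')
    (h2 : b = b') : J2 c x' v' b' := h0 ▸ h1 ▸ h2 ▸ h

theorem J2.unique {c : ℝ → X} {x v b x' v' b' : X} (h : J2 c x v b) (h' : J2 c x' v' b') :
    v = v' ∧ b = b' := by
  refine ⟨h.d.unique h'.d, ?_⟩
  obtain ⟨-, c', h1, -, h3⟩ := h
  obtain ⟨-, c'', h1', -, h3'⟩ := h'
  refine h3.unique (h3'.congr_of_eventuallyEq ?_)
  filter_upwards [h1, h1'] with s a1 a2 using a1.unique a2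

theorem J2.comp {f : X → Y} {c : ℝ → X} {x v b : X} (h : J2 c x v b) (hf : ContDiffAt ℝ 2 f x) :
    J2 (fun s => f (c s)) (f x) (fderiv ℝ f x v)
      (fderiv ℝ (fderiv ℝ f) x v v + fderiv ℝ f x b) := by
  have ht := h.t
  have hd := h.d
  obtain ⟨rfl, c', h1, rfl, h3⟩ := h
  refine ⟨rfl, fun s => fderiv ℝ f (c s) (c' s), ?_, rfl, ?_⟩
  · filter_upwards [h1, ht.eventually (c2_ev hf)] with s a1 a2
      using a2.hasFDerivAt.comp_hasDerivAt s a1
  · exact ((c2_d hf).hasFDerivAt.comp_hasDerivAt 0 hd).clm_apply h3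

theorem J2.prodMk {c : ℝ → X} {e : ℝ → Y} {x v b : X} {y w d : Y} (h : J2 c x v b)
    (h' : J2 e y w d) : J2 (fun s => (c s, e s)) (x, y) (v, w) (b, d) := by
  obtain ⟨rfl, c', h1, rfl, h3⟩ := h
  obtain ⟨rfl, e', k1, rfl, k3⟩ := h'
  refine ⟨rfl, fun s => (c' s, e' s), ?_, rfl, h3.prodMk k3⟩
  filter_upwards [h1, k1] with s a1 a2 using a1.prodMk a2

theorem J2.add {c e : ℝ → X} {x v b y w d : X} (h : J2 c x v b) (h' : J2 e y w d) :
    J2 (fun s => c s + e s) (x + y) (v + w) (b + d) := by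
  obtain ⟨rfl, c', h1, rfl, h3⟩ := h
  obtain ⟨rfl, e', k1, rfl, k3⟩ := h'
  refine ⟨rfl, fun s => c' s + e' s, ?_, rfl, h3.add k3⟩
  filter_upwards [h1, k1] with s a1 a2 using a1.add a2

theorem J2.clm {c : ℝ → X} {x v b : X} (h : J2 c x v b) (L : X →L[ℝ] Y) :
    J2 (fun s => L (c s)) (L x) (L v) (L b) := by
  obtain ⟨rfl, c', h1, rfl, h3⟩ := h
  refine ⟨rfl, fun s => L (c' s), ?_, rfl, L.hasFDerivAt.comp_hasDerivAt 0 h3⟩
  filter_upwards [h1] with s a1 using L.hasFDerivAt.comp_hasDerivAt s a1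

theorem J2.app {c : ℝ → X →L[ℝ] Y} {e : ℝ → X} {x v b : X →L[ℝ] Y} {y w d : X} (h : J2 c x v b)
    (h' : J2 e y w d) : J2 (fun s => c s (e s)) (x y) (v y + x w) (b y + (2 : ℝ) • v w + x d) := by
  have d1 := h.d
  have d2 := h'.d
  obtain ⟨rfl, c', h1, rfl, h3⟩ := h
  obtain ⟨rfl, e', k1, rfl, k3⟩ := h'
  refine ⟨rfl, fun s => c' s (e s) + c s (e' s), ?_, rfl, ?_⟩
  · filter_upwards [h1, k1] with s a1 a2 using a1.clm_apply a2
  · refine ((h3.clm_apply d2).add (d1.clm_apply k3)).congr_deriv ?_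
    rw [two_smul]; abel

theorem J2.mul {c e : ℝ → ℝ} {x v b y w d : ℝ} (h : J2 c x v b) (h' : J2 e y w d) :
    J2 (fun s => c s * e s) (x * y) (v * y + x * w) (b * y + 2 * (v * w) + x * d) := by
  simpa using (h.clm (ContinuousLinearMap.mul ℝ ℝ)).app h'

theorem J2.cmul {c : ℝ → ℝ} {x v b : ℝ} (h : J2 c x v b) (a : ℝ) :
    J2 (fun s => a * c s) (a * x) (a * v) (a * b) := by
  simpa using h.clm (ContinuousLinearMap.mul ℝ ℝ a)

theorem J2.sum {ι : Type} {c : ι → ℝ → X} {x v b : ι → X} (S : Finset ι)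
    (h : ∀ i ∈ S, J2 (c i) (x i) (v i) (b i)) :
    J2 (fun s => ∑ i ∈ S, c i s) (∑ i ∈ S, x i) (∑ i ∈ S, v i) (∑ i ∈ S, b i) := by
  classical
  induction S using Finset.induction_on with
  | empty => simpa using J2.const (0 : X)
  | insert i S hi ih =>
    simp only [Finset.sum_insert hi]
    exact (h i (Finset.mem_insert_self _ _)).add (ih fun j hj => h j (Finset.mem_insert_of_mem hj))

theorem J2.scomp {c g g' : ℝ → ℝ} {x v b g'' : ℝ} (h : J2 c x v b)
    (h1 : ∀ᶠ z in 𝓝 x, HasDerivAt g (g' z) z) (h2 : HasDerivAt g' g'' x) :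
    J2 (fun s => g (c s)) (g x) (g' x * v) (g'' * v ^ 2 + g' x * b) := by
  have ht := h.t
  have hd := h.d
  obtain ⟨rfl, c', k1, rfl, k3⟩ := h
  refine ⟨rfl, fun s => g' (c s) * c' s, ?_, rfl, ?_⟩
  · filter_upwards [k1, ht.eventually h1] with s a1 a2 using a2.comp s a1
  · refine ((h2.comp 0 hd).mul k3).congr_deriv ?_
    simp only [Function.comp]; ring

theorem J2.exp {c : ℝ → ℝ} {x v b : ℝ} (h : J2 c x v b) :
    J2 (fun s => Real.exp (c s)) (Real.exp x) (Real.exp x * v)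
      (Real.exp x * v ^ 2 + Real.exp x * b) :=
  h.scomp (Eventually.of_forall Real.hasDerivAt_exp) (Real.hasDerivAt_exp x)

theorem J2.cos {c : ℝ → ℝ} {x v b : ℝ} (h : J2 c x v b) :
    J2 (fun s => Real.cos (c s)) (Real.cos x) (-Real.sin x * v)
      (-Real.cos x * v ^ 2 + -Real.sin x * b) :=
  h.scomp (g' := fun z => -Real.sin z) (Eventually.of_forall Real.hasDerivAt_cos)
    (Real.hasDerivAt_sin x).neg

theorem J2.log {c : ℝ → ℝ} {x v b : ℝ} (h : J2 c x v b) (hx : x ≠ 0) :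
    J2 (fun s => Real.log (c s)) (Real.log x) (x⁻¹ * v) (-(x ^ 2)⁻¹ * v ^ 2 + x⁻¹ * b) :=
  h.scomp (g' := fun z => z⁻¹) ((eventually_ne_nhds hx).mono fun _ => Real.hasDerivAt_log)
    (hasDerivAt_inv hx)

theorem J2.taylor {c : ℝ → X} {x v b : X} (h : J2 c x v b) {ε : ℝ} (hε : 0 < ε) :
    ∀ᶠ s in 𝓝 (0 : ℝ), ‖c s - (x + s • v + (s ^ 2 / 2) • b)‖ ≤ ε * s ^ 2 := by
  obtain ⟨rfl, c', h1, rfl, h3⟩ := h
  have h4 := h3.isLittleO.bound hε
  obtain ⟨δ, δ0, hδ⟩ := Metric.eventually_nhds_iff_ball.1 (h1.and h4)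
  filter_upwards [Metric.ball_mem_nhds (0 : ℝ) δ0] with s hs
  have hsub : Metric.closedBall (0 : ℝ) ‖s‖ ⊆ Metric.ball 0 δ :=
    Metric.closedBall_subset_ball (by simpa using hs)
  have := (convex_closedBall (0 : ℝ) ‖s‖).norm_image_sub_le_of_norm_hasDerivWithin_le
    (f := fun s : ℝ => c s - (c 0 + s • c' 0 + (s ^ 2 / 2) • b))
    (f' := fun s => c' s - c' 0 - s • b) (C := ε * ‖s‖) (x := 0) (y := s) (fun t ht => by
      have d := (hδ t (hsub ht)).1.sub ((((hasDerivAt_id t).smul_const (c' 0)).const_add (c 0)).add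
        (((hasDerivAt_pow 2 t).div_const 2).smul_const b))
      refine (d.congr_deriv ?_).hasDerivWithinAt
      simp [sub_sub])
    (fun t ht => by
      have := (hδ t (hsub ht)).2
      simp only [sub_zero] at this
      exact this.trans (mul_le_mul_of_nonneg_left (by simpa using ht) hε.le))
    (by simp) (by simp)
  simpa [mul_assoc, ← sq] using this

/-- an upper bound for `g` near zero up to second order -/
def UJ (g : ℝ → ℝ) (x a b : ℝ) : Prop :=
  ∀ ε, 0 < ε → ∀ᶠ s in 𝓝 (0 : ℝ), g s ≤ x + s * a + s ^ 2 / 2 * (b + ε)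

theorem J2.uj {g : ℝ → ℝ} {x a b : ℝ} (h : J2 g x a b) : UJ g x a b := fun ε hε => by
  filter_upwards [h.taylor (half_pos hε)] with s hs
  have := (abs_le.1 hs).2
  simp only [smul_eq_mul] at this
  linarith

theorem UJ.add {g g' : ℝ → ℝ} {x a b x' a' b' : ℝ} (h : UJ g x a b) (h' : UJ g' x' a' b') :
    UJ (fun s => g s + g' s) (x + x') (a + a') (b + b') := fun ε hε => by
  filter_upwards [h _ (half_pos hε), h' _ (half_pos hε)] with s h1 h2
  linarith

theorem UJ.mono {g g' : ℝ → ℝ} {x a b b' : ℝ} (h : UJ g x a b) (hg : ∀ᶠ s in 𝓝 0, g' s ≤ g s)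
    (hb : b ≤ b') : UJ g' x a b' := fun ε hε => by
  filter_upwards [h _ hε, hg] with s h1 h2
  nlinarith [sq_nonneg s]

theorem UJ.lower {g : ℝ → ℝ} {x a b : ℝ} (h : UJ g x a b) (hg : ∀ᶠ s in 𝓝 0, x ≤ g s) :
    a = 0 ∧ 0 ≤ b := by
  have h1 : a = 0 := by
    have hm : IsLocalMin (fun s : ℝ => s * a + s ^ 2 / 2 * (b + 1)) 0 := by
      filter_upwards [h 1 one_pos, hg] with s h1 h2
      simp only [zero_mul]; linarith
    have d := ((hasDerivAt_id (0 : ℝ)).mul_const a).add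
      (((hasDerivAt_pow 2 (0 : ℝ)).div_const 2).mul_const (b + 1))
    simpa using hm.hasDerivAt_eq_zero d
  refine ⟨h1, le_of_forall_pos_le_add fun ε hε => ?_⟩
  obtain ⟨s, ⟨k1, k2⟩, s0⟩ := ((((h ε hε).and hg).filter_mono nhdsWithin_le_nhds).and
    (self_mem_nhdsWithin (s := {(0 : ℝ)}ᶜ))).exists
  have : 0 < s ^ 2 := by have : s ≠ 0 := s0; positivity
  rw [h1] at k1
  nlinarith

end Pool.Agent.Lib.MP_c00cc5_gt
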