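import Mathlib

set_option autoImplicit false
set_option maxSynthPendingDepth 3
set_option linter.unusedSectionVars false
set_option linter.unusedSimpArgs false

namespace Pool.Agent.Lib.MP_c00cc5_gt

/-! One-variable building blocks of the spindle profile. -/

section

open scoped ContDiff Topology
open Filter Set Real


theorem penal {X : Type} [TopologicalSpace X] {T : Set X} (hT : IsCompact T) {Q w z : X → ℝ}
    (cQ : ContinuousOn Q T) (cw : ContinuousOn w T) (cz : ContinuousOn z T)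
    (w0 : ∀ x ∈ T, 0 ≤ w x) (z0 : ∀ x ∈ T, 0 ≤ z x) (h : ∀ x ∈ T, w x = 0 → 0 < Q x) :
    ∃ A δ : ℝ, 0 ≤ A ∧ 0 < δ ∧ ∀ x ∈ T, δ * z x ≤ Q x + A * w x := by
  have := hT.induction_on (p := fun s => ∃ A δ : ℝ, 0 ≤ A ∧ 0 < δ ∧
    ∀ x ∈ s, x ∈ T → δ * z x ≤ Q x + A * w x) ⟨0, 1, le_rfl, one_pos, by simp⟩
    (fun s t hst ⟨A, δ, h1, h2, h3⟩ => ⟨A, δ, h1, h2, fun x hx => h3 x (hst hx)⟩)
    (fun s t ⟨A, δ, h1, h2, h3⟩ ⟨A', δ', h1', h2', h3'⟩ => by
      refine ⟨max A A', min δ δ', le_max_of_le_left h1, lt_min h2 h2', fun x hx hx' => ?_⟩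
      have e1 := mul_le_mul_of_nonneg_right (le_max_left A A') (w0 x hx')
      have e2 := mul_le_mul_of_nonneg_right (le_max_right A A') (w0 x hx')
      have e3 := mul_le_mul_of_nonneg_right (min_le_left δ δ') (z0 x hx')
      have e4 := mul_le_mul_of_nonneg_right (min_le_right δ δ') (z0 x hx')
      rcases hx with hx | hx
      · linarith [h3 x hx hx']
      · linarith [h3' x hx hx'])
    (fun x hx => by
      obtain ⟨A, A0, hA⟩ : ∃ A, 0 ≤ A ∧ 0 < Q x + A * w x := by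
        rcases (w0 x hx).eq_or_lt with h0 | h0
        · exact ⟨0, le_rfl, by simpa using h x hx h0.symm⟩
        · refine ⟨(|Q x| + 1) / w x, by positivity, ?_⟩
          rw [div_mul_cancel₀ _ h0.ne']
          linarith [neg_abs_le (Q x)]
      have zx := z0 x hx
      have hδ : (Q x + A * w x) / (z x + 1) * z x < Q x + A * w x := by
        rw [div_mul_eq_mul_div, div_lt_iff₀ (by linarith)]
        linarith
      have c : ContinuousWithinAt (fun y => Q y + A * w y - (Q x + A * w x) / (z x + 1) * z y)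
          T x := ((cQ x hx).add (continuousWithinAt_const.mul (cw x hx))).sub
            (continuousWithinAt_const.mul (cz x hx))
      exact ⟨_, c.eventually (lt_mem_nhds (sub_pos.2 hδ)), A, _, A0, div_pos hA (by linarith),
        fun y hy _ => (sub_pos.1 hy).le⟩)
  obtain ⟨A, δ, h1, h2, h3⟩ := this
  exact ⟨A, δ, h1, h2, fun x hx => h3 x hx hx⟩

theorem cda_deriv {f : ℝ → ℝ} {t : ℝ} (h : ContDiffAt ℝ ∞ f t) : ContDiffAt ℝ ∞ (deriv f) t :=
  (h.fderiv_right (m := ∞) (by simp)).clm_apply (contDiffAt_const (c := (1 : ℝ)))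

/-- the logarithm of the cap profile -/
noncomputable def capY (t : ℝ) : ℝ := log t - log (1 + t ^ 2) / 2

theorem capY_cda {t : ℝ} (ht : 0 < t) : ContDiffAt ℝ ∞ capY t :=
  (contDiffAt_id.log ht.ne').sub (((contDiffAt_const.add (contDiffAt_id.pow 2)).log
    (by simp only [id]; positivity)).div_const 2)

theorem capY_exp {t : ℝ} (ht : 0 < t) : exp (2 * capY t) = t ^ 2 / (1 + t ^ 2) := by
  rw [capY, show 2 * (log t - log (1 + t ^ 2) / 2) = log t + log t - log (1 + t ^ 2) by ring,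
    exp_sub, exp_add, exp_log ht, exp_log (by positivity), sq]

theorem capY_le {t : ℝ} (ht : 0 < t) : capY t ≤ 0 := by
  have : exp (2 * capY t) ≤ 1 := by
    rw [capY_exp ht, div_le_one (by positivity)]; linarith
  linarith [exp_le_one_iff.1 this]

theorem capY_d1 {t : ℝ} (ht : 0 < t) : deriv capY t = 1 / (t * (1 + t ^ 2)) := by
  have d := (hasDerivAt_log ht.ne').sub ((((hasDerivAt_pow 2 t).const_add 1).log
    (by positivity)).div_const 2)
  erw [d.deriv]
  field_simp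
  ring

theorem capY_d2 {t : ℝ} (ht : 0 < t) :
    -deriv (deriv capY) t - deriv capY t ^ 2 = 3 / (1 + t ^ 2) ^ 2 := by
  have e : deriv capY =ᶠ[𝓝 t] fun t => 1 / (t * (1 + t ^ 2)) :=
    (lt_mem_nhds ht).mono fun s hs => capY_d1 hs
  have d := (hasDerivAt_const t (1 : ℝ)).div ((hasDerivAt_id t).mul
    ((hasDerivAt_pow 2 t).const_add 1)) (by simp only [Pi.mul_apply, id]; positivity)
  rw [e.deriv_eq, capY_d1 ht]
  erw [d.deriv]
  simp only [Pi.mul_apply, id]
  field_simp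
  ring

theorem mid {a κ : ℝ} (a0 : 0 < a) (κ0 : 0 < κ) : ∃ (θ : ℝ) (L : ℝ → ℝ), 0 < θ ∧ θ ≤ 1 ∧
    ContDiff ℝ ∞ L ∧ (∀ t, L (2 - t) = L t) ∧ (∀ t ∈ Icc (0 : ℝ) 1, 0 ≤ L t) ∧
    (∀ t < 1, 0 < deriv L t) ∧ (∀ t ≤ 1, 0 ≤ deriv L t) ∧
    (∀ t, -deriv (deriv L) t + deriv L t ^ 2 = a ^ 2 + (θ * exp (2 * L t)) ^ 2) ∧
    ∫ t in (1 / 2 : ℝ)..(3 / 2), θ * exp (2 * L t) =
      2 * arctan (κ * (sinh (a / 2) / cosh (a / 2))) := by
  set q : ℝ → ℝ := fun t => cosh (a * (t - 1)) ^ 2 + κ ^ 2 * sinh (a * (t - 1)) ^ 2 with hq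
  have q0 : ∀ t, 0 < q t := fun t => by
    have := cosh_pos (a * (t - 1))
    simp only [hq]; positivity
  have qle : ∀ t ∈ Icc (0 : ℝ) 1, q t ≤ q 0 := by
    intro t ht
    have : cosh (a * (t - 1)) ≤ cosh (a * (0 - 1)) := by
      rw [cosh_le_cosh, abs_mul, abs_mul]
      refine mul_le_mul_of_nonneg_left ?_ (abs_nonneg _)
      rw [abs_of_nonpos (by linarith [ht.2]), abs_of_nonpos (by linarith)]
      linarith [ht.1]
    have h2 := pow_le_pow_left₀ (cosh_pos _).le this 2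
    simp only [hq, sinh_sq]
    nlinarith [sq_nonneg κ]
  set θ := min 1 (κ * a / q 0) with hθ
  have θ0 : 0 < θ := lt_min one_pos (div_pos (mul_pos κ0 a0) (q0 0))
  set L : ℝ → ℝ := fun t => (log (κ * a / θ) - log (q t)) / 2 with hL
  have eL : ∀ t, θ * exp (2 * L t) = κ * a / q t := fun t => by
    rw [show 2 * L t = log (κ * a / θ) - log (q t) by simp only [hL]; ring, exp_sub,
      exp_log (by positivity), exp_log (q0 t)]
    field_simp
  have dl : ∀ t, HasDerivAt (fun t => a * (t - 1)) a t := fun t => by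
    simpa using ((hasDerivAt_id t).sub_const 1).const_mul a
  have dq : ∀ t, HasDerivAt q
      (2 * a * (1 + κ ^ 2) * (cosh (a * (t - 1)) * sinh (a * (t - 1)))) t := fun t => by
    refine (((dl t).cosh.pow 2).add (((dl t).sinh.pow 2).const_mul (κ ^ 2))).congr_deriv ?_
    simp
    ring
  have d1 : deriv L = fun t =>
      -(a * (1 + κ ^ 2)) * (cosh (a * (t - 1)) * sinh (a * (t - 1))) / q t := by
    funext t
    have d := (((dq t).log (q0 t).ne').const_sub (log (κ * a / θ))).div_const 2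
    erw [d.deriv]
    ring
  refine ⟨θ, L, θ0, min_le_left _ _, ?_, fun t => ?_, fun t ht => ?_, fun t ht => ?_,
    fun t ht => ?_, fun t => ?_, ?_⟩
  · have : ContDiff ℝ ∞ q := by simp only [hq]; fun_prop
    exact (contDiff_const.sub (this.log fun t => (q0 t).ne')).div_const 2
  · simp only [hL, hq]
    rw [show a * (2 - t - 1) = -(a * (t - 1)) by ring, cosh_neg, sinh_neg, neg_sq]
  · have h1 : θ ≤ κ * a / q t := (min_le_right _ _).trans
      (div_le_div_of_nonneg_left (by positivity) (q0 t) (qle t ht))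
    rw [← eL t] at h1
    have h2 : 1 ≤ exp (2 * L t) := le_of_mul_le_mul_left (by simpa using h1) θ0
    linarith [one_le_exp_iff.1 h2]
  · rw [d1]
    have h1 : sinh (a * (t - 1)) < 0 := sinh_neg_iff.2 (mul_neg_of_pos_of_neg a0 (by linarith))
    exact div_pos (mul_pos_of_neg_of_neg (neg_neg_of_pos (by positivity))
      (mul_neg_of_pos_of_neg (cosh_pos _) h1)) (q0 t)
  · rw [d1]
    have h1 : sinh (a * (t - 1)) ≤ 0 :=
      sinh_nonpos_iff.2 (mul_nonpos_of_nonneg_of_nonpos a0.le (by linarith))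
    exact div_nonneg (mul_nonneg_of_nonpos_of_nonpos (neg_nonpos.2 (by positivity))
      (mul_nonpos_of_nonneg_of_nonpos (cosh_pos _).le h1)) (q0 t).le
  · have d := (((dl t).cosh.mul (dl t).sinh).const_mul (-(a * (1 + κ ^ 2)))).div (dq t) (q0 t).ne'
    rw [eL, d1]
    erw [d.deriv]
    have := q0 t
    simp only [Pi.mul_apply]
    field_simp
    simp only [hq, cosh_sq']
    ring_nf
  · simp only [eL]
    have cq : Continuous q := by simp only [hq]; fun_prop
    rw [intervalIntegral.integral_eq_sub_of_hasDerivAt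
      (f := fun t => arctan (κ * (sinh (a * (t - 1)) / cosh (a * (t - 1)))))
      (f' := fun t => κ * a / q t) (fun t _ => ?_)
      ((continuous_const.div cq fun t => (q0 t).ne').intervalIntegrable _ _)]
    · rw [show a * (1 / 2 - 1) = -(a / 2) by ring, show a * (3 / 2 - 1) = a / 2 by ring, cosh_neg,
        sinh_neg, neg_div, mul_neg, arctan_neg]
      ring
    · refine ((((dl t).sinh.div (dl t).cosh (cosh_pos _).ne').const_mul κ).arctan).congr_deriv ?_
      have h1 := cosh_pos (a * (t - 1))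
      have h2 := q0 t
      simp only [hq, Pi.div_apply] at h2 ⊢
      field_simp
      rw [cosh_sq']
      ring

end

/-! The spindle profile. -/

section

open scoped ContDiff Topology
open Filter Set Real


/-- the radial inequality -/
noncomputable def R1 (u v : ℝ → ℝ) (t : ℝ) : ℝ :=
  -deriv (deriv u) t - deriv u t ^ 2 + deriv u t * deriv v t - exp (2 * v t)

/-- the tangential inequality -/
noncomputable def R2 (u v : ℝ → ℝ) (C t : ℝ) : ℝ :=
  exp (2 * u t) * ((|deriv u t| + C) ^ 2 * exp (-(2 * v t)) + 1)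

theorem R1_congr {u v u' v' : ℝ → ℝ} {t : ℝ} (hu : u =ᶠ[𝓝 t] u') (hv : v =ᶠ[𝓝 t] v') :
    R1 u v t = R1 u' v' t := by
  simp only [R1, hu.deriv.deriv_eq, hu.deriv_eq, hv.deriv_eq, hv.self_of_nhds]

theorem R2_congr {u v u' v' : ℝ → ℝ} {t : ℝ} (hu : u =ᶠ[𝓝 t] u') (hv : v =ᶠ[𝓝 t] v') (C : ℝ) :
    R2 u v C t = R2 u' v' C t := by
  simp only [R2, hu.deriv_eq, hu.self_of_nhds, hv.self_of_nhds]

/-- a smooth step from `0` to `1` -/
noncomputable def st (k j t : ℝ) : ℝ := smoothTransition (k * t - j)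

theorem st_cd (k j : ℝ) : ContDiff ℝ ∞ (st k j) :=
  smoothTransition.contDiff.comp ((contDiff_const.mul contDiff_id).sub contDiff_const)

theorem st_d {k : ℝ} (hk : 0 ≤ k) (j t : ℝ) : 0 ≤ deriv (st k j) t :=
  Monotone.deriv_nonneg fun _ _ h => smoothTransition.monotone
    (sub_le_sub_right (mul_le_mul_of_nonneg_left h hk) j)

theorem st_0 {k j t : ℝ} (h : k * t ≤ j) : st k j t = 0 :=
  smoothTransition.zero_of_nonpos (by linarith)

theorem st_1 {k j t : ℝ} (h : j + 1 ≤ k * t) : st k j t = 1 :=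
  smoothTransition.one_of_one_le (by linarith)

theorem st_mem (k j t : ℝ) : 0 ≤ st k j t ∧ st k j t ≤ 1 :=
  ⟨smoothTransition.nonneg _, smoothTransition.le_one _⟩

theorem zeta : ∃ ζ : ℝ → ℝ, ContDiff ℝ ∞ ζ ∧ (∀ t ≤ 1 / 8, ζ t = 0) ∧ (∀ t ≥ 7 / 16, ζ t = 1) ∧
    (∀ t ∈ Icc (0 : ℝ) 1, 0 ≤ ζ t ∧ ζ t ≤ 1 ∧ 0 ≤ deriv ζ t) ∧
    (∀ t ∈ Icc (1 / 4 : ℝ) 1, 1 / 4 ≤ ζ t) ∧ ∀ t ∈ Icc (1 / 4 : ℝ) (3 / 8), 0 < deriv ζ t := by
  have d : ∀ t, deriv (fun t => st 8 1 t * (t + st 16 6 t * (1 - t))) t =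
      deriv (st 8 1) t * (t + st 16 6 t * (1 - t)) +
        st 8 1 t * (1 + (deriv (st 16 6) t * (1 - t) + st 16 6 t * -1)) := by
    intro t
    have d1 := ((st_cd 8 1).differentiable (by simp) t).hasDerivAt
    have d2 := ((st_cd 16 6).differentiable (by simp) t).hasDerivAt
    exact (d1.mul ((hasDerivAt_id t).add (d2.mul ((hasDerivAt_id t).const_sub 1)))).deriv
  refine ⟨fun t => st 8 1 t * (t + st 16 6 t * (1 - t)), (st_cd 8 1).mul (contDiff_id.add
    ((st_cd 16 6).mul (contDiff_const.sub contDiff_id))), fun t ht => ?_, fun t ht => ?_,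
    fun t ht => ?_, fun t ht => ?_, fun t ht => ?_⟩
  · simp [st_0 (k := 8) (j := 1) (t := t) (by linarith)]
  · simp [st_1 (k := 8) (j := 1) (t := t) (by linarith),
      st_1 (k := 16) (j := 6) (t := t) (by linarith)]
  · obtain ⟨a0, a1⟩ := st_mem 8 1 t
    obtain ⟨b0, b1⟩ := st_mem 16 6 t
    have t1 : 0 ≤ 1 - t := by linarith [ht.2]
    have e0 : 0 ≤ t + st 16 6 t * (1 - t) := add_nonneg ht.1 (mul_nonneg b0 t1)
    have e1 : t + st 16 6 t * (1 - t) ≤ 1 := by nlinarith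
    refine ⟨mul_nonneg a0 e0, mul_le_one₀ a1 e0 e1, ?_⟩
    rw [d]
    have := mul_nonneg (st_d (k := 16) (by norm_num) 6 t) t1
    exact add_nonneg (mul_nonneg (st_d (by norm_num) _ _) e0) (mul_nonneg a0 (by linarith))
  · have := mul_nonneg (st_mem 16 6 t).1 (sub_nonneg.2 ht.2)
    simp only [st_1 (k := 8) (j := 1) (t := t) (by linarith [ht.1])]
    linarith [ht.1]
  · rw [d, st_1 (k := 8) (j := 1) (t := t) (by linarith [ht.1]),
      st_0 (k := 16) (j := 6) (t := t) (by linarith [ht.2])]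
    have h1 := mul_nonneg (st_d (k := 16) (by norm_num) 6 t) (by linarith [ht.2] : 0 ≤ 1 - t)
    have h2 := mul_nonneg (st_d (k := 8) (by norm_num) 1 t) (by linarith [ht.1] : 0 ≤ t)
    simp only [zero_mul, add_zero, one_mul]
    linarith

theorem half {A C δ D : ℝ} (A0 : 0 ≤ A) (C0 : 0 ≤ C) (δ0 : 0 < δ) (D0 : 0 < D) (D1 : D < π) :
    ∃ (β : ℝ) (u v : ℝ → ℝ), 0 < β ∧ ContDiff ℝ ∞ v ∧ (∀ t, 0 < t → ContDiffAt ℝ ∞ u t) ∧
      (∀ t ∈ Icc (1 / 2 : ℝ) (3 / 2), u (2 - t) = u t ∧ v (2 - t) = v t) ∧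
      (∀ t ≤ 1 / 8, exp (v t) = β) ∧
      (∀ t ∈ Ioc (0 : ℝ) (1 / 8), exp (2 * u t) = β ^ 2 * t ^ 2 / (1 + t ^ 2)) ∧
      (∀ t ∈ Ioc (0 : ℝ) 1, 0 ≤ R1 u v t ∧ R2 u v 0 t ≤ 1) ∧
      (∀ t ∈ Icc (1 / 2 : ℝ) 1, deriv v t = 2 * deriv u t ∧ A ≤ R1 u v t ∧ R2 u v C t ≤ δ) ∧
      ∫ t in (1 / 2 : ℝ)..(3 / 2), exp (v t) = D := by
  have a0 : 0 < A + 1 := by linarith
  have th : 0 < sinh ((A + 1) / 2) / cosh ((A + 1) / 2) :=
    div_pos (sinh_pos_iff.2 (by linarith)) (cosh_pos _)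
  obtain ⟨θ, L, θ0, θ1, cL, sL, L0, L1, L1', L2, iL⟩ := mid a0
    (div_pos (tan_pos_of_pos_of_lt_pi_div_two (x := D / 2) (by linarith) (by linarith)) th)
  rw [div_mul_cancel₀ _ th.ne', arctan_tan (by linarith [pi_pos]) (by linarith)] at iL
  obtain ⟨ζ, cζ, ζ0, ζ1, ζ2, ζ3, ζ4⟩ := zeta
  set w : ℝ → ℝ := fun t => (1 - st 8 2 t) * capY t + st 8 2 t * L t with hw
  set e : ℝ → ℝ := fun t => 2 * (st 8 2 t * L t) with he
  have ce : ContDiff ℝ ∞ e := contDiff_const.mul ((st_cd 8 2).mul cL)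
  have cw : ∀ t, 0 < t → ContDiffAt ℝ ∞ w t := fun t ht =>
    ((contDiffAt_const.sub (st_cd 8 2).contDiffAt).mul (capY_cda ht)).add
      ((st_cd 8 2).mul cL).contDiffAt
  have w1 : ∀ t ∈ Icc (1 / 4 : ℝ) (3 / 8), 0 < deriv w t := by
    intro t ht
    have t0 : 0 < t := by linarith [ht.1]
    have d1 := ((st_cd 8 2).differentiable (by simp) t).hasDerivAt
    have d := ((d1.const_sub 1).mul ((capY_cda t0).differentiableAt (by simp)).hasDerivAt).add
      (d1.mul (cL.differentiable (by simp) t).hasDerivAt)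
    erw [d.deriv]
    obtain ⟨a0, a1⟩ := st_mem 8 2 t
    have h1 := mul_nonneg (st_d (k := 8) (by norm_num) 2 t)
      (sub_nonneg.2 ((capY_le t0).trans (L0 t ⟨t0.le, by linarith [ht.2]⟩)))
    have h2 : 0 < deriv capY t := by rw [capY_d1 t0]; positivity
    have h3 := L1 t (by linarith [ht.2])
    have h4 : 0 < (1 - st 8 2 t) * deriv capY t + st 8 2 t * deriv L t := by
      rcases a0.eq_or_lt with h | h
      · rw [← h]; simpa using h2
      · exact add_pos_of_nonneg_of_pos (mul_nonneg (by linarith) h2.le) (mul_pos h h3)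
    linarith
  have co : ∀ {s : Set ℝ} {f : ℝ → ℝ}, (∀ t ∈ s, 0 < t) → (∀ t, 0 < t → ContDiffAt ℝ ∞ f t) →
      ContinuousOn f s := fun h1 h2 t ht => (h2 t (h1 t ht)).continuousAt.continuousWithinAt
  have cw1 : ∀ t, 0 < t → ContDiffAt ℝ ∞ (deriv w) t := fun t ht => cda_deriv (cw t ht)
  obtain ⟨M₀, δ₀, M0, δ₀0, hM₀⟩ := penal (isCompact_Icc (a := (1 / 4 : ℝ)) (b := 3 / 8))
    (Q := fun t => -deriv (deriv w) t - deriv w t ^ 2 + deriv w t * deriv e t -
      θ ^ 2 * exp (2 * e t)) (w := fun t => deriv w t * deriv ζ t) (z := fun _ => 0)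
    (co (fun t ht => by linarith [ht.1]) fun t ht => (((cda_deriv (cw1 t ht)).neg.sub
      ((cw1 t ht).pow 2)).add ((cw1 t ht).mul (cda_deriv ce.contDiffAt))).sub
      (contDiffAt_const.mul (contDiffAt_const.mul ce.contDiffAt).exp))
    (co (fun t ht => by linarith [ht.1]) fun t ht => (cw1 t ht).mul (cda_deriv cζ.contDiffAt))
    continuousOn_const (fun t ht => (mul_pos (w1 t ht) (ζ4 t ht)).le) (fun _ _ => le_rfl)
    (fun t ht h => absurd h (mul_pos (w1 t ht) (ζ4 t ht)).ne')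
  obtain ⟨Z, hZ⟩ := (isCompact_Icc (a := (1 / 4 : ℝ)) (b := 1)).bddAbove_image
    (f := fun t => exp (2 * w t) * ((|deriv w t| + C) ^ 2 * exp (-(2 * e t)) + 1))
    ((co (fun t ht => by linarith [ht.1]) fun t ht => (contDiffAt_const.mul (cw t ht)).exp).mul
      (((((co (fun t ht => by linarith [ht.1]) cw1).abs.add continuousOn_const).pow 2).mul
      (co (fun t ht => by linarith [ht.1]) fun t _ =>
        (contDiffAt_const.mul ce.contDiffAt).neg.exp)).add continuousOn_const))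
  have lim : Tendsto (fun M : ℝ => exp (-(M / 2)) * Z) atTop (𝓝 0) := by
    simpa using (tendsto_exp_neg_atTop_nhds_zero.comp
      (tendsto_id.atTop_div_const two_pos)).mul_const Z
  obtain ⟨M, hM1, hM2⟩ := ((lim.eventually (gt_mem_nhds (lt_min δ0 one_pos))).and
    (eventually_ge_atTop M₀)).exists
  have M1 : 0 ≤ M := M0.trans hM2
  set c := log θ - M with hc
  have ec : exp c = θ * exp (-M) := by rw [hc, sub_eq_add_neg, exp_add, exp_log θ0]
  have ec1 : exp c ≤ 1 := by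
    rw [ec]; exact mul_le_one₀ θ1 (exp_pos _).le (exp_le_one_iff.2 (by linarith))
  set u : ℝ → ℝ := fun t => c + w t with hu
  set v : ℝ → ℝ := fun t => c + (M * ζ t + e t) with hv
  have du : deriv u = deriv w := deriv_const_add' c
  have dv : ∀ t, deriv v t = M * deriv ζ t + deriv e t := fun t => by
    rw [hv, deriv_const_add]
    exact (((cζ.differentiable (by simp) t).hasDerivAt.const_mul M).add
      (ce.differentiable (by simp) t).hasDerivAt).deriv
  have ev : ∀ t ∈ Icc (0 : ℝ) 1, exp (2 * v t) ≤ θ ^ 2 * exp (2 * e t) := by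
    intro t ht
    have : M * ζ t ≤ M := mul_le_of_le_one_right M1 (ζ2 t ht).2.1
    rw [← exp_log θ0, ← exp_nat_mul, ← exp_add, exp_le_exp]
    simp only [hv, hc, Nat.cast_ofNat]
    linarith
  have r2 : ∀ t ∈ Icc (1 / 4 : ℝ) 1, R2 u v C t ≤ min δ 1 := by
    intro t ht
    refine le_trans ?_ hM1.le
    refine le_trans ?_ (mul_le_mul_of_nonneg_left (hZ (mem_image_of_mem _ ht)) (exp_pos _).le)
    have h1 : exp (2 * u t) * exp (-(2 * v t)) ≤
        exp (-(M / 2)) * (exp (2 * w t) * exp (-(2 * e t))) := by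
      simp only [← exp_add, exp_le_exp, hu, hv]
      nlinarith [ζ3 t ht]
    have h2 : exp (2 * u t) ≤ exp (-(M / 2)) * exp (2 * w t) := by
      simp only [← exp_add, exp_le_exp, hu, hc]
      linarith [log_nonpos θ0.le θ1]
    have h3 := mul_le_mul_of_nonneg_left h1 (sq_nonneg (|deriv w t| + C))
    rw [R2, du]
    linarith
  have r1 : ∀ t ∈ Ioc (3 / 8 : ℝ) 1, A ≤ R1 u v t ∧ deriv v t = M * deriv ζ t + 2 * deriv u t := by
    intro t ht
    have e1 : w =ᶠ[𝓝 t] L := (lt_mem_nhds ht.1).mono fun s hs => by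
      simp [hw, st_1 (k := 8) (j := 2) (t := s) (by linarith)]
    have e2 : e =ᶠ[𝓝 t] fun s => 2 * L s := (lt_mem_nhds ht.1).mono fun s hs => by
      simp [he, st_1 (k := 8) (j := 2) (t := s) (by linarith)]
    have ht' : t ∈ Icc (0 : ℝ) 1 := ⟨by linarith [ht.1], ht.2⟩
    have h1 := ev t ht'
    have h2 := mul_nonneg (mul_nonneg M1 (ζ2 t ht').2.2) (L1' t ht.2)
    have h3 := L2 t
    rw [mul_pow, ← exp_nat_mul] at h3
    rw [e2.self_of_nhds] at h1
    rw [R1, du, dv, e1.deriv.deriv_eq, e1.deriv_eq, e2.deriv_eq, deriv_const_mul_field]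
    simp only [Nat.cast_ofNat] at h3
    exact ⟨by nlinarith, rfl⟩
  refine ⟨exp c, u, v, exp_pos c, contDiff_const.add ((contDiff_const.mul cζ).add ce),
    fun t ht => contDiffAt_const.add (cw t ht), fun t ht => ?_, fun t ht => ?_, fun t ht => ?_,
    fun t ht => ?_, fun t ht => ?_, ?_⟩
  · simp only [hu, hv, hw, he, sL, st_1 (k := 8) (j := 2) (t := t) (by linarith [ht.1]),
      st_1 (k := 8) (j := 2) (t := 2 - t) (by linarith [ht.2]), ζ1 t (by linarith [ht.1]),
      ζ1 (2 - t) (by linarith [ht.2])]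
    simp
  · simp [hv, he, ζ0 t ht, st_0 (k := 8) (j := 2) (t := t) (by linarith)]
  · simp only [hu, hw, st_0 (k := 8) (j := 2) (t := t) (by linarith [ht.2])]
    rw [mul_add, exp_add, mul_div_assoc, ← capY_exp ht.1, ← exp_nat_mul]
    simp
  · have ht' : t ∈ Icc (0 : ℝ) 1 := ⟨ht.1.le, ht.2⟩
    rcases lt_or_ge t (1 / 4) with h | h
    · have e1 : w =ᶠ[𝓝 t] capY := (gt_mem_nhds h).mono fun s hs => by
        simp [hw, st_0 (k := 8) (j := 2) (t := s) (by linarith)]
      have e2 : e =ᶠ[𝓝 t] fun _ => 0 := (gt_mem_nhds h).mono fun s hs => by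
        simp [he, st_0 (k := 8) (j := 2) (t := s) (by linarith)]
      have h1 := ev t ht'
      have t0 := ht.1
      have h2 : 0 < deriv capY t := by rw [capY_d1 t0]; positivity
      have h3 := mul_nonneg h2.le (mul_nonneg M1 (ζ2 t ht').2.2)
      have h4 : 1 ≤ 3 / (1 + t ^ 2) ^ 2 := by
        rw [le_div_iff₀ (by positivity)]
        have : t ^ 2 ≤ 1 / 16 := by nlinarith
        nlinarith
      rw [e2.self_of_nhds] at h1
      constructor
      · rw [R1, du, dv, e1.deriv.deriv_eq, e1.deriv_eq, e2.deriv_eq, capY_d2 t0]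
        simp only [mul_zero, exp_zero, mul_one, deriv_const, add_zero] at h1 ⊢
        nlinarith
      · have h5 : exp (2 * u t) * exp (-(2 * v t)) ≤ exp (2 * capY t) := by
          simp only [← exp_add, exp_le_exp, hu, hv, e1.self_of_nhds, e2.self_of_nhds]
          nlinarith [mul_nonneg M1 (ζ2 t ht').1]
        have h6 : exp (2 * u t) ≤ exp (2 * capY t) := by
          simp only [exp_le_exp, hu, e1.self_of_nhds]
          linarith [exp_le_one_iff.1 ec1]
        have h7 := mul_le_mul_of_nonneg_left h5 (sq_nonneg (deriv capY t))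
        have h8 : deriv capY t ^ 2 * exp (2 * capY t) + exp (2 * capY t) ≤ 1 := by
          rw [capY_d1 t0, capY_exp t0]
          have : (1 / (t * (1 + t ^ 2))) ^ 2 * (t ^ 2 / (1 + t ^ 2)) + t ^ 2 / (1 + t ^ 2) =
              (1 / (1 + t ^ 2) ^ 2 + t ^ 2) / (1 + t ^ 2) := by field_simp
          rw [this, div_le_one (by positivity), add_le_add_iff_right, div_le_one (by positivity)]
          nlinarith [sq_nonneg t, sq_nonneg (t ^ 2)]
        rw [R2, du, e1.deriv_eq, add_zero, sq_abs]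
        linarith
    · constructor
      · rcases le_or_gt t (3 / 8) with h' | h'
        · have h1 := hM₀ t ⟨h, h'⟩
          have h2 := mul_le_mul_of_nonneg_right hM2 (mul_pos (w1 t ⟨h, h'⟩) (ζ4 t ⟨h, h'⟩)).le
          rw [R1, du, dv]
          linarith [ev t ht']
        · exact A0.trans (r1 t ⟨h', ht.2⟩).1
      · refine le_trans ?_ ((r2 t ⟨h, ht.2⟩).trans (min_le_right _ _))
        simp only [R2]
        gcongr
  · have e1 : ζ =ᶠ[𝓝 t] fun _ => 1 :=
      (lt_mem_nhds (a := 7 / 16) (by linarith [ht.1])).mono fun s hs => ζ1 s hs.le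
    have h1 := r1 t ⟨by linarith [ht.1], ht.2⟩
    rw [e1.deriv_eq] at h1
    exact ⟨by simpa using h1.2, h1.1, (r2 t ⟨by linarith [ht.1], ht.2⟩).trans (min_le_left _ _)⟩
  · rw [show D = 2 * (D / 2) by ring, ← iL]
    refine intervalIntegral.integral_congr fun t ht => ?_
    rw [uIcc_of_le (by norm_num)] at ht
    simp only [hv, he, hc, st_1 (k := 8) (j := 2) (t := t) (by linarith [ht.1]),
      ζ1 t (by linarith [ht.1])]
    rw [← exp_log θ0, ← exp_add, log_exp]
    congr 1; ring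

end

/-! The symmetric spindle profile of exact length and its arc length. -/

section

open scoped ContDiff Topology
open Filter Set Real


/-- the even extension about `1` -/
noncomputable def sym (w : ℝ → ℝ) (t : ℝ) : ℝ := if t ≤ 1 then w t else w (2 - t)

theorem sym_refl (w : ℝ → ℝ) (t : ℝ) : sym w (2 - t) = sym w t := by
  unfold sym
  rcases lt_trichotomy t 1 with h | rfl | h
  · rw [if_neg (by linarith), if_pos h.le, sub_sub_cancel]
  · norm_num
  · rw [if_pos (by linarith), if_neg (by linarith)]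

theorem sym_ev {w : ℝ → ℝ} (h : ∀ t ∈ Icc (1 / 2 : ℝ) (3 / 2), w (2 - t) = w t) {t : ℝ}
    (ht : t < 3 / 2) : sym w =ᶠ[𝓝 t] w := (gt_mem_nhds ht).mono fun s hs => by
  unfold sym
  split_ifs with h1
  · rfl
  · exact h s ⟨by linarith, hs.le⟩

theorem refl_cda {w : ℝ → ℝ} (h : ∀ t, w (2 - t) = w t) {t : ℝ} (hc : ContDiffAt ℝ ∞ w (2 - t)) :
    ContDiffAt ℝ ∞ w t := by
  have := hc.comp t (contDiffAt_const.sub contDiffAt_id : ContDiffAt ℝ ∞ (fun s => 2 - s) t)
  simpa only [Function.comp_def, h] using this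

theorem refl_d1 {w : ℝ → ℝ} (h : ∀ t, w (2 - t) = w t) (t : ℝ) :
    deriv w (2 - t) = -deriv w t := by
  have := deriv_comp_const_sub w 2 t
  simp only [h] at this
  linarith

theorem refl_d2 {w : ℝ → ℝ} (h : ∀ t, w (2 - t) = w t) (t : ℝ) :
    deriv (deriv w) (2 - t) = deriv (deriv w) t := by
  have := deriv_comp_const_sub (deriv w) 2 t
  simp only [refl_d1 h, deriv.fun_neg] at this
  linarith

theorem R1_refl {u v : ℝ → ℝ} (hu : ∀ t, u (2 - t) = u t) (hv : ∀ t, v (2 - t) = v t) (t : ℝ) :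
    R1 u v (2 - t) = R1 u v t := by
  simp only [R1, refl_d1 hu, refl_d1 hv, refl_d2 hu, hv]
  ring

theorem R2_refl {u v : ℝ → ℝ} (hu : ∀ t, u (2 - t) = u t) (hv : ∀ t, v (2 - t) = v t) (C t : ℝ) :
    R2 u v C (2 - t) = R2 u v C t := by
  simp only [R2, refl_d1 hu, hu, hv, abs_neg]

/-- the properties of a profile -/
structure Prof (A C δ β : ℝ) (u v : ℝ → ℝ) : Prop where
  β0 : 0 < β
  cv : ContDiff ℝ ∞ v
  cu : ∀ t ∈ Ioo (0 : ℝ) 2, ContDiffAt ℝ ∞ u t
  su : ∀ t, u (2 - t) = u t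
  sv : ∀ t, v (2 - t) = v t
  capv : ∀ t ≤ 1 / 8, exp (v t) = β
  capu : ∀ t ∈ Ioc (0 : ℝ) (1 / 8), exp (2 * u t) = β ^ 2 * t ^ 2 / (1 + t ^ 2)
  out : ∀ t ∈ Ioo (0 : ℝ) 2, 0 ≤ R1 u v t ∧ R2 u v 0 t ≤ 1
  mid : ∀ t ∈ Icc (1 / 2 : ℝ) (3 / 2), deriv v t = 2 * deriv u t ∧ A ≤ R1 u v t ∧ R2 u v C t ≤ δ

theorem full {A C δ D : ℝ} (A0 : 0 ≤ A) (C0 : 0 ≤ C) (δ0 : 0 < δ) (D0 : 0 < D) (D1 : D < π) :
    ∃ (β : ℝ) (u v : ℝ → ℝ), Prof A C δ β u v ∧ D ≤ ∫ t in (0 : ℝ)..2, exp (v t) := by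
  obtain ⟨β, u, v, β0, cv, cu, s, capv, capu, out, mid, len⟩ := half A0 C0 δ0 D0 D1
  have eu : ∀ t < 3 / 2, sym u =ᶠ[𝓝 t] u := fun t => sym_ev fun t ht => (s t ht).1
  have ev : ∀ t < 3 / 2, sym v =ᶠ[𝓝 t] v := fun t => sym_ev fun t ht => (s t ht).2
  have su := sym_refl u
  have sv := sym_refl v
  have cv' : ContDiff ℝ ∞ (sym v) := contDiff_iff_contDiffAt.2 fun t => by
    rcases le_total t 1 with h | h
    · exact cv.contDiffAt.congr_of_eventuallyEq (ev t (by linarith))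
    · exact refl_cda sv (cv.contDiffAt.congr_of_eventuallyEq (ev _ (by linarith)))
  have o : ∀ t ∈ Ioc (0 : ℝ) 1, 0 ≤ R1 (sym u) (sym v) t ∧ R2 (sym u) (sym v) 0 t ≤ 1 := by
    intro t ht
    rw [R1_congr (eu t (by linarith [ht.2])) (ev t (by linarith [ht.2])),
      R2_congr (eu t (by linarith [ht.2])) (ev t (by linarith [ht.2]))]
    exact out t ht
  have m : ∀ t ∈ Icc (1 / 2 : ℝ) 1, deriv (sym v) t = 2 * deriv (sym u) t ∧
      A ≤ R1 (sym u) (sym v) t ∧ R2 (sym u) (sym v) C t ≤ δ := by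
    intro t ht
    rw [R1_congr (eu t (by linarith [ht.2])) (ev t (by linarith [ht.2])),
      R2_congr (eu t (by linarith [ht.2])) (ev t (by linarith [ht.2])),
      (eu t (by linarith [ht.2])).deriv_eq, (ev t (by linarith [ht.2])).deriv_eq]
    exact mid t ht
  refine ⟨β, sym u, sym v, ⟨β0, cv', fun t ht => ?_, su, sv, fun t ht => ?_, fun t ht => ?_,
    fun t ht => ?_, fun t ht => ?_⟩, ?_⟩
  · rcases le_total t 1 with h | h
    · exact (cu t ht.1).congr_of_eventuallyEq (eu t (by linarith))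
    · exact refl_cda su ((cu _ (by linarith [ht.2])).congr_of_eventuallyEq (eu _ (by linarith)))
  · rw [(ev t (by linarith)).self_of_nhds, capv t ht]
  · rw [(eu t (by linarith [ht.2])).self_of_nhds, capu t ht]
  · rcases le_total t 1 with h | h
    · exact o t ⟨ht.1, h⟩
    · rw [← R1_refl su sv, ← R2_refl su sv]
      exact o _ ⟨by linarith [ht.2], by linarith⟩
  · rcases le_total t 1 with h | h
    · exact m t ⟨ht.1, h⟩
    · have := m (2 - t) ⟨by linarith [ht.2], by linarith⟩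
      rw [R1_refl su sv, R2_refl su sv, refl_d1 su, refl_d1 sv] at this
      exact ⟨by linarith [this.1], this.2⟩
  · have c : Continuous fun t => exp (sym v t) := cv'.continuous.rexp
    refine le_trans (le_of_eq ?_) (intervalIntegral.integral_mono_interval (a := 1 / 2)
      (b := 3 / 2) (by norm_num) (by norm_num) (by norm_num)
      (Eventually.of_forall fun t => (exp_pos _).le) (c.intervalIntegrable _ _))
    rw [← len]
    refine intervalIntegral.integral_congr fun t ht => ?_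
    rw [uIcc_of_le (by norm_num)] at ht
    simp only [sym]
    split_ifs
    · rfl
    · rw [(s t ht).2]

theorem Prof.shift {A C δ β : ℝ} {u v : ℝ → ℝ} (h : Prof A C δ β u v) {c : ℝ} (hc : c ≤ 0) :
    Prof A C δ (exp c * β) (fun t => c + u t) (fun t => c + v t) := by
  have r1 : ∀ t, R1 u v t ≤ R1 (fun t => c + u t) (fun t => c + v t) t := fun t => by
    have : exp (2 * (c + v t)) ≤ exp (2 * v t) := exp_le_exp.2 (by linarith)
    simp only [R1, deriv_const_add']
    linarith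
  have r2 : ∀ C t, R2 (fun t => c + u t) (fun t => c + v t) C t ≤ R2 u v C t := fun C t => by
    have h1 : exp (2 * (c + u t)) ≤ exp (2 * u t) := exp_le_exp.2 (by linarith)
    have h2 : exp (2 * (c + u t)) * exp (-(2 * (c + v t))) =
        exp (2 * u t) * exp (-(2 * v t)) := by
      rw [← exp_add, ← exp_add]; congr 1; ring
    simp only [R2, deriv_const_add']
    linear_combination (exp := 1) h1 + (|deriv u t| + C) ^ 2 * h2
  refine ⟨mul_pos (exp_pos c) h.β0, contDiff_const.add h.cv,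
    fun t ht => contDiffAt_const.add (h.cu t ht), fun t => by simp only [h.su],
    fun t => by simp only [h.sv], fun t ht => by rw [exp_add, h.capv t ht], fun t ht => ?_,
    fun t ht => ⟨(h.out t ht).1.trans (r1 t), (r2 0 t).trans (h.out t ht).2⟩, fun t ht => ?_⟩
  · rw [mul_add, exp_add, h.capu t ht, two_mul, exp_add]
    ring
  · simp only [deriv_const_add']
    exact ⟨(h.mid t ht).1, (h.mid t ht).2.1.trans (r1 t), (r2 C t).trans (h.mid t ht).2.2⟩

/-- arc length and its inverse -/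
structure Arc (D β : ℝ) (v s τ : ℝ → ℝ) : Prop where
  cs : ContDiff ℝ ∞ s
  ds : ∀ t, deriv s t = exp (v t)
  cτ : ContDiff ℝ ∞ τ
  sτ : ∀ r, s (τ r) = r
  τs : ∀ t, τ (s t) = t
  refl : ∀ r, τ (D - r) = 2 - τ r
  mem : ∀ r ∈ Ioo 0 D, τ r ∈ Ioo (0 : ℝ) 2
  cap : ∀ r ≤ β / 8, τ r = r / β
  le : β / 8 ≤ D

theorem profile {A C δ D : ℝ} (A0 : 0 ≤ A) (C0 : 0 ≤ C) (δ0 : 0 < δ) (D0 : 0 < D) (D1 : D < π) :
    ∃ (β : ℝ) (u v s τ : ℝ → ℝ), Prof A C δ β u v ∧ Arc D β v s τ := by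
  obtain ⟨β₀, u₀, v₀, h₀, len⟩ := full A0 C0 δ0 D0 D1
  have I0 : 0 < ∫ t in (0 : ℝ)..2, exp (v₀ t) := D0.trans_le len
  have h := h₀.shift (c := log (D / ∫ t in (0 : ℝ)..2, exp (v₀ t)))
    (log_nonpos (by positivity) ((div_le_one I0).2 len))
  have len' : ∫ t in (0 : ℝ)..2, exp (log (D / ∫ t in (0 : ℝ)..2, exp (v₀ t)) + v₀ t) = D := by
    simp only [exp_add]
    rw [intervalIntegral.integral_const_mul, exp_log (by positivity), div_mul_cancel₀ _ I0.ne']
  generalize exp _ * β₀ = β at h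
  generalize (fun t => log _ + u₀ t) = u at h
  obtain ⟨v, hv⟩ : ∃ v : ℝ → ℝ, v = fun t => log (D / ∫ t in (0 : ℝ)..2, exp (v₀ t)) + v₀ t :=
    ⟨_, rfl⟩
  rw [← hv] at h
  replace len' : ∫ t in (0 : ℝ)..2, exp (v t) = D := by rw [hv]; exact len'
  have c : Continuous fun t => exp (v t) := h.cv.continuous.rexp
  set s : ℝ → ℝ := fun t => ∫ x in (0 : ℝ)..t, exp (v x) with hs
  have ds : ∀ t, HasDerivAt s (exp (v t)) t := fun t => (c.integral_hasStrictDerivAt 0 t).hasDerivAt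
  have ds' : deriv s = fun t => exp (v t) := funext fun t => (ds t).deriv
  have cs : ContDiff ℝ ∞ s :=
    contDiff_infty_iff_deriv.2 ⟨fun t => (ds t).differentiableAt, ds' ▸ h.cv.exp⟩
  have mono : StrictMono s := strictMono_of_deriv_pos fun t => by rw [ds']; exact exp_pos _
  have β0 := h.β0
  have lin : ∀ t ≤ 1 / 8, s t = β * t := by
    intro t ht
    simp only [hs]
    rw [intervalIntegral.integral_congr (g := fun _ => β) fun x hx =>
      h.capv x (hx.2.trans (max_le (by norm_num) ht))]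
    simp [mul_comm]
  have rf : ∀ t, s (2 - t) = D - s t := by
    intro t
    have e1 := intervalIntegral.integral_comp_sub_left (a := t) (b := 2) (fun x => exp (v x)) 2
    simp only [h.sv, sub_self] at e1
    simp only [hs]
    rw [← e1, ← len', eq_sub_iff_add_eq', intervalIntegral.integral_add_adjacent_intervals
      (c.intervalIntegrable _ _) (c.intervalIntegrable _ _)]
  have bot : Tendsto s atBot atBot := (tendsto_id.const_mul_atBot β0).congr'
    ((eventually_le_atBot (1 / 8)).mono fun t ht => (lin t ht).symm)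
  have top : Tendsto s atTop atTop := by
    have e : s = fun t => D + -s (2 + -t) := funext fun t => by
      have := rf (2 - t)
      rw [sub_sub_cancel] at this
      exact this
    rw [e]
    exact tendsto_atTop_add_const_left _ _ (tendsto_neg_atBot_atTop.comp
      (bot.comp (tendsto_atBot_add_const_left _ _ tendsto_neg_atTop_atBot)))
  let e := (mono.orderIsoOfSurjective s (cs.continuous.surjective top bot)).toHomeomorph
  have sτ : ∀ r, s (e.symm r) = r := e.apply_symm_apply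
  have τs : ∀ t, e.symm (s t) = t := e.symm_apply_apply
  have s0 : s 0 = 0 := by simp [hs]
  refine ⟨β, u, v, s, e.symm, h, cs, fun t => (ds t).deriv,
    e.contDiff_symm_deriv (fun t => (exp_pos (v t)).ne') ds cs, sτ, τs, fun r => ?_,
    fun r hr => ⟨?_, ?_⟩, fun r hr => ?_, ?_⟩
  · conv_lhs => rw [← sτ r, ← rf, τs]
  · rw [← mono.lt_iff_lt, s0, sτ]; exact hr.1
  · rw [← mono.lt_iff_lt, sτ]; exact hr.2.trans_eq len'.symm
  · have := lin (r / β) (by rw [div_le_iff₀ β0]; linarith)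
    rw [mul_div_cancel₀ _ β0.ne'] at this
    conv_lhs => rw [← this, τs]
  · have := mono.monotone (show (1 / 8 : ℝ) ≤ 2 by norm_num)
    rw [lin _ le_rfl] at this
    have e2 : s 2 = D := len'
    linarith

end

end Pool.Agent.Lib.MP_c00cc5_gt
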