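import Pool.Agent.Lib.MP_c00cc5_gt.Curv
import Pool.Agent.Lib.MP_c00cc5_gt.Prof

set_option autoImplicit false
set_option maxSynthPendingDepth 3
set_option linter.unusedSectionVars false
set_option linter.unusedSimpArgs false

namespace Pool.Agent.Lib.MP_c00cc5_gt

/-! Polar coordinates. -/

section

open scoped ContDiff RealInnerProductSpace Topology
open Filter Set


variable {n m : ℕ} {X : Type} [NormedAddCommGroup X] [NormedSpace ℝ X]

/-- the radial projection -/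
noncomputable def nr (x : E n) : E n := ‖x‖⁻¹ • x

/-- the Euclidean metric -/
noncomputable def euc (n : ℕ) : E n →L[ℝ] E n →L[ℝ] ℝ := innerSL ℝ

@[simp] theorem euc_apply (a b : E n) : euc n a b = ⟪a, b⟫ := rfl

theorem norm_cda {k : WithTop ℕ∞} {x : E n} (hx : x ≠ 0) : ContDiffAt ℝ k (fun y : E n => ‖y‖) x :=
  contDiffAt_id.norm ℝ hx

theorem nr_cda {k : WithTop ℕ∞} {x : E n} (hx : x ≠ 0) : ContDiffAt ℝ k nr x :=
  ((norm_cda hx).inv (norm_ne_zero_iff.2 hx)).smul contDiffAt_id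

theorem nr_d {x : E n} (hx : x ≠ 0) : DifferentiableAt ℝ nr x :=
  (nr_cda (k := 1) hx).differentiableAt (by simp)

theorem norm_nr {x : E n} (hx : x ≠ 0) : ‖nr x‖ = 1 := by
  simp [nr, norm_smul, hx]

theorem smul_nr {x : E n} (hx : x ≠ 0) : ‖x‖ • nr x = x := by
  simp [nr, smul_smul, hx]

theorem nr_smul {u : E n} (hu : ‖u‖ = 1) {r : ℝ} (hr : 0 < r) : nr (r • u) = u := by
  simp [nr, norm_smul, hu, smul_smul, abs_of_pos hr, hr.ne']

theorem norm_smul_unit {u : E n} (hu : ‖u‖ = 1) {r : ℝ} (hr : 0 ≤ r) : ‖r • u‖ = r := by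
  simp [norm_smul, hu, abs_of_nonneg hr]

theorem ne_of_unit {u : E n} (hu : ‖u‖ = 1) : u ≠ 0 := by
  rintro rfl; simp at hu

theorem nr_unit {u : E n} (hu : ‖u‖ = 1) : nr u = u := by simp [nr, hu]

theorem nr_def (x : E n) : ‖x‖⁻¹ • x = nr x := rfl

attribute [irreducible] nr

theorem nr_ev {x : E n} (hx : x ≠ 0) : ∀ᶠ y in 𝓝 x, ‖nr y‖ = 1 :=
  (eventually_ne_nhds hx).mono fun _ hy => norm_nr hy

theorem unit_perp {ϖ : X → E n} {q : X} (hd : DifferentiableAt ℝ ϖ q)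
    (h : ∀ᶠ z in 𝓝 q, ‖ϖ z‖ = 1) (a : X) : ⟪ϖ q, fderiv ℝ ϖ q a⟫ = 0 := by
  have e : (fun z => ⟪ϖ z, ϖ z⟫) =ᶠ[𝓝 q] fun _ => (1 : ℝ) :=
    h.mono fun z hz => by simp [hz]
  have := fderiv_inner_apply ℝ hd hd a
  rw [e.fderiv_eq, real_inner_comm (ϖ q)] at this
  simp at this
  linarith

theorem fd_smul {ρ : X → ℝ} {ϖ : X → E n} {q : X} (h1 : DifferentiableAt ℝ ρ q)
    (h2 : DifferentiableAt ℝ ϖ q) (a : X) :
    fderiv ℝ (fun z => ρ z • ϖ z) q a = fderiv ℝ ρ q a • ϖ q + ρ q • fderiv ℝ ϖ q a := by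
  rw [fderiv_fun_smul h1 h2]
  simp [add_comm]

theorem dec {x : E n} (hx : x ≠ 0) (a : E n) :
    a = fderiv ℝ (fun y : E n => ‖y‖) x a • nr x + ‖x‖ • fderiv ℝ nr x a := by
  rw [← fd_smul ((norm_cda (k := 1) hx).differentiableAt (by simp)) (nr_d hx)]
  have e : (fun z : E n => ‖z‖ • nr z) =ᶠ[𝓝 x] id :=
    (eventually_ne_nhds hx).mono fun _ hy => smul_nr hy
  rw [e.fderiv_eq]
  simp

theorem fd_norm {x : E n} (hx : x ≠ 0) (a : E n) :
    fderiv ℝ (fun y : E n => ‖y‖) x a = ⟪nr x, a⟫ := by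
  conv_rhs => rw [dec hx a]
  simp [inner_add_right, inner_smul_right, unit_perp (nr_d hx) (nr_ev hx), norm_nr hx]

theorem fd_nr {x : E n} (hx : x ≠ 0) (a : E n) :
    fderiv ℝ nr x a = ‖x‖⁻¹ • (a - ⟪nr x, a⟫ • nr x) := by
  have := dec hx a
  rw [fd_norm hx] at this
  rw [sub_eq_of_eq_add' this, smul_smul]
  simp [hx]

theorem nr_perp {x : E n} (hx : x ≠ 0) (a : E n) : ⟪nr x, fderiv ℝ nr x a⟫ = 0 :=
  unit_perp (nr_d hx) (nr_ev hx) a

/-- the metric `dr² + k` in Cartesian coordinates -/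
noncomputable def Pol (k : ℝ × E n → E n →L[ℝ] E n →L[ℝ] ℝ) : Met (E n) :=
  pull (wp 1 1 k) fun x => (‖x‖, nr x)

theorem Pol_apply (k : ℝ × E n → E n →L[ℝ] E n →L[ℝ] ℝ) {x : E n} (hx : x ≠ 0) (a b : E n) :
    Pol k x a b = ⟪nr x, a⟫ * ⟪nr x, b⟫ +
      k (‖x‖, nr x) (fderiv ℝ nr x a) (fderiv ℝ nr x b) := by
  simp only [Pol, pull_apply, wp_apply, Pi.one_apply, one_mul,
    ((norm_cda (k := 1) hx).differentiableAt (by simp)).fderiv_prodMk (nr_d hx),
    ContinuousLinearMap.prod_apply, fd_norm hx]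

theorem Pol_cda {k : ℝ × E n → E n →L[ℝ] E n →L[ℝ] ℝ} {x : E n} (hx : x ≠ 0)
    (hk : ContDiffAt ℝ ∞ k (‖x‖, nr x)) : ContDiffAt ℝ ∞ (Pol k) x :=
  pull_cda (wp_cda contDiffAt_const contDiffAt_const hk) ((norm_cda hx).prodMk (nr_cda hx))
    (m := ∞) (by simp)

theorem Pol_pos {k : ℝ × E n → E n →L[ℝ] E n →L[ℝ] ℝ} {x : E n} (hx : x ≠ 0)
    (hk : ∀ a, ⟪nr x, a⟫ = 0 → a ≠ 0 → 0 < k (‖x‖, nr x) a a) (v : E n) (hv : v ≠ 0) :
    0 < Pol k x v v := by
  rw [Pol_apply k hx]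
  by_cases h : fderiv ℝ nr x v = 0
  · have : ⟪nr x, v⟫ ≠ 0 := by
      intro h0
      have := dec hx v
      rw [fd_norm hx, h, h0] at this
      simp [hv] at this
    simpa [h] using mul_self_pos.2 this
  · exact add_pos_of_nonneg_of_pos (mul_self_nonneg _) (hk _ (nr_perp hx v) h)

theorem Pol_gauss (k : ℝ × E n → E n →L[ℝ] E n →L[ℝ] ℝ) {x : E n} (hx : x ≠ 0) (v : E n) :
    Pol k x x v = ⟪x, v⟫ := by
  have h1 : ⟪nr x, x⟫ = ‖x‖ := by
    conv_lhs => rw [← smul_nr hx]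
    rw [smul_nr hx, ← smul_nr hx, nr_smul (norm_nr hx) (norm_pos_iff.2 hx), inner_smul_right,
      smul_nr hx]
    simp [norm_nr hx]
  rw [Pol_apply k hx, fd_nr hx x, h1, smul_nr hx]
  conv_rhs => rw [← smul_nr hx, real_inner_smul_left]
  simp

theorem pull_Pol (k : ℝ × E n → E n →L[ℝ] E n →L[ℝ] ℝ) {ρ : X → ℝ} {ϖ : X → E n} {q : X}
    (h1 : DifferentiableAt ℝ ρ q) (h2 : DifferentiableAt ℝ ϖ q) (h0 : 0 < ρ q)
    (h : ∀ᶠ z in 𝓝 q, ‖ϖ z‖ = 1) (a b : X) :
    pull (Pol k) (fun z => ρ z • ϖ z) q a b = fderiv ℝ ρ q a * fderiv ℝ ρ q b +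
      k (ρ q, ϖ q) (fderiv ℝ ϖ q a) (fderiv ℝ ϖ q b) := by
  have hu := h.self_of_nhds
  have hx : ρ q • ϖ q ≠ 0 := smul_ne_zero h0.ne' (ne_of_unit hu)
  have e1 : ∀ a, ⟪ϖ q, fderiv ℝ ρ q a • ϖ q + ρ q • fderiv ℝ ϖ q a⟫ = fderiv ℝ ρ q a := by
    intro a
    simp [inner_add_right, inner_smul_right, unit_perp h2 h, hu]
  rw [pull_apply, Pol_apply k hx]
  simp only [fd_nr hx, fd_smul h1 h2, nr_smul hu h0, norm_smul_unit hu h0.le, e1,
    add_sub_cancel_left, smul_smul, inv_mul_cancel₀ h0.ne', one_smul]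

theorem NormalBall.pull {G : Met (E n)} {D : ℝ} (hG : NormalBall G D) {ρ : X → ℝ} {ϖ : X → E n}
    {q : X} (h1 : DifferentiableAt ℝ ρ q) (h2 : DifferentiableAt ℝ ϖ q) (h0 : 0 < ρ q)
    (hD : ρ q < D) (h : ∀ᶠ z in 𝓝 q, ‖ϖ z‖ = 1) (a b : X) :
    pull G (fun z => ρ z • ϖ z) q a b = fderiv ℝ ρ q a * fderiv ℝ ρ q b +
      ρ q ^ 2 * G (ρ q • ϖ q) (fderiv ℝ ϖ q a) (fderiv ℝ ϖ q b) := by
  have hu := h.self_of_nhds
  have hx : ‖ρ q • ϖ q‖ < D := by rwa [norm_smul_unit hu h0.le]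
  have e : ∀ v, G (ρ q • ϖ q) (ϖ q) v = ⟪ϖ q, v⟫ := by
    intro v
    have := hG.gauss _ hx v
    simp only [map_smul, smul_apply, smul_eq_mul, real_inner_smul_left] at this
    exact mul_left_cancel₀ h0.ne' this
  simp only [pull_apply, fd_smul h1 h2, map_add, map_smul, add_apply, smul_apply, smul_eq_mul, e,
    hG.symm _ hx _ (ϖ q), unit_perp h2 h, real_inner_self_eq_norm_sq, hu]
  ring

theorem NormalBall.good {G : Met (E n)} {D : ℝ} (hG : NormalBall G D) {x : E n} (hx : ‖x‖ < D) :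
    Good G x where
  smooth := (hG.smooth x hx).of_le (WithTop.coe_le_coe.2 le_top)
  symm := (continuous_norm.continuousAt.eventually (gt_mem_nhds hx)).mono fun y hy => hG.symm y hy
  pos := hG.pos x hx

theorem NormalBall.zero {G : Met (E n)} {D : ℝ} (hG : NormalBall G D) (hD : 0 < D) (a b : E n) :
    G 0 a b = ⟪a, b⟫ := by
  have c : ContinuousAt (fun s : ℝ => G (s • a) a b) 0 :=
    (((hG.smooth 0 (by simpa)).continuousAt.comp_of_eq (f := fun s : ℝ => s • a) (by fun_prop)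
      (by simp)).clm_apply continuousAt_const).clm_apply continuousAt_const
  have c' : ContinuousAt (fun s : ℝ => ‖s • a‖) 0 := by fun_prop
  have e : ∀ᶠ s in 𝓝[≠] (0 : ℝ), G (s • a) a b = ⟪a, b⟫ := by
    filter_upwards [self_mem_nhdsWithin,
      nhdsWithin_le_nhds (c'.eventually (gt_mem_nhds (a := D) (by simpa)))] with s h1 h2
    have := hG.gauss _ h2 b
    simp only [map_smul, smul_apply, smul_eq_mul, real_inner_smul_left] at this
    exact mul_left_cancel₀ h1 this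
  have := tendsto_nhds_unique (c.tendsto.mono_left nhdsWithin_le_nhds)
    (tendsto_const_nhds.congr' (e.mono fun s hs => hs.symm))
  simpa using this

section param

variable {σ : E m → E (m + 1)} {y : E m}

theorem Param.d (h : Param σ y) : DifferentiableAt ℝ σ y := h.smooth.differentiableAt (by simp)

theorem Param.u (h : Param σ y) : ‖σ y‖ = 1 := h.unit.self_of_nhds

theorem Param.perp (h : Param σ y) (a : E m) : ⟪σ y, fderiv ℝ σ y a⟫ = 0 := unit_perp h.d h.unit a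

theorem Param.ev (h : Param σ y) : ∀ᶠ z in 𝓝 y, DifferentiableAt ℝ σ z ∧ ∀ᶠ w in 𝓝 z, ‖σ w‖ = 1 :=
  (c2_ev (h.smooth.of_le (WithTop.coe_le_coe.2 le_top))).and h.unit.eventually_nhds

theorem fd_snd {Y : Type} [NormedAddCommGroup Y] [NormedSpace ℝ Y] {σ : X → Y} {p : ℝ × X}
    (h : DifferentiableAt ℝ σ p.2) (U : ℝ × X) :
    fderiv ℝ (fun q : ℝ × X => σ q.2) p U = fderiv ℝ σ p.2 U.2 := by
  have d := h.hasFDerivAt.comp p hasFDerivAt_snd
  erw [d.fderiv]
  simp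

theorem fd_fst {s : ℝ → ℝ} {p : ℝ × X} (h : DifferentiableAt ℝ s p.1) (U : ℝ × X) :
    fderiv ℝ (fun q : ℝ × X => s q.1) p U = deriv s p.1 * U.1 := by
  have d := h.hasDerivAt.comp_hasFDerivAt p (hasFDerivAt_fst (𝕜 := ℝ))
  erw [d.fderiv]
  simp

theorem chart_fd {s : ℝ → ℝ} {t : ℝ} (hs : DifferentiableAt ℝ s t) (h : DifferentiableAt ℝ σ y)
    (U : ℝ × E m) : fderiv ℝ (fun q : ℝ × E m => s q.1 • σ q.2) (t, y) U =
      (deriv s t * U.1) • σ y + s t • fderiv ℝ σ y U.2 := by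
  rw [fd_smul (ρ := fun q : ℝ × E m => s q.1) (ϖ := fun q : ℝ × E m => σ q.2)
    (hs.comp (t, y) differentiableAt_fst) (h.comp (t, y) differentiableAt_snd),
    fd_snd (p := (t, y)) h, fd_fst (p := (t, y)) hs]

theorem Param.bij (h : Param σ y) {s : ℝ → ℝ} {t : ℝ} (hs : DifferentiableAt ℝ s t)
    (s0 : s t ≠ 0) (s1 : deriv s t ≠ 0) :
    Function.Bijective (fderiv ℝ (fun q : ℝ × E m => s q.1 • σ q.2) (t, y)) := by
  have hi : Function.Injective (fderiv ℝ (fun q : ℝ × E m => s q.1 • σ q.2) (t, y)) := by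
    rw [injective_iff_map_eq_zero]
    intro U hU
    rw [chart_fd hs h.d] at hU
    have h1 := congrArg (fun v => ⟪σ y, v⟫) hU
    simp [inner_add_right, inner_smul_right, h.perp, h.u, s1] at h1
    rw [h1, mul_zero, zero_smul, zero_add, smul_eq_zero, or_iff_right s0] at hU
    exact Prod.ext h1 (h.inj (hU.trans (map_zero _).symm))
  refine ⟨hi, (LinearMap.injective_iff_surjective_of_finrank_eq_finrank
    (f := (fderiv ℝ (fun q : ℝ × E m => s q.1 • σ q.2) (t, y) : ℝ × E m →ₗ[ℝ] E (m + 1))) ?_).1 hi⟩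
  simp [add_comm]

theorem Param.surj (h : Param σ y) {a : E (m + 1)} (ha : ⟪σ y, a⟫ = 0) :
    ∃ a', fderiv ℝ σ y a' = a := by
  obtain ⟨U, hU⟩ := (h.bij (s := id) (t := 1) differentiableAt_id (by simp) (by simp)).2 a
  rw [chart_fd differentiableAt_id h.d] at hU
  have h1 := congrArg (fun v => ⟪σ y, v⟫) hU
  simp [inner_add_right, inner_smul_right, h.perp, h.u, ha] at h1
  exact ⟨U.2, by simpa [h1] using hU⟩

theorem exists_param {u : E (m + 1)} (hu : ‖u‖ = 1) :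
    ∃ σ : E m → E (m + 1), Param σ 0 ∧ σ 0 = u := by
  have : Fact (Module.finrank ℝ (E (m + 1)) = m + 1) := ⟨by simp⟩
  let e := (OrthonormalBasis.fromOrthogonalSpanSingleton (𝕜 := ℝ) m (ne_of_unit hu)).repr.symm
  let L : E m →L[ℝ] E (m + 1) := (ℝ ∙ u)ᗮ.subtypeL ∘L (e.toContinuousLinearEquiv : E m →L[ℝ] _)
  have hL : ∀ a, ⟪u, L a⟫ = 0 := fun a =>
    Submodule.mem_orthogonal_singleton_iff_inner_right.1 (e a).2
  have h0 : u + L 0 ≠ 0 := by simpa using ne_of_unit hu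
  have c : ContDiff ℝ ∞ fun z => u + L z := contDiff_const.add L.contDiff
  refine ⟨fun z => nr (u + L z), ⟨ContDiffAt.comp (g := nr) (f := fun z => u + L z) 0 (nr_cda h0)
    c.contDiffAt,
    c.continuous.continuousAt.eventually (nr_ev h0), ?_⟩, by simp [nr_unit hu]⟩
  have d := (nr_d h0).hasFDerivAt.comp 0 (L.hasFDerivAt.const_add u)
  erw [d.fderiv]
  intro a b hab
  simp only [map_zero, add_zero, ContinuousLinearMap.comp_apply, fd_nr (ne_of_unit hu), nr_unit hu,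
    hL, hu, inv_one, zero_smul, sub_zero, one_smul] at hab
  exact e.injective (Subtype.ext hab)

theorem Param.comp {f g : E (m + 1) → E (m + 1)} (hf : SphDiff f g) (h : Param σ y) :
    Param (fun z => f (σ z)) y where
  smooth := (hf.sf _ h.u).comp y h.smooth
  unit := h.unit.mono fun z hz => hf.nf _ hz
  inj := by
    have e : (fun z => g (f (σ z))) =ᶠ[𝓝 y] σ := h.unit.mono fun z hz => hf.gf _ hz
    have d := fderiv_fun_comp y ((hf.sg _ (hf.nf _ h.u)).differentiableAt (by simp))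
      (((hf.sf _ h.u).comp y h.smooth).differentiableAt (by simp))
    intro a b hab
    apply h.inj
    rw [← e.fderiv_eq]
    erw [d]
    exact congrArg (fderiv ℝ g (f (σ y))) hab

/-- the family of metrics `k` read in the chart `σ` -/
noncomputable def slc (k : ℝ × E (m + 1) → E (m + 1) →L[ℝ] E (m + 1) →L[ℝ] ℝ)
    (σ : E m → E (m + 1)) : ℝ × E m → E m →L[ℝ] E m →L[ℝ] ℝ :=
  fun p => pull (fun u => k (p.1, u)) σ p.2

theorem slc_apply (k : ℝ × E (m + 1) → E (m + 1) →L[ℝ] E (m + 1) →L[ℝ] ℝ) (σ : E m → E (m + 1))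
    (p : ℝ × E m) (a b : E m) :
    slc k σ p a b = k (p.1, σ p.2) (fderiv ℝ σ p.2 a) (fderiv ℝ σ p.2 b) := rfl

theorem Param.slc_good (h : Param σ y) {k : ℝ × E (m + 1) → E (m + 1) →L[ℝ] E (m + 1) →L[ℝ] ℝ}
    {t : ℝ} (h1 : ContDiffAt ℝ 2 k (t, σ y))
    (h2 : ∀ᶠ r in 𝓝 t, ∀ u, ‖u‖ = 1 → ∀ a b, ⟪u, a⟫ = 0 → ⟪u, b⟫ = 0 → k (r, u) a b = k (r, u) b a)
    (h3 : ∀ a, ⟪σ y, a⟫ = 0 → a ≠ 0 → 0 < k (t, σ y) a a) : Good (slc k σ) (t, y) where
  smooth := by
    have s1 : ContDiffAt ℝ 2 (fun p : ℝ × E m => fderiv ℝ σ p.2) (t, y) :=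
      (h.smooth.fderiv_right (WithTop.coe_le_coe.2 le_top)).comp (t, y) contDiffAt_snd
    refine cda2 fun a b => ?_
    simp only [slc_apply]
    exact ((h1.comp (t, y) (contDiffAt_fst.prodMk ((h.smooth.of_le
      (WithTop.coe_le_coe.2 le_top)).comp (t, y) contDiffAt_snd))).clm_apply
      (s1.clm_apply contDiffAt_const)).clm_apply (s1.clm_apply contDiffAt_const)
  symm := by
    filter_upwards [(continuousAt_fst (p := (t, y))).eventually h2,
      (continuousAt_snd (p := (t, y))).eventually h.ev] with p e1 e2 a b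
    exact e1 _ e2.2.self_of_nhds _ _ (unit_perp e2.1 e2.2 a) (unit_perp e2.1 e2.2 b)
  pos := fun a ha => h3 _ (h.perp a) fun h0 => ha (h.inj (h0.trans (map_zero _).symm))

theorem Param.chart_c3 (h : Param σ y) {s : ℝ → ℝ} {t : ℝ} (hs : ContDiffAt ℝ 3 s t) :
    ContDiffAt ℝ 3 (fun q : ℝ × E m => s q.1 • σ q.2) (t, y) :=
  (hs.comp (t, y) contDiffAt_fst).smul
    ((h.smooth.of_le (WithTop.coe_le_coe.2 le_top)).comp (t, y) contDiffAt_snd)

theorem euc_good (x : X) : Good (fun _ : X => euc n) x where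
  smooth := contDiffAt_const
  symm := Eventually.of_forall fun _ u v => real_inner_comm v u
  pos := fun _ hv => real_inner_self_pos.2 hv

theorem Param.round (h : Param σ y) (a b : E m) :
    sec (pull (fun _ => euc (m + 1)) σ) y a b = area (pull (fun _ => euc (m + 1)) σ) y a b := by
  have hK : Good (slc (fun _ => euc (m + 1)) σ) (1, y) := h.slc_good contDiffAt_const
    (Eventually.of_forall fun _ _ _ a b _ _ => real_inner_comm b a)
    fun _ _ hv => real_inner_self_pos.2 hv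
  have e : pull (fun _ => euc (m + 1)) (fun q : ℝ × E m => id q.1 • σ q.2) =ᶠ[𝓝 (1, y)]
      wp 1 (fun r => r ^ 2) (slc (fun _ => euc (m + 1)) σ) := by
    filter_upwards [(continuousAt_snd (p := ((1 : ℝ), y))).eventually h.ev] with p e2
    refine ContinuousLinearMap.ext fun U => ContinuousLinearMap.ext fun V => ?_
    simp only [pull_apply, chart_fd (t := p.1) differentiableAt_id e2.1, wp_apply, slc_apply,
      euc_apply, inner_add_left, inner_add_right, real_inner_smul_left, real_inner_smul_right,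
      unit_perp e2.1 e2.2, real_inner_comm (σ p.2), real_inner_self_eq_norm_sq, e2.2.self_of_nhds]
    simp
    ring
  have h1 := (euc_good (n := m + 1) _).sec_pull (h.chart_c3 (s := id) (t := 1) contDiffAt_id)
    (h.bij differentiableAt_id (by simp) (by simp)) (0, a) (0, b)
  rw [sec_congr e, hK.sec_wp (P := 1) (B := fun r => r ^ 2) contDiffAt_const (contDiffAt_id.pow 2)
    one_pos (by simp),
    hK.qq_zero, (euc_good _).sec_eq (X := 0) (Y := 0) (Z := 0) (by simp [gam]) (by simp [gam])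
      (by simp [gam])] at h1
  have s0 : ∀ a b, sff (slc (fun _ => euc (m + 1)) σ) (1, y) a b = 0 := by
    intro a b
    have := (dt0 (c2_d0 hK.smooth) a b).unique 
      (hasDerivAt_const (1 : ℝ) ⟪fderiv ℝ σ y a, fderiv ℝ σ y b⟫)
    linarith
  simp [s0, r2] at h1
  change sec (pull (fun _ => euc (m + 1)) σ) y a b - _ = 0 at h1
  rw [sub_eq_zero] at h1
  rw [h1]
  simp [area, slc_apply]

end param

end

/-! From a glued pair of balls to a path of positively curved metrics. -/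

section

open scoped ContDiff RealInnerProductSpace Topology
open Filter Set Real


variable {n m : ℕ}

theorem Good.area_pos {V : Type} [NormedAddCommGroup V] [NormedSpace ℝ V] {G : Met V} {x : V}
    (hG : Good G x) {a b : V} (hab : LinearIndependent ℝ ![a, b]) : 0 < area G x a b := by
  rw [LinearIndependent.pair_iff] at hab
  have b0 : b ≠ 0 := fun h => by simpa using hab 0 1 (by simp [h])
  have hb := hG.pos b b0
  have := hG.pos (G x b b • a + (-G x a b) • b) fun h => hb.ne' (hab _ _ h).1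
  simp only [map_add, map_smul, add_apply, smul_apply, smul_eq_mul, hG.symm0 b a] at this
  rw [area]
  by_contra h
  nlinarith

theorem Param.round_pos {σ : E m → E (m + 1)} {y : E m} (h : Param σ y) {a b : E m}
    (hab : LinearIndependent ℝ ![a, b]) : 0 < sec (pull (fun _ => euc (m + 1)) σ) y a b := by
  rw [h.round]
  exact ((euc_good _).pull (h.smooth.of_le (WithTop.coe_le_coe.2 le_top)) h.inj).area_pos hab

theorem fd_nr_tan {u a : E n} (hu : ‖u‖ = 1) (ha : ⟪u, a⟫ = 0) : fderiv ℝ nr u a = a := by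
  simp [fd_nr (ne_of_unit hu), nr_unit hu, hu, ha]

variable {f g : E n → E n}

theorem SphDiff.symm (h : SphDiff f g) : SphDiff g f := ⟨h.sg, h.sf, h.ng, h.nf, h.fg, h.gf⟩

theorem SphDiff.d (h : SphDiff f g) {u : E n} (hu : ‖u‖ = 1) : DifferentiableAt ℝ f u :=
  (h.sf u hu).differentiableAt (by simp)

theorem SphDiff.cF (h : SphDiff f g) {x : E n} (hx : x ≠ 0) :
    ContDiffAt ℝ ∞ (fun z => f (nr z)) x := (h.sf _ (norm_nr hx)).comp x (nr_cda hx)

theorem SphDiff.dF (h : SphDiff f g) {x : E n} (hx : x ≠ 0) :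
    DifferentiableAt ℝ (fun z => f (nr z)) x := (h.cF hx).differentiableAt (by simp)

theorem SphDiff.evF (h : SphDiff f g) {x : E n} (hx : x ≠ 0) : ∀ᶠ z in 𝓝 x, ‖f (nr z)‖ = 1 :=
  (nr_ev hx).mono fun _ hz => h.nf _ hz

theorem SphDiff.fdF (h : SphDiff f g) {x : E n} (hx : x ≠ 0) (a : E n) :
    fderiv ℝ (fun z => f (nr z)) x a = fderiv ℝ f (nr x) (fderiv ℝ nr x a) := by
  rw [fderiv_fun_comp x (h.d (norm_nr hx)) (nr_d hx)]
  rfl

theorem SphDiff.fdF' (h : SphDiff f g) {u a : E n} (hu : ‖u‖ = 1) (ha : ⟪u, a⟫ = 0) :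
    fderiv ℝ (fun z => f (nr z)) u a = fderiv ℝ f u a := by
  rw [h.fdF (ne_of_unit hu), nr_unit hu, fd_nr_tan hu ha]

theorem SphDiff.perp (h : SphDiff f g) {u a : E n} (hu : ‖u‖ = 1) (ha : ⟪u, a⟫ = 0) :
    ⟪f u, fderiv ℝ f u a⟫ = 0 := by
  have := unit_perp (h.dF (ne_of_unit hu)) (h.evF (ne_of_unit hu)) a
  rwa [h.fdF' hu ha, nr_unit hu] at this

theorem SphDiff.left (h : SphDiff f g) {u a : E n} (hu : ‖u‖ = 1) (ha : ⟪u, a⟫ = 0) :
    fderiv ℝ g (f u) (fderiv ℝ f u a) = a := by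
  have u0 := ne_of_unit hu
  have e : (fun z => g (f (nr z))) =ᶠ[𝓝 u] nr := (nr_ev u0).mono fun z hz => h.gf _ hz
  have d := fderiv_fun_comp (g := g) (f := fun z => f (nr z)) u
    (h.symm.d (h.nf _ (norm_nr u0))) (h.dF u0)
  rw [e.fderiv_eq] at d
  have := congrArg (fun L => L a) d
  simp only [ContinuousLinearMap.comp_apply, h.fdF' hu ha, fd_nr_tan hu ha, nr_unit hu] at this
  exact this.symm

theorem SphDiff.ne (h : SphDiff f g) {u a : E n} (hu : ‖u‖ = 1) (ha : ⟪u, a⟫ = 0) (a0 : a ≠ 0) :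
    fderiv ℝ f u a ≠ 0 := fun h0 => a0 (by rw [← h.left hu ha, h0, map_zero])

theorem SphDiff.cΦ (h : SphDiff f g) (D : ℝ) {x : E n} (hx : x ≠ 0) :
    ContDiffAt ℝ ∞ (fun z => (D - ‖z‖) • f (nr z)) x :=
  (contDiffAt_const.sub (norm_cda hx)).smul (h.cF hx)

theorem slices {G : Met (E (m + 1))} {D : ℝ} (hG : NormalBall G D) (hD : π / 2 < D)
    {σ : E m → E (m + 1)} {y : E m} (h : Param σ y) {r : ℝ} (hr : r ∈ Ioo 0 D) {a b : E m}
    (hab : LinearIndependent ℝ ![a, b]) {c : ℝ} (hc : 0 < c) :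
    0 < sec (fun z => c • pull (fun u => r ^ 2 • G (r • u)) σ z) y a b := by
  have hn : ∀ r ∈ Ioo 0 D, ‖r • σ y‖ < D := fun r hr => by
    rw [norm_smul_unit h.u hr.1.le]; exact hr.2
  have hK : ∀ r ∈ Ioo 0 D, Good (slc (fun p => p.1 ^ 2 • G (p.1 • p.2)) σ) (r, y) := by
    intro r hr
    refine h.slc_good ((contDiffAt_fst.pow 2).smul ((hG.good (hn r hr)).smooth.comp (r, σ y)
      (contDiffAt_fst.smul contDiffAt_snd))) ?_ fun a _ a0 => ?_
    · filter_upwards [Ioo_mem_nhds hr.1 hr.2] with s hs u hu a b _ _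
      simp only [smul_apply, hG.symm _ (by rw [norm_smul_unit hu hs.1.le]; exact hs.2) a b]
    · simpa using mul_pos (pow_pos hr.1 2) (hG.pos _ (hn r hr) a a0)
  have := two_sided hD hK (fun r hr U V => by
    have e : pull G (fun q : ℝ × E m => id q.1 • σ q.2) =ᶠ[𝓝 (r, y)]
        wp 1 1 (slc (fun p => p.1 ^ 2 • G (p.1 • p.2)) σ) := by
      filter_upwards [(continuousAt_snd (p := (r, y))).eventually h.ev,
        (continuousAt_fst (p := (r, y))).eventually (Ioo_mem_nhds hr.1 hr.2)] with p e2 e1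
      refine ContinuousLinearMap.ext fun U => ContinuousLinearMap.ext fun V => ?_
      rw [hG.pull (ρ := fun q : ℝ × E m => id q.1) (ϖ := fun q : ℝ × E m => σ q.2)
        differentiableAt_fst
        (e2.1.comp p differentiableAt_snd) e1.1 e1.2 (continuousAt_snd.eventually e2.2)]
      simp [fd_snd e2.1, fd_fst (s := id) differentiableAt_id, slc_apply, fderiv_fst]
    rw [← sec_congr e, Good.sec_pull (φ := fun q : ℝ × E m => id q.1 • σ q.2) (y := (r, y))
      (hG.good (hn r hr)) (h.chart_c3 (s := id) contDiffAt_id)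
      (h.bij differentiableAt_id hr.1.ne' (by simp)), area, ← e.self_of_nhds]
    exact hG.curv _ (hn r hr) _ _) hr hab
  exact lt_of_lt_of_eq (mul_pos hc this) (((hK r hr).slice).sec_smul hc a b).symm

theorem forward {f g : E (m + 1) → E (m + 1)} (hf : SphDiff f g) {D : ℝ} (hD : π / 2 < D)
    (hW : Wied f D) : ∃ h, Path (E m) f h := by
  obtain ⟨G₁, G₂, h1, h2, hg⟩ := hW
  simp only [nr_def] at hg
  have D0 : 0 < D := lt_trans (by positivity) hD
  let A : ℝ → Met (E (m + 1)) := fun t x => ((1 - t) ^ 2)⁻¹ •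
    (G₁ ((t * D) • nr x)).bilinearComp (fderiv ℝ nr x) (fderiv ℝ nr x)
  let B : ℝ → Met (E (m + 1)) := fun t x => (t ^ 2)⁻¹ •
    (G₂ (((1 - t) * D) • f (nr x))).bilinearComp (fderiv ℝ (fun z => f (nr z)) x)
      (fderiv ℝ (fun z => f (nr z)) x)
  have Aa : ∀ t x a b, A t x a b = ((1 - t) ^ 2)⁻¹ *
    G₁ ((t * D) • nr x) (fderiv ℝ nr x a) (fderiv ℝ nr x b) := fun _ _ _ _ => rfl
  have Ba : ∀ t x a b, B t x a b = (t ^ 2)⁻¹ * G₂ (((1 - t) * D) • f (nr x))
    (fderiv ℝ (fun z => f (nr z)) x a) (fderiv ℝ (fun z => f (nr z)) x b) := fun _ _ _ _ => rfl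
  have AB : ∀ t ∈ Ioo (0 : ℝ) 1, ∀ x, x ≠ 0 → A t x = B t x := by
    intro t ht x hx
    ext1 a; ext1 b
    have r0 : 0 < t * D := mul_pos ht.1 D0
    have r1 : t * D < D := mul_lt_of_lt_one_left D0 ht.2
    have z0 : (t * D) • nr x ≠ 0 := smul_ne_zero r0.ne' (ne_of_unit (norm_nr hx))
    have e1 := h1.pull (ρ := fun _ => t * D) (differentiableAt_const _) (nr_d hx) r0 r1
      (nr_ev hx) a b
    have e2 := h2.pull (ρ := fun _ => (1 - t) * D) (differentiableAt_const _) (hf.dF hx)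
      (mul_pos (by linarith [ht.2]) D0) (by linarith) (hf.evF hx) a b
    have e3 : (fun z => (fun z => (D - ‖z‖) • f (nr z)) ((t * D) • nr z)) =ᶠ[𝓝 x]
        fun z => ((1 - t) * D) • f (nr z) := by
      filter_upwards [nr_ev hx] with z hz
      rw [norm_smul_unit hz r0.le, nr_smul hz r0]
      congr 1; ring
    rw [← pull_congr G₂ e3, ← pull_comp G₂ (ψ := fun z => (t * D) • nr z)
      ((hf.cΦ D z0).differentiableAt (by simp)) ((nr_d hx).const_smul (t * D)), pull_apply] at e2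
    rw [← hg _ z0 (by rwa [norm_smul_unit (norm_nr hx) r0.le])] at e2
    rw [pull_apply] at e1
    have e4 := e1.symm.trans e2
    simp only [fderiv_fun_const, Pi.zero_apply, zero_apply, mul_zero, zero_add] at e4
    rw [Aa, Ba]
    have t0 := ht.1.ne'
    have t1 : 1 - t ≠ 0 := by linarith [ht.2]
    field_simp
    have : D ^ 2 ≠ 0 := by positivity
    apply mul_left_cancel₀ this
    linear_combination e4
  have n1 : ∀ t : ℝ, 0 ≤ t → t < 1 → ∀ u : E (m + 1), ‖u‖ = 1 → ‖(t * D) • u‖ < D := by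
    intro t t0 t1 u hu
    rw [norm_smul_unit hu (by positivity)]
    exact mul_lt_of_lt_one_left D0 t1
  have hA : ∀ t : ℝ, t < 1 → ∀ x, x ≠ 0 → (if t < 1 / 2 then A t else B t) x = A t x := by
    intro t t1 x hx
    split_ifs with h
    · rfl
    · exact (AB t ⟨by linarith, t1⟩ x hx).symm
  refine ⟨fun t => if t < 1 / 2 then A t else B t, ?_, ?_, ?_, ?_, ?_, ?_⟩
  · intro t ht u hu
    have u0 := ne_of_unit hu
    by_cases t1 : t < 1
    · have c : ContDiffAt ℝ ∞ (fun p : ℝ × E (m + 1) => A p.1 p.2) (t, u) := by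
        have s1 : ContDiffAt ℝ ∞ (fun p : ℝ × E (m + 1) => fderiv ℝ nr p.2) (t, u) :=
          ((nr_cda u0 (k := ∞)).fderiv_right (by simp)).comp (t, u) contDiffAt_snd
        refine cda2 fun a b => ?_
        simp only [Aa]
        exact (((contDiffAt_const.sub contDiffAt_fst).pow 2).inv
          (pow_ne_zero 2 (by simp only; linarith))).mul
          ((((h1.smooth _ (n1 t ht.1 t1 _ (norm_nr u0))).comp (t, u)
          ((contDiffAt_fst.mul contDiffAt_const).smul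
            ((nr_cda u0).comp (t, u) contDiffAt_snd))).clm_apply
          (s1.clm_apply contDiffAt_const)).clm_apply (s1.clm_apply contDiffAt_const))
      refine c.congr_of_eventuallyEq ?_
      filter_upwards [(continuousAt_fst (p := (t, u))).eventually (gt_mem_nhds t1),
        (continuousAt_snd (p := (t, u))).eventually (eventually_ne_nhds u0)] with p e1 e2
      exact hA _ e1 _ e2
    · have t2 : t = 1 := le_antisymm ht.2 (not_lt.1 t1)
      subst t2
      have c : ContDiffAt ℝ ∞ (fun p : ℝ × E (m + 1) => B p.1 p.2) (1, u) := by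
        have s1 : ContDiffAt ℝ ∞ (fun p : ℝ × E (m + 1) => fderiv ℝ (fun z => f (nr z)) p.2)
            (1, u) := ((hf.cF u0).fderiv_right (by simp)).comp (1, u) contDiffAt_snd
        refine cda2 fun a b => ?_
        simp only [Ba]
        exact ((contDiffAt_fst.pow 2).inv (by simp)).mul
          ((((h2.smooth _ (by simpa)).comp (1, u)
          (((contDiffAt_const.sub contDiffAt_fst).mul contDiffAt_const).smul
            ((hf.cF u0).comp (1, u) contDiffAt_snd))).clm_apply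
          (s1.clm_apply contDiffAt_const)).clm_apply (s1.clm_apply contDiffAt_const))
      refine c.congr_of_eventuallyEq ?_
      filter_upwards [(continuousAt_fst (p := ((1 : ℝ), u))).eventually
        (lt_mem_nhds (a := 1 / 2) (by norm_num))] with p e1
      rw [if_neg (not_lt.2 e1.le)]
  · intro t ht u hu a b _ _
    have u0 := ne_of_unit hu
    split_ifs with h
    · rw [Aa, Aa, h1.symm _ (n1 t ht.1 (by linarith) _ (norm_nr u0))]
    · rw [Ba, Ba, h2.symm _ (n1 _ (by linarith [ht.2]) (by linarith) _ (hf.nf _ (norm_nr u0)))]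
  · intro t ht u hu a ha a0
    have u0 := ne_of_unit hu
    split_ifs with h
    · rw [Aa, fd_nr_tan hu ha]
      exact mul_pos (inv_pos.2 (pow_pos (by linarith) 2))
        (h1.pos _ (n1 t ht.1 (by linarith) _ (norm_nr u0)) a a0)
    · rw [Ba, hf.fdF' hu ha]
      exact mul_pos (inv_pos.2 (pow_pos (by linarith) 2))
        (h2.pos _ (n1 _ (by linarith [ht.2]) (by linarith) _ (hf.nf _ (norm_nr u0))) _
          (hf.ne hu ha a0))
  · intro u hu a b ha hb
    rw [if_pos (by norm_num), Aa, fd_nr_tan hu ha, fd_nr_tan hu hb]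
    simp [h1.zero D0]
  · intro u hu a b ha hb
    rw [if_neg (by norm_num), Ba, hf.fdF' hu ha, hf.fdF' hu hb]
    simp [h2.zero D0]
  · intro t ht σ y hσ a b hab
    rcases ht.1.eq_or_lt with rfl | t0
    · rw [sec_congr (G' := pull (fun _ => euc (m + 1)) σ)]
      · exact hσ.round_pos hab
      · filter_upwards [hσ.ev] with z e
        ext1 a; ext1 b
        rw [pull_apply, if_pos (by norm_num), Aa, fd_nr_tan e.2.self_of_nhds (unit_perp e.1 e.2 a),
          fd_nr_tan e.2.self_of_nhds (unit_perp e.1 e.2 b)]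
        simp [h1.zero D0]
    rcases ht.2.eq_or_lt with rfl | t1
    · rw [sec_congr (G' := pull (fun _ => euc (m + 1)) fun z => f (σ z))]
      · exact (hσ.comp hf).round_pos hab
      · filter_upwards [hσ.ev] with z e
        ext1 a; ext1 b
        rw [pull_apply, if_neg (by norm_num), Ba, hf.fdF' e.2.self_of_nhds (unit_perp e.1 e.2 a),
          hf.fdF' e.2.self_of_nhds (unit_perp e.1 e.2 b), pull_apply,
          fderiv_fun_comp z (hf.d e.2.self_of_nhds) e.1]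
        simp [h2.zero D0]
    have r0 : 0 < t * D := mul_pos t0 D0
    rw [sec_congr (G' := fun z => (((1 - t) * (t * D)) ^ 2)⁻¹ •
      pull (fun u => (t * D) ^ 2 • G₁ ((t * D) • u)) σ z)]
    · exact slices h1 hD hσ ⟨r0, mul_lt_of_lt_one_left D0 t1⟩ hab
        (inv_pos.2 (pow_pos (mul_pos (by linarith) r0) 2))
    · filter_upwards [hσ.ev] with z e
      ext1 a; ext1 b
      have hu := e.2.self_of_nhds
      rw [pull_apply, hA t t1 _ (ne_of_unit hu), Aa, fd_nr_tan hu (unit_perp e.1 e.2 a),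
        fd_nr_tan hu (unit_perp e.1 e.2 b), nr_unit hu]
      simp only [smul_apply, pull_apply, smul_eq_mul]
      have t1 : 1 - t ≠ 0 := by linarith
      field_simp

end

/-! Uniform constants along a path of metrics and the curvature of the spindle. -/

section

open scoped ContDiff RealInnerProductSpace Topology
open Filter Set Real


variable {n m : ℕ}

/-- a smooth family of metrics on the unit sphere, round for `t ≤ 1 / 2` -/
structure Fam (k : ℝ × E n → E n →L[ℝ] E n →L[ℝ] ℝ) : Prop where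
  smooth : ∀ t u, ‖u‖ = 1 → ContDiffAt ℝ ∞ k (t, u)
  symm : ∀ t u, ‖u‖ = 1 → ∀ a b, ⟪u, a⟫ = 0 → ⟪u, b⟫ = 0 → k (t, u) a b = k (t, u) b a
  pos : ∀ t u, ‖u‖ = 1 → ∀ a, ⟪u, a⟫ = 0 → a ≠ 0 → 0 < k (t, u) a a
  lo : ∀ t ≤ 1 / 2, ∀ u, ‖u‖ = 1 → ∀ a b, ⟪u, a⟫ = 0 → ⟪u, b⟫ = 0 → k (t, u) a b = ⟪a, b⟫

theorem Pol_symm {k : ℝ × E n → E n →L[ℝ] E n →L[ℝ] ℝ} {x : E n} (hx : x ≠ 0)
    (h : ∀ a b, ⟪nr x, a⟫ = 0 → ⟪nr x, b⟫ = 0 → k (‖x‖, nr x) a b = k (‖x‖, nr x) b a) (a b : E n) :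
    Pol k x a b = Pol k x b a := by
  rw [Pol_apply k hx, Pol_apply k hx, h _ _ (nr_perp hx a) (nr_perp hx b), mul_comm]

theorem Fam.pol {k : ℝ × E n → E n →L[ℝ] E n →L[ℝ] ℝ} (hk : Fam k) {x : E n} (hx : x ≠ 0) :
    Good (Pol k) x where
  smooth := (Pol_cda hx (hk.smooth _ _ (norm_nr hx))).of_le (WithTop.coe_le_coe.2 le_top)
  symm := (eventually_ne_nhds hx).mono fun _ hz => Pol_symm hz (hk.symm _ _ (norm_nr hz))
  pos := Pol_pos hx (hk.pos _ _ (norm_nr hx))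

variable {k : ℝ × E (m + 1) → E (m + 1) →L[ℝ] E (m + 1) →L[ℝ] ℝ} {σ : E m → E (m + 1)} {y : E m}

theorem Fam.good (hk : Fam k) (h : Param σ y) (t : ℝ) : Good (slc k σ) (t, y) :=
  h.slc_good ((hk.smooth t _ h.u).of_le (WithTop.coe_le_coe.2 le_top))
    (Eventually.of_forall hk.symm) (hk.pos t _ h.u)

theorem chart_Pol (k : ℝ × E (m + 1) → E (m + 1) →L[ℝ] E (m + 1) →L[ℝ] ℝ) (h : Param σ y)
    {s : ℝ → ℝ} (hs : Differentiable ℝ s) {t : ℝ} (s0 : 0 < s t) :
    ∀ᶠ p in 𝓝 (t, y), ∀ U V, pull (Pol k) (fun q : ℝ × E m => s q.1 • σ q.2) p U V =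
      deriv s p.1 ^ 2 * (U.1 * V.1) +
        k (s p.1, σ p.2) (fderiv ℝ σ p.2 U.2) (fderiv ℝ σ p.2 V.2) := by
  filter_upwards [(continuousAt_snd (p := (t, y))).eventually h.ev,
    (continuousAt_fst (p := (t, y))).eventually
      (hs.continuous.continuousAt.eventually (lt_mem_nhds s0))] with p e2 e1 U V
  rw [pull_Pol k (ρ := fun q : ℝ × E m => s q.1) (ϖ := fun q : ℝ × E m => σ q.2)
    ((hs _).comp p differentiableAt_fst) (e2.1.comp p differentiableAt_snd) e1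
    (continuousAt_snd.eventually e2.2), fd_snd e2.1, fd_snd e2.1, fd_fst (hs _), fd_fst (hs _)]
  ring

theorem Fam.sff_slc (hk : Fam k) (h : Param σ y) (t : ℝ) (a b : E m) :
    sff (slc k σ) (t, y) a b = sff k (t, σ y) (fderiv ℝ σ y a) (fderiv ℝ σ y b) := by
  have := (dt0 (c2_d0 (hk.good h t).smooth) a b).unique
    (dt0 (p := (t, σ y)) ((hk.smooth t _ h.u).differentiableAt (by simp)) (fderiv ℝ σ y a)
      (fderiv ℝ σ y b))
  linarith

/-- `qq` in ambient terms -/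
noncomputable def qa (k : ℝ × E n → E n →L[ℝ] E n →L[ℝ] ℝ) (t : ℝ) (u : E n) (α : ℝ)
    (a b : E n) : ℝ :=
  sec (Pol k) (t • u) (α • u + t • a) (t • b) +
    (sff k (t, u) a a * sff k (t, u) b b - sff k (t, u) a b ^ 2)

theorem Fam.qa_eq (hk : Fam k) (h : Param σ y) {t : ℝ} (ht : 0 < t) (α : ℝ) (a b : E m) :
    qq (slc k σ) (t, y) α a b = qa k t (σ y) α (fderiv ℝ σ y a) (fderiv ℝ σ y b) := by
  have e : pull (Pol k) (fun q : ℝ × E m => id q.1 • σ q.2) =ᶠ[𝓝 (t, y)] wp 1 1 (slc k σ) := by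
    filter_upwards [chart_Pol k h (s := id) differentiable_id ht] with p hp
    refine ContinuousLinearMap.ext fun U => ContinuousLinearMap.ext fun V => ?_
    rw [hp]
    simp [slc_apply]
  rw [qq, qa, ← sec_congr e, Good.sec_pull (φ := fun q : ℝ × E m => id q.1 • σ q.2) (y := (t, y))
    (hk.pol (smul_ne_zero ht.ne' (ne_of_unit h.u))) (h.chart_c3 (s := id) contDiffAt_id)
    (h.bij differentiableAt_id ht.ne' (by simp)), chart_fd differentiableAt_id h.d,
    chart_fd differentiableAt_id h.d]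
  simp [hk.sff_slc h]

theorem Fam.qa_hom (hk : Fam k) {t : ℝ} (ht : 0 < t) {u : E (m + 1)} (hu : ‖u‖ = 1) (c d α : ℝ)
    (a b : E (m + 1)) : qa k t u (c * α) (c • a) (d • b) = c ^ 2 * d ^ 2 * qa k t u α a b := by
  have := (hk.pol (smul_ne_zero ht.ne' (ne_of_unit hu))).sec_gl2 (α • u + t • a) (t • b) c 0 0 d
  simp only [zero_smul, add_zero, zero_add, smul_add, smul_comm c t, smul_comm d t, ← mul_smul c α]
    at this
  simp only [qa, this, sff, map_smul, smul_apply, smul_eq_mul]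
  ring

/-- the compact parameter set -/
def TT (n : ℕ) : Set ((ℝ × E n) × (ℝ × E n) × E n) :=
  (Icc (1 / 2 : ℝ) (3 / 2) ×ˢ Metric.sphere (0 : E n) 1) ×ˢ
    (Metric.sphere (0 : ℝ × E n) 1 ×ˢ Metric.sphere (0 : E n) 1)

theorem TT_compact : IsCompact (TT n) :=
  (isCompact_Icc.prod (isCompact_sphere 0 1)).prod
    ((isCompact_sphere 0 1).prod (isCompact_sphere 0 1))

theorem TT_mu {x : (ℝ × E n) × (ℝ × E n) × E n} (hx : x ∈ TT n) : ‖x.1.2‖ = 1 := by
  simpa using hx.1.2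

theorem TT_mb {x : (ℝ × E n) × (ℝ × E n) × E n} (hx : x ∈ TT n) : x.2.2 ≠ 0 :=
  ne_of_unit (by simpa using hx.2.2)

theorem TT_mt {x : (ℝ × E n) × (ℝ × E n) × E n} (hx : x ∈ TT n) : 0 < x.1.1 := by
  linarith [hx.1.1.1]

theorem Fam.ck {k : ℝ × E n → E n →L[ℝ] E n →L[ℝ] ℝ} (hk : Fam k)
    {a b : (ℝ × E n) × (ℝ × E n) × E n → E n} (ha : Continuous a) (hb : Continuous b) :
    ContinuousOn (fun x => k x.1 (a x) (b x)) (TT n) := fun x hx => by
  have c : ContinuousAt (fun x : (ℝ × E n) × (ℝ × E n) × E n => k x.1) x :=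
    (hk.smooth x.1.1 x.1.2 (TT_mu hx)).continuousAt.comp_of_eq continuousAt_fst rfl
  exact ((c.clm_apply ha.continuousAt).clm_apply hb.continuousAt).continuousWithinAt

theorem Fam.cs {k : ℝ × E n → E n →L[ℝ] E n →L[ℝ] ℝ} (hk : Fam k)
    {a b : (ℝ × E n) × (ℝ × E n) × E n → E n} (ha : Continuous a) (hb : Continuous b) :
    ContinuousOn (fun x => sff k x.1 (a x) (b x)) (TT n) := fun x hx => by
  have c0 : ContDiffAt ℝ 0 (fderiv ℝ k) (x.1.1, x.1.2) :=
    (hk.smooth x.1.1 x.1.2 (TT_mu hx)).fderiv_right (by simp)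
  have c : ContinuousAt (fun x : (ℝ × E n) × (ℝ × E n) × E n => fderiv ℝ k x.1) x :=
    c0.continuousAt.comp_of_eq continuousAt_fst rfl
  exact ((((c.clm_apply (continuousAt_const (y := (1, 0)))).clm_apply ha.continuousAt).clm_apply
    hb.continuousAt).div_const 2).continuousWithinAt

theorem Fam.cq {k : ℝ × E n → E n →L[ℝ] E n →L[ℝ] ℝ} (hk : Fam k) :
    ContinuousOn (fun x => qa k x.1.1 x.1.2 x.2.1.1 x.2.1.2 x.2.2) (TT n) := by
  have ca : Continuous fun x : (ℝ × E n) × (ℝ × E n) × E n => x.2.1.2 := by fun_prop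
  have cb : Continuous fun x : (ℝ × E n) × (ℝ × E n) × E n => x.2.2 := by fun_prop
  have c : ContinuousOn (fun x : (ℝ × E n) × (ℝ × E n) × E n => sec (Pol k) (x.1.1 • x.1.2)
      (x.2.1.1 • x.1.2 + x.1.1 • x.2.1.2) (x.1.1 • x.2.2)) (TT n) := fun x hx =>
    ((hk.pol (smul_ne_zero (TT_mt hx).ne' (ne_of_unit (TT_mu hx)))).sec_cont
      (z := fun x : (ℝ × E n) × (ℝ × E n) × E n => x.1.1 • x.1.2) (by fun_prop) rfl (by fun_prop)
      (by fun_prop)).continuousWithinAt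
  exact c.add (((hk.cs ca ca).mul (hk.cs cb cb)).sub ((hk.cs ca cb).pow 2))

theorem Fam.c1 {k : ℝ × E n → E n →L[ℝ] E n →L[ℝ] ℝ} (hk : Fam k) : ∃ A δ : ℝ, 0 < δ ∧
    ∀ x ∈ TT n, δ * |sff k x.1 x.2.2 x.2.2| ≤ k x.1 x.2.2 x.2.2 + A * ⟪x.1.2, x.2.2⟫ ^ 2 := by
  have cb : Continuous fun x : (ℝ × E n) × (ℝ × E n) × E n => x.2.2 := by fun_prop
  have c : Continuous fun x : (ℝ × E n) × (ℝ × E n) × E n => ⟪x.1.2, x.2.2⟫ ^ 2 := by fun_prop
  obtain ⟨A, δ, -, δ0, h⟩ := penal TT_compact (hk.ck cb cb) c.continuousOn (hk.cs cb cb).abs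
    (fun _ _ => sq_nonneg _) (fun _ _ => abs_nonneg _) fun x hx h0 =>
      hk.pos x.1.1 x.1.2 (TT_mu hx) _ (pow_eq_zero_iff two_ne_zero |>.1 h0) (TT_mb hx)
  exact ⟨A, δ, δ0, h⟩

theorem Fam.c2 (hk : Fam k) (hc : ∀ t σ y, Param σ y → ∀ a b, LinearIndependent ℝ ![a, b] →
    0 < sec (fun z => slc k σ (t, z)) y a b) : ∃ A δ : ℝ, 0 ≤ A ∧ 0 < δ ∧ ∀ x ∈ TT (m + 1),
      δ * |k x.1 x.2.1.2 x.2.1.2 * k x.1 x.2.2 x.2.2| ≤ qa k x.1.1 x.1.2 x.2.1.1 x.2.1.2 x.2.2 +
        A * (x.2.1.1 ^ 2 * |k x.1 x.2.2 x.2.2| + k x.1 x.2.1.2 x.2.2 ^ 2 +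
          ⟪x.1.2, x.2.1.2⟫ ^ 2 + ⟪x.1.2, x.2.2⟫ ^ 2) := by
  have ca : Continuous fun x : (ℝ × E (m + 1)) × (ℝ × E (m + 1)) × E (m + 1) => x.2.1.2 := by
    fun_prop
  have cb : Continuous fun x : (ℝ × E (m + 1)) × (ℝ × E (m + 1)) × E (m + 1) => x.2.2 := by
    fun_prop
  have c1 : Continuous fun x : (ℝ × E (m + 1)) × (ℝ × E (m + 1)) × E (m + 1) => x.2.1.1 ^ 2 := by
    fun_prop
  have c2 : Continuous fun x : (ℝ × E (m + 1)) × (ℝ × E (m + 1)) × E (m + 1) =>
    ⟪x.1.2, x.2.1.2⟫ ^ 2 := by fun_prop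
  have c3 : Continuous fun x : (ℝ × E (m + 1)) × (ℝ × E (m + 1)) × E (m + 1) =>
    ⟪x.1.2, x.2.2⟫ ^ 2 := by fun_prop
  refine penal TT_compact hk.cq ((((c1.continuousOn.mul (hk.ck cb cb).abs).add
    ((hk.ck ca cb).pow 2)).add c2.continuousOn).add c3.continuousOn)
    ((hk.ck ca ca).mul (hk.ck cb cb)).abs (fun _ _ => by positivity) (fun _ _ => abs_nonneg _) ?_
  rintro ⟨⟨t, u⟩, ⟨α, a⟩, b⟩ hx h0
  have hu := TT_mu hx
  have hb := TT_mb hx
  have ht := TT_mt hx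
  simp only at h0 hu hb ht ⊢
  have p1 := mul_nonneg (sq_nonneg α) (abs_nonneg (k (t, u) b b))
  have p2 := sq_nonneg (k (t, u) a b)
  have p3 := sq_nonneg ⟪u, a⟫
  have p4 := sq_nonneg ⟪u, b⟫
  have e2 : k (t, u) a b = 0 := pow_eq_zero_iff two_ne_zero |>.1 (by linarith)
  have e3 : ⟪u, a⟫ = 0 := pow_eq_zero_iff two_ne_zero |>.1 (by linarith)
  have e4 : ⟪u, b⟫ = 0 := pow_eq_zero_iff two_ne_zero |>.1 (by linarith)
  have pb := hk.pos t u hu b e4 hb
  have e1 : α = 0 := by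
    have : α ^ 2 * |k (t, u) b b| = 0 := by linarith
    simpa [pb.ne'] using this
  subst e1
  have ha : a ≠ 0 := by
    rintro rfl
    simpa using hx.2.1
  have pa := hk.pos t u hu a e3 ha
  obtain ⟨σ, hσ, rfl⟩ := exists_param hu
  obtain ⟨a, rfl⟩ := hσ.surj e3
  obtain ⟨b, rfl⟩ := hσ.surj e4
  rw [← hk.qa_eq hσ ht, (hk.good hσ t).qq_zero]
  refine hc t σ 0 hσ a b (LinearIndependent.pair_iff.2 fun c d h => ?_)
  have q1 := congrArg (fun w => k (t, σ 0) (fderiv ℝ σ 0 a) (fderiv ℝ σ 0 w)) h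
  have q2 := congrArg (fun w => k (t, σ 0) (fderiv ℝ σ 0 w) (fderiv ℝ σ 0 b)) h
  simp [e2, pa.ne', pb.ne'] at q1 q2
  exact ⟨q1, q2⟩

theorem Fam.consts (hk : Fam k) (hc : ∀ t σ y, Param σ y → ∀ a b, LinearIndependent ℝ ![a, b] →
    0 < sec (fun z => slc k σ (t, z)) y a b) : ∃ A C δ : ℝ, 0 ≤ A ∧ 0 ≤ C ∧ 0 < δ ∧
      ∀ t ∈ Icc (1 / 2 : ℝ) (3 / 2), ∀ σ y, Param σ y →
        (∀ b, |sff (slc k σ) (t, y) b b| ≤ C * slc k σ (t, y) b b) ∧
        ∀ α a b, slc k σ (t, y) a b = 0 → b ≠ 0 →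
          δ * (slc k σ (t, y) a a * slc k σ (t, y) b b) ≤
            qq (slc k σ) (t, y) α a b + A * (α ^ 2 * slc k σ (t, y) b b) := by
  obtain ⟨A₁, δ₁, δ₁0, h₁⟩ := hk.c1
  obtain ⟨A, δ, A0, δ0, h₂⟩ := hk.c2 hc
  refine ⟨A, δ₁⁻¹, δ, A0, by positivity, δ0, fun t ht σ y hσ => ⟨fun b => ?_, fun α a b e hb => ?_⟩⟩
  · rw [hk.sff_slc hσ, slc_apply]
    simp only
    by_cases hb : fderiv ℝ σ y b = 0
    · simp [hb, sff]
    have hn := norm_pos_iff.2 hb
    have := h₁ ((t, σ y), (1, 0), ‖fderiv ℝ σ y b‖⁻¹ • fderiv ℝ σ y b)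
      ⟨⟨ht, by simpa using hσ.u⟩, by simp, by simp [norm_smul, hn.ne']⟩
    simp only [sff, map_smul, smul_apply, smul_eq_mul, inner_smul_right, hσ.perp, mul_div_assoc,
      abs_mul, abs_inv, abs_norm] at this
    rw [← div_eq_inv_mul, le_div_iff₀ δ₁0, sff]
    have h2 : 0 < ‖fderiv ℝ σ y b‖⁻¹ * ‖fderiv ℝ σ y b‖⁻¹ := by positivity
    refine le_of_mul_le_mul_left ?_ h2
    linarith
  · have t0 : 0 < t := by linarith [ht.1]
    have pb := (hk.good hσ t).pos b hb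
    have pa : 0 ≤ slc k σ (t, y) a a := by
      by_cases ha : a = 0
      · simp [ha]
      · exact ((hk.good hσ t).pos a ha).le
    have hb' : fderiv ℝ σ y b ≠ 0 := fun h0 => hb (hσ.inj (h0.trans (map_zero _).symm))
    rw [hk.qa_eq hσ t0]
    simp only [slc_apply] at e pb pa ⊢
    by_cases hU : (α, fderiv ℝ σ y a) = 0
    · obtain ⟨h1, h2⟩ := Prod.mk_eq_zero.1 hU
      have := hk.qa_hom t0 hσ.u 0 1 0 0 (fderiv ℝ σ y b)
      simp only [mul_zero, smul_zero, one_smul] at this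
      rw [h1, h2, this]
      simp
    have hn := norm_pos_iff.2 hb'
    have hn' := norm_pos_iff.2 hU
    have := h₂ ((t, σ y), ‖(α, fderiv ℝ σ y a)‖⁻¹ • (α, fderiv ℝ σ y a),
      ‖fderiv ℝ σ y b‖⁻¹ • fderiv ℝ σ y b)
      ⟨⟨ht, by simpa using hσ.u⟩, mem_sphere_zero_iff_norm.2 (norm_smul_inv_norm hU),
        by simp [norm_smul, hn.ne']⟩
    have c0 := inv_pos.2 hn'
    have d0 := inv_pos.2 hn
    generalize ‖(α, fderiv ℝ σ y a)‖⁻¹ = c at this c0
    generalize ‖fderiv ℝ σ y b‖⁻¹ = d at this d0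
    simp only [Prod.smul_mk, smul_eq_mul, hk.qa_hom t0 hσ.u, map_smul, smul_apply,
      inner_smul_right, hσ.perp, e] at this
    rw [abs_of_nonneg (by positivity), abs_of_nonneg (by positivity)] at this
    refine le_of_mul_le_mul_left ?_ (show 0 < c ^ 2 * d ^ 2 by positivity)
    linarith

theorem qq_congr {W : Type} [NormedAddCommGroup W] [NormedSpace ℝ W]
    {K K' : ℝ × W → W →L[ℝ] W →L[ℝ] ℝ} {p : ℝ × W} (h : K =ᶠ[𝓝 p] K') (α : ℝ) (a b : W) :
    qq K p α a b = qq K' p α a b := by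
  have e : wp 1 1 K =ᶠ[𝓝 p] wp 1 1 K' := h.mono fun q hq => by simp only [wp, hq]
  simp only [qq, sff, h.fderiv_eq, sec_congr e]

theorem euc_fam : Fam fun _ : ℝ × E n => euc n :=
  ⟨fun _ _ _ => contDiffAt_const, fun _ _ _ a b _ _ => real_inner_comm b a,
    fun _ _ _ _ _ hv => real_inner_self_pos.2 hv, fun _ _ _ _ _ _ _ _ => rfl⟩

theorem Param.round_qq (h : Param σ y) {t : ℝ} (ht : 0 < t) (α : ℝ) (a b : E m) :
    qq (slc (fun _ => euc (m + 1)) σ) (t, y) α a b =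
      slc (fun _ => euc (m + 1)) σ (t, y) a a * slc (fun _ => euc (m + 1)) σ (t, y) b b -
        slc (fun _ => euc (m + 1)) σ (t, y) a b ^ 2 := by
  have hK := euc_fam.good h t
  have e : pull (fun _ => euc (m + 1)) (fun q : ℝ × E m => id q.1 • σ q.2) =ᶠ[𝓝 (t, y)]
      wp 1 (fun r => r ^ 2) (slc (fun _ => euc (m + 1)) σ) := by
    filter_upwards [(continuousAt_snd (p := (t, y))).eventually h.ev] with p e2
    refine ContinuousLinearMap.ext fun U => ContinuousLinearMap.ext fun V => ?_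
    simp only [pull_apply, chart_fd (t := p.1) differentiableAt_id e2.1, wp_apply, slc_apply,
      euc_apply, inner_add_left, inner_add_right, real_inner_smul_left, real_inner_smul_right,
      unit_perp e2.1 e2.2, real_inner_comm (σ p.2), real_inner_self_eq_norm_sq, e2.2.self_of_nhds]
    simp
    ring
  have h1 := (euc_good (n := m + 1) _).sec_pull (h.chart_c3 (s := id) (t := t) contDiffAt_id)
    (h.bij differentiableAt_id ht.ne' (by simp)) (α, a) (0, b)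
  rw [sec_congr e, hK.sec_wp (P := 1) (B := fun r => r ^ 2) contDiffAt_const (contDiffAt_id.pow 2)
    one_pos (pow_pos ht 2), (euc_good _).sec_eq (X := 0) (Y := 0) (Z := 0) (by simp [gam])
      (by simp [gam]) (by simp [gam])] at h1
  have s0 : ∀ a b, sff (slc (fun _ => euc (m + 1)) σ) (t, y) a b = 0 := by
    intro a b
    rw [euc_fam.sff_slc h]
    simp [sff]
  have d1 : deriv (fun r : ℝ => r ^ 2) = fun r => 2 * r := by funext r; simp
  simp [s0, r2, d1] at h1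
  field_simp at h1
  apply mul_left_cancel₀ (pow_pos ht 2).ne'
  linarith

end

/-! From a path of positively curved metrics to a glued pair of balls. -/

section

open scoped ContDiff RealInnerProductSpace Topology
open Filter Set Real


variable {n m : ℕ}

theorem exp_d1 {u : ℝ → ℝ} {t : ℝ} (h : DifferentiableAt ℝ u t) :
    deriv (fun r => exp (2 * u r)) t = 2 * deriv u t * exp (2 * u t) := by
  rw [(h.hasDerivAt.const_mul 2).exp.deriv, mul_comm]

theorem exp_d2 {u : ℝ → ℝ} {t : ℝ} (h : ContDiffAt ℝ 2 u t) :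
    deriv (deriv fun r => exp (2 * u r)) t =
      (2 * deriv (deriv u) t + 4 * deriv u t ^ 2) * exp (2 * u t) := by
  have e : deriv (fun r => exp (2 * u r)) =ᶠ[𝓝 t] fun r => 2 * deriv u r * exp (2 * u r) :=
    (c2_ev h).mono fun r hr => exp_d1 hr
  have d := ((c2_dd h).hasDerivAt.const_mul 2).mul ((c2_d0 h).hasDerivAt.const_mul 2).exp
  rw [e.deriv_eq]
  erw [d.deriv]
  ring

theorem spindle {W : Type} [NormedAddCommGroup W] [NormedSpace ℝ W] [FiniteDimensional ℝ W]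
    {K : ℝ × W → W →L[ℝ] W →L[ℝ] ℝ} {p : ℝ × W} (hK : Good K p) {u v : ℝ → ℝ}
    (hu : ContDiffAt ℝ 2 u p.1) (hv : ContDiffAt ℝ 2 v p.1) {A C δ : ℝ}
    (hS : ∀ b, |sff K p b b| ≤ C * K p b b)
    (hQ : ∀ α a b, K p a b = 0 → b ≠ 0 →
      δ * (K p a a * K p b b) ≤ qq K p α a b + A * (α ^ 2 * K p b b))
    (h1 : A ≤ R1 u v p.1) (h2 : R2 u v C p.1 ≤ δ)
    (h3 : ∀ b, (deriv v p.1 - 2 * deriv u p.1) * sff K p b b = 0) (U V : ℝ × W) :
    area (wp (fun r => exp (2 * v r)) (fun r => exp (2 * u r)) K) p U V ≤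
      sec (wp (fun r => exp (2 * v r)) (fun r => exp (2 * u r)) K) p U V := by
  have cP : ContDiffAt ℝ 2 (fun r => exp (2 * v r)) p.1 := (contDiffAt_const.mul hv).exp
  have cB : ContDiffAt ℝ 2 (fun r => exp (2 * u r)) p.1 := (contDiffAt_const.mul hu).exp
  refine hK.reduce cP cB (exp_pos _) (exp_pos _) (fun α a b e hb => ?_) U V
  rw [hK.sec_wp cP cB (exp_pos _) (exp_pos _), exp_d2 hu, exp_d1 (c2_d0 hu), exp_d1 (c2_d0 hv), e]
  have k0 : ∀ a, 0 ≤ K p a a := fun a => by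
    by_cases ha : a = 0
    · simp [ha]
    · exact (hK.pos a ha).le
  have b1 : ∀ a, |deriv u p.1 * K p a a + sff K p a a| ≤ (|deriv u p.1| + C) * K p a a := by
    intro a
    refine (abs_add_le _ _).trans ?_
    rw [abs_mul, abs_of_nonneg (k0 a), add_mul]
    linarith [hS a]
  have b2 : (deriv u p.1 * K p a a + sff K p a a) * (deriv u p.1 * K p b b + sff K p b b) ≤
      (|deriv u p.1| + C) ^ 2 * (K p a a * K p b b) := by
    refine (le_abs_self _).trans ?_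
    rw [abs_mul]
    refine (mul_le_mul (b1 a) (b1 b) (abs_nonneg _) ((abs_nonneg _).trans (b1 a))).trans_eq ?_
    ring
  have q := hQ α a b e hb
  have q1 := mul_le_mul_of_nonneg_right h1 (mul_nonneg (sq_nonneg α) (k0 b))
  have q2 := mul_le_mul_of_nonneg_right h2 (mul_nonneg (k0 a) (k0 b))
  have q3 := h3 b
  rw [R1] at q1
  rw [R2, exp_neg] at q2
  have B0 := exp_pos (2 * u p.1)
  have P0 := exp_pos (2 * v p.1)
  generalize exp (2 * u p.1) = B at *
  generalize exp (2 * v p.1) = P at *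
  have q4 := mul_le_mul_of_nonneg_left (b2.trans' (sub_le_self _ (sq_nonneg (sff K p a b))))
    (mul_pos B0 (inv_pos.2 P0)).le
  have q5 := mul_le_mul_of_nonneg_left (show P * α ^ 2 * K p b b + B * (K p a a * K p b b) ≤
    qq K p α a b + α ^ 2 * (-deriv (deriv u) p.1 - deriv u p.1 ^ 2 + deriv u p.1 * deriv v p.1) *
      K p b b - B * P⁻¹ * ((deriv u p.1 * K p a a + sff K p a a) *
      (deriv u p.1 * K p b b + sff K p b b) - sff K p a b ^ 2) by linarith) B0.le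
  refine le_trans (le_of_eq (by ring)) (q5.trans_eq ?_)
  field_simp
  linear_combination (-(4 * 2 * P * α ^ 2)) * q3

/-- the metric near the centre -/
noncomputable def cap (β : ℝ) : Met (E n) := fun z =>
  (1 + ‖z‖ ^ 2 / β ^ 2)⁻¹ • (euc n + (β ^ 2)⁻¹ • (euc n z).smulRight (euc n z))

theorem cap_apply (β : ℝ) (z a b : E n) :
    cap β z a b = (1 + ‖z‖ ^ 2 / β ^ 2)⁻¹ * (⟪a, b⟫ + (β ^ 2)⁻¹ * (⟪z, a⟫ * ⟪z, b⟫)) := rfl

theorem cap_cda (β : ℝ) (z : E n) : ContDiffAt ℝ ∞ (cap β) z := by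
  refine cda2 fun a b => ?_
  simp only [cap_apply]
  exact ((contDiffAt_const.add ((contDiffAt_id.norm_sq ℝ).div_const _)).inv
    (by simp only [id]; positivity)).mul (contDiffAt_const.add (contDiffAt_const.mul
      ((contDiffAt_id.inner ℝ contDiffAt_const).mul (contDiffAt_id.inner ℝ contDiffAt_const))))

/-- the family of metrics on the spheres about the centre -/
noncomputable def fam (k : ℝ × E n → E n →L[ℝ] E n →L[ℝ] ℝ) (u τ : ℝ → ℝ) :
    ℝ × E n → E n →L[ℝ] E n →L[ℝ] ℝ := fun p => exp (2 * u (τ p.1)) • k (τ p.1, p.2)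

/-- the spindle metric in normal coordinates -/
noncomputable def spin (k : ℝ × E n → E n →L[ℝ] E n →L[ℝ] ℝ) (β : ℝ) (u τ : ℝ → ℝ) : Met (E n) :=
  fun z => if ‖z‖ < β / 8 then cap β z else Pol (fam k u τ) z

variable {A C δ β D : ℝ} {u v s τ : ℝ → ℝ}

theorem spin_eq {k : ℝ × E n → E n →L[ℝ] E n →L[ℝ] ℝ} (hk : Fam k) (hp : Prof A C δ β u v)
    (ha : Arc D β v s τ) {z : E n} (hz : z ≠ 0) : spin k β u τ z = Pol (fam k u τ) z := by
  unfold spin
  split_ifs with h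
  swap
  · rfl
  ext1 a; ext1 b
  have β0 := hp.β0
  have r0 := norm_pos_iff.2 hz
  have t1 : ‖z‖ / β ≤ 1 / 8 := by rw [div_le_iff₀ β0]; linarith
  have e : ∀ a, ⟪z, a⟫ = ‖z‖ * ⟪nr z, a⟫ := fun a => by
    conv_lhs => rw [← smul_nr hz, real_inner_smul_left]
  rw [Pol_apply _ hz, cap_apply]
  simp only [fam, smul_apply, smul_eq_mul, ha.cap _ h.le]
  rw [hp.capu _ ⟨by positivity, t1⟩, hk.lo _ (by linarith) _ (norm_nr hz) _ _ (nr_perp hz a)
    (nr_perp hz b), fd_nr hz, fd_nr hz]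
  simp only [real_inner_smul_left, real_inner_smul_right, inner_sub_left, inner_sub_right, e,
    real_inner_self_eq_norm_sq, norm_nr hz, real_inner_comm (nr z) a]
  field_simp
  ring

theorem spin_ev {k : ℝ × E n → E n →L[ℝ] E n →L[ℝ] ℝ} (hk : Fam k) (hp : Prof A C δ β u v)
    (ha : Arc D β v s τ) {z : E n} (hz : z ≠ 0) : spin k β u τ =ᶠ[𝓝 z] Pol (fam k u τ) :=
  (eventually_ne_nhds hz).mono fun _ h => spin_eq hk hp ha h

theorem spin_ball {k : ℝ × E (m + 1) → E (m + 1) →L[ℝ] E (m + 1) →L[ℝ] ℝ} (hk : Fam k)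
    (hp : Prof A C δ β u v) (ha : Arc D β v s τ) :
    (∀ z, ‖z‖ < D → Good (spin k β u τ) z) ∧
    ((∀ z, z ≠ 0 → ‖z‖ < D → ∀ a b, area (spin k β u τ) z a b ≤ sec (spin k β u τ) z a b) →
      NormalBall (spin k β u τ) D) := by
  have β0 := hp.β0
  have e0 : spin k β u τ =ᶠ[𝓝 0] cap β :=
    (continuous_norm.continuousAt.eventually (gt_mem_nhds (a := β / 8) (by simpa))).mono
      fun z hz => if_pos hz
  have sm : ∀ z, ‖z‖ < D → ContDiffAt ℝ ∞ (spin k β u τ) z := by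
    intro z hD
    by_cases hz : z = 0
    · subst hz; exact (cap_cda β 0).congr_of_eventuallyEq e0
    have c : ContDiffAt ℝ ∞ (fun p : ℝ × E (m + 1) => τ p.1) (‖z‖, nr z) :=
      ha.cτ.contDiffAt.comp _ contDiffAt_fst
    have c1 : ContDiffAt ℝ ∞ (fun p : ℝ × E (m + 1) => u (τ p.1)) (‖z‖, nr z) :=
      (hp.cu _ (ha.mem _ ⟨norm_pos_iff.2 hz, hD⟩)).comp (‖z‖, nr z) c
    have c2 : ContDiffAt ℝ ∞ (fun p : ℝ × E (m + 1) => k (τ p.1, p.2)) (‖z‖, nr z) :=
      (hk.smooth (τ ‖z‖) _ (norm_nr hz)).comp (‖z‖, nr z) (c.prodMk contDiffAt_snd)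
    exact (Pol_cda hz ((contDiffAt_const.mul c1).exp.smul c2)).congr_of_eventuallyEq
      (spin_ev hk hp ha hz)
  have z0 : ∀ a b, spin k β u τ 0 a b = ⟪a, b⟫ := fun a b => by
    rw [e0.self_of_nhds, cap_apply]; simp
  have sy : ∀ z a b, spin k β u τ z a b = spin k β u τ z b a := by
    intro z a b
    by_cases hz : z = 0
    · rw [hz, z0, z0, real_inner_comm]
    rw [spin_eq hk hp ha hz]
    exact Pol_symm hz (fun a b h1 h2 => by
      simp only [fam, smul_apply, hk.symm _ _ (norm_nr hz) a b h1 h2]) a b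
  have po : ∀ z a, a ≠ 0 → 0 < spin k β u τ z a a := by
    intro z a h0
    by_cases hz : z = 0
    · rw [hz, z0]; exact real_inner_self_pos.2 h0
    rw [spin_eq hk hp ha hz]
    exact Pol_pos hz (fun a h1 h2 => mul_pos (exp_pos _) (hk.pos _ _ (norm_nr hz) a h1 h2)) a h0
  have go : ∀ z, ‖z‖ < D → Good (spin k β u τ) z := fun z hz =>
    ⟨(sm z hz).of_le (WithTop.coe_le_coe.2 le_top), Eventually.of_forall sy, po z⟩
  refine ⟨go, fun hc => ⟨sm, fun z _ => sy z, fun z _ => po z, fun z _ a => ?_,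
    fun z hD a b => ?_⟩⟩
  · by_cases hz : z = 0
    · simp [hz]
    rw [spin_eq hk hp ha hz, Pol_gauss _ hz]
  · by_cases hz : z = 0
    swap
    · exact hc z hz hD a b
    subst hz
    have c1 := (go 0 hD).sec_cont (z := fun z => z) (a := fun _ => a) (b := fun _ => b)
      continuousAt_id rfl continuousAt_const continuousAt_const
    have c0 : ∀ a b, ContinuousAt (fun z => spin k β u τ z a b) 0 := fun a b =>
      ((sm 0 hD).continuousAt.clm_apply continuousAt_const).clm_apply continuousAt_const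
    have c2 : ContinuousAt (fun z => area (spin k β u τ) z a b) 0 :=
      ((c0 a a).mul (c0 b b)).sub ((c0 a b).pow 2)
    refine le_of_tendsto_of_tendsto (b := 𝓝[≠] 0) (c2.tendsto.mono_left nhdsWithin_le_nhds)
      (c1.tendsto.mono_left nhdsWithin_le_nhds) ?_
    filter_upwards [self_mem_nhdsWithin, nhdsWithin_le_nhds
      (continuous_norm.continuousAt.eventually (gt_mem_nhds hD))] with z h1 h2 using hc z h1 h2 a b

theorem spin_curv {k : ℝ × E (m + 1) → E (m + 1) →L[ℝ] E (m + 1) →L[ℝ] ℝ} (hk : Fam k)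
    (hp : Prof A C δ β u v) (ha : Arc D β v s τ)
    (hc : ∀ t ∈ Ioo (0 : ℝ) 2, ∀ σ, Param σ 0 → ∀ U V,
      area (wp (fun r => exp (2 * v r)) (fun r => exp (2 * u r)) (slc k σ)) (t, 0) U V ≤
      sec (wp (fun r => exp (2 * v r)) (fun r => exp (2 * u r)) (slc k σ)) (t, 0) U V)
    (z : E (m + 1)) (hz : z ≠ 0) (hD : ‖z‖ < D) (a b : E (m + 1)) :
    area (spin k β u τ) z a b ≤ sec (spin k β u τ) z a b := by
  obtain ⟨σ, hσ, h0⟩ := exists_param (norm_nr hz)
  have r0 := norm_pos_iff.2 hz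
  have ds : Differentiable ℝ s := ha.cs.differentiable (by simp)
  have s0 : 0 < s (τ ‖z‖) := by rwa [ha.sτ]
  have ez : s (τ ‖z‖) • σ 0 = z := by rw [ha.sτ, h0, smul_nr hz]
  have c3 := hσ.chart_c3 (t := τ ‖z‖) (ha.cs.contDiffAt.of_le (WithTop.coe_le_coe.2 le_top))
  have e : pull (spin k β u τ) (fun q : ℝ × E m => s q.1 • σ q.2) =ᶠ[𝓝 (τ ‖z‖, 0)]
      wp (fun r => exp (2 * v r)) (fun r => exp (2 * u r)) (slc k σ) := by
    filter_upwards [chart_Pol (fam k u τ) hσ ds s0,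
      c3.continuousAt.eventually (eventually_ne_nhds (ez.trans_ne hz))] with p h1 h2
    refine ContinuousLinearMap.ext fun U => ContinuousLinearMap.ext fun V => ?_
    rw [pull_apply, spin_eq hk hp ha h2, ← pull_apply _ fun q : ℝ × E m => s q.1 • σ q.2, h1,
      ha.ds, ← exp_nat_mul]
    simp [fam, ha.τs, slc_apply]
  have bj := hσ.bij (ds (τ ‖z‖)) s0.ne' (by rw [ha.ds]; exact (exp_pos _).ne')
  obtain ⟨U, rfl⟩ := bj.2 a
  obtain ⟨V, rfl⟩ := bj.2 b
  have := hc _ (ha.mem _ ⟨r0, hD⟩) σ hσ U V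
  rw [← sec_congr e, Good.sec_pull (φ := fun q : ℝ × E m => s q.1 • σ q.2) (y := (τ ‖z‖, 0))
    ((spin_ball hk hp ha).1 _ (by rwa [ez])) c3 bj, area, ← e.self_of_nhds] at this
  simp only [pull_apply, ez] at this
  exact this

theorem Path.fam {f : E (m + 1) → E (m + 1)} {h : ℝ → Met (E (m + 1))} (hh : Path (E m) f h) :
    ∃ k : ℝ × E (m + 1) → E (m + 1) →L[ℝ] E (m + 1) →L[ℝ] ℝ, Fam k ∧
      (∀ t ≥ 3 / 2, ∀ u, ‖u‖ = 1 → ∀ a b, ⟪u, a⟫ = 0 → ⟪u, b⟫ = 0 →
        k (t, u) a b = ⟪fderiv ℝ f u a, fderiv ℝ f u b⟫) ∧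
      ∀ t σ y, Param σ y → ∀ a b, LinearIndependent ℝ ![a, b] →
        0 < sec (fun z => slc k σ (t, z)) y a b := by
  have mem : ∀ t, st 1 (1 / 2) t ∈ Icc (0 : ℝ) 1 := fun t => st_mem _ _ t
  refine ⟨fun p => h (st 1 (1 / 2) p.1) p.2, ⟨fun t u hu => ?_, fun t => hh.symm _ (mem t),
    fun t => hh.pos _ (mem t), fun t ht => ?_⟩, fun t ht => ?_, fun t σ y hσ a b hab => ?_⟩
  · have c : ContDiffAt ℝ ∞ (fun p : ℝ × E (m + 1) => (st 1 (1 / 2) p.1, p.2)) (t, u) :=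
      ((st_cd 1 (1 / 2)).contDiffAt.comp (t, u) contDiffAt_fst).prodMk contDiffAt_snd
    have := ContDiffAt.comp (g := fun p : ℝ × E (m + 1) => h p.1 p.2)
      (f := fun p : ℝ × E (m + 1) => (st 1 (1 / 2) p.1, p.2)) (t, u) (hh.smooth _ (mem t) u hu) c
    exact this
  · simp only [st_0 (k := 1) (j := 1 / 2) (t := t) (by linarith)]
    exact hh.zero
  · simp only [st_1 (k := 1) (j := 1 / 2) (t := t) (by linarith)]
    exact hh.one
  · exact hh.curv _ (mem t) σ y hσ a b hab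

theorem Fam.rev {f g : E n → E n} (hf : SphDiff f g) {k : ℝ × E n → E n →L[ℝ] E n →L[ℝ] ℝ}
    (hk : Fam k) (hi : ∀ t ≥ 3 / 2, ∀ u, ‖u‖ = 1 → ∀ a b, ⟪u, a⟫ = 0 → ⟪u, b⟫ = 0 →
      k (t, u) a b = ⟪fderiv ℝ f u a, fderiv ℝ f u b⟫) :
    ∃ k' : ℝ × E n → E n →L[ℝ] E n →L[ℝ] ℝ, Fam k' ∧
      ∀ t u a b, k' (t, u) a b = k (2 - t, g u) (fderiv ℝ g u a) (fderiv ℝ g u b) := by
  refine ⟨fun p => (k (2 - p.1, g p.2)).bilinearComp (fderiv ℝ g p.2) (fderiv ℝ g p.2),
    ⟨fun t u hu => cda2 fun a b => ?_, fun t u hu a b h1 h2 => ?_, fun t u hu a h1 h2 => ?_,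
      fun t ht u hu a b h1 h2 => ?_⟩, fun _ _ _ _ => rfl⟩
  · have s1 : ContDiffAt ℝ ∞ (fun p : ℝ × E n => fderiv ℝ g p.2) (t, u) :=
      ((hf.sg u hu).fderiv_right (by simp)).comp (t, u) contDiffAt_snd
    have s2 : ContDiffAt ℝ ∞ (fun p : ℝ × E n => (2 - p.1, g p.2)) (t, u) :=
      (contDiffAt_const.sub contDiffAt_fst).prodMk ((hf.sg u hu).comp (t, u) contDiffAt_snd)
    have s3 : ContDiffAt ℝ ∞ (fun p : ℝ × E n => k (2 - p.1, g p.2)) (t, u) :=
      (hk.smooth (2 - t) _ (hf.ng u hu)).comp (t, u) s2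
    exact (s3.clm_apply (s1.clm_apply contDiffAt_const)).clm_apply (s1.clm_apply contDiffAt_const)
  · exact hk.symm _ _ (hf.ng u hu) _ _ (hf.symm.perp hu h1) (hf.symm.perp hu h2)
  · exact hk.pos _ _ (hf.ng u hu) _ (hf.symm.perp hu h1) (hf.symm.ne hu h1 h2)
  · rw [ContinuousLinearMap.bilinearComp_apply, hi _ (by linarith) _ (hf.ng u hu) _ _
      (hf.symm.perp hu h1) (hf.symm.perp hu h2), hf.symm.left hu h1, hf.symm.left hu h2]

theorem backward {f g : E (m + 1) → E (m + 1)} (hf : SphDiff f g) {h : ℝ → Met (E (m + 1))}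
    (hh : Path (E m) f h) (D0 : 0 < D) (D1 : D < π) : Wied f D := by
  obtain ⟨k, hk, hi, hcv⟩ := hh.fam
  obtain ⟨A, C, δ, A0, C0, δ0, hc⟩ := hk.consts hcv
  obtain ⟨β, u, v, s, τ, hp, ha⟩ := profile A0 C0 δ0 D0 D1
  obtain ⟨k', hk', ka⟩ := hk.rev hf hi
  have c1 := spin_curv hk hp ha fun t ht σ hσ => by
    have hu : ContDiffAt ℝ 2 u t := (hp.cu t ht).of_le (WithTop.coe_le_coe.2 le_top)
    have hv : ContDiffAt ℝ 2 v t := hp.cv.contDiffAt.of_le (WithTop.coe_le_coe.2 le_top)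
    have rd : ∀ σ', Param σ' 0 → slc k σ =ᶠ[𝓝 (t, 0)] slc (fun _ => euc (m + 1)) σ' → ∀ U V,
        area (wp (fun r => exp (2 * v r)) (fun r => exp (2 * u r)) (slc k σ)) (t, 0) U V ≤
        sec (wp (fun r => exp (2 * v r)) (fun r => exp (2 * u r)) (slc k σ)) (t, 0) U V := by
      intro σ' hσ' e
      have s0 : ∀ b, sff (slc k σ) (t, 0) b b = 0 := fun b => by
        rw [sff, e.fderiv_eq, ← sff, euc_fam.sff_slc hσ']
        simp [sff]
      refine spindle (hk.good hσ t) hu hv (A := 0) (C := 0) (δ := 1) (by simp [s0])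
        (fun α a b h0 _ => ?_) (hp.out t ht).1 (hp.out t ht).2 (by simp [s0])
      rw [qq_congr e, hσ'.round_qq ht.1, ← e.self_of_nhds, h0]
      simp
    rcases lt_or_ge t (1 / 2) with h1 | h1
    · refine rd σ hσ ?_
      filter_upwards [(continuousAt_fst (p := (t, (0 : E m)))).eventually (gt_mem_nhds h1),
        (continuousAt_snd (p := (t, (0 : E m)))).eventually hσ.ev] with p e1 e2
      ext1 a; ext1 b
      exact hk.lo _ e1.le _ e2.2.self_of_nhds _ _ (unit_perp e2.1 e2.2 a) (unit_perp e2.1 e2.2 b)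
    rcases lt_or_ge (3 / 2) t with h2 | h2
    · refine rd _ (hσ.comp hf) ?_
      filter_upwards [(continuousAt_fst (p := (t, (0 : E m)))).eventually (lt_mem_nhds h2),
        (continuousAt_snd (p := (t, (0 : E m)))).eventually hσ.ev] with p e1 e2
      ext1 a; ext1 b
      rw [slc_apply, slc_apply, hi _ e1.le _ e2.2.self_of_nhds _ _ (unit_perp e2.1 e2.2 a)
        (unit_perp e2.1 e2.2 b), fderiv_fun_comp p.2 (hf.d e2.2.self_of_nhds) e2.1]
      rfl
    have m1 := hp.mid t ⟨h1, h2⟩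
    exact spindle (hk.good hσ t) hu hv (hc t ⟨h1, h2⟩ σ 0 hσ).1 (hc t ⟨h1, h2⟩ σ 0 hσ).2 m1.2.1
      m1.2.2 (by simp [m1.1])
  have gl : ∀ x, x ≠ 0 → ‖x‖ < D →
      spin k β u τ x = pull (spin k' β u τ) (fun z => (D - ‖z‖) • f (nr z)) x := by
    intro x hx hD
    ext1 a; ext1 b
    have dn : DifferentiableAt ℝ (fun z : E (m + 1) => ‖z‖) x :=
      (norm_cda (k := 1) hx).differentiableAt (by simp)
    have n0 : (D - ‖x‖) • f (nr x) ≠ 0 :=
      smul_ne_zero (sub_pos.2 hD).ne' (ne_of_unit (hf.nf _ (norm_nr hx)))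
    rw [pull_apply, spin_eq hk' hp ha n0, ← pull_apply _ fun z => (D - ‖z‖) • f (nr z),
      pull_Pol _ (dn.const_sub D) (hf.dF hx) (sub_pos.2 hD) (hf.evF hx), spin_eq hk hp ha hx,
      Pol_apply _ hx]
    simp only [fam, smul_apply, ka, ha.refl, hp.su, sub_sub_cancel, hf.gf _ (norm_nr hx),
      hf.fdF hx, hf.left (norm_nr hx) (nr_perp hx _), fderiv_const_sub, neg_apply, fd_norm hx,
      neg_mul_neg]
  refine ⟨_, _, (spin_ball hk hp ha).2 c1, (spin_ball hk' hp ha).2 fun z hz hD a b => ?_,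
    by simpa only [nr_def] using gl⟩
  have r0 := norm_pos_iff.2 hz
  have u1 := hf.ng _ (norm_nr hz)
  set x := (D - ‖z‖) • g (nr z) with hx
  have nx : ‖x‖ = D - ‖z‖ := norm_smul_unit u1 (sub_pos.2 hD).le
  have x0 : x ≠ 0 := smul_ne_zero (sub_pos.2 hD).ne' (ne_of_unit u1)
  have xD : ‖x‖ < D := by linarith
  have ez : (D - ‖x‖) • f (nr x) = z := by
    rw [nx, hx, nr_smul u1 (sub_pos.2 hD), hf.fg _ (norm_nr hz), sub_sub_cancel, smul_nr hz]
  have e : spin k β u τ =ᶠ[𝓝 x] pull (spin k' β u τ) fun z => (D - ‖z‖) • f (nr z) := by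
    filter_upwards [eventually_ne_nhds x0,
      continuous_norm.continuousAt.eventually (gt_mem_nhds xD)] with w h1 h2 using gl w h1 h2
  have inj : Function.Injective (fderiv ℝ (fun z => (D - ‖z‖) • f (nr z)) x) := by
    rw [injective_iff_map_eq_zero]
    intro w hw
    by_contra w0
    have := ((spin_ball hk hp ha).1 x xD).pos w w0
    rw [e.self_of_nhds, pull_apply, hw] at this
    simp at this
  have bj : Function.Bijective (fderiv ℝ (fun z => (D - ‖z‖) • f (nr z)) x) :=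
    ⟨inj, (LinearMap.injective_iff_surjective
      (f := (fderiv ℝ (fun z => (D - ‖z‖) • f (nr z)) x : E (m + 1) →ₗ[ℝ] E (m + 1)))).1 inj⟩
  obtain ⟨U, rfl⟩ := bj.2 a
  obtain ⟨V, rfl⟩ := bj.2 b
  have := c1 x x0 xD U V
  rw [sec_congr e, Good.sec_pull (φ := fun z => (D - ‖z‖) • f (nr z))
    ((spin_ball hk' hp ha).1 _ (by rwa [ez])) ((hf.cΦ D x0).of_le (WithTop.coe_le_coe.2 le_top))
    bj, area, e.self_of_nhds] at this
  simp only [pull_apply, ez] at this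
  exact this

end

end Pool.Agent.Lib.MP_c00cc5_gt
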