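import Pool.Agent.Lib.MP_c00cc5_gt.Cone
import Pool.Agent.Lib.MP_c00cc5_gt.Main

set_option autoImplicit false
set_option maxSynthPendingDepth 3
set_option linter.unusedSectionVars false
set_option linter.unusedSimpArgs false

namespace Pool.Agent.Lib.MP_c00cc5_gt

/-! Paths of positively curved metrics on the sphere with general ends. -/

open scoped ContDiff RealInnerProductSpace Topology
open Filter Set Real

variable {m : ℕ} {A B C : Met (E (m + 1))} {h k : ℝ × E (m + 1) → E (m + 1) →L[ℝ] E (m + 1) →L[ℝ] ℝ}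
  {σ : E m → E (m + 1)} {y : E m} {f g : E (m + 1) → E (m + 1)}

/-- equality on the tangent spaces of the unit sphere -/
def TE {n : ℕ} (A B : Met (E n)) : Prop :=
  ∀ u, ‖u‖ = 1 → ∀ a b, ⟪u, a⟫ = 0 → ⟪u, b⟫ = 0 → A u a b = B u a b

/-- a metric of positive curvature on the unit sphere -/
structure PC (A : Met (E (m + 1))) : Prop where
  symm : ∀ u, ‖u‖ = 1 → ∀ a b, ⟪u, a⟫ = 0 → ⟪u, b⟫ = 0 → A u a b = A u b a
  pos : ∀ u, ‖u‖ = 1 → ∀ a, ⟪u, a⟫ = 0 → a ≠ 0 → 0 < A u a a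
  curv : ∀ (σ : E m → E (m + 1)) (y : E m), Param σ y → ∀ a b, LinearIndependent ℝ ![a, b] →
    0 < sec (pull A σ) y a b

/-- a path from `A` to `B` -/
def Join (A B : Met (E (m + 1))) : Prop :=
  ∃ h : ℝ × E (m + 1) → E (m + 1) →L[ℝ] E (m + 1) →L[ℝ] ℝ,
    (∀ t u, ‖u‖ = 1 → ContDiffAt ℝ ∞ h (t, u)) ∧ (∀ t, PC fun u => h (t, u)) ∧
    (∀ t ≤ 0, TE (fun u => h (t, u)) A) ∧ ∀ t ≥ 1, TE (fun u => h (t, u)) B

theorem TE.pull (e : TE A B) (hσ : Param σ y) : pull A σ =ᶠ[𝓝 y] pull B σ := by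
  filter_upwards [hσ.ev] with z hz
  ext1 a; ext1 b
  exact e _ hz.2.self_of_nhds _ _ (unit_perp hz.1 hz.2 a) (unit_perp hz.1 hz.2 b)

theorem PC.congr (hA : PC A) (e : TE A B) : PC B where
  symm u hu a b ha hb := by rw [← e u hu a b ha hb, ← e u hu b a hb ha, hA.symm u hu a b ha hb]
  pos u hu a ha a0 := by rw [← e u hu a a ha ha]; exact hA.pos u hu a ha a0
  curv σ y hσ a b hab := by rw [← sec_congr (e.pull hσ)]; exact hA.curv σ y hσ a b hab

theorem Join.congr (hj : Join A B) (e : TE B C) : Join A C := by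
  obtain ⟨h, h1, h2, h3, h4⟩ := hj
  exact ⟨h, h1, h2, h3, fun t ht u hu a b ha hb => (h4 t ht u hu a b ha hb).trans (e u hu a b ha hb)⟩

theorem Join.symm (hj : Join A B) : Join B A := by
  obtain ⟨h, h1, h2, h3, h4⟩ := hj
  exact ⟨fun p => h (1 - p.1, p.2), fun t u hu => (h1 (1 - t) u hu).comp (t, u)
    ((contDiffAt_const.sub contDiffAt_fst).prodMk contDiffAt_snd), fun t => h2 (1 - t),
    fun t ht => h4 (1 - t) (by linarith), fun t ht => h3 (1 - t) (by linarith)⟩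

theorem Join.trans (hj : Join A B) (hk : Join B C) : Join A C := by
  obtain ⟨h, h1, h2, h3, h4⟩ := hj
  obtain ⟨k, k1, k2, k3, k4⟩ := hk
  have lo : ∀ t : ℝ, 2 * t ≤ 1 → TE (fun u => h (2 * t, u))
      fun u => h (2 * t, u) + k (2 * t - 1, u) - h (1, u) := fun t ht u hu a b ha hb => by
    have e1 := k3 (2 * t - 1) (by linarith) u hu a b ha hb
    have e2 := h4 1 le_rfl u hu a b ha hb
    simp only [add_apply, sub_apply] at *
    linarith
  have hi : ∀ t : ℝ, 1 ≤ 2 * t → TE (fun u => k (2 * t - 1, u))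
      fun u => h (2 * t, u) + k (2 * t - 1, u) - h (1, u) := fun t ht u hu a b ha hb => by
    have e1 := h4 (2 * t) ht u hu a b ha hb
    have e2 := h4 1 le_rfl u hu a b ha hb
    simp only [add_apply, sub_apply] at *
    linarith
  refine ⟨fun p => h (2 * p.1, p.2) + k (2 * p.1 - 1, p.2) - h (1, p.2), fun t u hu => ?_,
    fun t => ?_, fun t ht u hu a b ha hb => ?_, fun t ht u hu a b ha hb => ?_⟩
  · exact (((h1 (2 * t) u hu).comp (t, u) ((contDiffAt_const.mul contDiffAt_fst).prodMk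
      contDiffAt_snd)).add ((k1 (2 * t - 1) u hu).comp (t, u) (((contDiffAt_const.mul
      contDiffAt_fst).sub contDiffAt_const).prodMk contDiffAt_snd))).sub
      ((h1 1 u hu).comp (t, u) (contDiffAt_const.prodMk contDiffAt_snd))
  · rcases le_total (2 * t) 1 with e | e
    · exact (h2 _).congr (lo t e)
    · exact (k2 _).congr (hi t e)
  · exact (lo t (by linarith) u hu a b ha hb).symm.trans (h3 _ (by linarith) u hu a b ha hb)
  · exact (hi t (by linarith) u hu a b ha hb).symm.trans (k4 _ (by linarith) u hu a b ha hb)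

theorem Join.pull (hj : Join A B) (hf : SphDiff f g) : Join (pull A f) (pull B f) := by
  obtain ⟨h, h1, h2, h3, h4⟩ := hj
  refine ⟨fun p => MP_c00cc5_gt.pull (fun u => h (p.1, u)) f p.2, fun t u hu => ?_,
    fun t => ⟨fun u hu a b ha hb => ?_, fun u hu a ha a0 => ?_, fun σ y hσ a b hab => ?_⟩,
    fun t ht u hu a b ha hb => ?_, fun t ht u hu a b ha hb => ?_⟩
  · have s1 : ContDiffAt ℝ ∞ (fun p : ℝ × E (m + 1) => fderiv ℝ f p.2) (t, u) :=
      ((hf.sf u hu).fderiv_right (by simp)).comp (t, u) contDiffAt_snd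
    exact cda2 fun a b => (((h1 t _ (hf.nf u hu)).comp (t, u) (contDiffAt_fst.prodMk
      ((hf.sf u hu).comp (t, u) contDiffAt_snd))).clm_apply
      (s1.clm_apply contDiffAt_const)).clm_apply (s1.clm_apply contDiffAt_const)
  · exact (h2 t).symm _ (hf.nf u hu) _ _ (hf.perp hu ha) (hf.perp hu hb)
  · exact (h2 t).pos _ (hf.nf u hu) _ (hf.perp hu ha) (hf.ne hu ha a0)
  · rw [sec_congr (G' := MP_c00cc5_gt.pull (fun u => h (t, u)) fun z => f (σ z))
      (hσ.ev.mono fun z hz => pull_comp _ (hf.d hz.2.self_of_nhds) hz.1)]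
    exact (h2 t).curv _ y (hσ.comp hf) a b hab
  · exact h3 t ht _ (hf.nf u hu) _ _ (hf.perp hu ha) (hf.perp hu hb)
  · exact h4 t ht _ (hf.nf u hu) _ _ (hf.perp hu ha) (hf.perp hu hb)

theorem Join.path (hj : Join (fun _ => euc (m + 1)) (MP_c00cc5_gt.pull (fun _ => euc (m + 1)) f)) :
    ∃ h, Path (E m) f h := by
  obtain ⟨h, h1, h2, h3, h4⟩ := hj
  exact ⟨fun t u => h (t, u), fun t _ => h1 t, fun t _ => (h2 t).symm, fun t _ => (h2 t).pos,
    h3 0 le_rfl, h4 1 le_rfl, fun t _ => (h2 t).curv⟩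

theorem join_scale {c : ℝ} (hc : 0 < c) :
    Join (fun _ => euc (m + 1)) fun _ => c • euc (m + 1) := by
  have p : ∀ t, 0 < 1 - st 1 0 t + st 1 0 t * c := fun t => by
    obtain ⟨h0, h1⟩ := st_mem 1 0 t
    rcases h0.eq_or_lt with e | e
    · rw [← e]; norm_num
    · nlinarith [mul_pos e hc]
  refine ⟨fun p => (1 - st 1 0 p.1 + st 1 0 p.1 * c) • euc (m + 1), fun t u _ => ?_,
    fun t => ⟨fun u _ a b _ _ => by simp [real_inner_comm], fun u _ a _ a0 => ?_,
    fun σ y hσ a b hab => ?_⟩, fun t ht u hu a b ha hb => ?_, fun t ht u hu a b ha hb => ?_⟩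
  · have s := ((st_cd 1 0).comp contDiff_fst).contDiffAt (x := (t, u))
    exact ((contDiffAt_const.sub s).add (s.mul contDiffAt_const)).smul contDiffAt_const
  · exact mul_pos (p t) (real_inner_self_pos.2 a0)
  · have := ((euc_good _).pull (hσ.smooth.of_le (le_inf 3)) hσ.inj).sec_smul (p t) a b
    exact (mul_pos (p t) (hσ.round_pos hab)).trans_eq (this.symm.trans
      (sec_congr (Eventually.of_forall fun z => by ext1; ext1; rfl) a b))
  · simp [st_0 (k := 1) (j := 0) (t := t) (by linarith)]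
  · simp [st_1 (k := 1) (j := 0) (t := t) (by linarith)]

section

variable {P : Type} [NormedAddCommGroup P] [NormedSpace ℝ P] [FiniteDimensional ℝ P]

theorem fd_t {Y : Type} [NormedAddCommGroup Y] [NormedSpace ℝ Y] {Θ : ℝ × P → Y} {t : ℝ} {p : P}
    (h : DifferentiableAt ℝ Θ (t, p)) :
    HasDerivAt (fun s => Θ (s, p)) (fderiv ℝ Θ (t, p) (1, 0)) t :=
  h.hasFDerivAt.comp_hasDerivAt t ((hasDerivAt_id t).prodMk (hasDerivAt_const t p))

/-- the implicit function theorem for hitting times -/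
theorem hit {Θ : ℝ × P → ℝ} {t d : ℝ} {p : P} (h : Sm Θ (t, p))
    (hd : HasDerivAt (fun s => Θ (s, p)) d t) (d0 : d ≠ 0) :
    ∃ τ : P → ℝ, Sm τ p ∧ τ p = t ∧ ∀ᶠ q in 𝓝 p, Θ (τ q, q) = Θ (t, p) := by
  have e := (fd_t h.d).unique hd
  have s : Sm (fun z : ℝ × P => (Θ z, z.2)) (t, p) := h.mono fun z hz => hz.prodMk contDiffAt_snd
  obtain ⟨g, g1, g2, g3⟩ := s.inverse (bij_of_inj (by
    rw [injective_iff_map_eq_zero]
    rintro ⟨a, b⟩ hb
    rw [h.d.fderiv_prodMk differentiableAt_snd, fderiv_snd] at hb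
    obtain ⟨b1, b2⟩ := Prod.ext_iff.1 hb
    obtain rfl : b = 0 := b2
    have : (a, (0 : P)) = a • ((1 : ℝ), (0 : P)) := by simp
    rw [ContinuousLinearMap.prod_apply, this, map_smul, e] at b1
    rw [this, (mul_eq_zero.1 b1).resolve_right d0, zero_smul]) rfl)
  have c : ContDiff ℝ ∞ fun q : P => (Θ (t, p), q) := contDiff_const.prodMk contDiff_id
  refine ⟨fun q => (g (Θ (t, p), q)).1, (Sm.of contDiff_fst _).comp (Sm.comp (f := fun q =>
    (Θ (t, p), q)) g1 (Sm.of c p)), congrArg Prod.fst g2.self_of_nhds, ?_⟩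
  filter_upwards [c.continuous.continuousAt.eventually (show ∀ᶠ w in 𝓝 ((fun q : P =>
    (Θ (t, p), q)) p), _ from g3)] with q hq
  obtain ⟨q1, q2⟩ := Prod.ext_iff.1 hq
  have e : ((g (Θ (t, p), q)).1, q) = g (Θ (t, p), q) := Prod.ext rfl q2.symm
  rw [e]
  exact q1

end

end Pool.Agent.Lib.MP_c00cc5_gt
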