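import Pool.Agent.Lib.MP_c00cc5_gt.Jet

set_option autoImplicit false
set_option linter.unusedSectionVars false

namespace Pool.Agent.Lib.MP_c00cc5_gt

/-! Diffeomorphisms of a Euclidean space supported in the open unit ball. -/

open scoped ContDiff RealInnerProductSpace Topology
open Filter Set Metric

variable {W : Type} [NormedAddCommGroup W] [InnerProductSpace ℝ W] [FiniteDimensional ℝ W]

/-- a diffeomorphism that is the identity outside a smaller ball -/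
structure Kap (κ : W → W) : Prop where
  cd : ContDiff ℝ ∞ κ
  bij : Function.Bijective κ
  imm : ∀ x, Function.Injective (fderiv ℝ κ x)
  supp : ∃ ρ < (1 : ℝ), ∀ x, ρ ≤ ‖x‖ → κ x = x

variable {κ κ' : W → W}

theorem Kap.comp (h : Kap κ) (h' : Kap κ') : Kap fun x => κ (κ' x) where
  cd := h.cd.comp h'.cd
  bij := h.bij.comp h'.bij
  imm x := by
    rw [fderiv_fun_comp x (h.cd.differentiable (by simp) _) (h'.cd.differentiable (by simp) _)]
    exact (h.imm _).comp (h'.imm _)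
  supp := by
    obtain ⟨a, a1, a2⟩ := h.supp
    obtain ⟨b, b1, b2⟩ := h'.supp
    exact ⟨max a b, max_lt a1 b1, fun x hx => by
      rw [b2 x (le_of_max_le_right hx), a2 x (le_of_max_le_left hx)]⟩

theorem Kap.lt (h : Kap κ) (x : W) : ‖κ x‖ < 1 ↔ ‖x‖ < 1 := by
  obtain ⟨ρ, h1, h2⟩ := h.supp
  rw [← not_le, ← not_le]
  refine not_congr ⟨fun e => ?_, fun e => by rwa [h2 x (h1.le.trans e)]⟩
  rwa [← h.bij.1 (h2 _ (h1.le.trans e))]

theorem kap_small {u : W → W} (hu : ContDiff ℝ ∞ u) (hd : ∀ x, ‖fderiv ℝ u x‖ ≤ 1 / 2)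
    (hs : ∃ ρ < (1 : ℝ), ∀ x, ρ ≤ ‖x‖ → u x = 0) : Kap fun x => x + u x := by
  have d := hu.differentiable (by simp)
  have := FiniteDimensional.complete ℝ W
  have l : LipschitzWith (1 / 2) u := lipschitzWith_of_nnnorm_fderiv_le d fun x => by
    rw [← NNReal.coe_le_coe]
    simpa using hd x
  refine ⟨contDiff_id.add hu, ⟨fun x y e => ?_, fun y => ?_⟩, fun x => ?_,
    hs.imp fun ρ h => ⟨h.1, fun x hx => by rw [h.2 x hx, add_zero]⟩⟩
  · have h1 := l.dist_le_mul x y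
    have h2 : u x - u y = y - x := by
      rw [sub_eq_sub_iff_add_eq_add, add_comm]
      exact e
    rw [dist_eq_norm, h2, norm_sub_rev, dist_eq_norm] at h1
    push_cast at h1
    exact sub_eq_zero.1 (norm_le_zero_iff.1 (by linarith))
  · have c : ContractingWith (1 / 2) fun x => y - u x :=
      ⟨by norm_num, by simpa using (LipschitzWith.const y).sub l⟩
    exact ⟨c.fixedPoint _, (eq_sub_iff_add_eq.1 c.fixedPoint_isFixedPt.symm)⟩
  · rw [show fderiv ℝ (fun x => x + u x) x = _ from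
      ((hasFDerivAt_id x).add (d x).hasFDerivAt).fderiv]
    refine (injective_iff_map_eq_zero _).2 fun v e => ?_
    have h1 := (fderiv ℝ u x).le_of_opNorm_le (hd x) v
    have h2 : fderiv ℝ u x v = -v := eq_neg_of_add_eq_zero_right e
    rw [h2, norm_neg] at h1
    exact norm_le_zero_iff.1 (by linarith)

theorem kap_cut {β : W → ℝ} {v : W → W} {c : W} {R C a b : ℝ} (hβ : ContDiff ℝ ∞ β)
    (h1 : ∀ x, |β x| ≤ 1) (h0 : ∀ x, R ≤ ‖x - c‖ → β x = 0) (hC : ∀ x, ‖fderiv ℝ β x‖ ≤ C)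
    (hR : ‖c‖ + R < 1)
    (hv : ∀ x, ‖x - c‖ ≤ R → ContDiffAt ℝ ∞ v x ∧ ‖v x‖ ≤ a ∧ ‖fderiv ℝ v x‖ ≤ b)
    (hab : C * a + b ≤ 1 / 2) : Kap fun x => x + β x • v x := by
  have far : ∀ x, R < ‖x - c‖ → (fun x => β x • v x) =ᶠ[𝓝 x] fun _ => 0 := fun x hx => by
    have : ContinuousAt (fun x => ‖x - c‖) x := by fun_prop
    filter_upwards [this.eventually (lt_mem_nhds hx)] with z hz
    rw [h0 z hz.le, zero_smul]
  refine kap_small (contDiff_iff_contDiffAt.2 fun x => ?_) (fun x => ?_)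
    ⟨_, hR, fun x hx => ?_⟩
  · rcases le_or_gt ‖x - c‖ R with e | e
    · exact hβ.contDiffAt.smul (hv x e).1
    · exact contDiffAt_const.congr_of_eventuallyEq (far x e)
  · rcases le_or_gt ‖x - c‖ R with e | e
    · obtain ⟨v1, v2, v3⟩ := hv x e
      rw [fderiv_fun_smul (hβ.differentiable (by simp) x) (v1.differentiableAt (by simp))]
      refine (norm_add_le _ _).trans (le_trans ?_ hab)
      rw [norm_smul, ContinuousLinearMap.norm_smulRight_apply, add_comm]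
      exact add_le_add (mul_le_mul (hC x) v2 (norm_nonneg _) ((norm_nonneg _).trans (hC x)))
        ((mul_le_of_le_one_left (norm_nonneg _) (h1 x)).trans v3)
    · rw [(far x e).fderiv_eq]
      simp
  · rw [h0 x (by linarith [norm_sub_norm_le x c]), zero_smul]

theorem exists_bump {r R : ℝ} (h0 : 0 < r) (h1 : r < R) : ∃ (β : W → ℝ) (C : ℝ), 0 ≤ C ∧
    ContDiff ℝ ∞ β ∧ (∀ x, |β x| ≤ 1) ∧ (∀ x, ‖x‖ ≤ r → β x = 1) ∧ (∀ x, R ≤ ‖x‖ → β x = 0) ∧
      ∀ x, ‖fderiv ℝ β x‖ ≤ C := by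
  let β : ContDiffBump (0 : W) := ⟨r, R, h0, h1⟩
  obtain ⟨C, hC⟩ := ((β.contDiff (n := 1)).continuous_fderiv
    (by simp)).bounded_above_of_compact_support (β.hasCompactSupport.fderiv ℝ)
  exact ⟨β, C, (norm_nonneg _).trans (hC 0), β.contDiff,
    fun x => by rw [abs_of_nonneg β.nonneg]; exact β.le_one,
    fun x hx => β.one_of_mem_closedBall (mem_closedBall_zero_iff.2 hx),
    fun x hx => β.zero_of_le_dist (by rwa [dist_zero_right]), hC⟩

theorem kap_germ {η : W → W} {c : W} (hc : ‖c‖ < 1) (hη : Sm η c) (e : η c = c)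
    (hd : ∀ a, fderiv ℝ η c a = a) : ∃ κ, Kap κ ∧ κ =ᶠ[𝓝 c] η := by
  obtain ⟨β, C, C0, b1, b2, b3, b4, b5⟩ := exists_bump (W := W) one_pos one_lt_two
  have sv : Sm (fun x => η x - x) c := hη.mono fun _ h => h.sub contDiffAt_id
  have θ0 : 0 < 1 / (2 * (2 * C + 1)) := by positivity
  have d0 : fderiv ℝ (fun x => η x - x) c = 0 := by
    rw [show fderiv ℝ (fun x => η x - x) c = _ from
      (hη.d.hasFDerivAt.sub (hasFDerivAt_id c)).fderiv]
    ext a
    simp [hd]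
  have ev := sv.fd.ca.norm.eventually (gt_mem_nhds (a := 1 / (2 * (2 * C + 1))) (by simpa only [d0, norm_zero]))
  obtain ⟨ε, ε0, hε⟩ := Metric.eventually_nhds_iff.1 (Eventually.and sv ev)
  obtain ⟨δ, δ0, δ1, δ2⟩ : ∃ δ, 0 < δ ∧ 2 * δ < ε ∧ ‖c‖ + 2 * δ < 1 :=
    ⟨min ε (1 - ‖c‖) / 4, by have := sub_pos.2 hc; positivity, by linarith [min_le_left ε (1 - ‖c‖)],
      by linarith [min_le_right ε (1 - ‖c‖)]⟩
  have n : ∀ x : W, ‖δ⁻¹ • (x - c)‖ = δ⁻¹ * ‖x - c‖ := fun x => by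
    rw [norm_smul, norm_inv, Real.norm_of_nonneg δ0.le]
  have sm : ∀ x, ‖x - c‖ ≤ 2 * δ → _ := fun x hx => hε (y := x) (by rw [dist_eq_norm]; linarith)
  refine ⟨_, kap_cut (β := fun x => β (δ⁻¹ • (x - c))) (v := fun x => η x - x) (C := C * δ⁻¹)
    (a := 1 / (2 * (2 * C + 1)) * (2 * δ)) (b := 1 / (2 * (2 * C + 1)))
    (b1.comp ((contDiff_id.sub contDiff_const).const_smul _)) (fun x => b2 _)
    (fun x hx => b4 _ ?_) (fun x => ?_) δ2 (fun x hx => ⟨(sm x hx).1, ?_, (sm x hx).2.le⟩)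
    (le_of_eq (by field_simp)), ?_⟩
  · rwa [n, le_inv_mul_iff₀ δ0, mul_comm]
  · rw [show fderiv ℝ (fun x => β (δ⁻¹ • (x - c))) x = _ from
      ((b1.differentiable (by simp) _).hasFDerivAt.comp x
        (((hasFDerivAt_id x).sub_const c).const_smul δ⁻¹)).fderiv]
    refine (ContinuousLinearMap.opNorm_comp_le _ _).trans
      (mul_le_mul (b5 _) ?_ (norm_nonneg _) C0)
    rw [norm_smul, norm_inv, Real.norm_of_nonneg δ0.le]
    exact mul_le_of_le_one_right (inv_pos.2 δ0).le ContinuousLinearMap.norm_id_le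
  · have := (convex_closedBall c (2 * δ)).norm_image_sub_le_of_norm_fderiv_le (𝕜 := ℝ)
      (f := fun x => η x - x) (fun z hz => (sm z (mem_closedBall_iff_norm.1 hz)).1.differentiableAt
        (by simp)) (fun z hz => (sm z (mem_closedBall_iff_norm.1 hz)).2.le)
      (mem_closedBall_self (by positivity)) (mem_closedBall_iff_norm.2 hx)
    rw [e, sub_self, sub_zero] at this
    exact this.trans (mul_le_mul_of_nonneg_left hx θ0.le)
  · filter_upwards [closedBall_mem_nhds c δ0] with x hx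
    rw [b3 _ (by rw [n, inv_mul_le_iff₀ δ0, mul_one]; exact mem_closedBall_iff_norm.1 hx), one_smul,
      add_sub_cancel]

theorem kap_near {ρ : ℝ} (h0 : 0 < ρ) (h1 : ρ < 1) : ∃ θ > 0, ∀ (d : W) (S : W →L[ℝ] W),
    ‖d‖ ≤ θ → ‖S‖ ≤ θ → ∃ κ, Kap κ ∧ ∀ z, ‖z‖ ≤ ρ → κ z = z + (d + S z) := by
  obtain ⟨R, r1, r2⟩ := exists_between h1
  obtain ⟨β, C, C0, b1, b2, b3, b4, b5⟩ := exists_bump (W := W) h0 r1
  refine ⟨1 / (2 * (2 * C + 1)), by positivity, fun d S hd hS => ⟨_, kap_cut (c := 0) (R := R)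
    (v := fun z => d + S z) (a := 2 * (1 / (2 * (2 * C + 1)))) (b := 1 / (2 * (2 * C + 1))) b1 b2
    (fun x hx => b4 x (by simpa using hx)) b5 (by simpa using r2)
    (fun x hx => ⟨contDiffAt_const.add S.contDiff.contDiffAt, ?_, ?_⟩) (le_of_eq (by field_simp)),
    fun z hz => by rw [b3 z hz, one_smul]⟩⟩
  · rw [sub_zero] at hx
    have := (S.le_opNorm x).trans (mul_le_of_le_one_right (norm_nonneg _) (hx.trans r2.le))
    linarith [norm_add_le d (S x)]
  · rwa [fderiv_const_add, S.fderiv]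

/-- Two affine balls inside the unit ball with the same rotation part differ by such a
diffeomorphism. -/
theorem kap_aff (A : W ≃ₗᵢ[ℝ] W) {c c' : W} {L L' : W →L[ℝ] W} (h : ‖c‖ + ‖L‖ < 1)
    (hL : ∀ x, x ≠ 0 → 0 < ⟪A x, L x⟫) (h' : ‖c'‖ + ‖L'‖ < 1)
    (hL' : ∀ x, x ≠ 0 → 0 < ⟪A x, L' x⟫) :
    ∃ κ, Kap κ ∧ ∀ x, ‖x‖ ≤ 1 → κ (c + L x) = c' + L' x := by
  have := FiniteDimensional.complete ℝ W
  let Q : Set (W × (W →L[ℝ] W)) := {p | ‖p.1‖ + ‖p.2‖ < 1 ∧ ∀ x, x ≠ 0 → 0 < ⟪A x, p.2 x⟫}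
  have cv : Convex ℝ Q := fun p hp q hq a b a0 b0 e => ⟨?_, fun x hx => ?_⟩
  rotate_left
  · have h1 := norm_add_le (a • p.1) (b • q.1)
    have h2 := norm_add_le (a • p.2) (b • q.2)
    simp only [norm_smul, Real.norm_of_nonneg a0, Real.norm_of_nonneg b0] at h1 h2
    have h3 := (convex_Iio (1 : ℝ)) hp.1 hq.1 a0 b0 e
    simp only [smul_eq_mul, mem_Iio] at h3
    change ‖a • p.1 + b • q.1‖ + ‖a • p.2 + b • q.2‖ < 1
    linarith
  · have h3 := (convex_Ioi (0 : ℝ)) (hp.2 x hx) (hq.2 x hx) a0 b0 e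
    change 0 < ⟪A x, a • p.2 x + b • q.2 x⟫
    rwa [inner_add_right, inner_smul_right, inner_smul_right]
  have un : ∀ p ∈ Q, IsUnit p.2 := fun p hp => ContinuousLinearMap.isUnit_iff_bijective.2
    (bij_of_inj ((injective_iff_map_eq_zero _).2 fun x e => by
      by_contra hx
      simpa [e] using hp.2 x hx) rfl)
  refine cv.isPreconnected.induction₂' (fun p q => ∃ κ, Kap κ ∧ ∀ x, ‖x‖ ≤ 1 →
    κ (p.1 + p.2 x) = q.1 + q.2 x) (fun p hp => ?_) ?_ (x := (c, L)) (y := (c', L')) ⟨h, hL⟩ ⟨h', hL'⟩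
  · obtain ⟨ρ, r1, r2⟩ := exists_between hp.1
    obtain ⟨θ, θ0, hθ⟩ := kap_near (W := W) (lt_of_le_of_lt (by positivity) r1) r2
    have ci : ContinuousAt (fun z : (W × (W →L[ℝ] W)) × W × (W →L[ℝ] W) => Ring.inverse z.1.2)
        (p, p) := by
      obtain ⟨u, hu⟩ := un p hp
      exact ContinuousAt.comp (g := Ring.inverse) (hu ▸ NormedRing.inverse_continuousAt u)
        (by fun_prop)
    have cS : ContinuousAt (fun z : (W × (W →L[ℝ] W)) × W × (W →L[ℝ] W) =>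
        (z.2.2 - z.1.2) * Ring.inverse z.1.2) (p, p) := ContinuousAt.mul (by fun_prop) ci
    have cd : ContinuousAt (fun z : (W × (W →L[ℝ] W)) × W × (W →L[ℝ] W) =>
        z.2.1 - z.1.1 - ((z.2.2 - z.1.2) * Ring.inverse z.1.2) z.1.1) (p, p) :=
      ContinuousAt.sub (by fun_prop) (cS.clm_apply (by fun_prop))
    have cn : ContinuousAt (fun z : (W × (W →L[ℝ] W)) × W × (W →L[ℝ] W) =>
        ‖z.1.1‖ + ‖z.1.2‖) (p, p) := by fun_prop
    have key : ∀ᶠ z : (W × (W →L[ℝ] W)) × W × (W →L[ℝ] W) in 𝓝 (p, p), z.1 ∈ Q →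
        ∃ κ, Kap κ ∧ ∀ x, ‖x‖ ≤ 1 → κ (z.1.1 + z.1.2 x) = z.2.1 + z.2.2 x := by
      filter_upwards [cS.norm.eventually (gt_mem_nhds (a := θ) (by simpa)),
        cd.norm.eventually (gt_mem_nhds (a := θ) (by simpa)),
        cn.eventually (gt_mem_nhds r1)] with z z1 z2 z3 hz
      obtain ⟨κ, k1, k2⟩ := hθ _ _ z2.le z1.le
      refine ⟨κ, k1, fun x hx => ?_⟩
      have e := congrArg (fun T : W →L[ℝ] W => (z.2.2 - z.1.2) (T x))
        (Ring.inverse_mul_cancel _ (un _ hz))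
      have := (z.1.2.le_opNorm x).trans (mul_le_of_le_one_right (norm_nonneg _) hx)
      rw [k2 _ (by linarith [norm_add_le z.1.1 (z.1.2 x)]), map_add]
      change _ + (_ + (_ + (z.2.2 - z.1.2) (Ring.inverse z.1.2 (z.1.2 x)))) = _
      rw [show (z.2.2 - z.1.2) (Ring.inverse z.1.2 (z.1.2 x)) = z.2.2 x - z.1.2 x from e]
      abel
    have t1 : ContinuousAt (fun q : W × (W →L[ℝ] W) => (p, q)) p := by fun_prop
    have t2 : ContinuousAt (fun q : W × (W →L[ℝ] W) => (q, p)) p := by fun_prop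
    filter_upwards [nhdsWithin_le_nhds (t1.eventually key), nhdsWithin_le_nhds (t2.eventually key),
      self_mem_nhdsWithin] with q q1 q2 hq using ⟨q1 hp, q2 hq⟩
  · rintro p q r - - - ⟨κ, k1, k2⟩ ⟨κ', k3, k4⟩
    exact ⟨_, k3.comp k1, fun x hx => by rw [k2 x hx, k4 x hx]⟩

/-- The rotation part of an invertible linear map. -/
theorem exists_polar {L : W →L[ℝ] W} (hL : Function.Injective L) :
    ∃ A : W ≃ₗᵢ[ℝ] W, ∀ x, x ≠ 0 → 0 < ⟪A x, L x⟫ := by
  have hT := (L : W →ₗ[ℝ] W).isSymmetric_adjoint_comp_self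
  let b := hT.eigenvectorBasis rfl
  have n0 : ∀ i, 0 < ‖L (b i)‖ := fun i =>
    norm_pos_iff.2 ((map_ne_zero_iff L hL).2 (b.orthonormal.ne_zero i))
  have or : ∀ i j, i ≠ j → ⟪L (b i), L (b j)⟫ = 0 := fun i j e => by
    have h1 := hT.apply_eigenvectorBasis rfl j
    have h2 := LinearMap.adjoint_inner_right (L : W →ₗ[ℝ] W) (b i) (L (b j))
    change _ = ⟪L (b i), L (b j)⟫ at h2
    rw [← h2]
    refine (congrArg (fun z => ⟪b i, z⟫) h1).trans ?_
    change ⟪b i, _ • b j⟫ = 0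
    rw [inner_smul_right, b.orthonormal.2 e, mul_zero]
  have on : Orthonormal ℝ fun i => ‖L (b i)‖⁻¹ • L (b i) :=
    ⟨fun i => by rw [norm_smul, norm_inv, norm_norm, inv_mul_cancel₀ (n0 i).ne'],
      fun i j e => by simp only [inner_smul_left, inner_smul_right, or i j e, mul_zero]⟩
  let b' := OrthonormalBasis.mk on
    (on.linearIndependent.span_eq_top_of_card_eq_finrank' (by simp)).ge
  refine ⟨b.equiv b' (Equiv.refl _), fun x hx => ?_⟩
  have e : ⟪b.equiv b' (Equiv.refl _) x, L x⟫ = ∑ i, b.repr x i ^ 2 * ‖L (b i)‖ := by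
    conv_lhs => rw [← b.sum_repr x]
    simp only [map_sum, map_smul, OrthonormalBasis.equiv_apply_basis, Equiv.refl_apply, b',
      OrthonormalBasis.coe_mk, sum_inner, inner_sum, inner_smul_left, inner_smul_right]
    refine Finset.sum_congr rfl fun i _ => ?_
    rw [Finset.sum_eq_single i (fun j _ h => by rw [or _ _ h]; simp) (by simp),
      real_inner_self_eq_norm_sq]
    have := (n0 i).ne'
    simp only [conj_trivial]
    field_simp
  rw [e]
  obtain ⟨i, hi⟩ : ∃ i, b.repr x i ≠ 0 := by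
    by_contra! h
    exact hx (b.repr.injective (by ext i; simp [h i]))
  exact Finset.sum_pos' (fun j _ => mul_nonneg (sq_nonneg _) (n0 j).le)
    ⟨i, Finset.mem_univ _, mul_pos (by positivity) (n0 i)⟩

end Pool.Agent.Lib.MP_c00cc5_gt
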