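import Pool.Agent.Lib.MP_c00cc5_gt.Pole

set_option autoImplicit false
set_option maxSynthPendingDepth 3
set_option linter.unusedSectionVars false
set_option linter.unusedSimpArgs false

namespace Pool.Agent.Lib.MP_c00cc5_gt

/-! A Morse function with two critical points and positively curved levels. -/

open scoped ContDiff RealInnerProductSpace Topology
open Filter Set Real

variable {V W : Type} [NormedAddCommGroup V] [InnerProductSpace ℝ V] [FiniteDimensional ℝ V]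
  [NormedAddCommGroup W] [NormedSpace ℝ W] [FiniteDimensional ℝ W]
  {M : Set V} {G K : Met V} {φ : W → V} {y : W} {p q x z : V} {F₁ F₂ θ : V → ℝ} {m : ℕ}

/-- the Morse data -/
structure Mor (m : ℕ) (M : Set V) (K : Met V) (θ : V → ℝ) (p q : V) : Prop where
  cpt : IsCompact M
  sub : Submfd (E (m + 1)) M
  sK : ∀ x ∈ M, ContDiffAt ℝ ∞ K x ∧ (∀ a b, K x a b = K x b a) ∧ ∀ a, a ≠ 0 → 0 < K x a a
  sθ : ∀ x ∈ M, ContDiffAt ℝ ∞ θ x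
  hp : p ∈ M
  hq : q ∈ M
  min : IsMinOn θ M p
  max : IsMaxOn θ M q
  reg : ∀ x ∈ M, x ≠ p → x ≠ q → ∃ v, Tan M x v ∧ fderiv ℝ θ x v ≠ 0
  nd₁ : ∀ (φ : E (m + 1) → V) y, Par M φ y → φ y = p → ∀ u, u ≠ 0 →
    0 < fderiv ℝ (fderiv ℝ fun z => θ (φ z)) y u u
  nd₂ : ∀ (φ : E (m + 1) → V) y, Par M φ y → φ y = q → ∀ u, u ≠ 0 →
    0 < fderiv ℝ (fderiv ℝ fun z => -θ (φ z)) y u u
  lev : ∀ (φ : E (m + 1) → V) (σ : E m → E (m + 1)) y c, Par M φ (σ y) → ContDiffAt ℝ ∞ σ y →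
    Function.Injective (fderiv ℝ σ y) → φ (σ y) ≠ p → φ (σ y) ≠ q →
    (∀ᶠ z in 𝓝 y, θ (φ (σ z)) = c) → ∀ a b, LinearIndependent ℝ ![a, b] →
    0 < sec (pull (pull K φ) σ) y a b

theorem Mor.symm (h : Mor m M K θ p q) : Mor m M K (fun x => -θ x) q p where
  cpt := h.cpt
  sub := h.sub
  sK := h.sK
  sθ x hx := (h.sθ x hx).neg
  hp := h.hq
  hq := h.hp
  min := h.max.neg
  max := h.min.neg
  reg x hx h1 h2 := by simpa using h.reg x hx h2 h1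
  nd₁ := h.nd₂
  nd₂ := by simpa using h.nd₁
  lev φ σ y c h1 h2 h3 h4 h5 h6 := h.lev φ σ y (-c) h1 h2 h3 h5 h4
    (h6.mono fun _ => neg_eq_iff_eq_neg.1)

/-- two functions with convexity, obtuse gradients and not both negative -/
structure Two (W : Type) [NormedAddCommGroup W] [NormedSpace ℝ W] (M : Set V) (G : Met V)
    (F₁ F₂ : V → ℝ) : Prop where
  geo : Geo W M G
  lt : ∀ x ∈ M, ∀ z ∈ M, dst M G x z < π
  c₁ : CC M G F₁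
  c₂ : CC M G F₂
  ob : ∀ x ∈ M, ∀ n, Grad M G F₁ x n → F₁ x * F₂ x + fderiv ℝ F₂ x n < 0
  nn : ∀ x ∈ M, 0 < F₁ x ∨ 0 < F₂ x

theorem Geo.grad' (h : Geo W M G) (hx : x ∈ M) {A : V → ℝ} (hA : ContDiffAt ℝ ∞ A x) :
    ∃ n, Grad M G A x n := by
  obtain ⟨φ, y, hp, rfl, -⟩ := h.sub x hx
  exact ⟨_, h.grad hp (cda_d hA)⟩

theorem Two.symm (h : Two W M G F₁ F₂) : Two W M G F₂ F₁ :=
  ⟨h.geo, h.lt, h.c₂, h.c₁, fun x hx n hn => by
    obtain ⟨n', hn'⟩ := h.geo.grad' hx (h.c₁.sm x hx)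
    rw [← hn'.2 n hn.1, h.geo.symm, hn.2 n' hn'.1, mul_comm]
    exact h.ob x hx n' hn', fun x hx => (h.nn x hx).symm⟩

theorem CC.comb (h₁ : CC M G F₁) (h₂ : CC M G F₂) {a b : ℝ} (ha : 0 < a) (hb : 0 < b) :
    CC M G fun x => a * F₁ x + b * F₂ x := by
  have s := fun x hx => (contDiffAt_const (c := a).mul (h₁.sm x hx)).add
    (contDiffAt_const (c := b).mul (h₂.sm x hx))
  refine ⟨s, fun x hx v w hj v0 => ?_⟩
  obtain ⟨c, hc, -⟩ := hj.1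
  rw [(HH_of (cda2_of (s x hx)) hc (((hc.hh (cda2_of (h₁.sm x hx))).cmul a).add
    ((hc.hh (cda2_of (h₂.sm x hx))).cmul b))).2]
  nlinarith [mul_pos ha (h₁.pos x hx v w hj v0), mul_pos hb (h₂.pos x hx v w hj v0)]

/-- the radius -/
noncomputable def rad (F₁ F₂ : V → ℝ) (x : V) : ℝ := √(2 * (F₁ x ^ 2 + F₂ x ^ 2))

/-- the tangent of half the angle -/
noncomputable def ang (F₁ F₂ : V → ℝ) (x : V) : ℝ :=
  (F₂ x - F₁ x) / (rad F₁ F₂ x + (F₁ x + F₂ x))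

theorem ang_symm (F₁ F₂ : V → ℝ) : ang F₂ F₁ = fun x => -ang F₁ F₂ x := funext fun x => by
  simp only [ang, rad, add_comm (F₂ x), add_comm (F₂ x ^ 2)]
  ring

theorem Two.rad (h : Two W M G F₁ F₂) (hx : x ∈ M) : 0 < rad F₁ F₂ x ∧
    ContDiffAt ℝ ∞ (rad F₁ F₂) x ∧ ContDiffAt ℝ ∞ (ang F₁ F₂) x ∧
    (rad F₁ F₂ x)⁻¹ * F₁ x = (1 - ang F₁ F₂ x ^ 2 - 2 * ang F₁ F₂ x) / (2 * (1 + ang F₁ F₂ x ^ 2)) ∧
    (rad F₁ F₂ x)⁻¹ * F₂ x =
      (1 - ang F₁ F₂ x ^ 2 + 2 * ang F₁ F₂ x) / (2 * (1 + ang F₁ F₂ x ^ 2)) := by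
  have p0 : 0 < 2 * (F₁ x ^ 2 + F₂ x ^ 2) := by
    rcases h.nn x hx with e | e <;> positivity
  have r0 : 0 < MP_c00cc5_gt.rad F₁ F₂ x := sqrt_pos.2 p0
  have r2 : MP_c00cc5_gt.rad F₁ F₂ x ^ 2 = _ := sq_sqrt p0.le
  have a0 : 0 < MP_c00cc5_gt.rad F₁ F₂ x + (F₁ x + F₂ x) := by
    by_contra e
    have e1 : (F₁ x - F₂ x) ^ 2 ≤ 0 := by nlinarith
    have e2 : F₁ x = F₂ x := sub_eq_zero.1 (pow_eq_zero_iff two_ne_zero |>.1
      (e1.antisymm (sq_nonneg _)))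
    rcases h.nn x hx with e | e <;> linarith
  have c : ContDiffAt ℝ ∞ (MP_c00cc5_gt.rad F₁ F₂) x := (contDiffAt_const.mul
    (((h.c₁.sm x hx).pow 2).add ((h.c₂.sm x hx).pow 2))).sqrt p0.ne'
  refine ⟨r0, c, ((h.c₂.sm x hx).sub (h.c₁.sm x hx)).div
    (c.add ((h.c₁.sm x hx).add (h.c₂.sm x hx))) a0.ne', ?_, ?_⟩
  all_goals
    unfold ang
    generalize MP_c00cc5_gt.rad F₁ F₂ x = r at *
    field_simp
  · linear_combination (-(r + 2 * F₁ x)) * r2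
  · linear_combination (-(r + 2 * F₂ x)) * r2

/-- critical points of the angle -/
def Crit (M : Set V) (F₁ F₂ : V → ℝ) (x : V) : Prop :=
  ∀ w, Tan M x w → F₁ x * fderiv ℝ F₂ x w - F₂ x * fderiv ℝ F₁ x w = 0

theorem Crit.symm (h : Crit M F₁ F₂ x) : Crit M F₂ F₁ x := fun w hw => by linarith [h w hw]

theorem Two.jet (h : Two W M G F₁ F₂) (hx : x ∈ M) : ∃ k, 0 < k ∧ ∀ c v b, J2 c x v b →
    (∀ᶠ s in 𝓝 0, c s ∈ M) → F₁ x * fderiv ℝ F₂ x v - F₂ x * fderiv ℝ F₁ x v =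
      fderiv ℝ (ang F₁ F₂) x v * k ∧ (fderiv ℝ (ang F₁ F₂) x v = 0 →
      F₁ x * HH F₂ x v b - F₂ x * HH F₁ x v b = HH (ang F₁ F₂) x v b * k) := by
  obtain ⟨r0, r1, r2, r3, r4⟩ := h.rad hx
  obtain ⟨κ, hκ⟩ : ∃ κ : V → ℝ, κ = fun z => MP_c00cc5_gt.rad F₁ F₂ x * MP_c00cc5_gt.rad F₁ F₂ z *
    (1 + ang F₁ F₂ z * ang F₁ F₂ x) / ((1 + ang F₁ F₂ z ^ 2) * (1 + ang F₁ F₂ x ^ 2)) := ⟨_, rfl⟩
  have cκ : ContDiffAt ℝ ∞ κ x := hκ ▸ ((contDiffAt_const.mul r1).mul (contDiffAt_const.add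
    (r2.mul contDiffAt_const))).div ((contDiffAt_const.add (r2.pow 2)).mul contDiffAt_const)
    (by positivity)
  refine ⟨κ x, by rw [hκ]; have := mul_self_nonneg (ang F₁ F₂ x); positivity,
    fun c v b hc hm => ?_⟩
  have := (((hc.hh (cda2_of (h.c₂.sm x hx))).cmul (F₁ x)).add
    ((hc.hh (cda2_of (h.c₁.sm x hx))).cmul (-F₂ x))).unique
    ((((hc.hh (cda2_of r2)).add (J2.const (-ang F₁ F₂ x))).mul (hc.hh (cda2_of cκ))).congr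
    (hm.mono fun s hs => by
      obtain ⟨s0, -, -, s3, s4⟩ := h.rad hs
      rw [inv_mul_eq_iff_eq_mul₀ r0.ne'] at r3 r4
      rw [inv_mul_eq_iff_eq_mul₀ s0.ne'] at s3 s4
      simp only [hκ]
      generalize ang F₁ F₂ x = a, ang F₁ F₂ (c s) = a', MP_c00cc5_gt.rad F₁ F₂ x = r,
        MP_c00cc5_gt.rad F₁ F₂ (c s) = r' at *
      rw [r3, r4, s3, s4]
      field_simp
      ring))
  simp only [add_neg_cancel, zero_mul, add_zero] at this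
  exact ⟨by linarith [this.1], fun e => by rw [e] at this; linarith [this.2]⟩

theorem Two.crit (h : Two W M G F₁ F₂) (hx : x ∈ M) :
    Crit M F₁ F₂ x ↔ ∀ w, Tan M x w → fderiv ℝ (ang F₁ F₂) x w = 0 := by
  obtain ⟨k, k0, hk⟩ := h.jet hx
  refine forall₂_congr fun w ⟨c, b, hc, hm⟩ => ?_
  rw [(hk c w b hc hm).1, mul_eq_zero, or_iff_left k0.ne']

theorem Two.sign (h : Two W M G F₁ F₂) (hx : x ∈ M) (hc : Crit M F₁ F₂ x) (h1 : 0 < F₁ x) :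
    F₂ x < 0 := by
  obtain ⟨n, hn⟩ := h.geo.grad' hx (h.c₁.sm x hx)
  have e := hc n hn.1
  rw [← hn.2 n hn.1] at e
  by_contra h2
  nlinarith [mul_pos h1 (neg_pos.2 (h.ob x hx n hn)), mul_nonneg (not_lt.1 h2) (h.geo.nn x n),
    mul_nonneg (not_lt.1 h2) (sq_nonneg (F₁ x))]

theorem Two.cc (h : Two W M G F₁ F₂) (hx : x ∈ M) (hc : Crit M F₁ F₂ x) (h1 : 0 < F₁ x) :
    CC M G fun z => -F₂ x * F₁ z + F₁ x * F₂ z :=
  h.c₁.comb h.c₂ (neg_pos.2 (h.sign hx hc h1)) h1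

theorem Two.uniq (h : Two W M G F₁ F₂) (hx : x ∈ M) (hc : Crit M F₁ F₂ x) (h1 : 0 < F₁ x)
    (hz : z ∈ M) (hc' : Crit M F₁ F₂ z) (h1' : 0 < F₁ z) : x = z := by
  have k : ∀ {x z}, x ∈ M → Crit M F₁ F₂ x → 0 < F₁ x → z ∈ M → x ≠ z →
      0 < -F₂ x * F₁ z + F₁ x * F₂ z := fun {x z} hx hc h1 hz e => by
    have := h.geo.crit hz hx (h.lt z hz x hx) e (h.cc hx hc h1) fun w hw => by
      rw [(((cda_d (h.c₁.sm x hx)).hasFDerivAt.const_mul _).fun_add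
        ((cda_d (h.c₂.sm x hx)).hasFDerivAt.const_mul _)).fderiv]
      simp only [add_apply, smul_apply, smul_eq_mul]
      linarith [hc w hw]
    rwa [show -F₂ x * F₁ x + F₁ x * F₂ x = 0 by ring, zero_mul] at this
  by_contra e
  linarith [k hx hc h1 hz e, k hz hc' h1' hx (Ne.symm e)]

theorem Two.nd (h : Two W M G F₁ F₂) (hp : Par M φ y) (hc : Crit M F₁ F₂ (φ y))
    (h1 : 0 < F₁ (φ y)) {u : W} (hu : u ≠ 0) :
    0 < fderiv ℝ (fderiv ℝ fun z => ang F₁ F₂ (φ z)) y u u := by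
  obtain ⟨k, k0, hk⟩ := h.jet hp.m
  have a := (h.rad hp.m).2.2.1
  have j := h.geo.gj hp u
  have v0 : fderiv ℝ φ y u ≠ 0 := fun e => hu (hp.inj (e.trans (map_zero _).symm))
  obtain ⟨c, c1, c2⟩ := j.1
  have e := (hk c _ _ c1 c2).2 ((h.crit hp.m).1 hc _ j.tan)
  rw [hp.hh _ (cda2_of a), hess, fd_comp (cda_d a) hp.sm.d, (h.crit hp.m).1 hc _ (hp.tan _),
    sub_zero] at e
  refine pos_of_mul_pos_left ?_ k0.le
  rw [← e]
  nlinarith [mul_pos h1 (h.c₂.pos _ hp.m _ _ j v0),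
    mul_pos (neg_pos.2 (h.sign hp.m hc h1)) (h.c₁.pos _ hp.m _ _ j v0)]

theorem Par.min2 (hp : Par M φ y) (hθ : ContDiffAt ℝ ∞ θ (φ y)) (hm : IsMinOn θ M (φ y)) (u : W) :
    ¬0 < fderiv ℝ (fderiv ℝ fun z => -θ (φ z)) y u u := by
  have c : ContDiffAt ℝ 2 (fun z => θ (φ z)) y := (cda2_of hθ).comp y hp.sm.c2
  have j := (J2.line y u).comp c
  have := (j.uj.lower (((J2.line y u).t.eventually hp.mem).mono fun s hs => hm hs)).2
  have e := (((J2.line y u).comp c.neg).unique (j.cmul (-1) |>.congr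
    (Eventually.of_forall fun s => neg_one_mul _))).2
  simp only [map_zero, add_zero] at this e
  linarith

theorem Two.min [Nontrivial W] (h : Two W M G F₁ F₂) (hx : x ∈ M) (hm : IsMinOn (ang F₁ F₂) M x) :
    Crit M F₁ F₂ x ∧ 0 < F₁ x := by
  have c := (h.crit hx).2 fun w hw => hw.min (cda_d (h.rad hx).2.2.1) hm
  refine ⟨c, (h.nn x hx).resolve_right fun h2 => ?_⟩
  obtain ⟨φ, y, hp, rfl, -⟩ := h.geo.sub x hx
  obtain ⟨u, hu⟩ := exists_ne (0 : W)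
  have := h.symm.nd hp c.symm h2 hu
  rw [ang_symm] at this
  exact hp.min2 (h.rad hx).2.2.1 hm u this

theorem Two.mor (h : Two (E (m + 1)) M G F₁ F₂) (hM : M.Nonempty) : ∃ K θ p q, Mor m M K θ p q := by
  have ca : ContinuousOn (ang F₁ F₂) M := fun x hx =>
    (h.rad hx).2.2.1.continuousAt.continuousWithinAt
  obtain ⟨p, hp, mp⟩ := h.geo.cpt.exists_isMinOn hM ca
  obtain ⟨q, hq, mq⟩ := h.geo.cpt.exists_isMaxOn hM ca
  obtain ⟨p1, p2⟩ := h.min hp mp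
  obtain ⟨q1, q2⟩ := h.symm.min hq (by rw [ang_symm]; exact mq.neg)
  have nc : ∀ x ∈ M, x ≠ p → x ≠ q → ¬Crit M F₁ F₂ x := fun x hx h1 h2 hc =>
    (h.nn x hx).elim (fun e => h1 (h.uniq hx hc e hp p1 p2))
      fun e => h2 (h.symm.uniq hx hc.symm e hq q1 q2)
  obtain ⟨ρ, hρ⟩ : ∃ ρ : V → ℝ, ρ = fun x => (MP_c00cc5_gt.rad F₁ F₂ x)⁻¹ := ⟨_, rfl⟩
  have ρ0 : ∀ x ∈ M, 0 < ρ x := fun x hx => hρ ▸ inv_pos.2 (h.rad hx).1
  have cρ : ∀ x ∈ M, ContDiffAt ℝ ∞ ρ x := fun x hx => hρ ▸ (h.rad hx).2.1.inv (h.rad hx).1.ne'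
  refine ⟨fun x => (fderiv ℝ ρ x).smulRight (fderiv ℝ ρ x) + ρ x ^ 2 • G x, ang F₁ F₂, p, q,
    h.geo.cpt, h.geo.sub, fun x hx => ⟨cda2 fun a b => ?_, fun a b => ?_, fun a ha => ?_⟩,
    fun x hx => (h.rad hx).2.2.1, hp, hq, mp, mq, fun x hx h1 h2 => ?_,
    fun φ y hφ e u hu => h.nd hφ (e ▸ p1) (e ▸ p2) hu, fun φ y hφ e u hu => ?_,
    fun φ σ y c hφ hσ hi h1 h2 hc a b hab => ?_⟩
  · have d : ContDiffAt ℝ ∞ (fderiv ℝ ρ) x := (cρ x hx).fderiv_right (by simp)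
    exact ((d.clm_apply contDiffAt_const).mul (d.clm_apply contDiffAt_const)).add
      (((cρ x hx).pow 2).mul ((h.geo.smooth.contDiffAt.clm_apply contDiffAt_const).clm_apply
      contDiffAt_const))
  · simp [h.geo.symm x a b, mul_comm]
  · exact add_pos_of_nonneg_of_pos (mul_self_nonneg _)
      (mul_pos (pow_pos (ρ0 x hx) 2) (h.geo.pos x a ha))
  · simpa using mt (h.crit hx).2 (nc x hx h1 h2)
  · have := h.symm.nd hφ (e ▸ q1) (e ▸ q2) hu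
    rwa [ang_symm] at this
  · have m0 := hφ.m
    have s1 : ContDiffAt ℝ 2 (fun z => F₁ (φ z)) (σ y) := (cda2_of (h.c₁.sm _ m0)).comp _ hφ.sm.c2
    have s2 : ContDiffAt ℝ 2 (fun z => F₂ (φ z)) (σ y) := (cda2_of (h.c₂.sm _ m0)).comp _ hφ.sm.c2
    have ev := hσ.continuousAt.eventually hφ.ev
    obtain ⟨r, hr⟩ := hφ.ch h.geo.sub
    obtain ⟨w, w1, w2⟩ : ∃ w, Tan M _ w ∧ _ := by simpa [Crit] using nc _ m0 h1 h2
    obtain ⟨u, rfl⟩ := hr.tan w1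
    refine (level_sec (ρ := fun z => ρ (φ (σ z))) (h.geo.pg hφ) (h.geo.curv φ _ hφ) s1 s2
      (fun u hu => h.geo.cc h.c₁ hφ hu) (fun u hu => h.geo.cc h.c₂ hφ hu) ?_ (u := u) ?_
      (((cρ _ m0).comp y (hφ.sm.cda.comp y hσ)).of_le (le_inf 3)) (hσ.of_le (le_inf 3)) (ρ0 _ m0) hi
      (by simp) (c := (1 - c ^ 2 - 2 * c) / (2 * (1 + c ^ 2)))
      (d := (1 - c ^ 2 + 2 * c) / (2 * (1 + c ^ 2))) ?_ ?_ hab).trans_eq (sec_congr ?_ a b)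
    · rw [fd_comp (cda_d (h.c₂.sm _ m0)) hφ.sm.d]
      exact h.ob _ m0 _ (h.geo.grad hφ (cda_d (h.c₁.sm _ m0)))
    · rwa [fd_comp (cda_d (h.c₂.sm _ m0)) hφ.sm.d, fd_comp (cda_d (h.c₁.sm _ m0)) hφ.sm.d]
    · filter_upwards [ev, hc] with z z1 z2
      rw [← z2, hρ]
      exact (h.rad z1.m).2.2.2.1
    · filter_upwards [ev, hc] with z z1 z2
      rw [← z2, hρ]
      exact (h.rad z1.m).2.2.2.2
    · filter_upwards [ev, c2_ev (cda2_of hσ)] with z z1 z2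
      ext1 a; ext1 b
      have d := cda_d (cρ _ z1.m)
      rw [pull_cone _ (ρ := fun z => ρ (φ (σ z))) (d.comp z (z1.sm.d.comp z z2)) z2]
      simp only [fd_comp (g := ρ) (f := fun z => φ (σ z)) d (z1.sm.d.comp z z2), fd_comp z1.sm.d z2]
      rfl

end Pool.Agent.Lib.MP_c00cc5_gt
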