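import Pool.Agent.Lib.MP_c00cc5_gt.Join

set_option autoImplicit false
set_option maxSynthPendingDepth 3
set_option linter.unusedSectionVars false
set_option linter.unusedSimpArgs false

namespace Pool.Agent.Lib.MP_c00cc5_gt

/-! Star-shaped level sets and small level sets around a nondegenerate minimum. -/

open scoped ContDiff RealInnerProductSpace Topology
open Filter Set Real

variable {m : ℕ}

theorem ray_d {n : ℕ} {θ : E n → ℝ} {u : E n} {r : ℝ} (hr : r ≠ 0)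
    (h : DifferentiableAt ℝ θ (r • u)) :
    HasDerivAt (fun s : ℝ => θ (s • u)) (r⁻¹ * fderiv ℝ θ (r • u) (r • u)) r := by
  have := h.hasFDerivAt.comp_hasDerivAt r ((hasDerivAt_id r).smul_const u)
  rw [map_smul, smul_eq_mul, inv_mul_cancel_left₀ hr]
  rw [one_smul] at this
  exact this

theorem ray_mono {n : ℕ} {I : Set ℝ} (Ic : Convex ℝ I) (I0 : ∀ r ∈ I, 0 < r) {θ : E n → ℝ}
    (h : ∀ y, ‖y‖ ∈ I → DifferentiableAt ℝ θ y ∧ 0 < fderiv ℝ θ y y) {u : E n} (hu : ‖u‖ = 1) :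
    StrictMonoOn (fun s : ℝ => θ (s • u)) I := by
  have k := fun r (hr : r ∈ I) => h (r • u) (by rwa [norm_smul_unit hu (I0 r hr).le])
  refine strictMonoOn_of_deriv_pos Ic (fun r hr =>
    (ray_d (I0 r hr).ne' (k r hr).1).continuousAt.continuousWithinAt) fun r hr => ?_
  have hr := interior_subset hr
  rw [(ray_d (I0 r hr).ne' (k r hr).1).deriv]
  exact mul_pos (inv_pos.2 (I0 r hr)) (k r hr).2

theorem ray_join {I : Set ℝ} (Io : IsOpen I) (Ic : Convex ℝ I) (I0 : ∀ r ∈ I, 0 < r)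
    {K : ℝ × E (m + 1) → E (m + 1) →L[ℝ] E (m + 1) →L[ℝ] ℝ} {θ : ℝ × E (m + 1) → ℝ}
    (hK : ∀ s ∈ Icc (0 : ℝ) 1, ∀ y, ‖y‖ ∈ I → ContDiffAt ℝ ∞ K (s, y) ∧
      (∀ a b, K (s, y) a b = K (s, y) b a) ∧ ∀ a, a ≠ 0 → 0 < K (s, y) a a)
    (hθ : ∀ s ∈ Icc (0 : ℝ) 1, ∀ y, ‖y‖ ∈ I → ContDiffAt ℝ ∞ θ (s, y) ∧
      0 < fderiv ℝ (fun z => θ (s, z)) y y)
    (ex : ∀ s ∈ Icc (0 : ℝ) 1, ∀ u, ‖u‖ = 1 → ∃ r ∈ I, θ (s, r • u) = 0)
    (lev : ∀ s ∈ Icc (0 : ℝ) 1, ∀ (σ : E m → E (m + 1)) y, ContDiffAt ℝ ∞ σ y →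
      Function.Injective (fderiv ℝ σ y) → ‖σ y‖ ∈ I → (∀ᶠ z in 𝓝 y, θ (s, σ z) = 0) →
      ∀ a b, LinearIndependent ℝ ![a, b] → 0 < sec (pull (fun x => K (s, x)) σ) y a b)
    {P₀ P₁ : E (m + 1) → E (m + 1)}
    (h₀ : ∀ x, x ≠ 0 → ∃ r ∈ I, P₀ x = r • nr x ∧ θ (0, P₀ x) = 0)
    (h₁ : ∀ x, x ≠ 0 → ∃ r ∈ I, P₁ x = r • nr x ∧ θ (1, P₁ x) = 0) :
    Join (pull (fun x => K (0, x)) P₀) (pull (fun x => K (1, x)) P₁) ∧
      ∀ u, u ≠ 0 → ContDiffAt ℝ ∞ P₀ u ∧ ContDiffAt ℝ ∞ P₁ u := by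
  have dθ : ∀ s ∈ Icc (0 : ℝ) 1, ∀ y, ‖y‖ ∈ I → DifferentiableAt ℝ (fun z => θ (s, z)) y :=
    fun s hs y hy => cda_d ((hθ s hs y hy).1.comp y (contDiffAt_const.prodMk contDiffAt_id))
  have uq : ∀ s ∈ Icc (0 : ℝ) 1, ∀ u, ‖u‖ = 1 → InjOn (fun r : ℝ => θ (s, r • u)) I :=
    fun s hs u hu => (ray_mono (θ := fun z => θ (s, z)) Ic I0
      (fun y hy => ⟨dθ s hs y hy, (hθ s hs y hy).2⟩) hu).injOn
  choose! ϱ r1 r2 using ex
  have sm : ∀ t, st 1 0 t ∈ Icc (0 : ℝ) 1 := st_mem 1 0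
  obtain ⟨R, hR⟩ : ∃ R : ℝ × E (m + 1) → ℝ, ∀ p, R p = ϱ (st 1 0 p.1) (nr p.2) := ⟨_, fun _ => rfl⟩
  have R1 : ∀ p : ℝ × E (m + 1), p.2 ≠ 0 → R p ∈ I := fun p hp => hR p ▸ r1 _ (sm _) _ (norm_nr hp)
  have R2 : ∀ p : ℝ × E (m + 1), p.2 ≠ 0 → θ (st 1 0 p.1, R p • nr p.2) = 0 := fun p hp =>
    hR p ▸ r2 _ (sm _) _ (norm_nr hp)
  have nI : ∀ r ∈ I, ∀ x : E (m + 1), x ≠ 0 → ‖r • nr x‖ ∈ I := fun r hr x hx => by
    rwa [norm_smul_unit (norm_nr hx) (I0 r hr).le]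
  have cR : ∀ p : ℝ × E (m + 1), p.2 ≠ 0 → ContDiffAt ℝ ∞ R p := fun p hp => by
    have ev : ∀ᶠ q in 𝓝 p, q.2 ≠ 0 := continuousAt_snd.eventually (eventually_ne_nhds hp)
    obtain ⟨τ, t1, t2, t3⟩ := hit (Θ := fun z : ℝ × ℝ × E (m + 1) => θ (st 1 0 z.2.1, z.1 • nr z.2.2))
      (t := R p) (p := p) (by
        filter_upwards [continuousAt_snd.eventually ev,
          continuousAt_fst.eventually (Io.mem_nhds (R1 p hp))] with z h1 h2
        exact (hθ _ (sm _) _ (nI _ h2 _ h1)).1.comp z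
          (((st_cd 1 0).contDiffAt.comp z (contDiffAt_fst.comp z contDiffAt_snd)).prodMk
          (contDiffAt_fst.smul ((nr_cda h1).comp z (contDiffAt_snd.comp z contDiffAt_snd)))))
      (ray_d (θ := fun z => θ (st 1 0 p.1, z)) (I0 _ (R1 p hp)).ne'
        (dθ _ (sm _) _ (nI _ (R1 p hp) _ hp)))
      (mul_pos (inv_pos.2 (I0 _ (R1 p hp))) (hθ _ (sm _) _ (nI _ (R1 p hp) _ hp)).2).ne'
    refine t1.cda.congr_of_eventuallyEq ?_
    filter_upwards [ev, t3, t1.ca.eventually (Io.mem_nhds (t2 ▸ R1 p hp))] with q q1 q2 q3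
    exact uq _ (sm _) _ (norm_nr q1) (R1 q q1) q3 ((R2 q q1).trans ((R2 p hp).symm.trans q2.symm))
  have cQ : ∀ p : ℝ × E (m + 1), p.2 ≠ 0 → ContDiffAt ℝ ∞ (fun p => R p • nr p.2) p := fun p hp =>
    (cR p hp).smul ((nr_cda hp).comp p contDiffAt_snd)
  have cQ' : ∀ t x, x ≠ 0 → ContDiffAt ℝ ∞ (fun z => R (t, z) • nr z) x := fun t x hx =>
    (cQ (t, x) hx).comp x (contDiffAt_const.prodMk contDiffAt_id)
  have dQ : ∀ t u, ‖u‖ = 1 → ∀ a, ⟪u, a⟫ = 0 → a ≠ 0 →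
      fderiv ℝ (fun z => R (t, z) • nr z) u a ≠ 0 := fun t u hu a ha a0 e => by
    have u0 := ne_of_unit hu
    rw [fd_smul (ρ := fun z => R (t, z)) (cda_d ((cR (t, u) u0).comp u (contDiffAt_const.prodMk contDiffAt_id))) (nr_d u0),
      fd_nr_tan hu ha, nr_unit hu] at e
    have := congrArg (fun v => ⟪v, a⟫) e
    simp [inner_add_left, inner_smul_left, ha, a0, (I0 _ (R1 (t, u) u0)).ne'] at this
  have en : ∀ {P : E (m + 1) → E (m + 1)} {t : ℝ}, (∀ x, x ≠ 0 → ∃ r ∈ I, P x = r • nr x ∧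
      θ (st 1 0 t, P x) = 0) → ∀ u, u ≠ 0 → (fun z => R (t, z) • nr z) =ᶠ[𝓝 u] P :=
    fun {P t} h u hu => (eventually_ne_nhds hu).mono fun x hx => by
      obtain ⟨r, hr, e1, e2⟩ := h x hx
      rw [e1] at e2 ⊢
      exact congrArg (· • nr x)
        (uq _ (sm _) _ (norm_nr hx) (R1 (t, x) hx) hr ((R2 (t, x) hx).trans e2.symm))
  have s0 : ∀ t ≤ 0, st 1 0 t = 0 := fun t ht => st_0 (by linarith)
  have s1 : ∀ t ≥ 1, st 1 0 t = 1 := fun t ht => st_1 (by linarith)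
  refine ⟨⟨fun p => pull (fun x => K (st 1 0 p.1, x)) (fun z => R (p.1, z) • nr z) p.2,
    fun t u hu => ?_, fun t => ⟨fun u hu a b _ _ => ?_, fun u hu a ha a0 => ?_,
    fun σ y hσ a b hab => ?_⟩, fun t ht u hu a b _ _ => ?_, fun t ht u hu a b _ _ => ?_⟩,
    fun u hu => ⟨(cQ' 0 u hu).congr_of_eventuallyEq (en (by rwa [s0 0 le_rfl]) u hu).symm,
      (cQ' 1 u hu).congr_of_eventuallyEq (en (by rwa [s1 1 le_rfl]) u hu).symm⟩⟩
  · have u0 := ne_of_unit hu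
    have d : ContDiffAt ℝ ∞ (fun p : ℝ × E (m + 1) => fderiv ℝ (fun z => R (p.1, z) • nr z) p.2)
        (t, u) := ContDiffAt.fderiv (f := fun (p : ℝ × E (m + 1)) z => R (p.1, z) • nr z) (n := ∞)
      (ContDiffAt.comp (g := fun p => R p • nr p.2)
        (f := fun q : (ℝ × E (m + 1)) × E (m + 1) => (q.1.1, q.2)) ((t, u), u) (cQ (t, u) u0)
        ((contDiffAt_fst.comp _ contDiffAt_fst).prodMk contDiffAt_snd)) contDiffAt_snd (by simp)
    exact cda2 fun a b => (((hK _ (sm t) _ (nI _ (R1 (t, u) u0) _ u0)).1.comp (t, u)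
      (((st_cd 1 0).contDiffAt.comp _ contDiffAt_fst).prodMk (cQ (t, u) u0))).clm_apply
      (d.clm_apply contDiffAt_const)).clm_apply (d.clm_apply contDiffAt_const)
  · exact (hK _ (sm t) _ (nI _ (R1 (t, u) (ne_of_unit hu)) _ (ne_of_unit hu))).2.1 _ _
  · exact (hK _ (sm t) _ (nI _ (R1 (t, u) (ne_of_unit hu)) _ (ne_of_unit hu))).2.2 _
      (dQ t u hu a ha a0)
  · have u0 := ne_of_unit hσ.u
    rw [sec_congr (G' := pull (fun x => K (st 1 0 t, x)) fun z => R (t, σ z) • nr (σ z))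
      (hσ.ev.mono fun z hz => pull_comp _ (φ := fun z => R (t, z) • nr z)
        (cda_d (cQ' t _ (ne_of_unit hz.2.self_of_nhds))) hz.1)]
    refine lev _ (sm t) (fun z => R (t, σ z) • nr (σ z)) y ((cQ' t _ u0).comp y hσ.smooth) ?_
      (nI _ (R1 (t, σ y) u0) _ u0)
      (hσ.unit.mono fun z hz => R2 (t, σ z) (ne_of_unit hz)) a b hab
    rw [injective_iff_map_eq_zero]
    intro w hw
    by_contra w0
    rw [fd_comp (g := fun z => R (t, z) • nr z) (cda_d (cQ' t _ u0)) hσ.d] at hw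
    exact dQ t _ hσ.u _ (hσ.perp w) (fun e => w0 (hσ.inj (e.trans (map_zero _).symm))) hw
  · simp only [s0 t ht, pull_congr _ (en (t := t) (by rwa [s0 t ht]) u (ne_of_unit hu))]
  · simp only [s1 t ht, pull_congr _ (en (t := t) (by rwa [s1 t ht]) u (ne_of_unit hu))]

section

variable {W : Type} [NormedAddCommGroup W] [InnerProductSpace ℝ W] [FiniteDimensional ℝ W]

theorem radial_pos {θ : W → ℝ} (h : ContDiffAt ℝ 2 θ 0) (h1 : fderiv ℝ θ 0 = 0)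
    (h2 : ∀ u, u ≠ 0 → 0 < fderiv ℝ (fderiv ℝ θ) 0 u u) :
    ∀ᶠ y in 𝓝 (0 : W), y ≠ 0 → 0 < fderiv ℝ θ y y := by
  obtain ⟨μ, μ0, hμ⟩ := pos_unif (isCompact_singleton (x := ()))
    (B := fun _ => fderiv ℝ (fderiv ℝ θ) 0) continuousOn_const fun _ _ => h2
  filter_upwards [(c2_d h).hasFDerivAt.isLittleO.bound (half_pos μ0)] with y hy y0
  rw [h1, sub_zero, sub_zero] at hy
  have e := (fderiv ℝ θ y - fderiv ℝ (fderiv ℝ θ) 0 y).le_of_opNorm_le hy y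
  rw [sub_apply, Real.norm_eq_abs, abs_le] at e
  nlinarith [hμ () rfl y, mul_pos μ0 (pow_pos (norm_pos_iff.2 y0) 2)]

theorem par_fd {Y : Type} [NormedAddCommGroup Y] [NormedSpace ℝ Y] {F : ℝ × W → Y} {p : ℝ × W}
    {n k : WithTop ℕ∞} (h : ContDiffAt ℝ n F p) (hk : k + 1 ≤ n) :
    ContDiffAt ℝ k (fun q : ℝ × W => fderiv ℝ (fun z => F (q.1, z)) q.2) p :=
  ContDiffAt.fderiv (f := fun (q : ℝ × W) z => F (q.1, z))
    (ContDiffAt.comp (f := fun q : (ℝ × W) × W => (q.1.1, q.2)) (p, p.2) h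
    ((contDiffAt_fst.comp _ contDiffAt_fst).prodMk contDiffAt_snd)) contDiffAt_snd hk

variable {X : Type} [TopologicalSpace X] {K : ℝ × W → W →L[ℝ] W →L[ℝ] ℝ} {z : X → ℝ × W}
  {a b : X → W} {p : X}

theorem Good.inv_cont (h : Good K (z p)) (hz : ContinuousAt z p) :
    ContinuousAt (fun q => (K (z q)).inverse) p :=
  have : CompleteSpace W := FiniteDimensional.complete ℝ W
  ((inv_of_pos h.pos).contDiffAt_map_inverse (n := 0)).continuousAt.comp_of_eq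
    (h.smooth.continuousAt.comp hz) rfl

theorem Good.chr_cont' (h : Good K (z p)) (hz : ContinuousAt z p) (ha : ContinuousAt a p)
    (hb : ContinuousAt b p) :
    ContinuousAt (fun q => chr (fun w => K ((z q).1, w)) (z q).2 (a q) (b q)) p := by
  have h1 := (par_fd (k := 0) h.smooth (by norm_num)).continuousAt.comp hz
  have h2 : ContinuousAt (fun q => fderiv ℝ (fun y => K ((z q).1, y) (a q) (b q)) (z q).2) p := by
    rw [continuousAt_clm_apply]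
    intro w
    refine (((h1.clm_apply (continuousAt_const (y := w))).clm_apply ha).clm_apply hb).congr ?_
    filter_upwards [hz.eventually h.ev] with q hq using
      (fd_app2 (c2_d0 hq.slice.smooth) _ _ _).symm
  unfold chr
  exact (h.inv_cont hz).clm_apply (((((h1.clm_apply ha).clm_apply hb).add
    ((h1.clm_apply hb).clm_apply ha)).sub h2).const_smul (1 / 2 : ℝ))

theorem Good.sec_cont' (h : Good K (z p)) (hz : ContinuousAt z p) (ha : ContinuousAt a p)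
    (hb : ContinuousAt b p) :
    ContinuousAt (fun q => sec (fun w => K ((z q).1, w)) (z q).2 (a q) (b q)) p := by
  have h0 := h.smooth.continuousAt.comp hz
  have h2 := (par_fd (k := 0) (par_fd (k := 1) h.smooth (by norm_num))
    (by norm_num)).continuousAt.comp hz
  refine ((ContinuousAt.add (f := fun q => r2 (fun w => K ((z q).1, w)) (z q).2 (a q) (b q)) ?_
    ((h0.clm_apply (h.chr_cont' hz ha hb)).clm_apply (h.chr_cont' hz ha hb))).sub
    ((h0.clm_apply (h.chr_cont' hz ha ha)).clm_apply (h.chr_cont' hz hb hb))).congr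
    ((hz.eventually h.ev).mono fun q hq => (hq.slice.sec_chr _ _).symm)
  unfold r2
  exact (((((((h2.clm_apply ha).clm_apply ha).clm_apply hb).clm_apply hb).neg.div_const 2).sub
    (((((h2.clm_apply hb).clm_apply hb).clm_apply ha).clm_apply ha).div_const 2)).add
    ((((h2.clm_apply ha).clm_apply hb).clm_apply ha).clm_apply hb))

theorem Good.hess_cont' (h : Good K (z p)) {θ : ℝ × W → ℝ} (hθ : ContDiffAt ℝ 2 θ (z p))
    (hz : ContinuousAt z p) (ha : ContinuousAt a p) (hb : ContinuousAt b p) : ContinuousAt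
      (fun q => hess (fun w => K ((z q).1, w)) (fun w => θ ((z q).1, w)) (z q).2 (a q) (b q)) p :=
  ((((par_fd (k := 0) (par_fd (k := 1) hθ (by norm_num)) (by norm_num)).continuousAt.comp
    hz).clm_apply ha).clm_apply hb).sub (((par_fd (k := 0) hθ (by norm_num)).continuousAt.comp
    hz).clm_apply (h.chr_cont' hz ha hb))

/-- the curvature of a level set, times the squared gradient -/
noncomputable def QL (G : Met W) (f : W → ℝ) (x a b : W) : ℝ :=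
  fderiv ℝ f x ((G x).inverse (fderiv ℝ f x)) * sec G x a b +
    (hess G f x a a * hess G f x b b - hess G f x a b ^ 2)

theorem QL_cont (hz : ContinuousAt z p) (h : Good K (z p)) {θ : ℝ × W → ℝ}
    (hθ : ContDiffAt ℝ 2 θ (z p)) (ha : ContinuousAt a p) (hb : ContinuousAt b p) : ContinuousAt
      (fun q => QL (fun w => K ((z q).1, w)) (fun w => θ ((z q).1, w)) (z q).2 (a q) (b q)) p :=
  have c1 := (par_fd (k := 0) hθ (by norm_num)).continuousAt.comp hz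
  ((c1.clm_apply ((h.inv_cont hz).clm_apply c1)).mul (h.sec_cont' hz ha hb)).add
    (((h.hess_cont' hθ hz ha ha).mul (h.hess_cont' hθ hz hb hb)).sub
    ((h.hess_cont' hθ hz ha hb).pow 2))

theorem fam_pos {θ : ℝ × W → ℝ} (hK : ∀ s ∈ Icc (0 : ℝ) 1, Good K (s, 0))
    (hθ : ∀ s ∈ Icc (0 : ℝ) 1, ContDiffAt ℝ 2 θ (s, 0) ∧ fderiv ℝ (fun z => θ (s, z)) 0 = 0 ∧
      ∀ u, u ≠ 0 → 0 < fderiv ℝ (fderiv ℝ fun z => θ (s, z)) 0 u u) :
    ∀ᶠ y in 𝓝 (0 : W), ∀ s ∈ Icc (0 : ℝ) 1, ∀ a b, LinearIndependent ℝ ![a, b] →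
      0 < QL (fun z => K (s, z)) (fun z => θ (s, z)) y a b := by
  have cT : IsCompact (Icc (0 : ℝ) 1 ×ˢ ((Metric.sphere (0 : W) 1 ×ˢ Metric.sphere (0 : W) 1) ∩
      {q : W × W | ⟪q.1, q.2⟫ = 0})) :=
    isCompact_Icc.prod (((isCompact_sphere _ _).prod (isCompact_sphere _ _)).inter_right
      (isClosed_eq (continuous_fst.inner continuous_snd) continuous_const))
  have sl : ∀ {s : ℝ} {y : W}, ContDiffAt ℝ 2 θ (s, y) → ContDiffAt ℝ 2 (fun z => θ (s, z)) y :=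
    fun h => h.comp _ (contDiffAt_const.prodMk contDiffAt_id)
  have := cT.eventually_forall_of_forall_eventually (x₀ := (0 : W))
    (P := fun y q => Good (fun z => K (q.1, z)) y ∧ ContDiffAt ℝ 2 θ (q.1, y) ∧
      0 < QL (fun z => K (q.1, z)) (fun z => θ (q.1, z)) y q.2.1 q.2.2) (by
      rintro ⟨s, a, b⟩ ⟨hs, ⟨ha, hb⟩, hab⟩
      obtain ⟨t1, t2, t3⟩ := hθ s hs
      have cz : ContinuousAt (fun q : W × ℝ × W × W => (q.2.1, q.1)) (0, s, a, b) := by fun_prop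
      have ca : ContinuousAt (fun q : W × ℝ × W × W => q.2.2.1) (0, s, a, b) := by fun_prop
      have cb : ContinuousAt (fun q : W × ℝ × W × W => q.2.2.2) (0, s, a, b) := by fun_prop
      refine ((cz.eventually (hK s hs).ev).mono fun q hq => hq.slice).and
        ((cz.eventually (t1.eventually (by simp))).and (ev_pos (QL_cont cz (hK s hs) t1 ca cb) ?_))
      have := ((hK s hs).slice.hess_det (sl t1) (u := a) (v := b) fun c d h => by
        simp only [hess, t2, zero_apply, sub_zero]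
        refine t3 _ fun e => h ?_
        have e1 := congrArg (fun v => ⟪a, v⟫) e
        have e2 := congrArg (fun v => ⟪v, b⟫) e
        simp only [mem_setOf_eq] at hab
        simp [inner_add_left, inner_add_right, inner_smul_left, inner_smul_right, hab,
          mem_sphere_zero_iff_norm.1 ha, mem_sphere_zero_iff_norm.1 hb] at e1 e2
        exact ⟨e1, e2⟩).2.2
      simp only [QL, t2, zero_apply, zero_mul, zero_add]
      exact sub_pos.2 this)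
  filter_upwards [this] with y hy s hs a b hab
  rw [LinearIndependent.pair_iff] at hab
  have a0 : a ≠ 0 := fun e => by simpa using hab 1 0 (by simp [e])
  obtain ⟨e, he⟩ : ∃ e, e = ‖a‖⁻¹ • a := ⟨_, rfl⟩
  have e1 : ‖e‖ = 1 := he ▸ norm_smul_inv_norm a0
  obtain ⟨c, hc⟩ : ∃ c, c = b - ⟪e, b⟫ • e := ⟨_, rfl⟩
  have c0 : c ≠ 0 := fun h => by
    simpa using (hab (-(⟪e, b⟫ * ‖a‖⁻¹)) 1 (by
      rw [← h, hc, neg_smul, mul_smul, ← he, one_smul, neg_add_eq_sub])).2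
  obtain ⟨g, t, q⟩ := hy (s, e, ‖c‖⁻¹ • c) ⟨hs, ⟨mem_sphere_zero_iff_norm.2 e1,
    mem_sphere_zero_iff_norm.2 (norm_smul_inv_norm c0)⟩, by
      simp [hc, inner_smul_right, inner_sub_right, e1]⟩
  have ea : a = ‖a‖ • e + (0 : ℝ) • ‖c‖⁻¹ • c := by simp [he, smul_smul, a0]
  have eb : b = ⟪e, b⟫ • e + ‖c‖ • ‖c‖⁻¹ • c := by
    rw [smul_inv_smul₀ (norm_ne_zero_iff.2 c0), hc]; simp
  rw [ea, eb]
  generalize ‖c‖⁻¹ • c = e' at q ⊢
  refine (mul_pos (pow_pos (mul_pos (norm_pos_iff.2 a0) (norm_pos_iff.2 c0)) 2) q).trans_eq ?_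
  simp only [QL, g.sec_gl2, g.hess_lin, g.hess_lin', g.hess_symm (sl t) e' e]
  ring

end

theorem pole {K : Met (E (m + 1))} {θ : E (m + 1) → ℝ}
    (hK : ∀ᶠ y in 𝓝 (0 : E (m + 1)), ContDiffAt ℝ ∞ K y ∧ (∀ a b, K y a b = K y b a) ∧
      ∀ a, a ≠ 0 → 0 < K y a a) (hθ : Sm θ 0) (h1 : fderiv ℝ θ 0 = 0)
    (h2 : ∀ u, u ≠ 0 → 0 < fderiv ℝ (fderiv ℝ θ) 0 u u) :
    ∃ (P : E (m + 1) → E (m + 1)) (c : ℝ), (∀ x, x ≠ 0 → ContDiffAt ℝ ∞ P x ∧
      ∃ r : ℝ, 0 < r ∧ P x = r • nr x ∧ θ (P x) = c) ∧ Join (fun _ => euc (m + 1)) (pull K P) := by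
  have cvx : ∀ s ∈ Icc (0 : ℝ) 1, ∀ a b : ℝ, 0 < a → 0 < b → 0 < (1 - s) * a + s * b :=
    fun s hs a b ha hb => by
      rcases hs.1.eq_or_lt with e | e
      · simpa [← e]
      · nlinarith [mul_pos e hb, mul_nonneg (sub_nonneg.2 hs.2) ha.le]
  obtain ⟨K', eK⟩ : ∃ K' : ℝ × E (m + 1) → E (m + 1) →L[ℝ] E (m + 1) →L[ℝ] ℝ,
    K' = fun p => (1 - p.1) • K p.2 + p.1 • euc (m + 1) := ⟨_, rfl⟩
  obtain ⟨θ', eθ⟩ : ∃ θ' : ℝ × E (m + 1) → ℝ,
    θ' = fun p => (1 - p.1) * (θ p.2 - θ 0) + p.1 * euc (m + 1) p.2 p.2 := ⟨_, rfl⟩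
  have kK : ∀ s ∈ Icc (0 : ℝ) 1, ∀ y, (ContDiffAt ℝ ∞ K y ∧ (∀ a b, K y a b = K y b a) ∧
      ∀ a, a ≠ 0 → 0 < K y a a) → ContDiffAt ℝ ∞ K' (s, y) ∧
      (∀ a b, K' (s, y) a b = K' (s, y) b a) ∧ ∀ a, a ≠ 0 → 0 < K' (s, y) a a := by
    subst eK
    exact fun s hs y h => ⟨((contDiffAt_const.sub contDiffAt_fst).smul
      (h.1.comp _ contDiffAt_snd)).add (contDiffAt_fst.smul contDiffAt_const),
      fun a b => by simp [h.2.1 a b, real_inner_comm],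
      fun a ha => cvx s hs _ _ (h.2.2 a ha) (real_inner_self_pos.2 ha)⟩
  have gK : ∀ s ∈ Icc (0 : ℝ) 1, ∀ y, (∀ᶠ z in 𝓝 y, ContDiffAt ℝ ∞ K z ∧
      (∀ a b, K z a b = K z b a) ∧ ∀ a, a ≠ 0 → 0 < K z a a) → Good K' (s, y) := fun s hs y h =>
    ⟨cda2_of (kK s hs y h.self_of_nhds).1, (continuousAt_snd.eventually h).mono fun q hq a b => by
      simp [eK, hq.2.1 a b, real_inner_comm], (kK s hs y h.self_of_nhds).2.2⟩
  have cθ : ∀ s y, ContDiffAt ℝ ∞ θ y → ContDiffAt ℝ ∞ θ' (s, y) := fun s y h => eθ ▸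
    ((contDiffAt_const.sub contDiffAt_fst).mul ((h.comp _ contDiffAt_snd).sub
      contDiffAt_const)).add (contDiffAt_fst.mul
      ((contDiffAt_const.clm_apply contDiffAt_snd).clm_apply contDiffAt_snd))
  have sl : ∀ s y, ContDiffAt ℝ ∞ θ y → ContDiffAt ℝ 2 (fun z => θ' (s, z)) y := fun s y h =>
    cda2_of ((cθ s y h).comp _ (contDiffAt_const.prodMk contDiffAt_id))
  have jθ : ∀ s y v, ContDiffAt ℝ ∞ θ y → fderiv ℝ (fun z => θ' (s, z)) y v =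
      (1 - s) * fderiv ℝ θ y v + s * (2 * ⟪y, v⟫) ∧ fderiv ℝ (fderiv ℝ fun z => θ' (s, z)) y v v =
      (1 - s) * fderiv ℝ (fderiv ℝ θ) y v v + s * (2 * ⟪v, v⟫) := fun s y v h => by
    have := ((J2.line y v).comp (sl s y h)).unique (by
      subst eθ
      exact ((((J2.line y v).comp (cda2_of h)).add (J2.const (-θ 0))).cmul (1 - s)).add
        ((((J2.line y v).clm (euc (m + 1))).app (J2.line y v)).cmul s))
    simp only [map_zero, add_zero, zero_add, zero_apply, euc_apply, smul_eq_mul,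
      real_inner_comm y v] at this
    exact ⟨by rw [this.1]; ring, this.2⟩
  obtain ⟨ρ, ρ0, hρ⟩ := Metric.eventually_nhds_iff.1 (hK.eventually_nhds.and (hθ.and
    ((radial_pos hθ.c2 h1 h2).and (fam_pos (K := K') (θ := θ') (fun s hs => gK s hs 0 hK)
      fun s hs => ⟨cda2_of (cθ s 0 hθ.cda), ContinuousLinearMap.ext fun v => by
        simp [(jθ s 0 v hθ.cda).1, h1], fun u hu => by
        rw [(jθ s 0 u hθ.cda).2]
        exact cvx s hs _ _ (h2 u hu) (mul_pos two_pos (real_inner_self_pos.2 hu))⟩))))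
  simp only [dist_zero_right] at hρ
  have rad : ∀ s ∈ Icc (0 : ℝ) 1, ∀ y, ‖y‖ ∈ Ioo 0 ρ → 0 < fderiv ℝ (fun z => θ' (s, z)) y y :=
    fun s hs y hy => by
      rw [(jθ s y y (hρ hy.2).2.1).1]
      exact cvx s hs _ _ ((hρ hy.2).2.2.1 (norm_pos_iff.1 hy.1))
        (mul_pos two_pos (real_inner_self_pos.2 (norm_pos_iff.1 hy.1)))
  have nn : ∀ u : E (m + 1), ‖u‖ = 1 → ∀ r ∈ Icc 0 (ρ / 2), ‖r • u‖ < ρ := fun u hu r hr => by
    rw [norm_smul_unit hu hr.1]; linarith [hr.2]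
  have co : ∀ s u, ‖u‖ = 1 → ContinuousOn (fun r : ℝ => θ' (s, r • u)) (Icc 0 (ρ / 2)) :=
    fun s u hu r hr => ((cθ s _ (hρ (nn u hu r hr)).2.1).continuousAt.comp_of_eq
      (f := fun r : ℝ => (s, r • u)) (by fun_prop) rfl).continuousWithinAt
  obtain ⟨δ, δ0, hδ⟩ := (isCompact_sphere (0 : E (m + 1)) 1).exists_forall_le'
    (f := fun u => θ' (0, (ρ / 2) • u)) (a := 0) (fun u hu => ((cθ 0 _ (hρ (nn u
      (mem_sphere_zero_iff_norm.1 hu) _ ⟨by linarith, le_rfl⟩)).2.1).continuousAt.comp_of_eq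
      (f := fun u : E (m + 1) => ((0 : ℝ), (ρ / 2) • u)) (by fun_prop) rfl).continuousWithinAt)
    fun u hu => by
      have hu := mem_sphere_zero_iff_norm.1 hu
      have := strictMonoOn_of_deriv_pos (convex_Icc _ _) (co 0 u hu) (fun r hr => by
        rw [interior_Icc] at hr
        have n := nn u hu r (Ioo_subset_Icc_self hr)
        rw [(ray_d (θ := fun z => θ' (0, z)) hr.1.ne' (c2_d0 (sl 0 _ (hρ n).2.1))).deriv]
        exact mul_pos (inv_pos.2 hr.1) (rad 0 ⟨le_rfl, zero_le_one⟩ _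
          ⟨by rw [norm_smul_unit hu hr.1.le]; exact hr.1, n⟩))
        (left_mem_Icc.2 (half_pos ρ0).le) (right_mem_Icc.2 (half_pos ρ0).le) (half_pos ρ0)
      simpa [eθ] using this
  obtain ⟨ε, ε0, ε1, ε2⟩ : ∃ ε, 0 < ε ∧ ε ^ 2 ≤ δ ∧ ε ≤ ρ / 2 :=
    ⟨min √δ (ρ / 2), lt_min (sqrt_pos.2 δ0) (half_pos ρ0), (pow_le_pow_left₀
      (lt_min (sqrt_pos.2 δ0) (half_pos ρ0)).le (min_le_left _ _) 2).trans_eq (sq_sqrt δ0.le),
      min_le_right _ _⟩
  have ex : ∀ s ∈ Icc (0 : ℝ) 1, ∀ u, ‖u‖ = 1 → ∃ r ∈ Ioo 0 ρ, θ' (s, r • u) - ε ^ 2 = 0 :=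
    fun s hs u hu => by
      obtain ⟨r, hr, e⟩ := intermediate_value_Icc (half_pos ρ0).le (co s u hu) (show ε ^ 2 ∈ _ by
        have h3 := hδ u (mem_sphere_zero_iff_norm.2 hu)
        have h4 := pow_le_pow_left₀ ε0.le ε2 2
        simp only [eθ, euc_apply, real_inner_self_eq_norm_sq,
          norm_smul_unit hu (half_pos ρ0).le] at h3 ⊢
        exact ⟨by simp [sq_nonneg], by nlinarith [hs.1, hs.2]⟩)
      refine ⟨r, ⟨hr.1.lt_of_ne fun e0 => ?_, by linarith [hr.2]⟩, sub_eq_zero.2 e⟩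
      simp [← e0, eθ, (pow_pos ε0 2).ne] at e
  choose! ϱ r1 r2 using ex 0 ⟨le_rfl, zero_le_one⟩
  have fs : ∀ s, fderiv ℝ (fun z => θ' (s, z) - ε ^ 2) = fderiv ℝ fun z => θ' (s, z) :=
    fun s => funext fun y => fderiv_sub_const _
  obtain ⟨j, c⟩ := ray_join (K := K') (θ := fun p => θ' p - ε ^ 2) isOpen_Ioo (convex_Ioo 0 ρ)
    (fun r hr => hr.1) (fun s hs y hy => kK s hs y (hρ hy.2).1.self_of_nhds)
    (fun s hs y hy => ⟨(cθ s y (hρ hy.2).2.1).sub contDiffAt_const, fs s ▸ rad s hs y hy⟩) ex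
    (fun s hs σ y hσ hi hy hl a b hab => by
      have g := (gK s hs _ (hρ hy.2).1).slice
      have hn := (inv_of_pos g.pos).self_apply_inverse (fderiv ℝ (fun z => θ' (s, z)) (σ y))
      have n0 : (K' (s, σ y)).inverse (fderiv ℝ (fun z => θ' (s, z)) (σ y)) ≠ 0 := fun e => by
        have := rad s hs _ hy
        rw [← hn, e] at this
        simp at this
      have := g.gauss1 (φ := σ) (hσ.of_le (le_inf 3)) hi (by simp) (sl s _ (hρ hy.2).2.1)
        (hl.mono fun z hz => sub_eq_zero.1 hz) hn n0 a b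
      refine pos_of_mul_pos_left ?_ (g.pos _ n0).le
      rw [mul_comm, this, hn]
      refine (hρ hy.2).2.2.2 s hs _ _ (LinearIndependent.pair_iff.2 fun c d e =>
        LinearIndependent.pair_iff.1 hab c d (hi ?_))
      simpa using e)
    (P₀ := fun x => ϱ (nr x) • nr x) (P₁ := fun x => ε • nr x)
    (fun x hx => ⟨_, r1 _ (norm_nr hx), rfl, r2 _ (norm_nr hx)⟩)
    fun x hx => ⟨ε, ⟨ε0, by linarith⟩, rfl, by
      simp [eθ, real_inner_self_eq_norm_sq, norm_smul_unit (norm_nr hx) ε0.le]⟩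
  refine ⟨_, θ 0 + ε ^ 2, fun x hx => ⟨(c x hx).1, ϱ (nr x), (r1 _ (norm_nr hx)).1, rfl, ?_⟩,
    (join_scale (pow_pos ε0 2)).trans ?_⟩
  · have := r2 _ (norm_nr hx)
    simp only [eθ] at this
    linarith
  · have e0 : (fun x => K' (0, x)) = K := funext fun x => by simp [eK]
    rw [e0] at j
    refine (j.congr fun u hu a b ha hb => ?_).symm
    have := ((nr_d (ne_of_unit hu)).hasFDerivAt.const_smul ε).fderiv
    simp only [pull_apply, show fderiv ℝ (fun x => ε • nr x) u = _ from this, eK]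
    simp [fd_nr_tan hu ha, fd_nr_tan hu hb, inner_smul_left, inner_smul_right]
    ring

end Pool.Agent.Lib.MP_c00cc5_gt
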