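import Pool.Agent.Lib.MP_c00cc5_gt.Twist

set_option autoImplicit false
set_option maxSynthPendingDepth 3
set_option linter.unusedSectionVars false
set_option linter.unusedSimpArgs false

namespace Pool.Agent.Lib.MP_c00cc5_gt

/-! Metrics of large diameter on twisted spheres, and the two implications. -/

open scoped ContDiff RealInnerProductSpace Topology
open Filter Set Real

variable {V W : Type} [NormedAddCommGroup V] [InnerProductSpace ℝ V] [FiniteDimensional ℝ V]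
  [NormedAddCommGroup W] [NormedSpace ℝ W] [FiniteDimensional ℝ W]
  {M : Set V} {G G' : Met V} {m : ℕ} {D : ℝ}

theorem riem_of (hM : Submfd W M) (h : ∀ x ∈ M, ∃ (φ : W → V) (y : W) (K : Met W), Par M φ y ∧
    φ y = x ∧ pull G φ =ᶠ[𝓝 y] K ∧ ContDiffAt ℝ ∞ K y ∧ Good K y ∧
      ∀ u v, area K y u v ≤ sec K y u v) : Riem W M G := by
  have key : ∀ (ψ : W → V) (z : W), Par M ψ z → ContDiffAt ℝ ∞ (pull G ψ) z ∧ Good (pull G ψ) z ∧
      ∀ u v, area (pull G ψ) z u v ≤ sec (pull G ψ) z u v := fun ψ z hz => by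
    obtain ⟨φ, y, K, h1, h2, h3, h4, h5, h6⟩ := h _ hz.m
    obtain ⟨r, hr⟩ := h1.ch hM
    obtain ⟨t1, t2, t3, t4⟩ := hr.trans hz h2.symm
    have t := t1.ca.tendsto
    rw [t2] at t
    have e : pull K (fun w => r (ψ w)) =ᶠ[𝓝 z] pull G ψ := by
      filter_upwards [t1.ev, t3.eventually_nhds, t.eventually h3, t.eventually h1.ev]
        with w w1 w2 w3 w4
      rw [← pull_congr G w2, ← pull_comp G (ψ := fun w => r (ψ w)) w4.sm.d w1.d]
      simp only [pull, w3.symm]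
    subst t2
    refine ⟨(pull_cda (φ := fun w => r (ψ w)) h4 t1.cda (by simp)).congr_of_eventuallyEq e.symm,
      (Good.pull (φ := fun w => r (ψ w)) h5 t1.c3 t4.1).congr e, fun u v => ?_⟩
    rw [← sec_congr e, area, ← e.self_of_nhds, Good.sec_pull (φ := fun w => r (ψ w)) h5 t1.c3 t4]
    exact h6 _ _
  exact ⟨fun ψ z hz => (key ψ z hz).1, fun ψ z hz => (key ψ z hz).2.1.symm0,
    fun ψ z hz => (key ψ z hz).2.1.pos, fun ψ z hz => (key ψ z hz).2.2⟩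

theorem sp_ext (hM : Submfd W M) (e : ∀ x ∈ M, ∀ u v, Tan M x u → Tan M x v → G' x u v = G x u v)
    {c : ℝ → V} (h1 : ContDiff ℝ 1 c) (h2 : ∀ t, c t ∈ M) : sp G' c = sp G c := funext fun t => by
  obtain ⟨φ, r, y, hc, e'⟩ := hM.ch (h2 t)
  have := hc.par.tan (fderiv ℝ r (φ y) (deriv c t))
  rw [← hc.vel (h1.differentiable (by simp) t).hasDerivAt e'.symm (Eventually.of_forall h2),
    e'] at this
  rw [sp, sp, e _ (h2 t) _ _ this this]

variable {f g : E (m + 1) → E (m + 1)} {φ ψ : E (m + 1) → V}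

theorem push_aux (hM : Submfd (E (m + 1)) M) (hc : IsCompact M) (hn : IsPreconnected M)
    (hf : SphDiff f g) (D0 : 0 < D) (hW : Wied f D)
    (par₁ : ∀ x, ‖x‖ < D → Par M φ x) (par₂ : ∀ x, ‖x‖ < D → Par M ψ x)
    (inj₁ : InjOn φ (Metric.ball 0 D)) (inj₂ : InjOn ψ (Metric.ball 0 D))
    (cover : M ⊆ φ '' Metric.ball 0 D ∪ ψ '' Metric.ball 0 D)
    (pole : φ 0 ∉ ψ '' Metric.ball 0 D)
    (glue : ∀ x, x ≠ 0 → ‖x‖ < D → φ x = ψ ((D - ‖x‖) • f (nr x))) :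
    ∃ G, Riem (E (m + 1)) M G ∧ Far M G D := by
  obtain ⟨G₁, G₂, h1, h2, hg⟩ := hW
  simp only [nr_def] at hg
  have b : ∀ {x : E (m + 1)}, ‖x‖ < D → x ∈ Metric.ball 0 D := mem_ball_zero_iff.2
  have ng : ∀ x : E (m + 1), x ≠ 0 → ‖x‖ < D → ‖(D - ‖x‖) • f (nr x)‖ = D - ‖x‖ :=
    fun x x0 hx => norm_smul_unit (hf.nf _ (norm_nr x0)) (sub_pos.2 hx).le
  have tr : ∀ y z, ‖y‖ < D → ‖z‖ < D → ψ z = φ y → y ≠ 0 ∧ z = (D - ‖y‖) • f (nr y) :=
    fun y z hy hz e => by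
      have y0 : y ≠ 0 := fun e0 => pole ⟨z, b hz, e0 ▸ e⟩
      exact ⟨y0, inj₂ (b hz) (b (by rw [ng y y0 hy]; linarith [norm_pos_iff.2 y0]))
        (e.trans (glue y y0 hy))⟩
  have li : ∀ {χ : E (m + 1) → V} {y}, Par M χ y → ∀ K : Met (E (m + 1)),
      ∃ B : V →L[ℝ] V →L[ℝ] ℝ, ∀ a b, B (fderiv ℝ χ y a) (fderiv ℝ χ y b) = K y a b :=
    fun {χ y} hp K => by
      obtain ⟨r, hr⟩ := hp.ch hM
      exact ⟨(K y).bilinearComp (fderiv ℝ r (χ y)) (fderiv ℝ r (χ y)), fun a b => by simp [hr.dl]⟩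
  have ex : ∀ x : V, ∃ (B : V →L[ℝ] V →L[ℝ] ℝ) (s : ℝ), (∀ y, ‖y‖ < D → φ y = x → s = ‖y‖ ∧
      ∀ a b, B (fderiv ℝ φ y a) (fderiv ℝ φ y b) = G₁ y a b) ∧ ∀ z, ‖z‖ < D → ψ z = x →
      s = D - ‖z‖ ∧ ∀ a b, B (fderiv ℝ ψ z a) (fderiv ℝ ψ z b) = G₂ z a b := fun x => by
    by_cases x1 : ∃ y, ‖y‖ < D ∧ φ y = x
    · obtain ⟨y, hy, rfl⟩ := x1
      obtain ⟨B, hB⟩ := li (par₁ y hy) G₁
      refine ⟨B, ‖y‖, fun y' h e => ?_, fun z hz e => ?_⟩
      · obtain rfl := inj₁ (b h) (b hy) e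
        exact ⟨rfl, hB⟩
      obtain ⟨y0, rfl⟩ := tr y z hy hz e
      have d := cda_d (hf.cΦ D y0)
      have k : ∀ a, fderiv ℝ φ y a = fderiv ℝ ψ ((D - ‖y‖) • f (nr y))
          (fderiv ℝ (fun z => (D - ‖z‖) • f (nr z)) y a) := fun a => by
        rw [← fd_comp (f := fun z => (D - ‖z‖) • f (nr z)) (par₂ _ hz).sm.d d]
        congr 1
        refine EventuallyEq.fderiv_eq ?_
        filter_upwards [eventually_ne_nhds y0, continuous_norm.continuousAt.eventually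
          (gt_mem_nhds hy)] with w w1 w2 using glue w w1 w2
      have s := (bij_of_inj (L := fderiv ℝ (fun z => (D - ‖z‖) • f (nr z)) y)
        (fun a b e => (par₁ y hy).inj (by rw [k, k, e])) rfl).2
      refine ⟨by rw [ng y y0 hy, sub_sub_cancel], fun a b => ?_⟩
      obtain ⟨a, rfl⟩ := s a
      obtain ⟨b, rfl⟩ := s b
      rw [← k, ← k, hB, hg y y0 hy, pull_apply]
    by_cases x2 : ∃ z, ‖z‖ < D ∧ ψ z = x
    · obtain ⟨z, hz, rfl⟩ := x2
      obtain ⟨B, hB⟩ := li (par₂ z hz) G₂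
      refine ⟨B, D - ‖z‖, fun y h e => (x1 ⟨y, h, e⟩).elim, fun z' h e => ?_⟩
      obtain rfl := inj₂ (b h) (b hz) e
      exact ⟨rfl, hB⟩
    · exact ⟨0, 0, fun y h e => (x1 ⟨y, h, e⟩).elim, fun y h e => (x2 ⟨y, h, e⟩).elim⟩
  choose G u e₁ e₂ using ex
  have ev : ∀ {y : E (m + 1)}, ‖y‖ < D → ∀ᶠ z in 𝓝 y, ‖z‖ < D := fun hy =>
    continuous_norm.continuousAt.eventually (gt_mem_nhds hy)
  have hR : Riem (E (m + 1)) M G := riem_of hM fun x hx => by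
    rcases cover hx with ⟨y, hy, rfl⟩ | ⟨y, hy, rfl⟩ <;> rw [mem_ball_zero_iff] at hy
    · exact ⟨φ, y, G₁, par₁ y hy, rfl, (ev hy).mono fun z hz => by
        ext1 a; ext1 b; exact (e₁ _ z hz rfl).2 a b, h1.smooth y hy, h1.good hy, h1.curv y hy⟩
    · exact ⟨ψ, y, G₂, par₂ y hy, rfl, (ev hy).mono fun z hz => by
        ext1 a; ext1 b; exact (e₂ _ z hz rfl).2 a b, h2.smooth y hy, h2.good hy, h2.curv y hy⟩
  have z0 : ‖(0 : E (m + 1))‖ < D := by simpa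
  refine ⟨G, hR, φ 0, (par₁ 0 z0).m, ψ 0, (par₂ 0 z0).m, fun c c1 c2 c3 c4 => ?_⟩
  obtain ⟨G', g1, g2⟩ := hR.ext hM hc hn
  have cs : Continuous (sp G c) := sp_ext hM g2 c1 c2 ▸ continuous_iff_continuousAt.2 fun t =>
    sp_ca g1.smooth.continuous.continuousAt c1.contDiffAt
  have loc : ∀ {χ : E (m + 1) → V} {y t}, (∀ x, ‖x‖ < D → Par M χ x) → ‖y‖ < D → χ y = c t →
      ∃ (γ : ℝ → E (m + 1)) (v : E (m + 1)), γ t = y ∧ HasDerivAt γ v t ∧
        deriv c t = fderiv ℝ χ y v ∧ ∀ᶠ s in 𝓝 t, ‖γ s‖ < D ∧ χ (γ s) = c s :=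
    fun {χ y t} hp hy e => by
      obtain ⟨r, hr⟩ := (hp y hy).ch hM
      have d := (c1.differentiable (by simp) t).hasDerivAt
      exact ⟨fun s => r (c s), _, (congrArg r e.symm).trans hr.ry,
        hr.sm.d.hasFDerivAt.comp_hasDerivAt_of_eq t d e,
        hr.vel d e.symm (Eventually.of_forall c2), (d.continuousAt.eventually
          (e ▸ hr.ev' (ev hy))).mono fun s hs => (hs (c2 s)).symm⟩
  have key : ∀ t, ContinuousAt (fun s => u (c s)) t ∧ ∀ r, sp G c t < r →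
      ∃ᶠ z in 𝓝[>] t, slope (fun s => u (c s)) t z < r := fun t => by
    by_cases x1 : ∃ y, ‖y‖ < D ∧ φ y = c t
    · obtain ⟨y, hy, e⟩ := x1
      obtain ⟨γ, v, rfl, g2, g3, g4⟩ := loc par₁ hy e
      have q : (fun s => ‖γ s‖) =ᶠ[𝓝 t] fun s => u (c s) :=
        g4.mono fun s hs => (e₁ _ _ hs.1 hs.2).1.symm
      refine ⟨g2.continuousAt.norm.congr q, fun r hr => ?_⟩
      rw [sp, g3, (e₁ _ _ hy e).2] at hr
      rcases eq_or_ne (γ t) 0 with y0 | y0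
      · rw [y0, h1.zero D0, ← norm_eq_sqrt_real_inner] at hr
        refine (g2.hasDerivWithinAt.liminf_right_slope_norm_le hr).mp
          ((q.filter_mono nhdsWithin_le_nhds).mono fun z hz h => ?_)
        rwa [slope_def_module, ← show ‖γ z‖ = u (c z) from hz,
          ← show ‖γ t‖ = u (c t) from q.self_of_nhds]
      · refine (((cda_d (norm_cda y0)).hasFDerivAt.comp_hasDerivAt t g2).congr_of_eventuallyEq
          q.symm).hasDerivWithinAt.liminf_right_slope_le (lt_of_le_of_lt (le_sqrt_of_sq_le ?_) hr)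
        have := psd_cs (h1.good hy).symm0 (h1.good hy).nn (γ t) v
        rw [h1.gauss _ hy, h1.gauss _ hy, real_inner_self_eq_norm_sq] at this
        rw [fd_norm y0, nr, real_inner_smul_left, mul_pow, inv_pow,
          inv_mul_le_iff₀ (pow_pos (norm_pos_iff.2 y0) 2)]
        exact this
    · obtain ⟨z, hz, e⟩ := (cover (c2 t)).resolve_left fun ⟨y, hy, e⟩ =>
        x1 ⟨y, mem_ball_zero_iff.1 hy, e⟩
      rw [mem_ball_zero_iff] at hz
      obtain rfl : z = 0 := by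
        by_contra n0
        have r0 := sub_pos.2 hz
        have u1 := hf.ng _ (norm_nr n0)
        have n := norm_smul_unit u1 r0.le
        refine x1 ⟨(D - ‖z‖) • g (nr z), by rw [n]; linarith [norm_pos_iff.2 n0], ?_⟩
        rw [glue _ (smul_ne_zero r0.ne' (ne_of_unit u1)) (by rw [n]; linarith [norm_pos_iff.2 n0]),
          n, nr_smul u1 r0, hf.fg _ (norm_nr n0), sub_sub_cancel, smul_nr n0, e]
      obtain ⟨γ, v, g1, g2, -, g4⟩ := loc par₂ hz e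
      have q : (fun s => D - ‖γ s‖) =ᶠ[𝓝 t] fun s => u (c s) :=
        g4.mono fun s hs => (e₂ _ _ hs.1 hs.2).1.symm
      refine ⟨(continuousAt_const.sub g2.continuousAt.norm).congr q, fun r hr =>
        Eventually.frequently ?_⟩
      filter_upwards [q.filter_mono nhdsWithin_le_nhds, self_mem_nhdsWithin] with z z1 z2
      refine lt_of_le_of_lt (le_trans ?_ (sp_nn G c t)) hr
      rw [slope_def_field, ← z1, ← show D - ‖γ t‖ = u (c t) from q.self_of_nhds]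
      exact div_nonpos_of_nonpos_of_nonneg (by simp [g1]) (sub_pos.2 z2).le
  have d := fun t => (cs.integral_hasStrictDerivAt 0 t).hasDerivAt
  have := image_le_of_liminf_slope_right_le_deriv_boundary (a := 0) (b := 1)
    (fun t _ => (key t).1.continuousWithinAt) (B := fun t => ∫ s in (0 : ℝ)..t, sp G c s)
    (by simp [c3, (e₁ _ 0 z0 rfl).1]) (fun t _ => (d t).continuousAt.continuousWithinAt)
    (fun t _ => (d t).hasDerivWithinAt) (fun t _ => (key t).2) (right_mem_Icc.2 zero_le_one)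
  simpa [c4, (e₂ _ 0 z0 rfl).1, len_eq] using this

theorem Twisted.push {k : ℝ → Met (E (m + 1))} (ht : Twisted M f φ ψ) (hM : Submfd (E (m + 1)) M)
    (hc : IsCompact M) (hn : IsPreconnected M) (hf : SphDiff f g) (hk : Path (E m) f k)
    (D1 : D < π) : ∃ G, Riem (E (m + 1)) M G ∧ Far M G D := by
  obtain ⟨D', D0, d1, d2⟩ : ∃ D', 0 < D' ∧ D' < π ∧ D ≤ D' := ⟨max D 1, lt_max_of_lt_right one_pos,
    max_lt D1 (by linarith [pi_gt_three]), le_max_left _ _⟩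
  have i0 := inv_pos.2 D0
  have n : ∀ x : E (m + 1), ‖D'⁻¹ • x‖ < 1 ↔ ‖x‖ < D' := fun x => by
    rw [norm_smul, norm_of_nonneg i0.le, inv_mul_lt_iff₀ D0, mul_one]
  have p : ∀ {χ : E (m + 1) → V}, (∀ x, ‖x‖ < 1 → Par M χ x) → ∀ x, ‖x‖ < D' →
      Par M (fun x => χ (D'⁻¹ • x)) x := fun h x hx => Par.comp (τ := fun z => D'⁻¹ • z)
    (h _ ((n x).2 hx)) (Sm.of (contDiff_id.const_smul _) _) (by
      rw [show fderiv ℝ (fun z => D'⁻¹ • z) x = _ from ((hasFDerivAt_id x).const_smul D'⁻¹).fderiv]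
      exact smul_right_injective _ i0.ne')
  have j : ∀ {χ : E (m + 1) → V}, InjOn χ (Metric.ball 0 1) →
      InjOn (fun x => χ (D'⁻¹ • x)) (Metric.ball 0 D') := fun h a ha b hb e =>
    smul_right_injective _ i0.ne' (h (mem_ball_zero_iff.2 ((n a).2 (mem_ball_zero_iff.1 ha)))
      (mem_ball_zero_iff.2 ((n b).2 (mem_ball_zero_iff.1 hb))) e)
  have im : ∀ χ : E (m + 1) → V, (fun x => χ (D'⁻¹ • x)) '' Metric.ball 0 D' =
      χ '' Metric.ball 0 1 := fun χ => by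
    refine subset_antisymm ?_ ?_ <;> rintro _ ⟨x, hx, rfl⟩
    · exact ⟨_, mem_ball_zero_iff.2 ((n x).2 (mem_ball_zero_iff.1 hx)), rfl⟩
    · exact ⟨D' • x, mem_ball_zero_iff.2 ((n _).1 (by
        simpa [inv_smul_smul₀ D0.ne'] using hx)), by simp only [inv_smul_smul₀ D0.ne']⟩
  obtain ⟨G, g1, p, hp, q, hq, g2⟩ := push_aux hM hc hn hf D0 (backward hf hk D0 d1) (p ht.par₁)
    (p ht.par₂) (j ht.inj₁) (j ht.inj₂) (by rw [im, im]; exact ht.cover)
    (by rw [im, smul_zero]; exact ht.pole) fun x x0 hx => by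
      rw [ht.glue _ (smul_ne_zero i0.ne' x0) ((n x).2 hx), nr_def, nr_pos i0, smul_smul, norm_smul,
        norm_of_nonneg i0.le, mul_sub, inv_mul_cancel₀ D0.ne']
  exact ⟨G, g1, p, hp, q, hq, fun c c1 c2 c3 c4 => d2.trans (g2 c c1 c2 c3 c4)⟩

theorem Riem.twist (hG : Riem (E (m + 1)) M G) (hm : 1 ≤ m) (hM : Submfd (E (m + 1)) M)
    (hc : IsCompact M) (hn : IsPreconnected M) (hD : π / 2 < D) (hF : Far M G D) :
    ∃ (f g : E (m + 1) → E (m + 1)) (k : ℝ → Met (E (m + 1))) (φ ψ : E (m + 1) → V),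
      SphDiff f g ∧ Path (E m) f k ∧ Twisted M f φ ψ := by
  obtain ⟨G', g1, g2⟩ := hG.ext hM hc hn
  obtain ⟨p, hp, q, hq, hF⟩ := hF
  have D0 : 0 < D := lt_trans (by positivity) hD
  obtain ⟨κ, k1, k2⟩ := exists_between ((div_lt_one D0).2 hD)
  have κ0 : 0 < κ := lt_trans (by positivity) k1
  have h := g1.smul κ0 k2.le
  have lt : ∀ x ∈ M, ∀ z ∈ M, dst M (fun x => κ ^ 2 • G' x) x z < π := fun x hx z hz => by
    have := (g1.le_dst hx hz (a := κ⁻¹ * dst M (fun x => κ ^ 2 • G' x) x z) fun c hc => by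
      rw [inv_mul_le_iff₀ κ0, ← len_smul _ κ0.le]
      exact hc.dst_le).trans (g1.myers (by simpa) hx hz)
    rw [inv_mul_le_iff₀ κ0] at this
    exact this.trans_lt (mul_lt_of_lt_one_left pi_pos k2)
  obtain ⟨F₁, F₂, a, b, c, d⟩ := h.two lt hp hq (((div_lt_iff₀ D0).1 k1).trans_le
    (h.le_dst hp hq fun c hc => by
      rw [len_smul _ κ0.le, len_eq, sp_ext hM g2 hc.c1 hc.m]
      exact mul_le_mul_of_nonneg_left (hF c hc.c1 hc.m hc.e0 hc.e1) κ0.le))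
  obtain ⟨K, θ, p, q, h⟩ := Two.mor ⟨h, lt, a, b, c, d⟩ ⟨p, hp⟩
  exact h.twist

end Pool.Agent.Lib.MP_c00cc5_gt
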