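import Pool.Agent.Lib.MP_c00cc5_gt.Comp

set_option autoImplicit false
set_option maxSynthPendingDepth 3
set_option linter.unusedSectionVars false
set_option linter.unusedSimpArgs false

namespace Pool.Agent.Lib.MP_c00cc5_gt

/-! Smoothing of functions with lower supports. -/

open scoped ContDiff RealInnerProductSpace Topology
open Filter Set Real

theorem conv_of_supp {ψ : ℝ → ℝ} (hc : ContinuousOn ψ (Icc 0 1)) {l : ℝ → ℝ}
    (h : ∀ t ∈ Icc (0 : ℝ) 1, ∃ b < 0, UJ (fun s => -ψ (t + s)) (-ψ t) (-l t) b) :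
    ψ 0 + l 0 ≤ ψ 1 := by
  by_contra hm
  rw [not_le] at hm
  obtain ⟨t, ht, hM⟩ := isCompact_Icc.exists_isMaxOn (nonempty_Icc.2 zero_le_one)
    (f := fun s => ψ s - s * (ψ 1 - ψ 0)) (hc.sub (by fun_prop))
  obtain ⟨b0, b1, b2⟩ := h 0 (by simp)
  obtain ⟨s, h1, h2⟩ := (((b2 (-b0) (neg_pos.2 b1)).filter_mono nhdsWithin_le_nhds).and
    (Ioo_mem_nhdsGT one_pos)).exists
  have h3 : ψ s - s * (ψ 1 - ψ 0) ≤ ψ t - t * (ψ 1 - ψ 0) := hM (Ioo_subset_Icc_self h2)
  simp only [zero_add, add_neg_cancel, mul_zero, add_zero] at h1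
  have h4 : ψ 0 < ψ t - t * (ψ 1 - ψ 0) := by nlinarith [h2.1]
  have t0 : 0 < t := ht.1.lt_of_ne fun e => by simp [← e] at h4
  have t1 : t < 1 := ht.2.lt_of_ne fun e => by simp [e] at h4
  obtain ⟨b, c1, c2⟩ := h t ht
  have := (c2.add (J2.line (0 : ℝ) (ψ 1 - ψ 0)).uj).lower (by
    have c : Continuous fun s : ℝ => t + s := by fun_prop
    filter_upwards [(c.tendsto' 0 t (by simp)).eventually (Icc_mem_nhds t0 t1)] with s hs
    have : ψ (t + s) - (t + s) * (ψ 1 - ψ 0) ≤ ψ t - t * (ψ 1 - ψ 0) := hM hs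
    simp only [smul_eq_mul]
    linarith)
  linarith [this.2]

theorem ev_pos {X : Type} [TopologicalSpace X] {F : X → ℝ} {p : X} (hc : ContinuousAt F p)
    (h : 0 < F p) : ∀ᶠ q in 𝓝 p, 0 < F q := hc.eventually (lt_mem_nhds h)

theorem quad_sph {W : Type} [NormedAddCommGroup W] [NormedSpace ℝ W] {Q : W → ℝ}
    (hQ : ∀ c w, Q (c • w) = c ^ 2 * Q w) (h : ∀ w ∈ Metric.sphere (0 : W) 1, 0 < Q w) (w : W)
    (hw : w ≠ 0) : 0 < Q w := by
  have := h (‖w‖⁻¹ • w) (by simp [norm_smul, hw])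
  rw [hQ] at this
  exact (pos_iff_pos_of_mul_pos this).1 (by have := norm_pos_iff.2 hw; positivity)

theorem quad_sph' {W : Type} [NormedAddCommGroup W] [NormedSpace ℝ W] {Q : W → ℝ}
    (hQ : ∀ c w, Q (c • w) = c ^ 2 * Q w) (h : ∀ w ∈ Metric.sphere (0 : W) 1, 0 < Q w) (w : W) :
    0 ≤ Q w := by
  by_cases hw : w = 0
  · simpa [hw] using (hQ 0 0).ge
  · exact (quad_sph hQ h w hw).le

theorem cpt_const {X : Type} [TopologicalSpace X] {K : Set X} (hK : IsCompact K)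
    {P : ℝ → X → Prop} (hm : ∀ C C' x, C ≤ C' → P C x → P C' x)
    (h : ∀ x ∈ K, ∃ C, ∀ᶠ z in 𝓝 x, P C z) : ∃ C, 0 ≤ C ∧ ∀ x ∈ K, P C x := by
  obtain ⟨C, hC⟩ := hK.induction_on (p := fun s => ∃ C, ∀ x ∈ s, P C x) ⟨0, by simp⟩
    (fun s t hst ⟨C, hC⟩ => ⟨C, fun x hx => hC x (hst hx)⟩)
    (fun s t ⟨C, hC⟩ ⟨D, hD⟩ => ⟨max C D, fun x hx => hx.elim
      (fun hx => hm _ _ _ (le_max_left _ _) (hC x hx))
      fun hx => hm _ _ _ (le_max_right _ _) (hD x hx)⟩)
    fun x hx => let ⟨C, hC⟩ := h x hx; ⟨_, mem_nhdsWithin_of_mem_nhds hC, C, fun _ h => h⟩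
  exact ⟨max C 0, le_max_right _ _, fun x hx => hm _ _ _ (le_max_left _ _) (hC x hx)⟩

variable {V W : Type} [NormedAddCommGroup V] [InnerProductSpace ℝ V] [FiniteDimensional ℝ V]
  [NormedAddCommGroup W] [NormedSpace ℝ W] [FiniteDimensional ℝ W]
  {M : Set V} {G : Met V} {φ : W → V} {r : V → W} {y : W} {p x z : V}

/-- the soft maximum -/
noncomputable def smx {ι : Type} (S : Finset ι) (ψ f : ι → V → ℝ) (N : ℝ) (x : V) : ℝ :=
  N⁻¹ * log (∑ i ∈ S, ψ i x * ψ i x * exp (N * f i x))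

theorem smx_cda {ι : Type} (S : Finset ι) {ψ f : ι → V → ℝ} (hψ : ∀ i, ContDiff ℝ ∞ (ψ i))
    (hf : ∀ i, ContDiff ℝ ∞ (f i)) (N : ℝ)
    (hZ : 0 < ∑ i ∈ S, ψ i x * ψ i x * exp (N * f i x)) : ContDiffAt ℝ ∞ (smx S ψ f N) x :=
  contDiffAt_const.mul ((ContDiffAt.sum fun i _ => (((hψ i).mul (hψ i)).mul
    (contDiff_const.mul (hf i)).exp).contDiffAt).log hZ.ne')

theorem soft {ι : Type} (S : Finset ι) {ψ f : ι → V → ℝ} (hψ : ∀ i, ContDiff ℝ ∞ (ψ i))
    (hf : ∀ i, ContDiff ℝ ∞ (f i)) (h0 : ∀ i x, 0 ≤ ψ i x) {N : ℝ} (N0 : 0 < N) {Z A τ : ℝ}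
    (hZ : Z = ∑ i ∈ S, ψ i x * ψ i x * exp (N * f i x)) (Z0 : 0 < Z) (A0 : 0 ≤ A) (τ0 : 0 ≤ τ)
    (hA : ∀ i ∈ S, ψ i x ≠ 0 → exp (N * f i x) ≤ A * Z) (v b : V) (k : ℝ) :
    ((∀ i ∈ S, fderiv ℝ (ψ i) x v ^ 2 - ψ i x * HH (ψ i) x v b ≤ τ) →
      (∀ i ∈ S, ψ i x ≠ 0 → k ≤ HH (f i) x v b) →
      k - 2 * S.card * A * τ / N ≤ HH (smx S ψ f N) x v b) ∧
    ((∀ i ∈ S, ψ i x * fderiv ℝ (ψ i) x v ≤ τ) → (∀ i ∈ S, ψ i x ≠ 0 → fderiv ℝ (f i) x v ≤ k) →
      fderiv ℝ (smx S ψ f N) x v ≤ k + 2 * S.card * A * τ / N) := by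
  have j := J2.poly x v b
  have z0 : ∀ i, ψ i x = 0 → fderiv ℝ (ψ i) x v = 0 := fun i hi => by
    rw [IsLocalMin.fderiv_eq_zero (Eventually.of_forall fun z => hi ▸ h0 i z)]; rfl
  obtain ⟨e1, e2⟩ := HH_of (cda2_of (smx_cda S hψ hf N (hZ ▸ Z0))) j
    (((J2.sum S fun i _ => ((j.hh (cda2_of (hψ i).contDiffAt)).mul
      (j.hh (cda2_of (hψ i).contDiffAt))).mul
      ((j.hh (cda2_of (hf i).contDiffAt)).cmul N).exp).log (hZ ▸ Z0.ne')).cmul N⁻¹)
  rw [← hZ] at e1 e2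
  rw [e1, e2]
  generalize hZ' : ∑ i ∈ S, ((fderiv ℝ (ψ i) x v * ψ i x + ψ i x * fderiv ℝ (ψ i) x v) *
    exp (N * f i x) + ψ i x * ψ i x * (exp (N * f i x) * (N * fderiv ℝ (f i) x v))) = Z'
  have bd : ∀ i ∈ S, ∀ a, a ≤ τ → (ψ i x = 0 → a = 0) → exp (N * f i x) * a ≤ A * Z * τ :=
    fun i hi a ha h => by
      by_cases e : ψ i x = 0
      · rw [h e, mul_zero]; positivity
      · exact (mul_le_mul_of_nonneg_left ha (exp_pos _).le).trans
          (mul_le_mul_of_nonneg_right (hA i hi e) τ0)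
  refine ⟨fun h1 h2 => ?_, fun h1 h2 => ?_⟩
  · have := Finset.sum_le_sum (s := S)
      (f := fun i => N * k * (ψ i x * ψ i x * exp (N * f i x)) - 2 * (A * Z * τ) +
        (2 * (Z' / Z) * ((fderiv ℝ (ψ i) x v * ψ i x + ψ i x * fderiv ℝ (ψ i) x v) *
          exp (N * f i x) + ψ i x * ψ i x * (exp (N * f i x) * (N * fderiv ℝ (f i) x v))) -
        (Z' / Z) ^ 2 * (ψ i x * ψ i x * exp (N * f i x))))
      (g := fun i => (HH (ψ i) x v b * ψ i x + 2 * (fderiv ℝ (ψ i) x v * fderiv ℝ (ψ i) x v) +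
        ψ i x * HH (ψ i) x v b) * exp (N * f i x) +
        2 * ((fderiv ℝ (ψ i) x v * ψ i x + ψ i x * fderiv ℝ (ψ i) x v) *
          (exp (N * f i x) * (N * fderiv ℝ (f i) x v))) +
        ψ i x * ψ i x * (exp (N * f i x) * (N * fderiv ℝ (f i) x v) ^ 2 +
          exp (N * f i x) * (N * HH (f i) x v b))) fun i hi => by
        have a1 := bd i hi _ (h1 i hi) fun e => by simp [e, z0 i e]
        have a2 : ψ i x * ψ i x * k ≤ ψ i x * ψ i x * HH (f i) x v b := by
          by_cases e : ψ i x = 0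
          · simp [e]
          · exact mul_le_mul_of_nonneg_left (h2 i hi e) (mul_self_nonneg _)
        have a3 := mul_le_mul_of_nonneg_left a2 (mul_pos N0 (exp_pos (N * f i x))).le
        have a4 := mul_nonneg (exp_pos (N * f i x)).le (sq_nonneg (2 * fderiv ℝ (ψ i) x v +
          ψ i x * (N * fderiv ℝ (f i) x v) - Z' / Z * ψ i x))
        nlinarith
    rw [Finset.sum_add_distrib, Finset.sum_sub_distrib, Finset.sum_sub_distrib, ← Finset.mul_sum,
      ← Finset.mul_sum _ _ (2 * (Z' / Z)), ← Finset.mul_sum _ _ ((Z' / Z) ^ 2), ← hZ, hZ',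
      Finset.sum_const, nsmul_eq_mul] at this
    generalize (Finset.sum S _ : ℝ) = Z'' at this ⊢
    refine le_of_mul_le_mul_left ?_ (mul_pos N0 Z0)
    field_simp at this ⊢
    nlinarith
  · have := Finset.sum_le_sum (s := S)
      (f := fun i => (fderiv ℝ (ψ i) x v * ψ i x + ψ i x * fderiv ℝ (ψ i) x v) *
        exp (N * f i x) + ψ i x * ψ i x * (exp (N * f i x) * (N * fderiv ℝ (f i) x v)))
      (g := fun i => N * k * (ψ i x * ψ i x * exp (N * f i x)) + 2 * (A * Z * τ)) fun i hi => by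
        have a1 := bd i hi _ (h1 i hi) fun e => by simp [e]
        have a2 : ψ i x * ψ i x * fderiv ℝ (f i) x v ≤ ψ i x * ψ i x * k := by
          by_cases e : ψ i x = 0
          · simp [e]
          · exact mul_le_mul_of_nonneg_left (h2 i hi e) (mul_self_nonneg _)
        have a3 := mul_le_mul_of_nonneg_left a2 (mul_pos N0 (exp_pos (N * f i x))).le
        nlinarith
    rw [hZ', Finset.sum_add_distrib, ← Finset.mul_sum, ← hZ, Finset.sum_const, nsmul_eq_mul] at this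
    refine le_of_mul_le_mul_left ?_ (mul_pos N0 Z0)
    field_simp
    nlinarith

theorem smx_bd {ι : Type} (S : Finset ι) {ψ f : ι → V → ℝ} (h0 : ∀ i, 0 ≤ ψ i x ∧ ψ i x ≤ 1)
    {N a b : ℝ} (N0 : 0 < N) {j : ι} (hj : j ∈ S) (h1 : ψ j x = 1) (h2 : a ≤ f j x)
    (h3 : ∀ i ∈ S, ψ i x ≠ 0 → f i x ≤ b) :
    exp (N * a) ≤ ∑ i ∈ S, ψ i x * ψ i x * exp (N * f i x) ∧ a ≤ smx S ψ f N x ∧
      smx S ψ f N x ≤ b + S.card / N := by
  have l : exp (N * a) ≤ ∑ i ∈ S, ψ i x * ψ i x * exp (N * f i x) := by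
    refine le_trans ?_ (Finset.single_le_sum (f := fun i => ψ i x * ψ i x * exp (N * f i x))
      (fun i _ => mul_nonneg (mul_self_nonneg _) (exp_pos _).le) hj)
    simp only [h1, one_mul]
    gcongr
  have u : ∑ i ∈ S, ψ i x * ψ i x * exp (N * f i x) ≤ exp (N * b + S.card) := by
    refine (Finset.sum_le_card_nsmul _ _ (exp (N * b)) fun i hi => ?_).trans ?_
    · by_cases e : ψ i x = 0
      · simp [e, (exp_pos _).le]
      · have := h3 i hi e
        calc _ ≤ 1 * 1 * exp (N * b) := by gcongr <;> first | exact (h0 i).1 | exact (h0 i).2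
          _ = _ := by ring
    · rw [nsmul_eq_mul, exp_add, mul_comm]
      gcongr
      linarith [add_one_le_exp (S.card : ℝ)]
  refine ⟨l, ?_, ?_⟩
  · rw [smx, le_inv_mul_iff₀ N0, le_log_iff_exp_le ((exp_pos _).trans_le l)]
    exact l
  · rw [smx, inv_mul_le_iff₀ N0, log_le_iff_le_exp ((exp_pos _).trans_le l), mul_add,
      mul_div_cancel₀ _ N0.ne']
    exact u

theorem Geo.nice (h : Geo W M G) (hx : x ∈ M) : ∃ (φ : W → V) (r : V → W) (y : W), Ch M φ r y ∧
    ContDiff ℝ ∞ r ∧ φ y = x ∧ ∀ u, chr (pull G φ) y u u = 0 := by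
  obtain ⟨ψ, ρ, y, hc, rfl⟩ := h.sub.ch hx
  have g := h.pg hc.par
  obtain ⟨Q, hQ⟩ : ∃ Q : W → W, Q = fun z => z - (1 / 2 : ℝ) • chr (pull G ψ) y (z - y) (z - y) :=
    ⟨_, rfl⟩
  have sQ : Sm Q y := Eventually.of_forall fun z => hQ ▸ contDiffAt_id.sub
    ((g.chr_cda (h.ps hc.par) contDiffAt_const rfl (contDiffAt_id.sub contDiffAt_const)
      (contDiffAt_id.sub contDiffAt_const)).const_smul _)
  have jQ : ∀ u, J2 (fun s : ℝ => Q (y + s • u)) y u (-chr (pull G ψ) y u u) := fun u =>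
    (J2.poly y u _).congr (Eventually.of_forall fun s => by
      simp only [hQ, add_sub_cancel_left, g.chr_smul, g.chr_smul']
      module)
  have Qy : Q y = y := by simpa using (jQ 0).1
  have dQ : ∀ u, fderiv ℝ Q y u = u := fun u => (((J2.line y u).comp sQ.c2).unique (jQ u)).1
  have hp : Par M (fun z => ψ (Q z)) y := Par.comp (Qy.symm ▸ hc.par) sQ fun a b e => by
    rwa [dQ, dQ] at e
  obtain ⟨r, hr⟩ := hp.ch h.sub
  obtain ⟨χ, c1, -, c2⟩ := exists_cut hr.sm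
  have e : (fun x => χ x • r x) =ᶠ[𝓝 (ψ (Q y))] r := c2.mono fun x hx => by simp [hx]
  refine ⟨_, _, y, ⟨hp, Sm.of c1 _, ?_, ?_⟩, c1, by rw [Qy], fun u => ?_⟩
  · filter_upwards [hr.left, hp.sm.ca.eventually e] with z h1 h2 using h2.trans h1
  · filter_upwards [hr.right, e] with z h1 h2 hz
      using (congrArg (fun w => ψ (Q w)) h2).trans (h1 hz)
  have j := h.gj hp u
  simp only [Qy] at j
  obtain ⟨u', e1, e2⟩ := h.gj' hc.par j
  obtain ⟨e3, e4⟩ := (hp.jet (J2.line y u)).1.unique (hc.par.jet (jQ u)).1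
  obtain rfl : u = u' := hc.par.inj (e3.symm.trans e1)
  rw [← e4, map_zero, add_right_inj] at e2
  simpa using hp.inj (e2.trans (map_zero _).symm)

theorem hess_cont {K : Met W} (hK : Good K y) {f : W → ℝ} (hf : ContDiffAt ℝ 2 f y) (u : W) :
    ContinuousAt (fun z : W × W => hess K f z.1 z.2 z.2) (y, u) := by
  have c1 : ContinuousAt (fun z : W × W => fderiv ℝ f z.1) (y, u) :=
    (c2_d hf).continuousAt.comp_of_eq continuousAt_fst rfl
  have c2 : ContinuousAt (fun z : W × W => fderiv ℝ (fderiv ℝ f) z.1) (y, u) :=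
    ((hf.fderiv_right (m := 1) (by norm_num)).fderiv_right (m := 0)
      (by norm_num)).continuousAt.comp_of_eq continuousAt_fst rfl
  exact ((c2.clm_apply continuousAt_snd).clm_apply continuousAt_snd).sub
    (c1.clm_apply (hK.chr_cont continuousAt_fst rfl continuousAt_snd continuousAt_snd))

theorem Good.hess_smul {K : Met W} (hK : Good K y) (f : W → ℝ) (c : ℝ) (u : W) :
    hess K f y (c • u) (c • u) = c ^ 2 * hess K f y u u := by
  simp only [hess, hK.chr_smul, hK.chr_smul', map_smul, smul_apply, smul_eq_mul]; ring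

theorem Geo.hh_bd (h : Geo W M G) {F : V → ℝ} (hF : ∀ x ∈ M, ContDiffAt ℝ ∞ F x) :
    ∃ C, 0 ≤ C ∧ ∀ x ∈ M, (∀ v b, GJ M G x v b → -(C * G x v v) ≤ HH F x v b) ∧
      ∀ v, fderiv ℝ F x v ^ 2 ≤ C * G x v v := by
  obtain ⟨μ, μ0, hμ, -⟩ := h.low
  obtain ⟨C, hC⟩ := h.cpt.exists_bound_of_continuousOn fun x hx =>
    (c2_d (cda2_of (hF x hx))).continuousAt.continuousWithinAt
  obtain ⟨D, D0, hD⟩ := cpt_const h.cpt
    (P := fun C x => x ∈ M → ∀ v b, GJ M G x v b → -(C * G x v v) ≤ HH F x v b)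
    (fun C C' x hC H hx v b hj => le_trans (neg_le_neg
      (mul_le_mul_of_nonneg_right hC (h.nn _ _))) (H hx v b hj)) fun x hx => by
    obtain ⟨φ, r, y, hc, rfl⟩ := h.sub.ch hx
    have g := h.pg hc.par
    have c2 : ∀ z, Par M φ z → ContDiffAt ℝ 2 (fun z => F (φ z)) z := fun z hz =>
      (cda2_of (hF _ hz.m)).comp _ hz.sm.c2
    have cK : ∀ u, ContinuousAt (fun z : W × W => pull G φ z.1 z.2 z.2) (y, u) := fun u =>
      ((g.smooth.continuousAt.comp_of_eq continuousAt_fst rfl).clm_apply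
        continuousAt_snd).clm_apply continuousAt_snd
    obtain ⟨D, -, hD⟩ := cpt_const (isCompact_sphere (0 : W) 1)
      (P := fun C u => u ≠ 0 → 0 < C * pull G φ y u u + hess (pull G φ) (fun z => F (φ z)) y u u)
      (fun C C' u hC H hu => (H hu).trans_le (by gcongr; exact g.nn u)) fun u hu => by
        have u0 := g.pos u (by rintro rfl; simp at hu)
        refine ⟨(1 - hess (pull G φ) (fun z => F (φ z)) y u u) / pull G φ y u u, ?_⟩
        have := ((continuousAt_const.mul (cK u)).add (hess_cont g (c2 y hc.par) u)).comp_of_eq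
          (Continuous.prodMk_right y).continuousAt rfl |>.eventually (lt_mem_nhds (by
            show 0 < (1 - hess (pull G φ) (fun z => F (φ z)) y u u) / pull G φ y u u *
              pull G φ y u u + _
            rw [div_mul_cancel₀ _ u0.ne']; simp))
        exact this.mono fun _ h _ => h
    have := (isCompact_sphere (0 : W) 1).eventually_forall_of_forall_eventually (x₀ := y)
      (P := fun z u => 0 < D * pull G φ z u u + hess (pull G φ) (fun z => F (φ z)) z u u)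
      fun u hu => ((continuousAt_const.mul (cK u)).add (hess_cont g (c2 y hc.par) u)).eventually
        (lt_mem_nhds (hD u hu (by rintro rfl; simp at hu)))
    refine ⟨D, (hc.ev' (this.and hc.par.ev)).mono fun x hx m v b hj => ?_⟩
    obtain ⟨e, h1, h2⟩ := hx m
    rw [← e] at hj ⊢
    obtain ⟨u, rfl, rfl⟩ := h.gj' h2 hj
    rw [h2.hh _ (cda2_of (hF _ h2.m)), ← pull_apply]
    linarith [quad_sph' (Q := fun u => D * pull G φ (r x) u u +
      hess (pull G φ) (fun z => F (φ z)) (r x) u u) (fun c w => by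
        simp only [(h.pg h2).hess_smul, map_smul, smul_apply, smul_eq_mul]; ring) h1 u]
  refine ⟨max D ((C / μ) ^ 2), le_max_of_le_left D0, fun x hx => ⟨fun v b hj => le_trans (neg_le_neg
    (mul_le_mul_of_nonneg_right (le_max_left _ _) (h.nn _ _))) (hD x hx hx v b hj), fun v => ?_⟩⟩
  refine le_trans ?_ (mul_le_mul_of_nonneg_right (le_max_right _ _) (h.nn _ _))
  refine le_trans ?_ (mul_le_mul_of_nonneg_left (hμ x hx v) (sq_nonneg _))
  rw [← mul_pow, ← mul_assoc, div_mul_cancel₀ _ μ0.ne', ← sq_abs]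
  exact pow_le_pow_left₀ (abs_nonneg _) ((fderiv ℝ F x).le_of_opNorm_le (hC x hx) v) 2

/-- `n` is the gradient of `F` along `M` -/
def Grad (M : Set V) (G : Met V) (F : V → ℝ) (x n : V) : Prop :=
  Tan M x n ∧ ∀ w, Tan M x w → G x n w = fderiv ℝ F x w

/-- a smooth approximation at `x` -/
structure Apx (M : Set V) (G : Met V) (f A k F : V → ℝ) (δ η : ℝ) (x : V) : Prop where
  val : |F x - f x| ≤ δ
  hes : ∀ v b, GJ M G x v b → -((f x + η) * G x v v) ≤ HH F x v b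
  gra : ∀ n, Grad M G A x n → fderiv ℝ F x n ≤ k x + η

theorem Par.ca (hp : Par M φ y) {f : V → ℝ} (hf : ContinuousOn f M) :
    ContinuousAt (fun z => f (φ z)) y :=
  (hf _ hp.m).tendsto.comp (tendsto_nhdsWithin_iff.2 ⟨hp.sm.ca, hp.mem⟩)

theorem Geo.grad (h : Geo W M G) (hp : Par M φ y) {A : V → ℝ} (hA : DifferentiableAt ℝ A (φ y)) :
    Grad M G A (φ y) (fderiv ℝ φ y ((pull G φ y).inverse (fderiv ℝ (fun z => A (φ z)) y))) := by
  obtain ⟨r, hc⟩ := hp.ch h.sub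
  refine ⟨hp.tan _, fun w hw => ?_⟩
  obtain ⟨w, rfl⟩ := hc.tan hw
  rw [← pull_apply, (inv_of_pos (h.pg hp).pos).self_apply_inverse, fd_comp hA hp.sm.d]

theorem Geo.grad_eq (h : Geo W M G) (hx : x ∈ M) {A : V → ℝ} {n n' : V} (h1 : Grad M G A x n)
    (h2 : Grad M G A x n') : n = n' := by
  obtain ⟨φ, r, y, hc, rfl⟩ := h.sub.ch hx
  obtain ⟨u, rfl⟩ := hc.tan h1.1
  obtain ⟨u', rfl⟩ := hc.tan h2.1
  by_contra hne
  have := h.pos (φ y) _ (sub_ne_zero.2 hne)
  rw [map_sub (G (φ y)), sub_apply, ← map_sub, h1.2 _ (hc.par.tan _), h2.2 _ (hc.par.tan _)] at this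
  simp at this

theorem jet_q (K K0 : W →L[ℝ] W →L[ℝ] ℝ) (hs : ∀ u v, K0 u v = K0 v u) (g l : ℝ) (a ζ : W)
    {c : ℝ → W} {z u β : W} (h : J2 c z u β) :
    J2 (fun s => g + K (c s - a) ζ - l / 2 * K0 (c s - a) (c s - a))
      (g + K (z - a) ζ - l / 2 * K0 (z - a) (z - a)) (K u ζ - l * K0 (z - a) u)
      (K β ζ - l * K0 (z - a) β - l * K0 u u) := by
  have j := h.add (J2.const (-a))
  simp only [← sub_eq_add_neg, add_zero] at j
  have := ((J2.const g).add ((j.clm K).app (J2.const ζ))).add (((j.clm K0).app j).cmul (-(l / 2)))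
  refine (this.congr (Eventually.of_forall fun s => by ring)).cast (by ring) ?_ ?_
  · simp [hs u]; ring
  · simp [hs β]; ring

theorem Geo.loc [Nontrivial W] (h : Geo W M G) {f A k : V → ℝ} {ζ : V → V} (cf : ContinuousOn f M)
    (ck : ContinuousOn k M) (cA : ∀ x ∈ M, ContDiffAt ℝ ∞ A x)
    (hζ : ∀ x ∈ M, Tan M x (ζ x) ∧ G x (ζ x) (ζ x) ≤ 1 ∧ SS W M G f x (ζ x) ∧
      fderiv ℝ A x (ζ x) ≤ k x) {η : ℝ} (η0 : 0 < η) (hx : x ∈ M) :
    ∃ U ∈ 𝓝 x, ∀ δ, 0 < δ → ∃ F, ContDiff ℝ ∞ F ∧ ∀ z ∈ U, z ∈ M → Apx M G f A k F δ η z := by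
  obtain ⟨φ, r, y, hc, cr, rfl, h0⟩ := h.nice hx
  have g0 := h.pg hc.par
  obtain ⟨R1, R10, hR1⟩ := Metric.nhds_basis_closedBall.eventually_iff.1 hc.ev
  obtain ⟨μ, μ0, hμ⟩ := pos_unif (isCompact_closedBall y R1)
    (fun z hz => (h.ps (hR1 hz).par).ca.continuousWithinAt) fun z hz => (h.pg (hR1 hz).par).pos
  obtain ⟨n, hn⟩ : ∃ n : W → W,
    n = fun z => (pull G φ z).inverse (fderiv ℝ (fun z => A (φ z)) z) := ⟨_, rfl⟩
  have cn : ContinuousAt n y := by
    have : CompleteSpace W := FiniteDimensional.complete ℝ W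
    rw [hn]
    exact (((inv_of_pos g0.pos).contDiffAt_map_inverse (n := 0)).continuousAt.comp_of_eq
      g0.smooth.continuousAt rfl).clm_apply
      (c2_d ((cda2_of (cA _ hx)).comp y hc.par.sm.c2)).continuousAt
  generalize hK : pull G φ = K at *
  obtain ⟨l, hl⟩ : ∃ l, l = f (φ y) + η / 2 := ⟨_, rfl⟩
  have tube := ((isCompact_sphere (0 : W) 1).prod
    (isCompact_closedBall (0 : W) (μ⁻¹ + 1))).eventually_forall_of_forall_eventually (x₀ := (y, y))
    (P := fun a w => 0 < l * K y w.1 w.1 + K a.1 (chr K a.1 w.1 w.1) w.2 -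
        f (φ a.1) * K a.1 w.1 w.1 ∧
      0 < (f (φ a.2) + η) * K a.2 w.1 w.1 - K a.1 (chr K a.2 w.1 w.1) w.2 +
        l * K y (a.2 - a.1) (chr K a.2 w.1 w.1) - l * K y w.1 w.1 ∧
      0 < k (φ a.2) + η - k (φ a.1) - K a.1 (n a.2 - n a.1) w.2 + l * K y (a.2 - a.1) (n a.2))
    fun w hw => by
      have a1 : ContinuousAt (fun q : (W × W) × W × W => q.1.1) ((y, y), w) := by fun_prop
      have a2 : ContinuousAt (fun q : (W × W) × W × W => q.1.2) ((y, y), w) := by fun_prop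
      have a3 : ContinuousAt (fun q : (W × W) × W × W => q.2.1) ((y, y), w) := by fun_prop
      have a4 : ContinuousAt (fun q : (W × W) × W × W => q.2.2) ((y, y), w) := by fun_prop
      have b1 := g0.smooth.continuousAt.comp_of_eq a1 rfl
      have b2 := g0.smooth.continuousAt.comp_of_eq a2 rfl
      have b3 := g0.chr_cont a1 rfl a3 a3
      have b4 := g0.chr_cont a2 rfl a3 a3
      have b5 := ((continuousAt_const (y := K y)).clm_apply a3).clm_apply a3
      have b6 := (continuousAt_const (y := K y)).clm_apply (a2.sub a1)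
      have p0 := mul_pos η0 (g0.pos w.1 (by rintro e; simpa [e] using hw.1))
      have f1 := (hc.par.ca cf).comp_of_eq a1 rfl
      have f2 := (hc.par.ca cf).comp_of_eq a2 rfl
      have n1 := cn.comp_of_eq a1 rfl
      have n2 := cn.comp_of_eq a2 rfl
      refine (ev_pos ?_ ?_).and ((ev_pos ?_ ?_).and (ev_pos ?_ ?_))
      · exact ((continuousAt_const.mul b5).add ((b1.clm_apply b3).clm_apply a4)).sub
          (f1.mul ((b1.clm_apply a3).clm_apply a3))
      · simp [h0, hl]; linarith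
      · exact ((((f2.add continuousAt_const).mul ((b2.clm_apply a3).clm_apply a3)).sub
          ((b1.clm_apply b4).clm_apply a4)).add (continuousAt_const.mul (b6.clm_apply b4))).sub
          (continuousAt_const.mul b5)
      · simp [h0, hl]; linarith
      · exact (((((hc.par.ca ck).comp_of_eq a2 rfl).add continuousAt_const).sub
          ((hc.par.ca ck).comp_of_eq a1 rfl)).sub ((b1.clm_apply (n2.sub n1)).clm_apply a4)).add
          (continuousAt_const.mul (b6.clm_apply n2))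
      · simpa using η0
  obtain ⟨R2, R20, hR2⟩ := Metric.nhds_basis_closedBall.eventually_iff.1 tube
  obtain ⟨R, R0, r1, r2⟩ : ∃ R, 0 < R ∧ R ≤ R1 ∧ R ≤ R2 :=
    ⟨min R1 R2, lt_min R10 R20, min_le_left _ _, min_le_right _ _⟩
  have B1 := Metric.closedBall_subset_closedBall (x := y) r1
  have ch : ∀ a ∈ Metric.closedBall y R, Ch M φ r a := fun a ha => hR1 (B1 ha)
  have gd : ∀ a ∈ Metric.closedBall y R, Good K a := fun a ha => hK ▸ h.pg (ch a ha).par
  choose! ξ hξ using fun a (ha : a ∈ Metric.closedBall y R) =>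
    (ch a ha).tan (hζ _ (ch a ha).par.m).1
  have Q := fun a (ha : a ∈ Metric.closedBall y R) a' (ha' : a' ∈ Metric.closedBall y R) w
      (hw : w ∈ Metric.sphere (0 : W) 1) => hR2 (x := (a, a')) (by
      rw [← closedBall_prod_same]
      exact ⟨Metric.closedBall_subset_closedBall r2 ha,
        Metric.closedBall_subset_closedBall r2 ha'⟩) (w, ξ a) ⟨hw, by
      have b1 := (hζ _ (ch a ha).par.m).2.1
      rw [hξ a ha, ← pull_apply, hK] at b1
      have b2 := (le_inv_mul_iff₀ μ0).2 ((hμ a (B1 ha) (ξ a)).trans b1)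
      rw [mem_closedBall_zero_iff]
      nlinarith [inv_pos.2 μ0, sq_nonneg (‖ξ a‖ - 1)]⟩
  obtain ⟨q, hq⟩ : ∃ q : W → W → ℝ, q = fun a z =>
    f (φ a) + K a (z - a) (ξ a) - l / 2 * K y (z - a) (z - a) := ⟨_, rfl⟩
  have cq : ∀ a, ContDiff ℝ ∞ (q a) := fun a => by rw [hq]; fun_prop
  have low : ∀ a ∈ Metric.closedBall y R, ∀ z ∈ Metric.closedBall y R, q a z ≤ f (φ z) := by
    intro a ha z hz
    by_cases e : z - a = 0
    · simp [hq, sub_eq_zero.1 e]
    have m : ∀ t ∈ Icc (0 : ℝ) 1, a + t • (z - a) ∈ Metric.closedBall y R := fun t ht =>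
      (convex_closedBall y R).add_smul_sub_mem ha hz ht
    have := conv_of_supp (ψ := fun t => f (φ (a + t • (z - a))) + t ^ 2 / 2 * (l * K y (z - a) (z - a)))
      (l := fun t => K (a + t • (z - a)) (z - a) (ξ (a + t • (z - a))) + t * (l * K y (z - a) (z - a)))
      (fun t ht => ((((ch _ (m t ht)).par.ca cf).comp_of_eq (f := fun t : ℝ => a + t • (z - a))
        (by fun_prop) rfl).add (by fun_prop)).continuousWithinAt) fun t ht => by
        have b1 := (hζ _ (ch _ (m t ht)).par.m).2.2.1 φ _ _ (ch _ (m t ht)).par rfl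
          (hξ _ (m t ht)).symm (z - a)
        rw [hK] at b1
        have b2 := quad_sph (fun c w => by
          simp only [(gd _ (m t ht)).chr_smul, (gd _ (m t ht)).chr_smul', map_smul, smul_apply,
            smul_eq_mul]; ring) (fun w hw => (Q _ (m t ht) _ (m t ht) w hw).1) _ e
        simp only at b2
        generalize l * K y (z - a) (z - a) = c at b2 ⊢
        simp only [neg_add]
        refine ⟨_, ?_, (b1.add (J2.poly (-(t ^ 2 / 2 * c)) (-(t * c)) (-c)).uj).mono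
          (Eventually.of_forall fun s => ?_) le_rfl⟩
        · linarith
        · simp only [add_smul, ← add_assoc, smul_eq_mul]
          linarith
    simp only [zero_smul, add_zero, one_smul, add_sub_cancel] at this
    simp only [hq]
    linarith
  refine ⟨_, hc.ev' (Metric.closedBall_mem_nhds y R0), fun δ δ0 => ?_⟩
  obtain ⟨t, t1, t2⟩ := (isCompact_closedBall y R).elim_nhds_subcover
    (fun a => {z | f (φ z) - δ ≤ q a z}) fun a ha => by
      filter_upwards [((cq a).continuous.continuousAt.sub ((ch a ha).par.ca cf)).eventually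
        (lt_mem_nhds (show -δ < q a a - f (φ a) by simpa [hq] using δ0))] with z hz
      have : -δ < q a z - f (φ z) := hz
      show _ ≤ _
      linarith
  have N0 : 0 < (t.card + 1 : ℝ) / δ := by positivity
  have c1 : ∀ _ : W, ContDiff ℝ ∞ fun _ : V => (1 : ℝ) := fun _ => contDiff_const
  have c2 : ∀ a, ContDiff ℝ ∞ fun x => q a (r x) := fun a => (cq a).comp cr
  have Z0 : ∀ x : V, 0 < ∑ a ∈ t, (1 : ℝ) * 1 * exp ((t.card + 1 : ℝ) / δ * q a (r x)) :=
    fun x => Finset.sum_pos (fun _ _ => by positivity) (by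
      obtain ⟨a, ha, -⟩ := mem_iUnion₂.1 (t2 (Metric.mem_closedBall_self R0.le))
      exact ⟨a, ha⟩)
  refine ⟨smx t (fun _ _ => 1) (fun a x => q a (r x)) ((t.card + 1 : ℝ) / δ),
    contDiff_iff_contDiffAt.2 fun x => smx_cda t c1 c2 _ (Z0 x), fun x hx m => ?_⟩
  obtain ⟨e, hz⟩ := hx m
  generalize r x = z at e hz
  subst e
  have cz := ch z hz
  have S := soft t c1 c2 (fun _ _ => zero_le_one) N0 rfl (Z0 (φ z)) zero_le_one le_rfl
    fun a ha _ => by
      rw [one_mul]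
      refine le_trans (by simp) (Finset.single_le_sum (f := fun a => (1 : ℝ) * 1 *
        exp ((t.card + 1 : ℝ) / δ * q a (r (φ z)))) (fun _ _ => by positivity) ha)
  have jt : ∀ a u β, fderiv ℝ (fun x => q a (r x)) (φ z) (fderiv ℝ φ z u) =
      K a u (ξ a) - l * K y (z - a) u ∧ HH (fun x => q a (r x)) (φ z) (fderiv ℝ φ z u)
        (fderiv ℝ (fderiv ℝ φ) z u u + fderiv ℝ φ z β) =
        K a β (ξ a) - l * K y (z - a) β - l * K y u u := fun a u β => by
    have j := J2.poly z u β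
    refine HH_of (cda2_of (c2 a).contDiffAt) (cz.par.jet j).1
      ((jet_q (K a) (K y) g0.symm0 (f (φ a)) l a (ξ a) j).congr ?_)
    filter_upwards [j.t.eventually cz.left] with s hs
    simp only [hs, hq]
  refine ⟨?_, fun v b hj => ?_, fun n' hn' => ?_⟩
  · obtain ⟨a, ha, h1⟩ := mem_iUnion₂.1 (t2 hz)
    have := (smx_bd t (x := φ z) (ψ := fun _ _ => 1) (f := fun a x => q a (r x))
      (a := f (φ z) - δ) (fun _ => ⟨zero_le_one, le_rfl⟩) N0 ha rfl (by rw [cz.ry]; exact h1)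
      fun a ha _ => by rw [cz.ry]; exact low a (t1 a ha) z hz).2
    have : (t.card : ℝ) / ((t.card + 1) / δ) ≤ δ := by
      rw [div_div_eq_mul_div, div_le_iff₀ (by positivity)]; nlinarith
    exact abs_le.2 ⟨by linarith, by linarith⟩
  · obtain ⟨u, rfl, rfl⟩ := h.gj' cz.par hj
    refine le_trans (by simp) ((S _ _ (-((f (φ z) + η) * G (φ z) (fderiv ℝ φ z u)
      (fderiv ℝ φ z u)))).1 (by simp [HH]) fun a ha _ => ?_)
    rw [(jt a u _).2, ← pull_apply, hK]
    have := quad_sph' (fun c w => by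
      simp only [(gd z hz).chr_smul, (gd z hz).chr_smul', map_smul, smul_apply, smul_eq_mul]
      ring) (fun w hw => (Q a (t1 a ha) z hz w hw).2.1) u
    simp only [map_neg, neg_apply] at this ⊢
    linarith
  · obtain rfl := h.grad_eq m hn' (h.grad cz.par (cda_d (cA _ m)))
    refine le_trans ((S _ 0 (k (φ z) + η)).2 (by simp) fun a ha _ => ?_) (by simp)
    obtain ⟨w, hw⟩ : (Metric.sphere (0 : W) 1).Nonempty :=
      NormedSpace.sphere_nonempty.2 zero_le_one
    have b1 := (Q a (t1 a ha) z hz w hw).2.2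
    have pa := (ch a (t1 a ha)).par
    have b2 := (h.grad pa (cda_d (cA _ pa.m))).2 _ (hζ _ pa.m).1
    have b3 := (hζ _ pa.m).2.2.2
    rw [← b2, hξ a (t1 a ha), ← pull_apply, hK] at b3
    rw [(jt a _ 0).1, hK]
    simp only [hn, map_sub, sub_apply] at b1 ⊢
    linarith

theorem Geo.smoothing [Nontrivial W] (h : Geo W M G) {f A k : V → ℝ} {ζ : V → V}
    (cf : ContinuousOn f M) (ck : ContinuousOn k M) (cA : ∀ x ∈ M, ContDiffAt ℝ ∞ A x)
    (hζ : ∀ x ∈ M, Tan M x (ζ x) ∧ G x (ζ x) (ζ x) ≤ 1 ∧ SS W M G f x (ζ x) ∧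
      fderiv ℝ A x (ζ x) ≤ k x) {η : ℝ} (η0 : 0 < η) :
    ∃ F, ∀ x ∈ M, ContDiffAt ℝ ∞ F x ∧ Apx M G f A k F η η x := by
  choose! U hU hF using fun x (hx : x ∈ M) => h.loc cf ck cA hζ (half_pos η0) hx
  choose! ρ ρ0 hρ using fun x (hx : x ∈ M) => Metric.mem_nhds_iff.1 (hU x hx)
  obtain ⟨t, t2⟩ := h.cpt.elim_nhds_subcover' (fun x _ => Metric.ball x (ρ x / 2))
    fun x hx => Metric.ball_mem_nhds _ (half_pos (ρ0 x hx))
  let ψ : ∀ i : M, ContDiffBump (i : V) := fun i =>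
    ⟨ρ i / 2, ρ i, half_pos (ρ0 i i.2), half_lt_self (ρ0 i i.2)⟩
  have cψ : ∀ i, ContDiff ℝ ∞ (ψ i) := fun i => (ψ i).contDiff
  choose C C0 hC using fun i : M => h.hh_bd (F := ψ i) fun _ _ => (cψ i).contDiffAt
  obtain ⟨D, D0, hD⟩ := h.hh_bd cA
  obtain ⟨E, E0, hE⟩ : ∃ E, 0 ≤ E ∧ ∀ i ∈ t, C i ≤ E :=
    ⟨∑ i ∈ t, C i, Finset.sum_nonneg fun i _ => C0 i,
      fun i hi => Finset.single_le_sum (fun i _ => C0 i) hi⟩
  obtain ⟨a, ha⟩ : ∃ a : ℝ, a = 2 * t.card * exp 2 := ⟨_, rfl⟩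
  have a0 : 0 ≤ a := by rw [ha]; positivity
  obtain ⟨N, hN⟩ : ∃ N : ℝ, N = 2 * (1 + t.card + a * (2 * E) + a * (1 + E * D)) / η := ⟨_, rfl⟩
  have N0 : 0 < N := by rw [hN]; positivity
  have hN' : ∀ b, b ≤ 1 + t.card + a * (2 * E) + a * (1 + E * D) → b / N ≤ η / 2 := fun b hb => by
    rw [div_le_iff₀ N0, hN]
    field_simp
    linarith
  have p1 : 0 ≤ a * (2 * E) := by positivity
  have p2 : 0 ≤ a * (1 + E * D) := by positivity
  have p3 : (0 : ℝ) ≤ t.card := by positivity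
  choose F cF hF' using fun i : M => hF i i.2 N⁻¹ (inv_pos.2 N0)
  refine ⟨smx t (fun i => ψ i) F N, fun x hx => ?_⟩
  obtain ⟨j, hj, xj⟩ := mem_iUnion₂.1 (t2 hx)
  have ap : ∀ i, ψ i x ≠ 0 → Apx M G f A k (F i) N⁻¹ (η / 2) x := fun i hi =>
    hF' i x (hρ i i.2 (show x ∈ Metric.ball (i : V) (ψ i).rOut from
      (ψ i).support_eq ▸ Function.mem_support.2 hi)) hx
  have j1 : ψ j x = 1 := (ψ j).one_of_mem_closedBall (Metric.ball_subset_closedBall xj)
  obtain ⟨b1, b2, b3⟩ := smx_bd t (x := x) (ψ := fun i => ψ i) (f := F) (a := f x - N⁻¹)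
    (b := f x + N⁻¹) (fun i => ⟨(ψ i).nonneg, (ψ i).le_one⟩) N0 hj j1
    (by linarith [(abs_le.1 (ap j (by simp [j1])).val).1])
    fun i _ hi => by linarith [(abs_le.1 (ap i hi).val).2]
  have Z0 := (exp_pos _).trans_le b1
  have S := fun τ τ0 => soft t cψ cF (fun i _ => (ψ i).nonneg) N0 rfl Z0 (exp_pos 2).le (τ := τ) τ0
    fun i _ hi => le_trans (by
      rw [← exp_add, exp_le_exp, mul_sub, mul_inv_cancel₀ N0.ne']
      have := mul_le_mul_of_nonneg_left (abs_le.1 (ap i hi).val).2 N0.le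
      rw [mul_inv_cancel₀ N0.ne'] at this
      linarith) (mul_le_mul_of_nonneg_left b1 (exp_pos 2).le)
  refine ⟨smx_cda t cψ cF N Z0, ?_, fun v b hj => ?_, fun n hn => ?_⟩
  · have := hN' (1 + t.card) (by linarith)
    rw [add_div, one_div] at this
    have : 0 ≤ (t.card : ℝ) / N := by positivity
    exact abs_le.2 ⟨by linarith, by linarith⟩
  · have g0 := h.nn x v
    refine le_trans ?_ ((S (2 * E * G x v v) (by positivity) v b _).1 (fun i hi => ?_)
      fun i _ hi => (ap i hi).hes v b hj)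
    · have := mul_le_mul_of_nonneg_right (hN' (a * (2 * E)) (by linarith)) g0
      rw [← ha, ← mul_assoc, mul_div_right_comm]
      linarith
    · have c1 := (hC i x hx).1 v b hj
      have c2 := (hC i x hx).2 v
      have c3 := mul_le_mul_of_nonneg_right (hE i hi) g0
      have c4 := mul_nonneg (C0 i) g0
      nlinarith [(ψ i).nonneg (x := x), (ψ i).le_one (x := x)]
  · refine le_trans ((S (1 + E * D) (by positivity) n 0 _).2 (fun i hi => ?_)
      fun i _ hi => (ap i hi).gra n hn) ?_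
    · have c1 := (hD x hx).2 n
      rw [← hn.2 n hn.1] at c1
      have g0 := h.nn x n
      have c2 : G x n n ≤ D := by
        by_contra hc
        nlinarith
      have c3 := ((hC i x hx).2 n).trans (mul_le_mul (hE i hi) c2 g0 E0)
      nlinarith [(ψ i).nonneg (x := x), (ψ i).le_one (x := x),
        sq_nonneg (ψ i x - fderiv ℝ (ψ i) x n), mul_nonneg E0 D0]
    · have := hN' (a * (1 + E * D)) (by linarith)
      rw [← ha]
      linarith

theorem Tan.min {F : V → ℝ} (hF : DifferentiableAt ℝ F x) (hm : IsMinOn F M x) {w : V}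
    (hw : Tan M x w) : fderiv ℝ F x w = 0 := by
  obtain ⟨c, b, j, m⟩ := hw
  refine IsLocalMin.hasDerivAt_eq_zero (f := fun s => F (c s)) (m.mono fun s hs => ?_)
    (hF.hasFDerivAt.comp_hasDerivAt_of_eq 0 j.d j.1.symm)
  simpa [j.1] using hm hs

theorem Apx.cc (h : Geo W M G) {f A k F : V → ℝ} {η c : ℝ}
    (hF : ∀ x ∈ M, ContDiffAt ℝ ∞ F x ∧ Apx M G f A k F η η x) (hc : 2 * η < c) :
    CC M G fun x => F x + c := by
  refine ⟨fun x hx => (hF x hx).1.add contDiffAt_const, fun x hx v b hj hv => ?_⟩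
  have := (hF x hx).2.hes v b hj
  have e : HH (fun x => F x + c) x v b = HH F x v b := by
    simp only [HH, show fderiv ℝ (fun x => F x + c) = fderiv ℝ F from
      funext fun _ => fderiv_add_const c]
  rw [e]
  nlinarith [(abs_le.1 (hF x hx).2.val).1, h.pos x v hv]

theorem Geo.two [Nontrivial W] (h : Geo W M G) (hd : ∀ x ∈ M, ∀ z ∈ M, dst M G x z < π) {q : V}
    (hp : p ∈ M) (hq : q ∈ M) (hpq : π / 2 < dst M G p q) : ∃ F₁ F₂, CC M G F₁ ∧ CC M G F₂ ∧
      (∀ x ∈ M, ∀ n, Grad M G F₁ x n → F₁ x * F₂ x + fderiv ℝ F₂ x n < 0) ∧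
      ∀ x ∈ M, 0 < F₁ x ∨ 0 < F₂ x := by
  obtain ⟨a, ha⟩ : ∃ a, a = -cos (dst M G p q) := ⟨_, rfl⟩
  have a0 : 0 < a := by
    rw [ha, neg_pos]
    exact cos_neg_of_pi_div_two_lt_of_lt hpq (by linarith [hd p hp q hq, pi_pos])
  have a1 : a ≤ 1 := by rw [ha]; linarith [neg_one_le_cos (dst M G p q)]
  have η0 : 0 < a / 32 := by positivity
  choose! ζ hζ using fun x (hx : x ∈ M) => h.supp hp hx (hd p hp x hx)
  obtain ⟨F, hF⟩ := h.smoothing (A := fun _ => 0) (k := fun _ => 0)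
    (continuous_cos.comp_continuousOn' (h.dst_co hp)) continuousOn_const (fun _ _ => contDiffAt_const)
    (fun x hx => ⟨(hζ x hx).1, (hζ x hx).2.1, (hζ x hx).2.2.1, by simp⟩) η0
  have c1 := Apx.cc h hF (c := a / 8) (by linarith)
  generalize hF₁ : (fun x => F x + a / 8) = F₁ at c1
  have v1 : ∀ x ∈ M, |F₁ x - a / 8 - cos (dst M G p x)| ≤ a / 32 := fun x hx => by
    simpa [← hF₁] using (hF x hx).2.val
  have co : ContinuousOn F₁ M := fun x hx => (c1.sm x hx).continuousAt.continuousWithinAt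
  obtain ⟨z, hz, hm⟩ := h.cpt.exists_isMinOn ⟨p, hp⟩ co
  have m1 : F₁ z ≤ -a + a / 8 + a / 32 := (hm hq).trans (by linarith [(abs_le.1 (v1 q hq)).2])
  choose! ξ hξ using fun x (hx : x ∈ M) => h.supp hz hx (hd z hz x hx)
  obtain ⟨H, hH⟩ := h.smoothing (A := F₁) (k := fun x => F₁ z - F₁ x * cos (dst M G z x))
    (continuous_cos.comp_continuousOn' (h.dst_co hz))
    (continuousOn_const.sub (co.mul (continuous_cos.comp_continuousOn' (h.dst_co hz)))) c1.sm
    (fun x hx => ⟨(hξ x hx).1, (hξ x hx).2.1, (hξ x hx).2.2.1, by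
      linarith [(hξ x hx).2.2.2 F₁ c1]⟩) η0
  refine ⟨F₁, _, c1, Apx.cc h hH (c := a / 8) (by linarith), fun x hx n hn => ?_, fun x hx => ?_⟩
  · have b1 := (hH x hx).2.gra n hn
    have b2 := abs_le.1 (hH x hx).2.val
    have b3 := abs_le.1 (v1 x hx)
    have b4 := abs_le.1 (abs_cos_le_one (dst M G p x))
    rw [fderiv_add_const]
    nlinarith
  · by_contra hc
    push Not at hc
    have b2 := abs_le.1 (hH x hx).2.val
    have b3 : cos (dst M G z x) < 0 := by linarith [hc.2]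
    have := h.crit hx hz (hd x hx z hz) (by rintro rfl; simp [h.dst_self hx] at b3; linarith) c1
      fun w hw => hw.min (cda_d (c1.sm z hz)) hm
    rw [h.dst_comm hx hz] at this
    nlinarith [hc.1]

end Pool.Agent.Lib.MP_c00cc5_gt
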