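import Pool.Agent.Lib.MP_c00cc5_gt.Push
import Pool.Agent.Lib.MP_c00cc5_gt.Kap
import Pool.Agent.Lib.MP_c00cc5_gt.Defs3

set_option autoImplicit false
set_option linter.unusedSectionVars false

namespace Pool.Agent.Lib.MP_c00cc5_gt

/-! The disc theorem for twisted spheres, and connected sums. -/

open scoped ContDiff RealInnerProductSpace Topology
open Filter Set Real Metric

variable {V V₁ V₂ : Type} [NormedAddCommGroup V] [InnerProductSpace ℝ V] [FiniteDimensional ℝ V]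
  [NormedAddCommGroup V₁] [InnerProductSpace ℝ V₁] [FiniteDimensional ℝ V₁]
  [NormedAddCommGroup V₂] [InnerProductSpace ℝ V₂] [FiniteDimensional ℝ V₂]
  {M : Set V} {m : ℕ} {f g f' g' : E (m + 1) → E (m + 1)} {φ ψ i : E (m + 1) → V}

/-- the pull-back of the round metric lies in its component -/
def Rd (f : E (m + 1) → E (m + 1)) : Prop :=
  Join (fun _ => euc (m + 1)) (pull (fun _ => euc (m + 1)) f)

theorem Path.rd {h : ℝ → Met (E (m + 1))} (hp : Path (E m) f h) : Rd f := by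
  refine ⟨fun p => h (st 1 0 p.1) p.2, fun t u hu => ?_, fun t => ?_, fun t ht => ?_,
    fun t ht => ?_⟩
  · have s : ContDiffAt ℝ ∞ (fun p : ℝ × E (m + 1) => (st 1 0 p.1, p.2)) (t, u) :=
      ((st_cd 1 0).comp contDiff_fst).contDiffAt.prodMk contDiffAt_snd
    exact ContDiffAt.comp (g := fun p : ℝ × E (m + 1) => h p.1 p.2) (t, u)
      (hp.smooth _ (st_mem 1 0 t) u hu) s
  · change PC (h (st 1 0 t))
    exact ⟨hp.symm _ (st_mem 1 0 t), hp.pos _ (st_mem 1 0 t), hp.curv _ (st_mem 1 0 t)⟩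
  · simp only [st_0 (k := 1) (j := 0) (t := t) (by linarith)]
    exact hp.zero
  · simp only [st_1 (k := 1) (j := 0) (t := t) (by linarith)]
    exact hp.one

theorem SphDiff.comp (h : SphDiff f g) (h' : SphDiff f' g') :
    SphDiff (fun u => f (f' u)) fun u => g' (g u) :=
  ⟨fun u hu => (h.sf _ (h'.nf u hu)).comp u (h'.sf u hu),
    fun u hu => (h'.sg _ (h.ng u hu)).comp u (h.sg u hu), fun u hu => h.nf _ (h'.nf u hu),
    fun u hu => h'.ng _ (h.ng u hu), fun u hu => by rw [h.gf _ (h'.nf u hu), h'.gf u hu],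
    fun u hu => by rw [h'.fg _ (h.ng u hu), h.fg u hu]⟩

theorem Rd.comp (r : Rd f) (r' : Rd f') (h : SphDiff f g) (h' : SphDiff f' g') :
    Rd fun u => f (f' u) :=
  Join.trans r' ((Join.pull r h').congr fun u hu a b _ _ => by
    rw [pull_comp _ (h.d (h'.nf u hu)) (h'.d hu)])

theorem Rd.inv (r : Rd f) (h : SphDiff f g) : Rd g :=
  ((Join.pull r h.symm).congr fun u hu a b ha hb => by
    change ⟪fderiv ℝ f (g u) (fderiv ℝ g u a), fderiv ℝ f (g u) (fderiv ℝ g u b)⟫ = ⟪a, b⟫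
    rw [h.symm.left hu ha, h.symm.left hu hb]).symm

theorem sph_iso (A : E (m + 1) ≃ₗᵢ[ℝ] E (m + 1)) : SphDiff A A.symm :=
  ⟨fun _ _ => A.contDiff.contDiffAt, fun _ _ => A.symm.contDiff.contDiffAt, fun u hu => by simpa,
    fun u hu => by simpa, fun u _ => by simp, fun u _ => by simp⟩

theorem rd_iso (A : E (m + 1) ≃ₗᵢ[ℝ] E (m + 1)) : Rd A :=
  (join_scale one_pos).congr fun u _ a b _ _ => by
    change (1 : ℝ) * ⟪a, b⟫ = ⟪fderiv ℝ A u a, fderiv ℝ A u b⟫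
    rw [A.fderiv, one_mul]
    exact (A.inner_map_map a b).symm

/-- the gluing map of a twisted sphere -/
noncomputable def flp (f : E (m + 1) → E (m + 1)) (x : E (m + 1)) : E (m + 1) :=
  (1 - ‖x‖) • f (nr x)

theorem SphDiff.norm_flp (h : SphDiff f g) {x : E (m + 1)} (h0 : x ≠ 0) (h1 : ‖x‖ < 1) :
    ‖flp f x‖ = 1 - ‖x‖ := norm_smul_unit (h.nf _ (norm_nr h0)) (sub_pos.2 h1).le

theorem SphDiff.flp_lt (h : SphDiff f g) {x : E (m + 1)} (h0 : x ≠ 0) (h1 : ‖x‖ < 1) :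
    ‖flp f x‖ < 1 := by
  rw [h.norm_flp h0 h1]
  exact sub_lt_self _ (norm_pos_iff.2 h0)

theorem SphDiff.flp_ne (h : SphDiff f g) {x : E (m + 1)} (h0 : x ≠ 0) (h1 : ‖x‖ < 1) :
    flp f x ≠ 0 := norm_pos_iff.1 (by rw [h.norm_flp h0 h1]; exact sub_pos.2 h1)

theorem SphDiff.flp_flp (h : SphDiff f g) {x : E (m + 1)} (h0 : x ≠ 0) (h1 : ‖x‖ < 1) :
    flp g (flp f x) = x := by
  rw [flp, h.norm_flp h0 h1, flp, nr_smul (h.nf _ (norm_nr h0)) (sub_pos.2 h1),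
    h.gf _ (norm_nr h0), sub_sub_cancel, smul_nr h0]

theorem SphDiff.flp_sm (h : SphDiff f g) {x : E (m + 1)} (h0 : x ≠ 0) : Sm (flp f) x :=
  (eventually_ne_nhds h0).mono fun _ hz => h.cΦ 1 hz

theorem ev_lt {x : E (m + 1)} {r : ℝ} (h : ‖x‖ < r) : ∀ᶠ z in 𝓝 x, ‖z‖ < r :=
  continuous_norm.continuousAt.eventually (gt_mem_nhds h)

theorem SphDiff.flp_par (h : SphDiff f g) {x : E (m + 1)} (h0 : x ≠ 0) (h1 : ‖x‖ < 1)
    (hp : Par M φ (flp f x)) : Par M (fun z => φ (flp f z)) x := by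
  refine hp.comp (h.flp_sm h0) fun a b e => ?_
  have ev : (fun z => flp g (flp f z)) =ᶠ[𝓝 x] id := by
    filter_upwards [eventually_ne_nhds h0, ev_lt h1] with z z0 z1 using h.flp_flp z0 z1
  have k := fd_comp (h.symm.flp_sm (h.flp_ne h0 h1)).d (h.flp_sm h0).d
  rw [ev.fderiv_eq, fderiv_id] at k
  exact (k a).trans (e ▸ (k b).symm)

theorem Twisted.gl (ht : Twisted M f φ ψ) {x : E (m + 1)} (h0 : x ≠ 0) (h1 : ‖x‖ < 1) :
    φ x = ψ (flp f x) := by rw [ht.glue x h0 h1, nr_def, flp]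

theorem Twisted.swap (ht : Twisted M f φ ψ) (h : SphDiff f g) : Twisted M g ψ φ := by
  refine ⟨ht.par₂, ht.par₁, ht.inj₂, ht.inj₁, union_comm _ _ ▸ ht.cover, ?_, fun y y0 y1 => ?_⟩
  · rintro ⟨x, hx, e⟩
    rcases eq_or_ne x 0 with rfl | x0
    · exact ht.pole ⟨0, hx, e.symm⟩
    · have x1 := mem_ball_zero_iff.1 hx
      exact h.flp_ne x0 x1 (ht.inj₂ (mem_ball_zero_iff.2 (h.flp_lt x0 x1)) (mem_ball_self one_pos)
        ((ht.gl x0 x1).symm.trans e))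
  · rw [nr_def, ← flp, ht.gl (h.symm.flp_ne y0 y1) (h.symm.flp_lt y0 y1), h.symm.flp_flp y0 y1]

theorem Twisted.rot (ht : Twisted M f φ ψ) (A : E (m + 1) ≃ₗᵢ[ℝ] E (m + 1)) :
    Twisted M (fun u => A.symm (f u)) φ fun y => ψ (A y) := by
  have im : (fun y => ψ (A y)) '' ball 0 1 = ψ '' ball 0 1 := by
    refine subset_antisymm ?_ ?_ <;> rintro _ ⟨x, hx, rfl⟩
    · exact ⟨A x, by simpa using hx, rfl⟩
    · exact ⟨A.symm x, by simpa using hx, by simp⟩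
  refine ⟨ht.par₁, fun x hx => Par.comp (τ := A) (ht.par₂ _ (by simpa)) (Sm.of A.contDiff _) ?_,
    ht.inj₁, fun x hx y hy e => A.injective (ht.inj₂ (by simpa using hx) (by simpa using hy) e),
    im ▸ ht.cover, im ▸ ht.pole, fun x x0 x1 => by simp [ht.glue x x0 x1]⟩
  rw [A.fderiv]
  exact A.injective

variable (m M) in
/-- a diffeomorphism of `M` -/
structure Dif (H : V → V) : Prop where
  par : ∀ (φ : E (m + 1) → V) (y : E (m + 1)), Par M φ y → Par M (fun z => H (φ z)) y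
  inj : InjOn H M
  surj : SurjOn H M M

theorem Twisted.map (ht : Twisted M f φ ψ) {H : V → V} (h : Dif M m H) :
    Twisted M f (fun x => H (φ x)) fun x => H (ψ x) := by
  have m₁ : ∀ x ∈ ball 0 1, φ x ∈ M := fun x hx => (ht.par₁ x (mem_ball_zero_iff.1 hx)).m
  have m₂ : ∀ x ∈ ball 0 1, ψ x ∈ M := fun x hx => (ht.par₂ x (mem_ball_zero_iff.1 hx)).m
  refine ⟨fun x hx => h.par _ _ (ht.par₁ x hx), fun x hx => h.par _ _ (ht.par₂ x hx),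
    h.inj.comp ht.inj₁ m₁, h.inj.comp ht.inj₂ m₂, fun z hz => ?_, ?_,
    fun x x0 x1 => congrArg H (ht.glue x x0 x1)⟩
  · obtain ⟨w, hw, rfl⟩ := h.surj hz
    rcases ht.cover hw with ⟨x, hx, rfl⟩ | ⟨x, hx, rfl⟩
    exacts [.inl ⟨x, hx, rfl⟩, .inr ⟨x, hx, rfl⟩]
  · rintro ⟨x, hx, e⟩
    exact ht.pole ⟨x, hx, h.inj (m₂ x hx) (m₁ 0 (mem_ball_self one_pos)) e⟩

theorem Disc.push (hM : Submfd (E (m + 1)) M) (hi : Disc M i) {κ : E (m + 1) → E (m + 1)}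
    (hκ : Kap κ) : ∃ H, Dif M m H ∧ ∀ x, ‖x‖ < 1 → H (i x) = i (κ x) := by
  classical
  let H : V → V := fun z =>
    if z ∈ i '' ball 0 1 then i (κ (Function.invFunOn i (ball 0 1) z)) else z
  have h1 : ∀ x, ‖x‖ < 1 → H (i x) = i (κ x) := fun x hx => by
    have := mem_ball_zero_iff.2 hx
    simp only [H, if_pos (mem_image_of_mem i this), hi.inj.leftInvOn_invFunOn this]
  have h2 : ∀ z, z ∉ i '' ball 0 1 → H z = z := fun z hz => if_neg hz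
  have h3 : ∀ x ∈ ball 0 1, κ x ∈ ball 0 1 := fun x hx =>
    mem_ball_zero_iff.2 ((hκ.lt x).2 (mem_ball_zero_iff.1 hx))
  refine ⟨H, ⟨fun φ y hp => ?_, fun z _ w _ e => ?_, fun z hz => ?_⟩, h1⟩
  · by_cases c : φ y ∈ i '' ball 0 1
    · obtain ⟨x, hx, e⟩ := c
      have x1 := mem_ball_zero_iff.1 hx
      obtain ⟨r, hr⟩ := (hi.par x x1).ch hM
      obtain ⟨t1, t2, t3, t4⟩ := hr.trans hp e.symm
      refine (Par.comp (τ := fun w => κ (r (φ w))) (hi.par _ (by rwa [hκ.lt, t2]))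
        ((Sm.of hκ.cd _).comp t1) ?_).congr ?_
      · rw [fderiv_fun_comp y (hκ.cd.differentiable (by simp) _) t1.d]
        exact (hκ.imm _).comp t4.1
      · filter_upwards [t3, t1.ca.eventually (ev_lt (r := 1) (by simpa only [t2]))] with w w1 w2
        rw [← h1 _ w2, w1]
    · obtain ⟨ρ, r1, r2⟩ := hκ.supp
      have cl : IsClosed (i '' closedBall 0 ρ) := ((isCompact_closedBall 0 ρ).image_of_continuousOn
        fun x hx => (hi.par x ((mem_closedBall_zero_iff.1 hx).trans_lt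
          r1)).sm.ca.continuousWithinAt).isClosed
      refine hp.congr ?_
      filter_upwards [hp.sm.ca.eventually (cl.isOpen_compl.mem_nhds
        fun h => c (image_mono (closedBall_subset_ball r1) h))] with w hw
      by_cases c' : φ w ∈ i '' ball 0 1
      · obtain ⟨x, hx, e⟩ := c'
        rw [← e, h1 x (mem_ball_zero_iff.1 hx), r2 x (le_of_not_ge fun h =>
          hw ⟨x, mem_closedBall_zero_iff.2 h, e⟩)]
      · rw [h2 _ c']
  · by_cases c : z ∈ i '' ball 0 1 <;> by_cases c' : w ∈ i '' ball 0 1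
    · obtain ⟨x, hx, rfl⟩ := c
      obtain ⟨y, hy, rfl⟩ := c'
      rw [h1 x (mem_ball_zero_iff.1 hx), h1 y (mem_ball_zero_iff.1 hy)] at e
      rw [hκ.bij.1 (hi.inj (h3 x hx) (h3 y hy) e)]
    · obtain ⟨x, hx, rfl⟩ := c
      rw [h1 x (mem_ball_zero_iff.1 hx), h2 w c'] at e
      exact absurd ⟨_, h3 x hx, e⟩ c'
    · obtain ⟨x, hx, rfl⟩ := c'
      rw [h1 x (mem_ball_zero_iff.1 hx), h2 z c] at e
      exact absurd ⟨_, h3 x hx, e.symm⟩ c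
    · rwa [h2 z c, h2 w c'] at e
  · by_cases c : z ∈ i '' ball 0 1
    · obtain ⟨x, hx, rfl⟩ := c
      obtain ⟨y, rfl⟩ := hκ.bij.2 x
      have y1 := (hκ.lt y).1 (mem_ball_zero_iff.1 hx)
      exact ⟨i y, (hi.par y y1).m, h1 y y1⟩
    · exact ⟨z, hz, h2 z c⟩

/-- The disc theorem: the second ball of a twisted sphere can be made to extend a given disc. -/
theorem Twisted.adapt (hM : Submfd (E (m + 1)) M) (hi : Disc M i) (ht : Twisted M f φ ψ)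
    (hf : SphDiff f g) (hr : Rd f) : ∃ (f g : E (m + 1) → E (m + 1)) (φ ψ : E (m + 1) → V),
      SphDiff f g ∧ Rd f ∧ Twisted M f φ ψ ∧ ∀ x, ‖x‖ ≤ 3 / 4 → ψ x = i x := by
  have i0 := hi.par 0 (by simp)
  wlog h : i 0 ∈ ψ '' ball 0 1 generalizing f g φ ψ
  · exact this (ht.swap hf) hf.symm (hr.inv hf) ((ht.cover i0.m).resolve_right h)
  obtain ⟨c, hc, e⟩ := h
  have c1 := mem_ball_zero_iff.1 hc
  obtain ⟨r, hch⟩ := (ht.par₂ c c1).ch hM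
  obtain ⟨t1, t2, t3, t4⟩ := hch.trans i0 e.symm
  set L := fderiv ℝ (fun w => r (i w)) 0
  let L' := (LinearEquiv.ofBijective (L : E (m + 1) →ₗ[ℝ] E (m + 1)) t4).toContinuousLinearEquiv
  have s1 : ContDiff ℝ ∞ fun z => L'.symm (z - c) :=
    L'.symm.contDiff.comp (contDiff_id.sub contDiff_const)
  have z0 : L'.symm (c - c) = 0 := by simp
  obtain ⟨κ₁, k1, k2⟩ := kap_germ (η := fun z => r (i (L'.symm (z - c)))) c1
    (Sm.comp (g := fun w => r (i w)) (z0 ▸ t1) (Sm.of s1 c)) (by rw [z0, t2]) fun a => by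
      rw [fd_comp (g := fun w => r (i w)) (z0 ▸ t1.d) (Sm.of s1 c).d, z0,
        show fderiv ℝ (fun z => L'.symm (z - c)) c = _ from
          (L'.symm.hasFDerivAt.comp c ((hasFDerivAt_id c).sub_const c)).fderiv]
      exact L'.apply_symm_apply a
  have ca : Tendsto (fun y => c + L y) (𝓝 0) (𝓝 c) :=
    (continuous_const.add L.continuous).tendsto' _ _ (by simp)
  obtain ⟨ε, ε0, hε⟩ := Metric.eventually_nhds_iff.1 ((ca.eventually k2).and t3)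
  obtain ⟨δ, δ0, δ1, δ2, δ3⟩ : ∃ δ, 0 < δ ∧ δ < ε ∧ δ < 1 ∧ ‖c‖ + δ * ‖L‖ < 1 := by
    have t : Tendsto (fun δ : ℝ => ‖c‖ + δ * ‖L‖) (𝓝 0) (𝓝 ‖c‖) :=
      Continuous.tendsto' (by fun_prop) _ _ (by simp)
    exact ((eventually_mem_nhdsWithin (s := Ioi 0)).and (nhdsWithin_le_nhds ((gt_mem_nhds ε0).and
      ((gt_mem_nhds one_pos).and (t.eventually (gt_mem_nhds c1)))))).exists
  obtain ⟨A, hA⟩ := exists_polar t4.1
  obtain ⟨κ₂, k3, k4⟩ := kap_aff A (c := 0) (c' := c)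
    (L := (3 / 4 : ℝ) • A.toLinearIsometry.toContinuousLinearMap) (L' := δ • L) (by
      have := A.toLinearIsometry.norm_toContinuousLinearMap_le
      rw [norm_zero, norm_smul, norm_of_nonneg (by norm_num)]
      linarith) (fun x hx => by
      change 0 < ⟪A x, (3 / 4 : ℝ) • A x⟫
      rw [inner_smul_right]
      exact mul_pos (by norm_num) (real_inner_self_pos.2 (by simpa))) (by
      rwa [norm_smul, norm_of_nonneg δ0.le]) fun x hx => by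
      change 0 < ⟪A x, δ • L x⟫
      rw [inner_smul_right]
      exact mul_pos δ0 (hA x hx)
  have sc : ∀ s : ℝ, 0 < s → s < 1 →
      ‖(0 : E (m + 1))‖ + ‖s • ContinuousLinearMap.id ℝ (E (m + 1))‖ < 1 ∧ ∀ x : E (m + 1), x ≠ 0 →
      0 < ⟪LinearIsometryEquiv.refl ℝ _ x, (s • ContinuousLinearMap.id ℝ (E (m + 1))) x⟫ :=
    fun s s0 s1 => ⟨by simpa [norm_smul, abs_of_pos s0], fun x hx => by
      change 0 < ⟪x, s • x⟫
      rw [inner_smul_right]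
      exact mul_pos s0 (real_inner_self_pos.2 hx)⟩
  obtain ⟨κ₀, k5, k6⟩ := kap_aff _ (sc δ δ0 δ2).1 (sc δ δ0 δ2).2
    (sc (3 / 4) (by norm_num) (by norm_num)).1 (sc (3 / 4) (by norm_num) (by norm_num)).2
  obtain ⟨H₁, d1, e1⟩ := Disc.push hM ⟨ht.par₂, ht.inj₂⟩ (k1.comp k3)
  obtain ⟨H₀, d0, e0⟩ := hi.push hM k5
  refine ⟨_, _, _, _, (sph_iso A).symm.comp hf, (rd_iso A.symm).comp hr (sph_iso A).symm hf,
    ((ht.rot A).map d1).map d0, fun y hy => ?_⟩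
  obtain ⟨x, rfl⟩ : ∃ x, y = (3 / 4 : ℝ) • x := ⟨(4 / 3 : ℝ) • y, by simp [smul_smul]⟩
  have x1 : ‖x‖ ≤ 1 := by
    rw [norm_smul, norm_of_nonneg (by norm_num)] at hy
    linarith
  have xδ : ‖δ • x‖ ≤ δ := by
    rw [norm_smul, norm_of_nonneg δ0.le]
    exact mul_le_of_le_one_right δ0.le x1
  obtain ⟨a1, a2⟩ := hε (y := δ • x) (by rw [dist_zero_right]; linarith)
  have a3 : κ₂ (A ((3 / 4 : ℝ) • x)) = c + L (δ • x) := by simpa using k4 x x1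
  have a4 : κ₀ (δ • x) = (3 / 4 : ℝ) • x := by simpa using k6 x x1
  have a5 : L'.symm (L (δ • x)) = δ • x := L'.symm_apply_apply _
  simp only [add_sub_cancel_left, a5] at a1 a2
  change H₀ (H₁ (ψ (A _))) = _
  rw [e1 _ (by rw [A.norm_map]; linarith), a3, a1, a2, e0 _ (by linarith), a4]

/-- an embedding of the ball of radius `3 / 4` -/
structure Half (M : Set V) (Φ : E (m + 1) → V) : Prop where
  par : ∀ x, ‖x‖ < 3 / 4 → Par M Φ x
  inj : ∀ x y, ‖x‖ < 3 / 4 → ‖y‖ < 3 / 4 → Φ x = Φ y → x = y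

theorem Disc.half (h : Disc M i) : Half M i :=
  ⟨fun x _ => h.par x (by linarith), fun _ _ _ _ =>
    h.inj (mem_ball_zero_iff.2 (by linarith)) (mem_ball_zero_iff.2 (by linarith))⟩

theorem Half.disc {Φ Ψ : E (m + 1) → V} (hf : SphDiff f g) (hΦ : Half M Φ) (hΨ : Half M Ψ)
    (ov : ∀ x, 1 / 4 < ‖x‖ → ‖x‖ < 3 / 4 → Φ x = Ψ (flp f x))
    (key : ∀ x y, ‖x‖ ≤ 1 / 2 → ‖y‖ < 1 / 2 → Φ x ≠ Ψ y) :
    Disc M fun x => if ‖x‖ ≤ 1 / 2 then Φ x else Ψ (flp f x) := by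
  have n0 : ∀ x : E (m + 1), ¬ ‖x‖ ≤ 1 / 2 → x ≠ 0 := by
    rintro x hx rfl
    exact hx (by simp)
  have n1 : ∀ x : E (m + 1), ¬ ‖x‖ ≤ 1 / 2 → ‖x‖ < 1 → ‖flp f x‖ < 1 / 2 := fun x h0 h1 => by
    rw [hf.norm_flp (n0 x h0) h1]
    linarith
  refine ⟨fun x hx => ?_, fun x hx y hy e => ?_⟩
  · rcases lt_or_ge ‖x‖ (3 / 4) with c | c
    · refine (hΦ.par x c).congr ((ev_lt c).mono fun z hz => ?_)
      dsimp only
      split_ifs with c'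
      exacts [rfl, ov z (by linarith) hz]
    · refine (hf.flp_par (n0 x (by linarith)) hx
        (hΨ.par _ (by linarith [n1 x (by linarith) hx]))).congr ?_
      filter_upwards [continuous_norm.continuousAt.eventually
        (lt_mem_nhds (show 1 / 2 < ‖x‖ by linarith))] with z hz
      rw [if_neg hz.not_ge]
  · have x1 := mem_ball_zero_iff.1 hx
    have y1 := mem_ball_zero_iff.1 hy
    split_ifs at e with c c' c'
    · exact hΦ.inj _ _ (by linarith) (by linarith) e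
    · exact absurd e (key _ _ c (n1 y c' y1))
    · exact absurd e.symm (key _ _ c' (n1 x c x1))
    · rw [← hf.flp_flp (n0 x c) x1, hΨ.inj _ _ (by linarith [n1 x c x1]) (by linarith [n1 y c' y1])
        e, hf.flp_flp (n0 y c') y1]

theorem Half.twisted {Φ Ψ : E (m + 1) → V} (s : SphDiff f g) (hΦ : Half M Φ) (hΨ : Half M Ψ)
    (ov : ∀ x, 1 / 4 < ‖x‖ → ‖x‖ < 3 / 4 → Φ x = Ψ (flp f x))
    (key : ∀ x y, ‖x‖ ≤ 1 / 2 → ‖y‖ ≤ 1 / 2 → Φ x = Ψ y → ‖x‖ = 1 / 2 ∧ ‖y‖ = 1 / 2)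
    (cov : ∀ w ∈ M, (∃ x, ‖x‖ ≤ 1 / 2 ∧ w = Φ x) ∨ ∃ y, ‖y‖ ≤ 1 / 2 ∧ w = Ψ y) :
    ∃ Φ Ψ, Twisted M f Φ Ψ := by
  have d₁ := hΦ.disc s hΨ ov fun x y hx hy e => hy.ne (key x y hx hy.le e).2
  have d₂ := hΨ.disc s.symm hΦ (fun y y0 y1 => by
    have n0 : y ≠ 0 := norm_pos_iff.1 (by linarith)
    have n := s.symm.norm_flp n0 (by linarith)
    rw [ov _ (by linarith) (by linarith), s.symm.flp_flp n0 (by linarith)])
    fun y x hy hx e => hx.ne (key x y hx.le hy e.symm).1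
  have lt : ∀ x : E (m + 1), ‖x‖ ≤ 1 / 2 → x ∈ ball 0 1 := fun x hx =>
    mem_ball_zero_iff.2 (by linarith)
  refine ⟨_, _, d₁.par, d₂.par, d₁.inj, d₂.inj, fun w hw => ?_, ?_, fun x x0 x1 => ?_⟩
  · rcases cov w hw with ⟨x, hx, e⟩ | ⟨x, hx, e⟩
    exacts [.inl ⟨x, lt x hx, (if_pos hx).trans e.symm⟩,
      .inr ⟨x, lt x hx, (if_pos hx).trans e.symm⟩]
  · rintro ⟨y, hy, e⟩
    have y1 := mem_ball_zero_iff.1 hy
    dsimp only at e
    rw [if_pos (c := ‖(0 : E (m + 1))‖ ≤ 1 / 2) (by simp)] at e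
    split_ifs at e with c
    · simpa using (key 0 y (by simp) c e.symm).1
    · have y0 : y ≠ 0 := norm_pos_iff.1 (by linarith)
      exact s.symm.flp_ne y0 y1 (hΦ.inj _ _ (by rw [s.symm.norm_flp y0 y1]; linarith)
        (by simp) e)
  · rw [nr_def]
    change _ = if ‖flp f x‖ ≤ 1 / 2 then Ψ (flp f x) else Φ (flp g (flp f x))
    rw [s.norm_flp x0 x1, s.flp_flp x0 x1]
    split_ifs with c c' c'
    · exact ov x (by linarith) (by linarith)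
    · rfl
    · rfl
    · linarith

theorem Twisted.nrm (ht : Twisted M f φ ψ) (h : SphDiff f g) {x y : E (m + 1)} (hx : ‖x‖ < 1)
    (hy : ‖y‖ < 1) (e : φ x = ψ y) : ‖x‖ + ‖y‖ = 1 := by
  have x0 : x ≠ 0 := fun e' => ht.pole ⟨y, mem_ball_zero_iff.2 hy, e' ▸ e.symm⟩
  rw [← ht.inj₂ (mem_ball_zero_iff.2 (h.flp_lt x0 hx)) (mem_ball_zero_iff.2 hy)
    ((ht.gl x0 hx).symm.trans e), h.norm_flp x0 hx, add_sub_cancel]

theorem Twisted.cov (ht : Twisted M f φ ψ) (h : SphDiff f g) {w : V} (hw : w ∈ M) :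
    (∃ x, ‖x‖ ≤ 1 / 2 ∧ w = φ x) ∨ ∃ y, ‖y‖ ≤ 1 / 2 ∧ w = ψ y := by
  have k : ∀ {f g : E (m + 1) → E (m + 1)} {φ ψ : E (m + 1) → V}, Twisted M f φ ψ → SphDiff f g →
      ∀ x ∈ ball 0 1, (∃ y, ‖y‖ ≤ 1 / 2 ∧ φ x = φ y) ∨ ∃ y, ‖y‖ ≤ 1 / 2 ∧ φ x = ψ y :=
    fun ht h x hx => (le_or_gt ‖x‖ (1 / 2)).imp (fun c => ⟨x, c, rfl⟩) fun c =>
      have x0 : x ≠ 0 := norm_pos_iff.1 (by linarith)
      have x1 := mem_ball_zero_iff.1 hx
      ⟨_, by rw [h.norm_flp x0 x1]; linarith, ht.gl x0 x1⟩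
  rcases ht.cover hw with ⟨x, hx, rfl⟩ | ⟨x, hx, rfl⟩
  exacts [k ht h x hx, (k (ht.swap h) h.symm x hx).symm]

/-- a twisted sphere whose second ball extends the disc `i` -/
structure Adp (M : Set V) (f g : E (m + 1) → E (m + 1)) (φ ψ i : E (m + 1) → V) : Prop where
  sph : SphDiff f g
  tw : Twisted M f φ ψ
  disc : Disc M i
  eq : ∀ x, ‖x‖ ≤ 3 / 4 → ψ x = i x

theorem Adp.mem (h : Adp M f g φ ψ i) {x : E (m + 1)} (hx : ‖x‖ < 1) : φ x ∈ M \ {i 0} :=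
  ⟨(h.tw.par₁ x hx).m, fun e => (h.tw.swap h.sph).pole
    ⟨x, mem_ball_zero_iff.2 hx, e.trans (h.eq 0 (by simp; norm_num)).symm⟩⟩

theorem Adp.gl (h : Adp M f g φ ψ i) {x : E (m + 1)} (h0 : 1 / 4 < ‖x‖) (h1 : ‖x‖ < 1) :
    φ x = i ((1 - ‖x‖) • f (nr x)) := by
  have x0 : x ≠ 0 := norm_pos_iff.1 (by linarith)
  rw [h.tw.gl x0 h1, h.eq _ (by rw [h.sph.norm_flp x0 h1]; linarith), flp]

theorem Adp.nrm (h : Adp M f g φ ψ i) {x u : E (m + 1)} {t : ℝ} (hx : ‖x‖ < 1) (hu : ‖u‖ = 1)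
    (t0 : 0 < t) (t1 : t ≤ 1 / 2) (e : φ x = i (t • u)) : ‖x‖ = 1 - t := by
  have n := norm_smul_unit hu t0.le
  have n0 : t • u ≠ 0 := norm_pos_iff.1 (t0.trans_eq n.symm)
  have n1 : ‖t • u‖ < 1 := by linarith
  rw [← h.eq _ (by linarith), (h.tw.swap h.sph).gl n0 n1] at e
  rw [h.tw.inj₁ (mem_ball_zero_iff.2 hx) (mem_ball_zero_iff.2 (h.sph.symm.flp_lt n0 n1)) e,
    h.sph.symm.norm_flp n0 n1, n]

theorem Adp.cases (h : Adp M f g φ ψ i) {z : V} (hz : z ∈ M \ {i 0}) :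
    (∃ x, ‖x‖ ≤ 1 / 2 ∧ z = φ x) ∨ ∃ (u : E (m + 1)) (t : ℝ), ‖u‖ = 1 ∧ 0 < t ∧ t < 1 / 2 ∧
      z = i (t • u) := by
  obtain ⟨x, x1, rfl⟩ : ∃ x, ‖x‖ < 1 ∧ z = φ x := by
    rcases h.tw.cover hz.1 with ⟨x, hx, rfl⟩ | ⟨y, hy, rfl⟩
    · exact ⟨x, mem_ball_zero_iff.1 hx, rfl⟩
    · have y0 : y ≠ 0 := fun e => hz.2 (e ▸ h.eq 0 (by simp; norm_num))
      have y1 := mem_ball_zero_iff.1 hy
      exact ⟨_, h.sph.symm.flp_lt y0 y1, (h.tw.swap h.sph).gl y0 y1⟩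
  rcases le_or_gt ‖x‖ (1 / 2) with c | c
  · exact .inl ⟨x, c, rfl⟩
  · exact .inr ⟨_, _, h.sph.nf _ (norm_nr (norm_pos_iff.1 (by linarith))), sub_pos.2 x1,
      by linarith, h.gl (by linarith) x1⟩

theorem Disc.mem (h : Disc M i) {u : E (m + 1)} {t : ℝ} (hu : ‖u‖ = 1) (t0 : 0 < t) (t1 : t < 1) :
    i (t • u) ∈ M \ {i 0} := by
  have n := norm_smul_unit hu t0.le
  exact ⟨(h.par _ (n.trans_lt t1)).m, fun e => norm_pos_iff.1 (t0.trans_eq n.symm)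
    (h.inj (mem_ball_zero_iff.2 (n.trans_lt t1)) (mem_ball_self one_pos) e)⟩

theorem Adp.out (h : Adp M f g φ ψ i) {u : E (m + 1)} {t : ℝ} (hu : ‖u‖ = 1) (t0 : 1 / 2 ≤ t)
    (t1 : t < 1) : ∃ x, ‖x‖ ≤ 1 / 2 ∧ i (t • u) = φ x := by
  refine (h.cases (h.disc.mem hu (by linarith) t1)).resolve_right ?_
  rintro ⟨v, s, hv, s0, s1, e⟩
  have n := norm_smul_unit hu (r := t) (by linarith)
  have n' := norm_smul_unit hv s0.le
  have := congrArg norm (h.disc.inj (mem_ball_zero_iff.2 (n.trans_lt t1))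
    (mem_ball_zero_iff.2 (by linarith)) e)
  linarith

variable {M₁ : Set V₁} {M₂ : Set V₂} {φ₁ ψ₁ i₁ : E (m + 1) → V₁} {φ₂ ψ₂ i₂ : E (m + 1) → V₂}
  {a : V₁ → V} {b : V₂ → V}

theorem CSum.symm (h : CSum M M₁ M₂ i₁ i₂ a b) : CSum M M₂ M₁ i₂ i₁ b a :=
  ⟨h.disc₂, h.disc₁, h.emb₂, h.emb₁, union_comm _ _ ▸ h.cover, fun y hy x hx => by
    rw [eq_comm, h.glue x hx y hy]
    constructor <;> rintro ⟨u, t, hu, t0, t1, e, e'⟩ <;>
      exact ⟨u, 1 - t, hu, by linarith, by linarith, e', by rwa [sub_sub_cancel]⟩⟩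

theorem CSum.disc (h : CSum M M₁ M₂ i₁ i₂ a b) (h₁ : Adp M₁ f g φ₁ ψ₁ i₁) :
    Disc M fun x => a (φ₁ x) :=
  ⟨fun x hx => h.emb₁.par _ _ (h₁.tw.par₁ x hx) (h₁.mem hx).2,
    h.emb₁.inj.comp h₁.tw.inj₁ fun _ hx => h₁.mem (mem_ball_zero_iff.1 hx)⟩

theorem CSum.ov (h : CSum M M₁ M₂ i₁ i₂ a b) (h₁ : Adp M₁ f g φ₁ ψ₁ i₁)
    (h₂ : Adp M₂ f' g' φ₂ ψ₂ i₂) (x : E (m + 1)) (h0 : 1 / 4 < ‖x‖) (h1 : ‖x‖ < 3 / 4) :
    a (φ₁ x) = b (φ₂ (flp (fun u => g' (f u)) x)) := by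
  have x0 : x ≠ 0 := norm_pos_iff.1 (by linarith)
  have x1 : ‖x‖ < 1 := by linarith
  have s := h₂.sph.symm.comp h₁.sph
  have n := s.norm_flp x0 x1
  have u1 := h₁.sph.nf _ (norm_nr x0)
  refine (h.glue _ (h₁.mem x1) _ (h₂.mem (s.flp_lt x0 x1))).2
    ⟨_, _, u1, sub_pos.2 x1, by linarith, h₁.gl h0 x1, ?_⟩
  rw [h₂.gl (by linarith) (s.flp_lt x0 x1), n, flp, nr_smul (h₂.sph.ng _ u1) (sub_pos.2 x1),
    h₂.sph.fg _ u1]

theorem CSum.key (h : CSum M M₁ M₂ i₁ i₂ a b) (h₁ : Adp M₁ f g φ₁ ψ₁ i₁)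
    (h₂ : Adp M₂ f' g' φ₂ ψ₂ i₂) (x y : E (m + 1)) (hx : ‖x‖ ≤ 1 / 2) (hy : ‖y‖ ≤ 1 / 2)
    (e : a (φ₁ x) = b (φ₂ y)) : ‖x‖ = 1 / 2 ∧ ‖y‖ = 1 / 2 := by
  obtain ⟨u, t, hu, t0, t1, e1, e2⟩ :=
    (h.glue _ (h₁.mem (by linarith)) _ (h₂.mem (by linarith))).1 e
  have c : 1 / 2 ≤ t := le_of_not_gt fun c => by
    linarith [h₁.nrm (by linarith) hu t0 c.le e1]
  have c' := h₂.nrm (by linarith) hu (by linarith) (by linarith) e2
  constructor <;> linarith [h₁.nrm (by linarith) hu t0 (by linarith) e1]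

theorem CSum.cov (h : CSum M M₁ M₂ i₁ i₂ a b) (h₁ : Adp M₁ f g φ₁ ψ₁ i₁)
    (h₂ : Adp M₂ f' g' φ₂ ψ₂ i₂) {z : V₁} (hz : z ∈ M₁ \ {i₁ 0}) :
    (∃ x, ‖x‖ ≤ 1 / 2 ∧ a z = a (φ₁ x)) ∨ ∃ y, ‖y‖ ≤ 1 / 2 ∧ a z = b (φ₂ y) := by
  rcases h₁.cases hz with ⟨x, hx, rfl⟩ | ⟨u, t, hu, t0, t1, e⟩
  · exact .inl ⟨x, hx, rfl⟩
  · obtain ⟨y, hy, e'⟩ := h₂.out (t := 1 - t) hu (by linarith) (by linarith)
    exact .inr ⟨y, hy, (h.glue _ hz _ (h₂.mem (by linarith))).2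
      ⟨u, t, hu, t0, by linarith, e, e'.symm⟩⟩

theorem CSum.twisted (h : CSum M M₁ M₂ i₁ i₂ a b) (h₁ : Adp M₁ f g φ₁ ψ₁ i₁)
    (h₂ : Adp M₂ f' g' φ₂ ψ₂ i₂) : ∃ Φ Ψ, Twisted M (fun u => g' (f u)) Φ Ψ := by
  refine (h.disc h₁).half.twisted (h₂.sph.symm.comp h₁.sph) (h.symm.disc h₂).half (h.ov h₁ h₂)
    (h.key h₁ h₂) fun w hw => ?_
  rcases h.cover hw with ⟨z, hz, rfl⟩ | ⟨z, hz, rfl⟩
  exacts [h.cov h₁ h₂ hz, (h.symm.cov h₂ h₁ hz).symm]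

theorem CSum.cancel (h : CSum M M₁ M₂ i₁ i₂ a b) (hM : Submfd (E (m + 1)) M)
    (hM₂ : Submfd (E (m + 1)) M₂) (h₁ : Adp M₁ f g φ₁ ψ₁ i₁)
    (h₀ : Adp M f' g' φ ψ fun x => a (φ₁ x)) : ∃ Φ Ψ, Twisted M₂ (fun u => f (f' u)) Φ Ψ := by
  have s := h₁.sph.comp h₀.sph
  have nk : ∀ {u : E (m + 1)} {t : ℝ}, ‖u‖ = 1 → 0 < t → t < 1 →
      a (i₁ (t • u)) = b (i₂ ((1 - t) • u)) := fun hu t0 t1 =>
    (h.glue _ (h.disc₁.mem hu t0 t1) _ (h.disc₂.mem hu (sub_pos.2 t1) (by linarith))).2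
      ⟨_, _, hu, t0, t1, rfl, rfl⟩
  have ex : ∀ x, ‖x‖ < 3 / 4 → ∃ z ∈ M₂ \ {i₂ 0}, b z = φ x := fun x hx => by
    refine (h.cover (h₀.tw.par₁ x (by linarith)).m).elim ?_ id
    rintro ⟨z, hz, e⟩
    have k : ∀ (u : E (m + 1)) (t : ℝ), ‖u‖ = 1 → 0 < t → t < 1 → z = i₁ (t • u) →
        ∃ z ∈ M₂ \ {i₂ 0}, b z = φ x := fun u t hu t0 t1 e' =>
      ⟨_, h.disc₂.mem hu (sub_pos.2 t1) (by linarith), by rw [← nk hu t0 t1, ← e', e]⟩
    rcases h₁.cases hz with ⟨y, hy, rfl⟩ | ⟨u, t, hu, t0, t1, e'⟩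
    · have := h₀.tw.nrm h₀.sph (by linarith) (by linarith)
        (e.symm.trans (h₀.eq y (by linarith)).symm)
      exact k _ _ (h₁.sph.nf _ (norm_nr (norm_pos_iff.1 (by linarith)))) (by linarith) (by linarith)
        (h₁.gl (by linarith) (by linarith))
    · exact k u t hu t0 (by linarith) e'
  have : Nonempty V₂ := ⟨0⟩
  let β := Function.invFunOn b (M₂ \ {i₂ 0})
  have β1 : ∀ z ∈ M₂ \ {i₂ 0}, β (b z) = z := fun z hz => h.emb₂.inj.leftInvOn_invFunOn hz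
  have β2 : ∀ x, ‖x‖ < 3 / 4 → β (φ x) ∈ M₂ \ {i₂ 0} ∧ b (β (φ x)) = φ x := fun x hx =>
    Function.invFunOn_pos (ex x hx)
  refine Half.twisted (Φ := fun x => β (φ x)) s ⟨fun x hx => ?_, fun x y hx hy e => ?_⟩
    h.disc₂.half (fun x x0 x1 => ?_) (fun x y hx hy e => ?_) fun z hz => ?_
  · obtain ⟨z, hz, e⟩ := ex x hx
    obtain ⟨χ, _, y, hc, rfl⟩ := hM₂.ch hz.1
    obtain ⟨r, hr⟩ := (h.emb₂.par χ y hc.par hz.2).ch hM
    obtain ⟨t1, t2, t3, t4⟩ := hr.trans (h₀.tw.par₁ x (by linarith)) e.symm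
    have p : Par M₂ (fun w => χ (r (φ w))) x :=
      Par.comp (τ := fun w => r (φ w)) (t2 ▸ hc.par) t1 t4.1
    refine p.congr ?_
    filter_upwards [t3, p.mem, p.sm.ca.eventually_ne (y := i₂ 0) (by rw [t2]; exact hz.2)]
      with w w1 w2 w3
    exact (β1 _ ⟨w2, w3⟩).symm.trans (congrArg β w1)
  · exact h₀.tw.inj₁ (mem_ball_zero_iff.2 (by linarith)) (mem_ball_zero_iff.2 (by linarith))
      ((β2 x hx).2.symm.trans ((congrArg b e).trans (β2 y hy).2))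
  · have n0 : x ≠ 0 := norm_pos_iff.1 (by linarith)
    have u1 := h₀.sph.nf _ (norm_nr n0)
    have n := norm_smul_unit u1 (r := 1 - ‖x‖) (by linarith)
    have u2 := h₁.sph.nf _ u1
    change β (φ x) = _
    rw [h₀.gl x0 (by linarith), h₁.gl (by linarith) (by linarith), n, nr_smul u1 (by linarith),
      sub_sub_cancel, nk u2 (by linarith) (by linarith),
      β1 _ (h.disc₂.mem u2 (by linarith) (by linarith)), flp]
  · obtain ⟨b1, b2⟩ := β2 x (by linarith)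
    change β (φ x) = _ at e
    rw [e] at b1 b2
    have y0 : y ≠ 0 := fun e => b1.2 (e ▸ rfl)
    have u1 := norm_nr y0
    have yp := norm_pos_iff.2 y0
    obtain ⟨w, hw, e'⟩ := h₁.out (t := 1 - ‖y‖) u1 (by linarith) (by linarith)
    have k := nk (t := 1 - ‖y‖) u1 (by linarith) (by linarith)
    rw [sub_sub_cancel, smul_nr y0, b2, e'] at k
    have n := h₀.tw.nrm h₀.sph (by linarith) (by linarith)
      (k.symm.trans (h₀.eq w (by linarith)).symm)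
    rw [h₁.gl (by linarith) (by linarith)] at e'
    have n1 := norm_smul_unit u1 (r := 1 - ‖y‖) (by linarith)
    have n2 := norm_smul_unit (h₁.sph.nf _ (norm_nr (x := w) (norm_pos_iff.1 (by linarith))))
      (r := 1 - ‖w‖) (by linarith)
    have := congrArg norm (h.disc₁.inj (mem_ball_zero_iff.2 (by linarith))
      (mem_ball_zero_iff.2 (by linarith)) e')
    constructor <;> linarith
  · rcases eq_or_ne z (i₂ 0) with rfl | z0
    · exact .inr ⟨0, by simp, rfl⟩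
    obtain ⟨χ, _, y, hc, rfl⟩ := hM₂.ch hz
    rcases h₀.tw.cov h₀.sph (h.emb₂.par χ y hc.par z0).m with ⟨x, hx, e⟩ | ⟨x, hx, e⟩
    · exact .inl ⟨x, hx, (β1 _ ⟨hz, z0⟩).symm.trans (congrArg β e)⟩
    · obtain ⟨u, t, hu, t0, t1, e1, e2⟩ := (h.glue _ (h₁.mem (x := x) (by linarith)) _ ⟨hz, z0⟩).1
        ((h₀.eq x (by linarith)).symm.trans e.symm)
      have c : 1 / 2 ≤ t := le_of_not_gt fun c => by
        linarith [h₁.nrm (by linarith) hu t0 c.le e1]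
      exact .inr ⟨_, by rw [norm_smul_unit hu (by linarith)]; linarith, e2⟩

end Pool.Agent.Lib.MP_c00cc5_gt
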