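import Pool.Agent.Lib.MP_c00cc5_gt.Dyn

set_option autoImplicit false
set_option maxSynthPendingDepth 3
set_option linter.unusedSectionVars false
set_option linter.unusedSimpArgs false

namespace Pool.Agent.Lib.MP_c00cc5_gt

/-! From the Morse data to a twisted sphere and a path of positively curved metrics. -/

open scoped ContDiff RealInnerProductSpace Topology
open Filter Set Real

section

variable {n : ℕ} {T : E n → ℝ}

theorem st_symm (r : ℝ) : st 3 1 (1 - r) = 1 - st 3 1 r := by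
  have := (smoothTransition.pos_denom (3 * r - 1)).ne'
  rw [st, st, show 3 * (1 - r) - 1 = 1 - (3 * r - 1) by ring, smoothTransition, smoothTransition,
    sub_sub_cancel, add_comm]
  field_simp
  ring

/-- the radial profile -/
noncomputable def prf (a r : ℝ) : ℝ := exp (st 3 1 r * (a - log (1 - r) - log r))

theorem prf_d {a r : ℝ} (ha : 0 ≤ a) (hr : r ∈ Ioo (0 : ℝ) 1) :
    ∃ d, 0 < d ∧ HasDerivAt (fun s => prf a s * s) d r := by
  have r1 : 0 < 1 - r := sub_pos.2 hr.2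
  refine ⟨_, ?_, ((((st_cd 3 1).differentiable (by simp) r).hasDerivAt.mul
    (((hasDerivAt_const r a).sub (((hasDerivAt_id r).const_sub 1).log r1.ne')).sub
    (hasDerivAt_log hr.1.ne'))).exp.mul (hasDerivAt_id r))⟩
  obtain ⟨s0, s1⟩ := st_mem 3 1 r
  have A : 0 ≤ deriv (st 3 1) r * (a - log (1 - r) - log r) * r :=
    mul_nonneg (mul_nonneg (st_d (by norm_num) _ _) (by
      linarith [log_nonpos r1.le (by linarith [hr.1]), log_nonpos hr.1.le hr.2.le])) hr.1.le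
  have B : 0 < st 3 1 r * (r / (1 - r)) + (1 - st 3 1 r) := by
    rcases s0.eq_or_lt with e | e
    · simp [← e]
    · linarith [mul_pos e (div_pos hr.1 r1)]
  refine (mul_pos (exp_pos (st 3 1 r * (a - log (1 - r) - log r)))
    (add_pos_of_nonneg_of_pos A B)).trans_eq ?_
  have := hr.1.ne'
  simp only [Pi.mul_apply, Pi.sub_apply, id]
  field_simp
  ring

/-- the radial reparametrisation of the unit ball -/
noncomputable def lam (T : E n → ℝ) (x : E n) : E n := prf (T x) ‖x‖ • x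

theorem lam_spec (hT : ∀ x, x ≠ 0 → ContDiffAt ℝ ∞ T x ∧ 0 ≤ T x)
    (hh : ∀ (r : ℝ) x, 0 < r → x ≠ 0 → T (r • x) = T x) :
    (∀ x, ‖x‖ < 1 → Sm (lam T) x ∧ Function.Injective (fderiv ℝ (lam T) x)) ∧
      InjOn (lam T) (Metric.ball 0 1) ∧ ∀ z, ∃ x, ‖x‖ < 1 ∧ lam T x = z := by
  have p0 : ∀ a r, 0 < prf a r := fun a r => exp_pos _
  have ray : ∀ u, ‖u‖ = 1 → ∀ r : ℝ, 0 < r → lam T (r • u) = (prf (T u) r * r) • u :=
    fun u hu r hr => by rw [lam, hh r u hr (ne_of_unit hu), norm_smul_unit hu hr.le, smul_smul]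
  have cρ : ∀ x, x ≠ 0 → ‖x‖ < 1 → ContDiffAt ℝ ∞ (fun z => prf (T z) ‖z‖) x := fun x x0 hx =>
    (((st_cd 3 1).contDiffAt.comp x (norm_cda x0)).mul ((((hT x x0).1.sub
      ((contDiffAt_const.sub (norm_cda x0)).log (sub_pos.2 hx).ne')).sub
      ((norm_cda x0).log (norm_ne_zero_iff.2 x0))))).exp
  have lo : ∀ a r, r ≤ 1 / 3 → prf a r = 1 := fun a r hr => by
    rw [prf, st_0 (by linarith), zero_mul, exp_zero]
  refine ⟨fun x hx => ?_, fun a ha b hb e => ?_, fun z => ?_⟩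
  · rcases eq_or_ne x 0 with rfl | x0
    · have e : id =ᶠ[𝓝 (0 : E n)] lam T := (continuous_norm.continuousAt.eventually
        (gt_mem_nhds (a := 1 / 3) (by simp))).mono fun z hz => by rw [lam, lo _ _ hz.le, one_smul, id]
      exact ⟨(Sm.of contDiff_id 0).congr e, by rw [← e.fderiv_eq, fderiv_id]; exact fun _ _ e => e⟩
    have s : Sm (lam T) x := ((eventually_ne_nhds x0).and (continuous_norm.continuousAt.eventually
      (gt_mem_nhds hx))).mono fun z hz => (cρ z hz.1 hz.2).smul contDiffAt_id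
    refine ⟨s, (injective_iff_map_eq_zero _).2 fun a ha => ?_⟩
    have r0 := norm_pos_iff.2 x0
    obtain ⟨d, d0, hd⟩ := prf_d (hT _ (ne_of_unit (norm_nr x0))).2 ⟨r0, hx⟩
    have e1 := (s.d.hasFDerivAt.comp_hasDerivAt_of_eq ‖x‖ ((hasDerivAt_id _).smul_const (nr x))
      (smul_nr x0).symm).unique ((hd.smul_const (nr x)).congr_of_eventuallyEq
      ((lt_mem_nhds r0).mono fun r hr => ray _ (norm_nr x0) r hr))
    have e2 := fd_smul (ϖ := fun z => z) (cda_d (cρ x x0 hx)) differentiableAt_id a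
    rw [show (fun z => prf (T z) ‖z‖ • z) = lam T from rfl, ha, fderiv_fun_id,
      ContinuousLinearMap.id_apply] at e2
    obtain ⟨c, rfl⟩ : ∃ c : ℝ, a = c • nr x := ⟨_, by
      rw [← inv_smul_smul₀ (p0 (T x) ‖x‖).ne' a, eq_neg_of_add_eq_zero_right e2.symm, ← neg_smul,
        ← smul_nr x0, smul_smul, smul_smul, smul_nr x0]⟩
    rw [one_smul] at e1
    rw [map_smul, e1, smul_eq_zero, smul_eq_zero, or_iff_right d0.ne'] at ha
    exact smul_eq_zero.2 ha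
  · have z : ∀ {a}, lam T a = 0 ↔ a = 0 := by simp [lam, (p0 _ _).ne']
    rcases eq_or_ne a 0 with rfl | a0
    · exact (z.1 (e.symm.trans (z.2 rfl))).symm
    have b0 : b ≠ 0 := fun h => a0 (z.1 (e.trans (z.2 h)))
    have e1 : nr a = nr b := by rw [← nr_pos (p0 (T a) ‖a‖) a, ← nr_pos (p0 (T b) ‖b‖) b]; exact congrArg nr e
    have u0 := ne_of_unit (norm_nr b0)
    rw [← smul_nr a0, ← smul_nr b0, e1] at e ⊢
    rw [ray _ (norm_nr b0) _ (norm_pos_iff.2 a0), ray _ (norm_nr b0) _ (norm_pos_iff.2 b0)] at e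
    congr 1
    refine (strictMonoOn_of_deriv_pos (f := fun s => prf (T (nr b)) s * s) (convex_Ioo 0 1)
      (fun r hr => ?_) fun r hr => ?_).injOn
      ⟨norm_pos_iff.2 a0, mem_ball_zero_iff.1 ha⟩ ⟨norm_pos_iff.2 b0, mem_ball_zero_iff.1 hb⟩
      (smul_left_injective ℝ u0 e)
    · exact (prf_d (hT _ u0).2 hr).choose_spec.2.continuousAt.continuousWithinAt
    · obtain ⟨d, d0, hd⟩ := prf_d (hT _ u0).2 (interior_subset hr)
      rwa [hd.deriv]
  · rcases eq_or_ne z 0 with rfl | z0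
    · exact ⟨0, by simp, by simp [lam]⟩
    have s0 := norm_pos_iff.2 z0
    have u0 := ne_of_unit (norm_nr z0)
    have a0 : 0 < min ‖z‖ (1 / 3) := lt_min s0 (by norm_num)
    have b1 : max (2 / 3) (1 - ‖z‖⁻¹) < 1 := max_lt (by norm_num) (by simpa using z0)
    have b0 := le_max_left (2 / 3) (1 - ‖z‖⁻¹)
    obtain ⟨r, hr, e⟩ := intermediate_value_Icc (a := min ‖z‖ (1 / 3)) (b := max (2 / 3) (1 - ‖z‖⁻¹))
      (by linarith [min_le_right ‖z‖ (1 / 3)]) (f := fun s => prf (T (nr z)) s * s)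
      (fun r hr => (prf_d (hT _ u0).2 ⟨a0.trans_le hr.1,
        hr.2.trans_lt b1⟩).choose_spec.2.continuousAt.continuousWithinAt) (show ‖z‖ ∈ _ from ⟨by
        rw [lo _ _ (min_le_right _ _), one_mul]; exact min_le_left _ _, by
        have b2 := le_max_right (2 / 3) (1 - ‖z‖⁻¹)
        generalize max (2 / 3) (1 - ‖z‖⁻¹) = b at *
        rw [prf, st_1 (by linarith), one_mul, exp_sub, exp_sub, exp_log (by linarith),
          exp_log (by linarith), div_mul_cancel₀ _ (by linarith), le_div_iff₀ (by linarith)]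
        have := mul_le_mul_of_nonneg_left (show 1 - b ≤ ‖z‖⁻¹ by linarith) s0.le
        rw [mul_inv_cancel₀ s0.ne'] at this
        exact this.trans (one_le_exp (hT _ u0).2)⟩)
    have r0 := a0.trans_le hr.1
    exact ⟨r • nr z, by rw [norm_smul_unit (norm_nr z0) r0.le]; exact hr.2.trans_lt b1, by
      rw [ray _ (norm_nr z0) r r0]; exact (congrArg (· • nr z) e).trans (smul_nr z0)⟩

end

variable {V : Type} [NormedAddCommGroup V] [InnerProductSpace ℝ V] [FiniteDimensional ℝ V]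
  {M : Set V} {K : Met V} {p q : V} {θ θ' : V → ℝ} {m : ℕ} {Ψ Ψ' : E (m + 1) → V}
  {τ τ' : E (m + 1) → E (m + 1)}

/-- the transition map -/
structure Tr (Ψ Ψ' : E (m + 1) → V) (τ : E (m + 1) → E (m + 1)) : Prop where
  cd : ∀ x, x ≠ 0 → ContDiffAt ℝ ∞ τ x
  eq : ∀ x, x ≠ 0 → Ψ' (τ x) = Ψ x
  ne : ∀ x, x ≠ 0 → τ x ≠ 0
  hom : ∀ (r : ℝ) x, 0 < r → x ≠ 0 → τ (r • x) = r⁻¹ • τ x
  big : ∀ u, ‖u‖ = 1 → 1 ≤ ‖τ u‖

theorem Glob.tr (g : Glob M θ Ψ Ψ') (g' : Glob M θ' Ψ' Ψ) (hM : Submfd (E (m + 1)) M) :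
    ∃ τ, Tr Ψ Ψ' τ := by
  choose! τ hτ using fun x (hx : x ≠ 0) => g'.sur _ (g.par x).m (g.inj.ne hx)
  refine ⟨τ, fun x hx => ?_, hτ, fun x hx e => g.ne x (by rw [← hτ x hx, e]),
    fun r x hr hx => g'.inj ?_, fun u hu => not_lt.1 fun e =>
      g.far u _ (by linarith) (by linarith) (hτ u (ne_of_unit hu)).symm⟩
  · obtain ⟨r, hr⟩ := (g'.par (τ x)).ch hM
    obtain ⟨t1, -, t3, -⟩ := hr.trans (g.par x) (hτ x hx).symm
    refine t1.cda.congr_of_eventuallyEq ?_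
    filter_upwards [t3, eventually_ne_nhds hx] with w w1 w2 using g'.inj ((hτ w w2).trans w1.symm)
  · rw [hτ _ (smul_ne_zero hr.ne' hx), g.hom x _ r hr (hτ x hx).symm]

theorem Tr.inv (t : Tr Ψ Ψ' τ) (t' : Tr Ψ' Ψ τ') (hi : Function.Injective Ψ) {x : E (m + 1)}
    (hx : x ≠ 0) {r : ℝ} (hr : 0 < r) : τ' (r • nr (τ x)) = (r⁻¹ * ‖τ x‖ * ‖x‖) • nr x := by
  have n := norm_pos_iff.2 (t.ne x hx)
  rw [nr, smul_smul, t'.hom _ _ (by positivity) (t.ne x hx),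
    hi ((t'.eq _ (t.ne x hx)).trans (t.eq x hx)), mul_smul _ ‖x‖, smul_nr hx, mul_inv, inv_inv]

theorem Tr.sph (t : Tr Ψ Ψ' τ) (t' : Tr Ψ' Ψ τ') (hi : Function.Injective Ψ)
    (hi' : Function.Injective Ψ') : SphDiff (fun x => nr (τ x)) fun x => nr (τ' x) := by
  have k : ∀ {Ψ Ψ' : E (m + 1) → V} {τ τ'}, Tr Ψ Ψ' τ → Tr Ψ' Ψ τ' → Function.Injective Ψ →
      ∀ u, ‖u‖ = 1 → nr (τ' (nr (τ u))) = u := fun t t' hi u hu => by
    have := t.inv t' hi (ne_of_unit hu) one_pos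
    rw [one_smul, nr_unit hu] at this
    rw [this, nr_smul hu (by simpa [hu] using t.ne u (ne_of_unit hu))]
  exact ⟨fun u hu => (nr_cda (t.ne u (ne_of_unit hu))).comp u (t.cd u (ne_of_unit hu)),
    fun u hu => (nr_cda (t'.ne u (ne_of_unit hu))).comp u (t'.cd u (ne_of_unit hu)),
    fun u hu => norm_nr (t.ne u (ne_of_unit hu)), fun u hu => norm_nr (t'.ne u (ne_of_unit hu)),
    k t t' hi, k t' t hi'⟩

theorem Tr.lam (t : Tr Ψ Ψ' τ) (g : Glob M θ Ψ Ψ') :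
    (∀ x, ‖x‖ < 1 → Par M (fun x => Ψ (lam (fun x => log ‖τ (nr x)‖) x)) x) ∧
    InjOn (fun x => Ψ (lam (fun x => log ‖τ (nr x)‖) x)) (Metric.ball 0 1) ∧
    range Ψ = (fun x => Ψ (lam (fun x => log ‖τ (nr x)‖) x)) '' Metric.ball 0 1 := by
  obtain ⟨l1, l2, l3⟩ := lam_spec (T := fun x => log ‖τ (nr x)‖) (fun x hx => by
    have u0 := ne_of_unit (norm_nr hx)
    exact ⟨((norm_cda (t.ne _ u0)).comp x ((t.cd _ u0).comp x (nr_cda hx))).log
      (norm_ne_zero_iff.2 (t.ne _ u0)), log_nonneg (t.big _ (norm_nr hx))⟩)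
    fun r x hr _ => by rw [nr_pos hr]
  refine ⟨fun x hx => (g.par _).comp (l1 x hx).1 (l1 x hx).2, g.inj.comp_injOn l2,
    subset_antisymm ?_ (by rintro _ ⟨x, -, rfl⟩; exact ⟨_, rfl⟩)⟩
  rintro _ ⟨z, rfl⟩
  obtain ⟨x, hx, rfl⟩ := l3 z
  exact ⟨x, mem_ball_zero_iff.2 hx, rfl⟩

theorem Tr.twisted (t : Tr Ψ Ψ' τ) (t' : Tr Ψ' Ψ τ') (g : Glob M θ Ψ Ψ') (g' : Glob M θ' Ψ' Ψ) :
    ∃ φ ψ, Twisted M (fun x => nr (τ x)) φ ψ := by
  obtain ⟨a1, a2, a3⟩ := t.lam g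
  obtain ⟨b1, b2, b3⟩ := t'.lam g'
  refine ⟨_, _, a1, b1, a2, b2, fun x hx => ?_, ?_, fun x x0 hx => ?_⟩
  · rw [← a3, ← b3]
    rcases eq_or_ne x (Ψ' 0) with rfl | e
    · exact Or.inr ⟨0, rfl⟩
    · exact Or.inl (g.sur x hx e)
  · rw [← b3]
    rintro ⟨z, e⟩
    exact g'.ne z (by simpa [MP_c00cc5_gt.lam] using e)
  · have r0 := norm_pos_iff.2 x0
    have r1 := sub_pos.2 hx
    have u1 := norm_nr x0
    have u0 := ne_of_unit u1
    have n0 := norm_pos_iff.2 (t.ne _ u0)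
    have v1 := norm_nr (t.ne _ u0)
    have e := t.inv t' g.inj u0 one_pos
    rw [one_smul, u1, inv_one, one_mul, mul_one, nr_unit u1] at e
    have p0 : 0 < prf (log ‖τ (nr x)‖) ‖x‖ := exp_pos _
    simp only [MP_c00cc5_gt.lam, nr_def]
    have e1 : τ (prf (log ‖τ (nr x)‖) ‖x‖ • x) =
        ((prf (log ‖τ (nr x)‖) ‖x‖ * ‖x‖)⁻¹ * ‖τ (nr x)‖) • nr (τ (nr x)) := by
      rw [mul_smul, smul_nr (t.ne _ u0), ← t.hom _ _ (mul_pos p0 r0) u0, mul_smul, smul_nr x0]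
    rw [nr_smul v1 r1, norm_smul_unit v1 r1.le, e, norm_smul_unit u1 n0.le,
      ← t.eq _ (smul_ne_zero p0.ne' x0), e1, smul_smul]
    congr 2
    rw [prf, prf, st_symm, sub_sub_cancel, sub_mul, one_mul, exp_sub, exp_sub, exp_sub, exp_log n0,
      exp_log r0, exp_log r1, sub_right_comm]
    field_simp

theorem Mor.pole (h : Mor m M K θ p q) (g : Glob M θ Ψ Ψ') (e : Ψ 0 = p) :
    (∀ x, ContDiffAt ℝ ∞ (pull K Ψ) x ∧ (∀ a b, pull K Ψ x a b = pull K Ψ x b a) ∧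
      ∀ a, a ≠ 0 → 0 < pull K Ψ x a a) ∧ (∀ x, ContDiffAt ℝ ∞ (fun z => θ (Ψ z)) x) ∧
    ∃ (P : E (m + 1) → E (m + 1)) (c : ℝ), (∀ x, x ≠ 0 → ContDiffAt ℝ ∞ P x ∧
      ∃ r : ℝ, 0 < r ∧ P x = r • nr x ∧ θ (Ψ (P x)) = c) ∧
      Join (fun _ => euc (m + 1)) (pull (pull K Ψ) P) := by
  have k := fun x => h.sK _ (g.par x).m
  have a : ∀ x, ContDiffAt ℝ ∞ (pull K Ψ) x ∧ (∀ a b, pull K Ψ x a b = pull K Ψ x b a) ∧
      ∀ a, a ≠ 0 → 0 < pull K Ψ x a a := fun x => ⟨pull_cda (k x).1 (g.par x).sm.cda (by simp),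
    fun a b => (k x).2.1 _ _, fun a ha => (k x).2.2 _ fun e =>
      ha ((g.par x).inj (e.trans (map_zero _).symm))⟩
  have b := fun x => (h.sθ _ (g.par x).m).comp x (g.par x).sm.cda
  exact ⟨a, b, MP_c00cc5_gt.pole (θ := fun z => θ (Ψ z)) (Eventually.of_forall a)
    (Eventually.of_forall b) (h.d0 (g.par 0) e) (h.nd₁ Ψ 0 (g.par 0) e)⟩

theorem Mor.twist (h : Mor m M K θ p q) : ∃ (f g : E (m + 1) → E (m + 1)) (k : ℝ → Met (E (m + 1)))
    (φ ψ : E (m + 1) → V), SphDiff f g ∧ Path (E m) f k ∧ Twisted M f φ ψ := by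
  obtain ⟨Ψ, Ψ', g, g', e, e'⟩ := h.glob
  obtain ⟨τ, t⟩ := g.tr g' h.sub
  obtain ⟨τ', t'⟩ := g'.tr g h.sub
  obtain ⟨φ, ψ, tw⟩ := t.twisted t' g g'
  have sd := t.sph t' g.inj g'.inj
  obtain ⟨a, b, P, c, p1, j⟩ := h.pole g e
  obtain ⟨-, -, P', c', p1', j'⟩ := h.symm.pole g' e'
  have n := fun x hx => ne_of_unit (norm_nr (t.ne x hx))
  have P0 : ∀ x, x ≠ 0 → P' x ≠ 0 := fun x hx => by
    obtain ⟨r, r0, r1, -⟩ := (p1' x hx).2
    exact r1 ▸ smul_ne_zero r0.ne' (ne_of_unit (norm_nr hx))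
  have q1 : ∀ x, x ≠ 0 → Ψ (τ' (P' (nr (τ x)))) = Ψ' (P' (nr (τ x))) := fun x hx =>
    t'.eq _ (P0 _ (n x hx))
  have q2 : ∀ x, x ≠ 0 → ∃ r ∈ Ioi (0 : ℝ), τ' (P' (nr (τ x))) = r • nr x ∧
      θ (Ψ (τ' (P' (nr (τ x))))) = -c' := fun x hx => by
    obtain ⟨r, r0, r1, r2⟩ := (p1' _ (n x hx)).2
    refine ⟨_, ?_, by rw [r1, nr_unit (norm_nr (t.ne x hx)), t.inv t' g.inj hx r0], by
      rw [q1 x hx, ← r2, neg_neg]⟩
    exact mul_pos (mul_pos (inv_pos.2 r0) (norm_pos_iff.2 (t.ne x hx))) (norm_pos_iff.2 hx)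
  obtain ⟨jm, cm⟩ := ray_join (I := Ioi 0) (K := fun z => pull K Ψ z.2)
    (θ := fun z => θ (Ψ z.2) - (c + z.1 * (-c' - c))) isOpen_Ioi (convex_Ioi 0) (fun r hr => hr)
    (fun s _ y _ => ⟨ContDiffAt.comp (g := pull K Ψ) (f := Prod.snd) (s, y) (a y).1 contDiffAt_snd,
      (a y).2⟩)
    (fun s _ y hy => ⟨((b y).comp (s, y) contDiffAt_snd).sub (contDiffAt_const.add
      (contDiffAt_fst.mul contDiffAt_const)), by
      simpa only [fderiv_sub_const] using g.rad y (norm_pos_iff.1 hy)⟩)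
    (fun s hs u hu => by
      obtain ⟨r, r0, r1, r2⟩ := (p1 u (ne_of_unit hu)).2
      obtain ⟨r', r0', r1', r2'⟩ := q2 u (ne_of_unit hu)
      rw [r1, nr_unit hu] at r2
      rw [r1', nr_unit hu] at r2'
      obtain ⟨w, w1, w2⟩ := intermediate_value_uIcc (a := r) (b := r')
        (f := fun w : ℝ => θ (Ψ (w • u))) (fun w _ => ((b _).continuousAt.comp_of_eq
          (f := fun w : ℝ => w • u) (by fun_prop) rfl).continuousWithinAt)
        (show c + s * (-c' - c) ∈ _ by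
          rw [r2, r2']
          exact (convex_uIcc (𝕜 := ℝ) c (-c')).add_smul_sub_mem left_mem_uIcc right_mem_uIcc hs)
      exact ⟨w, (lt_min r0 r0').trans_le w1.1, sub_eq_zero.2 w2⟩)
    (fun s _ σ y h1 h2 h3 h4 => h.lev Ψ σ y (c + s * (-c' - c)) (g.par _) h1 h2
      (e ▸ g.inj.ne (norm_pos_iff.1 h3)) (e' ▸ g.ne _) (h4.mono fun z hz => sub_eq_zero.1 hz))
    (P₀ := P) (P₁ := fun x => τ' (P' (nr (τ x))))
    (fun x hx => by simpa [sub_eq_zero] using (p1 x hx).2) fun x hx => by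
      simpa [add_eq_zero_iff_eq_neg] using q2 x hx
  obtain ⟨k, hk⟩ := Join.path (j.trans ((jm.congr fun u hu a b _ _ => by
    have u0 := ne_of_unit hu
    have d := cda_d (p1' _ (n u u0)).1
    rw [pull_comp K (g.par _).sm.d (cda_d (cm u u0).2),
      pull_congr K ((eventually_ne_nhds u0).mono q1),
      pull_comp _ (ψ := fun x => nr (τ x)) d (sd.d hu),
      pull_comp K (ψ := fun x => P' (nr (τ x))) (g'.par _).sm.d (d.comp u (sd.d hu))]).trans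
    (j'.pull sd).symm))
  exact ⟨_, _, k, φ, ψ, sd, hk, tw⟩

end Pool.Agent.Lib.MP_c00cc5_gt
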